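import Pool.Agent.Lib.MP_2b07f9_gt.Pt

/-!
Part IV, first half: the real algebra for `GoalN1`, `GoalN2`, `GoalLap`, `GoalN3`.
-/

set_option autoImplicit false

open Finset

namespace Bry.A1

/-- The identities of `Pt` with the ambient curvature `K` instead of `1`. -/
structure PtK (K s : ℝ) (l : Fin 3 → ℝ) (T : Fin 3 → Fin 3 → Fin 3 → ℝ)
    (H : Fin 3 → Fin 3 → Fin 3 → Fin 3 → ℝ) : Prop where
  T12 : ∀ k i j, T k i j = T i k j
  T23 : ∀ k i j, T k i j = T k j i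
  H23 : ∀ m k i j, H m k i j = H m i k j
  H34 : ∀ m k i j, H m k i j = H m k j i
  ric : ∀ m k i j, H m k i j - H k m i j
    = (l j - l i) * (K + l m * l k) * (dl m i * dl k j - dl m j * dl k i)
  tr : ∑ i, l i = 0
  trT : ∀ k, ∑ i, T k i i = 0
  trH : ∀ m k, ∑ i, H m k i i = 0
  nrm : ∑ i, l i * l i = s
  lT : ∀ k, ∑ i, l i * T k i i = 0
  lH : ∀ m k, ∑ i, l i * H m k i i + ∑ i, ∑ j, T m i j * T k i j = 0
  C1 : ∑ k, ∑ i, ∑ j, T k i j * T k i j = s * (s - 3 * K)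
  M : ∀ m, ∑ k, ∑ i, ∑ j, T k i j * H m k i j = 0
  K1 : ∑ m, ∑ k, ∑ i, ∑ j, H m k i j * H m k i j
      = (s - 9 * K) * ∑ k, ∑ i, ∑ j, T k i j * T k i j
        + 3 * ∑ k, ∑ i, ∑ j, l k * l k * (T k i j * T k i j)
        - 6 * ∑ k, ∑ i, ∑ j, l k * l i * (T k i j * T k i j)
  K2 : ∑ m, l m * ∑ k, ∑ i, ∑ j, H m k i j * H m k i j
      - 3 * ∑ k, ∑ i, ∑ j, ∑ m, ∑ n, T k i j * T k m n * H i j m n
      + (3 * (K + s)) * ∑ k, ∑ i, ∑ j, l k * (T k i j * T k i j)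
      + 6 * ∑ k, ∑ i, ∑ j, l k * l k * l i * (T k i j * T k i j)
      - 3 * ∑ k, ∑ i, ∑ j, l k * l k * l k * (T k i j * T k i j)
      - (∑ i, l i * l i * l i) * ∑ k, ∑ i, ∑ j, T k i j * T k i j = 0

variable {K s : ℝ} {l : Fin 3 → ℝ} {T : Fin 3 → Fin 3 → Fin 3 → ℝ}
    {H : Fin 3 → Fin 3 → Fin 3 → Fin 3 → ℝ}

/-- scaling -/
theorem scale (h : Pt s l T H) (c : ℝ) :
    PtK (c ^ 2) (c ^ 2 * s) (fun i => c * l i) (fun k i j => c ^ 2 * T k i j)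
      (fun m k i j => c ^ 3 * H m k i j) where
  T12 := fun k i j => by rw [h.T12]
  T23 := fun k i j => by rw [h.T23]
  H23 := fun m k i j => by rw [h.H23]
  H34 := fun m k i j => by rw [h.H34]
  ric := fun m k i j => by linear_combination c ^ 3 * h.ric m k i j
  tr := by rw [← Finset.mul_sum, h.tr, mul_zero]
  trT := fun k => by rw [← Finset.mul_sum, h.trT, mul_zero]
  trH := fun m k => by rw [← Finset.mul_sum, h.trH, mul_zero]
  nrm := by rw [← h.nrm, Finset.mul_sum]; exact Finset.sum_congr rfl fun i _ => by ring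
  lT := fun k => by
    have := h.lT k
    simp only [Fin.sum_univ_three] at this ⊢
    linear_combination c ^ 3 * this
  lH := fun m k => by
    have := h.lH m k
    simp only [Fin.sum_univ_three] at this ⊢
    linear_combination c ^ 4 * this
  C1 := by
    have := h.C1
    simp only [Fin.sum_univ_three] at this ⊢
    linear_combination c ^ 4 * this
  M := fun m => by
    have := h.M m
    simp only [Fin.sum_univ_three] at this ⊢
    linear_combination c ^ 5 * this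
  K1 := by
    have e : ∀ (a b : ℝ) (f : Fin 3 → Fin 3 → Fin 3 → ℝ) (g : Fin 3 → Fin 3 → Fin 3 → ℝ),
      (∀ k i j, g k i j = b * f k i j) →
      ∑ k, ∑ i, ∑ j, g k i j = b * ∑ k, ∑ i, ∑ j, f k i j := by
      intro a b f g hg
      simp only [hg, Finset.mul_sum]
    have e1 := e 0 (c ^ 4) (fun k i j => T k i j * T k i j)
      (fun k i j => c ^ 2 * T k i j * (c ^ 2 * T k i j)) (fun k i j => by ring)
    have e2 := e 0 (c ^ 6) (fun k i j => l k * l k * (T k i j * T k i j))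
      (fun k i j => c * l k * (c * l k) * (c ^ 2 * T k i j * (c ^ 2 * T k i j)))
      (fun k i j => by ring)
    have e3 := e 0 (c ^ 6) (fun k i j => l k * l i * (T k i j * T k i j))
      (fun k i j => c * l k * (c * l i) * (c ^ 2 * T k i j * (c ^ 2 * T k i j)))
      (fun k i j => by ring)
    have e4 : ∀ m, ∑ k, ∑ i, ∑ j, c ^ 3 * H m k i j * (c ^ 3 * H m k i j)
        = c ^ 6 * ∑ k, ∑ i, ∑ j, H m k i j * H m k i j := fun m =>
      e 0 (c ^ 6) (fun k i j => H m k i j * H m k i j)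
      (fun k i j => c ^ 3 * H m k i j * (c ^ 3 * H m k i j)) (fun k i j => by ring)
    rw [e1, e2, e3, Finset.sum_congr rfl (fun m _ => e4 m), ← Finset.mul_sum, h.K1]
    ring
  K2 := by
    have e : ∀ (a b : ℝ) (f : Fin 3 → Fin 3 → Fin 3 → ℝ) (g : Fin 3 → Fin 3 → Fin 3 → ℝ),
      (∀ k i j, g k i j = b * f k i j) →
      ∑ k, ∑ i, ∑ j, g k i j = b * ∑ k, ∑ i, ∑ j, f k i j := by
      intro a b f g hg
      simp only [hg, Finset.mul_sum]
    have e1 := e 0 (c ^ 4) (fun k i j => T k i j * T k i j)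
      (fun k i j => c ^ 2 * T k i j * (c ^ 2 * T k i j)) (fun k i j => by ring)
    have e2 := e 0 (c ^ 5) (fun k i j => l k * (T k i j * T k i j))
      (fun k i j => c * l k * (c ^ 2 * T k i j * (c ^ 2 * T k i j)))
      (fun k i j => by ring)
    have e3 := e 0 (c ^ 7) (fun k i j => l k * l k * l i * (T k i j * T k i j))
      (fun k i j => c * l k * (c * l k) * (c * l i) * (c ^ 2 * T k i j * (c ^ 2 * T k i j)))
      (fun k i j => by ring)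
    have e5 := e 0 (c ^ 7) (fun k i j => l k * l k * l k * (T k i j * T k i j))
      (fun k i j => c * l k * (c * l k) * (c * l k) * (c ^ 2 * T k i j * (c ^ 2 * T k i j)))
      (fun k i j => by ring)
    have e4 : ∀ m, c * l m * ∑ k, ∑ i, ∑ j, c ^ 3 * H m k i j * (c ^ 3 * H m k i j)
        = c ^ 7 * (l m * ∑ k, ∑ i, ∑ j, H m k i j * H m k i j) := fun m => by
      rw [e 0 (c ^ 6) (fun k i j => H m k i j * H m k i j)
      (fun k i j => c ^ 3 * H m k i j * (c ^ 3 * H m k i j)) (fun k i j => by ring)]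
      ring
    have e6 : ∑ k, ∑ i, ∑ j, ∑ m, ∑ n, c ^ 2 * T k i j * (c ^ 2 * T k m n) * (c ^ 3 * H i j m n)
        = c ^ 7 * ∑ k, ∑ i, ∑ j, ∑ m, ∑ n, T k i j * T k m n * H i j m n := by
      simp only [Finset.mul_sum]
      refine Finset.sum_congr rfl fun k _ => Finset.sum_congr rfl fun i _ =>
        Finset.sum_congr rfl fun j _ => Finset.sum_congr rfl fun m _ =>
        Finset.sum_congr rfl fun n _ => by ring
    have e7 : ∑ i, c * l i * (c * l i) * (c * l i) = c ^ 3 * ∑ i, l i * l i * l i := by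
      simp only [Finset.mul_sum]
      exact Finset.sum_congr rfl fun i _ => by ring
    rw [e1, e2, e3, e5, e6, e7, Finset.sum_congr rfl (fun m _ => e4 m), ← Finset.mul_sum]
    linear_combination c ^ 7 * h.K2

/-- unscaled version -/
theorem toK (h : Pt s l T H) : PtK 1 s l T H where
  T12 := h.T12
  T23 := h.T23
  H23 := h.H23
  H34 := h.H34
  ric := h.ric
  tr := h.tr
  trT := h.trT
  trH := h.trH
  nrm := h.nrm
  lT := h.lT
  lH := h.lH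
  C1 := by rw [h.C1]; ring
  M := h.M
  K1 := by rw [h.K1]; ring
  K2 := by have := h.K2; linear_combination this

/-- differences of principal curvatures -/
def dd (l : Fin 3 → ℝ) : Fin 3 → ℝ := ![l 1 - l 2, l 2 - l 0, l 0 - l 1]

theorem decomp (l w : Fin 3 → ℝ) (s : ℝ) (hs : s ≠ 0) (hl : ∑ i, l i = 0)
    (hn : ∑ i, l i * l i = s) (hw : ∑ i, w i = 0) (i : Fin 3) :
    w i = (∑ j, l j * w j) * l i / s + (∑ j, dd l j * w j) / (3 * s) * dd l i := by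
  simp only [Fin.sum_univ_three] at *
  have h2 : l 2 = -l 0 - l 1 := by linarith
  have w2 : w 2 = -w 0 - w 1 := by linarith
  have key : 3 * s * w i = 3 * ((l 0 * w 0 + l 1 * w 1 + l 2 * w 2) * l i)
      + (dd l 0 * w 0 + dd l 1 * w 1 + dd l 2 * w 2) * dd l i := by
    rw [← hn]
    fin_cases i <;> simp [dd, h2, w2] <;> ring
  field_simp
  linear_combination key

/-- symmetric 3-tensors of the form `T_kii = d_i t_k`, `T_012 = u`. -/
def Tf (d t : Fin 3 → ℝ) (u : ℝ) (k i j : Fin 3) : ℝ :=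
  if i = j then d i * t k else if k = i then d i * t j else if k = j then d j * t i else u

/-- diagonal entries of `H`. -/
noncomputable def Gf (l d : Fin 3 → ℝ) (s : ℝ) (q x : Fin 3 → Fin 3 → ℝ) (m k i : Fin 3) : ℝ :=
  -(q m k) * l i / s + x m k * d i

/-- the second derivatives. -/
noncomputable def Hf (l d : Fin 3 → ℝ) (s : ℝ) (q x : Fin 3 → Fin 3 → ℝ) (m k i j : Fin 3) : ℝ :=
  if i = j then Gf l d s q x m k i else if k = i then Gf l d s q x m j i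
  else if k = j then Gf l d s q x m i j
  else if m = k then Gf l d s q x i j m else if m = i then Gf l d s q x k j m
  else Gf l d s q x k i m

theorem PtK.T_eq (h : PtK K s l T H) (hs : s ≠ 0) :
    ∃ (t : Fin 3 → ℝ) (u : ℝ), ∀ k i j, T k i j = Tf (dd l) t u k i j := by
  refine ⟨fun k => (∑ j, dd l j * T k j j) / (3 * s), T 0 1 2, fun k i j => ?_⟩
  have key : ∀ k i, T k i i = dd l i * ((∑ j, dd l j * T k j j) / (3 * s)) := fun k i => by
    have := decomp l (fun i => T k i i) s hs h.tr h.nrm (h.trT k) i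
    simp only [h.lT k] at this
    rw [this]; ring
  unfold Tf
  split_ifs with h1 h2 h3
  · subst h1; exact key k i
  · subst h2; rw [h.T23, h.T12]; exact key j k
  · subst h3; rw [h.T12]; exact key i k
  · have : ∀ k i j : Fin 3, i ≠ j → k ≠ i → k ≠ j → T k i j = T 0 1 2 := by
      intro k i j h1 h2 h3
      fin_cases k <;> fin_cases i <;> fin_cases j <;> simp at h1 h2 h3 ⊢
      · rw [h.T23]
      · rw [h.T12]
      · rw [h.T23, h.T12]
      · rw [h.T12, h.T23]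
      · rw [h.T12, h.T23, h.T12]
    exact this k i j h1 h2 h3

theorem PtK.H_eq (h : PtK K s l T H) (hs : s ≠ 0) :
    ∃ x : Fin 3 → Fin 3 → ℝ, (∀ m k, x m k = x k m) ∧
      ∀ m k i j, H m k i j = Hf l (dd l) s (fun m k => ∑ i, ∑ j, T m i j * T k i j) x m k i j := by
  refine ⟨fun m k => (∑ j, dd l j * H m k j j) / (3 * s), fun m k => ?_, fun m k i j => ?_⟩
  · have : ∀ j, H m k j j = H k m j j := fun j => by
      have := h.ric m k j j
      simp at this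
      linarith
    simp only [this]
  have key : ∀ m k i, H m k i i = Gf l (dd l) s (fun m k => ∑ i, ∑ j, T m i j * T k i j)
      (fun m k => (∑ j, dd l j * H m k j j) / (3 * s)) m k i := fun m k i => by
    have h1 := decomp l (fun i => H m k i i) s hs h.tr h.nrm (h.trH m k) i
    have h2 : ∑ j, l j * H m k j j = -∑ i, ∑ j, T m i j * T k i j := by
      linarith [h.lH m k]
    rw [h2] at h1
    exact h1
  unfold Hf
  split_ifs with h1 h2 h3 h4 h5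
  · subst h1; exact key m k i
  · subst h2; rw [h.H34, h.H23]; exact key m j k
  · subst h3; rw [h.H23]; exact key m i k
  · subst h4
    have e := h.ric m i m j
    have e1 : dl (R := ℝ) i j = 0 := if_neg h1
    have e2 : dl (R := ℝ) m j = 0 := if_neg h3
    rw [e1, e2] at e
    rw [h.H23, ← key i j m, ← h.H23 i m j m, ← h.H34 i m m j]
    linear_combination e
  · subst h5
    have e := h.ric m k m j
    have e1 : dl (R := ℝ) k j = 0 := if_neg h3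
    have e2 : dl (R := ℝ) m j = 0 := if_neg h1
    rw [e1, e2] at e
    rw [← key k j m, ← h.H23 k m j m, ← h.H34 k m m j]
    linear_combination e
  · have h6 : m = j := by
      fin_cases m <;> fin_cases k <;> fin_cases i <;> fin_cases j <;>
        simp_all
    subst h6
    have e := h.ric m k i m
    have e1 : dl (R := ℝ) k i = 0 := if_neg h2
    have e2 : dl (R := ℝ) m i = 0 := if_neg h5
    have e3 : dl (R := ℝ) k m = 0 := if_neg h3
    rw [e1, e2] at e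
    rw [← key k i m, ← h.H23 k m i m]
    linear_combination e


theorem n1_fin (A B E K a b c d : ℝ) (hA : 0 ≤ A) (hB : 0 ≤ B) (hE : 0 ≤ E) (hK : 0 < K)
    (hK2 : K < 2) (hKe : K = (6 - 6 * A - 9 * B - E) / 3)
    (key : 72 * a ^ 2 + 36 * b ^ 2 + 36 * c ^ 2 + 72 * d ^ 2
      + (378 * A ^ 2 + 549 * A * B + 61 * A * E + 1188 * A
        + 324 * (3 * B + E / 3) - 97 / 2 * (3 * B + E / 3) ^ 2) = 0) : False := by
  have h1 : 0 ≤ 72 * a ^ 2 + 36 * b ^ 2 + 36 * c ^ 2 + 72 * d ^ 2 := by positivity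
  have h2 : 0 ≤ 378 * A ^ 2 + 549 * A * B + 61 * A * E := by positivity
  have h3 : 0 ≤ (3 * B + E / 3) * (2 - (3 * B + E / 3)) :=
    mul_nonneg (by positivity) (by linarith)
  nlinarith

theorem n1_core (h : PtK K 6 ![1, 1, -2] T H) (hK : 0 < K) (hK2 : K < 2) : False := by
  obtain ⟨t, u, hT⟩ := h.T_eq (by norm_num)
  obtain ⟨x, hx, hH⟩ := h.H_eq (by norm_num)
  set q : Fin 3 → Fin 3 → ℝ := fun m k => ∑ i, ∑ j, T m i j * T k i j with hq
  have hd : dd ![1, 1, -2] = ![(3:ℝ), -3, 0] := by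
    ext i; fin_cases i <;> simp [dd] <;> norm_num
  rw [hd] at hT hH
  have q' : ∀ m k, q m k = ∑ i, ∑ j, T m i j * T k i j := fun m k => rfl
  clear_value q
  have k2 := h.K2
  have c1 := h.C1
  have r01 := h.ric 0 1 0 1
  have r02 := h.ric 0 2 0 2
  have r12 := h.ric 1 2 1 2
  have q00 := q' 0 0
  have q01 := q' 0 1
  have q02 := q' 0 2
  have q10 := q' 1 0
  have q11 := q' 1 1
  have q12 := q' 1 2
  have q20 := q' 2 0
  have q21 := q' 2 1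
  have q22 := q' 2 2
  simp only [hT, hH, Fin.sum_univ_three] at k2 c1 r01 r02 r12 q00 q01 q02 q10 q11 q12 q20 q21 q22
  simp [Tf, Hf, Gf, hx 1 0, hx 2 0, hx 2 1, dl] at k2 c1 r01 r02 r12 q00 q01 q02 q10 q11 q12 q20 q21 q22
  have hKe : K = (6 - 6 * (t 0 ^ 2 + t 1 ^ 2) - 9 * t 2 ^ 2 - u ^ 2) / 3 := by
    linear_combination c1 / 18
  have y2 : x 2 2 = 0 := by
    rw [q00, q22] at r02
    linear_combination - r02 / 3 + hKe
  have y1 : x 1 1 = - x 0 0 := by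
    rw [q00, q11] at r01
    linear_combination - r01 / 3
  rw [q00, q01, q02, q10, q11, q12, q20, q21, q22, y1, y2] at k2
  have key : 72 * (x 0 1 - 3 / 2 * t 2 * u) ^ 2 + 36 * (x 0 2 + (3 * t 0 * t 2 + t 1 * u) / 6) ^ 2
      + 36 * (x 1 2 + (t 0 * u - 3 * t 1 * t 2) / 6) ^ 2
      + 72 * (x 0 0 + (72 * (t 0 ^ 2 + t 1 ^ 2) - 252 * t 2 ^ 2 + 44 * u ^ 2) / 144) ^ 2
      + (378 * (t 0 ^ 2 + t 1 ^ 2) ^ 2 + 549 * (t 0 ^ 2 + t 1 ^ 2) * t 2 ^ 2
        + 61 * (t 0 ^ 2 + t 1 ^ 2) * u ^ 2 + 1188 * (t 0 ^ 2 + t 1 ^ 2)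
        + 324 * (3 * t 2 ^ 2 + u ^ 2 / 3) - 97 / 2 * (3 * t 2 ^ 2 + u ^ 2 / 3) ^ 2) = 0 := by
    linear_combination k2 - 108 * (t 0 ^ 2 + t 1 ^ 2) * hKe
  exact n1_fin (t 0 ^ 2 + t 1 ^ 2) (t 2 ^ 2) (u ^ 2) K _ _ _ _ (by positivity) (by positivity)
    (by positivity) hK hK2 hKe key

theorem n1_core' (h : PtK K 6 ![-2, 1, 1] T H) (hK : 0 < K) (hK2 : K < 2) : False := by
  obtain ⟨t, u, hT⟩ := h.T_eq (by norm_num)
  obtain ⟨x, hx, hH⟩ := h.H_eq (by norm_num)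
  set q : Fin 3 → Fin 3 → ℝ := fun m k => ∑ i, ∑ j, T m i j * T k i j with hq
  have hd : dd ![-2, 1, 1] = ![(0:ℝ), 3, -3] := by
    ext i; fin_cases i <;> simp [dd] <;> norm_num
  rw [hd] at hT hH
  have q' : ∀ m k, q m k = ∑ i, ∑ j, T m i j * T k i j := fun m k => rfl
  clear_value q
  have k2 := h.K2
  have c1 := h.C1
  have r01 := h.ric 0 1 0 1
  have r02 := h.ric 0 2 0 2
  have r12 := h.ric 1 2 1 2
  have q00 := q' 0 0
  have q01 := q' 0 1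
  have q02 := q' 0 2
  have q10 := q' 1 0
  have q11 := q' 1 1
  have q12 := q' 1 2
  have q20 := q' 2 0
  have q21 := q' 2 1
  have q22 := q' 2 2
  simp only [hT, hH, Fin.sum_univ_three] at k2 c1 r01 r02 r12 q00 q01 q02 q10 q11 q12 q20 q21 q22
  simp [Tf, Hf, Gf, hx 1 0, hx 2 0, hx 2 1, dl] at k2 c1 r01 r02 r12 q00 q01 q02 q10 q11 q12 q20 q21 q22
  have hKe : K = (6 - 6 * (t 1 ^ 2 + t 2 ^ 2) - 9 * t 0 ^ 2 - u ^ 2) / 3 := by
    linear_combination c1 / 18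
  have y2 : x 0 0 = 0 := by
    rw [q00, q22] at r02
    linear_combination - r02 / 3 - hKe
  have y1 : x 1 1 = - x 2 2 := by
    rw [q22, q11] at r12
    linear_combination - r12 / 3
  rw [q00, q01, q02, q10, q11, q12, q20, q21, q22, y1, y2] at k2
  have key : 72 * (x 1 2 - 3 / 2 * t 0 * u) ^ 2 + 36 * (x 0 2 - (3 * t 0 * t 2 - t 1 * u) / 6) ^ 2
      + 36 * (x 0 1 + (t 2 * u + 3 * t 0 * t 1) / 6) ^ 2
      + 72 * (x 2 2 - (72 * (t 1 ^ 2 + t 2 ^ 2) - 252 * t 0 ^ 2 + 44 * u ^ 2) / 144) ^ 2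
      + (378 * (t 1 ^ 2 + t 2 ^ 2) ^ 2 + 549 * (t 1 ^ 2 + t 2 ^ 2) * t 0 ^ 2
        + 61 * (t 1 ^ 2 + t 2 ^ 2) * u ^ 2 + 1188 * (t 1 ^ 2 + t 2 ^ 2)
        + 324 * (3 * t 0 ^ 2 + u ^ 2 / 3) - 97 / 2 * (3 * t 0 ^ 2 + u ^ 2 / 3) ^ 2) = 0 := by
    linear_combination k2 - 108 * (t 1 ^ 2 + t 2 ^ 2) * hKe
  exact n1_fin (t 1 ^ 2 + t 2 ^ 2) (t 0 ^ 2) (u ^ 2) K _ _ _ _ (by positivity) (by positivity)
    (by positivity) hK hK2 hKe key

theorem goalN1 : Bry.GoalN1 := by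
  intro s l T H hs h h01 h12
  have tr := h.tr
  have nrm := h.nrm
  simp only [Fin.sum_univ_three] at tr nrm
  constructor
  · by_contra hc
    have e : l 1 = l 0 := le_antisymm h01 (not_lt.mp hc)
    have e2 : l 2 = -2 * l 0 := by linarith
    have hs6 : s = 6 * l 0 ^ 2 := by rw [← nrm, e, e2]; ring
    have hl0 : l 0 ≠ 0 := by rintro h0; rw [h0] at hs6; norm_num at hs6; linarith
    have hk := scale h (l 0)⁻¹
    have e3 : (fun i => (l 0)⁻¹ * l i) = ![1, 1, -2] := by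
      ext i; fin_cases i <;> simp [e, e2, hl0]
      field_simp
    have e4 : (l 0)⁻¹ ^ 2 * s = 6 := by rw [hs6]; field_simp
    rw [e3, e4] at hk
    refine n1_core hk (by positivity) ?_
    have : (l 0)⁻¹ ^ 2 = 6 / s := by rw [hs6]; field_simp
    rw [this, div_lt_iff₀ (by linarith)]
    linarith
  · by_contra hc
    have e : l 1 = l 2 := le_antisymm (not_lt.mp hc) h12
    have e2 : l 0 = -2 * l 2 := by linarith
    have hs6 : s = 6 * l 2 ^ 2 := by rw [← nrm, e, e2]; ring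
    have hl0 : l 2 ≠ 0 := by rintro h0; rw [h0] at hs6; norm_num at hs6; linarith
    have hk := scale h (l 2)⁻¹
    have e3 : (fun i => (l 2)⁻¹ * l i) = ![-2, 1, 1] := by
      ext i; fin_cases i <;> simp [e, e2, hl0]
      field_simp
    have e4 : (l 2)⁻¹ ^ 2 * s = 6 := by rw [hs6]; field_simp
    rw [e3, e4] at hk
    refine n1_core' hk (by positivity) ?_
    have : (l 2)⁻¹ ^ 2 = 6 / s := by rw [hs6]; field_simp
    rw [this, div_lt_iff₀ (by linarith)]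
    linarith


theorem n2_core (h : PtK K 2 ![1, 0, -1] T H) (hK : 1 / 3 < K) : False := by
  obtain ⟨t, u, hT⟩ := h.T_eq (by norm_num)
  obtain ⟨x, hx, hH⟩ := h.H_eq (by norm_num)
  set q : Fin 3 → Fin 3 → ℝ := fun m k => ∑ i, ∑ j, T m i j * T k i j with hq
  have hd : dd ![1, 0, -1] = ![(1:ℝ), -2, 1] := by
    ext i; fin_cases i <;> simp [dd] <;> norm_num
  rw [hd] at hT hH
  have q' : ∀ m k, q m k = ∑ i, ∑ j, T m i j * T k i j := fun m k => rfl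
  clear_value q
  have k1 := h.K1
  have c1 := h.C1
  have r01 := h.ric 0 1 0 1
  have r02 := h.ric 0 2 0 2
  have r12 := h.ric 1 2 1 2
  have q00 := q' 0 0
  have q01 := q' 0 1
  have q02 := q' 0 2
  have q10 := q' 1 0
  have q11 := q' 1 1
  have q12 := q' 1 2
  have q20 := q' 2 0
  have q21 := q' 2 1
  have q22 := q' 2 2
  simp only [hT, hH, Fin.sum_univ_three] at k1 c1 r01 r02 r12 q00 q01 q02 q10 q11 q12 q20 q21 q22
  simp [Tf, Hf, Gf, hx 1 0, hx 2 0, hx 2 1, dl] at k1 c1 r01 r02 r12 q00 q01 q02 q10 q11 q12 q20 q21 q22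
  replace q00 : q 0 0 = 6 * t 0 ^ 2 + 2 * t 1 ^ 2 + 2 * t 2 ^ 2 + 2 * u ^ 2 := by rw [q00]; ring
  replace q11 : q 1 1 = 8 * t 0 ^ 2 + 6 * t 1 ^ 2 + 8 * t 2 ^ 2 + 2 * u ^ 2 := by rw [q11]; ring
  replace q22 : q 2 2 = 2 * t 0 ^ 2 + 2 * t 1 ^ 2 + 6 * t 2 ^ 2 + 2 * u ^ 2 := by rw [q22]; ring
  replace q01 : q 0 1 = 2 * t 0 * t 1 - 2 * t 2 * u := by rw [q01]; ring
  replace q10 : q 1 0 = 2 * t 0 * t 1 - 2 * t 2 * u := by rw [q10]; ring
  replace q02 : q 0 2 = 8 * t 0 * t 2 + 4 * t 1 * u := by rw [q02]; ring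
  replace q20 : q 2 0 = 8 * t 0 * t 2 + 4 * t 1 * u := by rw [q20]; ring
  replace q12 : q 1 2 = 2 * t 1 * t 2 - 2 * t 0 * u := by rw [q12]; ring
  replace q21 : q 2 1 = 2 * t 1 * t 2 - 2 * t 0 * u := by rw [q21]; ring
  have hKe : K = (2 - 8 * t 0 ^ 2 - 5 * t 1 ^ 2 - 8 * t 2 ^ 2 - 3 * u ^ 2) / 3 := by
    linear_combination c1 / 6
  have y0 : x 0 0 = (4 * t 0 ^ 2 + 3 * t 1 ^ 2 + 4 * t 2 ^ 2 + u ^ 2 + K - x 1 1) / 2 := by
    rw [q11] at r01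
    linear_combination - r01 / 2
  have y2 : x 2 2 = (- (4 * t 0 ^ 2 + 3 * t 1 ^ 2 + 4 * t 2 ^ 2 + u ^ 2 + K) - x 1 1) / 2 := by
    rw [q11] at r12
    linear_combination r12 / 2
  rw [q00, q01, q02, q10, q11, q12, q20, q21, q22, y0, y2, hKe] at k1
  have key : 32 * (x 0 1 + (t 0 * t 1 - t 2 * u) / 4) ^ 2 + 56 * (x 0 2) ^ 2
      + 32 * (x 1 2 + (t 0 * u - t 1 * t 2) / 4) ^ 2
      + 18 * (x 1 1 + (t 2 ^ 2 - t 0 ^ 2) / 9) ^ 2 + 36 * (t 0 * t 2 + t 1 * u) ^ 2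
      + 32 / 9 * (1 - (8 * t 0 ^ 2 + 5 * t 1 ^ 2 + 8 * t 2 ^ 2 + 3 * u ^ 2)) ^ 2
      + (1 - (8 * t 0 ^ 2 + 5 * t 1 ^ 2 + 8 * t 2 ^ 2 + 3 * u ^ 2)) *
        (64 / 9 * (8 * t 0 ^ 2 + 5 * t 1 ^ 2 + 8 * t 2 ^ 2 + 3 * u ^ 2)
          + 536 / 9 * (t 0 ^ 2 + t 2 ^ 2) + 512 / 9 * t 1 ^ 2 + 8 / 3 * u ^ 2)
      + (7126 / 9 * t 0 ^ 2 * t 1 ^ 2 + 9200 / 9 * t 0 ^ 2 * t 2 ^ 2 + 182 * t 0 ^ 2 * u ^ 2
        + 1442 / 3 * t 0 ^ 4 + 7126 / 9 * t 1 ^ 2 * t 2 ^ 2 + 164 * t 1 ^ 2 * u ^ 2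
        + 2744 / 9 * t 1 ^ 4 + 182 * t 2 ^ 2 * u ^ 2 + 1442 / 3 * t 2 ^ 4) = 0 := by
    linear_combination k1
  have hP : 0 < 1 - (8 * t 0 ^ 2 + 5 * t 1 ^ 2 + 8 * t 2 ^ 2 + 3 * u ^ 2) := by
    linarith
  have p1 := mul_nonneg hP.le (show (0:ℝ) ≤
    (64 / 9 * (8 * t 0 ^ 2 + 5 * t 1 ^ 2 + 8 * t 2 ^ 2 + 3 * u ^ 2)
          + 536 / 9 * (t 0 ^ 2 + t 2 ^ 2) + 512 / 9 * t 1 ^ 2 + 8 / 3 * u ^ 2) by positivity)
  have p2 : 0 < (1 - (8 * t 0 ^ 2 + 5 * t 1 ^ 2 + 8 * t 2 ^ 2 + 3 * u ^ 2)) ^ 2 := by positivity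
  have p3 : 0 ≤ (7126 / 9 * t 0 ^ 2 * t 1 ^ 2 + 9200 / 9 * t 0 ^ 2 * t 2 ^ 2 + 182 * t 0 ^ 2 * u ^ 2
        + 1442 / 3 * t 0 ^ 4 + 7126 / 9 * t 1 ^ 2 * t 2 ^ 2 + 164 * t 1 ^ 2 * u ^ 2
        + 2744 / 9 * t 1 ^ 4 + 182 * t 2 ^ 2 * u ^ 2 + 1442 / 3 * t 2 ^ 4) := by positivity
  have p4 : 0 ≤ 32 * (x 0 1 + (t 0 * t 1 - t 2 * u) / 4) ^ 2 + 56 * (x 0 2) ^ 2
      + 32 * (x 1 2 + (t 0 * u - t 1 * t 2) / 4) ^ 2
      + 18 * (x 1 1 + (t 2 ^ 2 - t 0 ^ 2) / 9) ^ 2 + 36 * (t 0 * t 2 + t 1 * u) ^ 2 := by positivity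
  linarith

theorem goalN2 : Bry.GoalN2 := by
  intro s l T H hs hs6 h h01 h12 hphi
  have tr := h.tr
  have nrm := h.nrm
  simp only [Fin.sum_univ_three] at tr nrm hphi
  have e0 : l 0 = -l 1 - l 2 := by linarith
  have h3 : l 0 * l 1 * l 2 = 0 := by
    have : l 0 * l 0 * l 0 + l 1 * l 1 * l 1 + l 2 * l 2 * l 2 = 3 * (l 0 * l 1 * l 2) := by
      rw [e0]; ring
    linarith
  have hl0 : 0 < l 0 := by linarith
  have hl2 : l 2 < 0 := by linarith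
  have hl1 : l 1 = 0 := by
    rcases mul_eq_zero.mp h3 with h4 | h4
    · rcases mul_eq_zero.mp h4 with h5 | h5
      · exact absurd h5 hl0.ne'
      · exact h5
    · exact absurd h4 hl2.ne
  have e2 : l 2 = -l 0 := by linarith
  have hs2 : s = 2 * l 0 ^ 2 := by rw [← nrm, hl1, e2]; ring
  have hk := scale h (l 0)⁻¹
  have e3 : (fun i => (l 0)⁻¹ * l i) = ![1, 0, -1] := by
    ext i; fin_cases i <;> simp [hl1, e2, hl0.ne']
  have e4 : (l 0)⁻¹ ^ 2 * s = 2 := by rw [hs2]; field_simp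
  rw [e3, e4] at hk
  refine n2_core hk ?_
  have : (l 0)⁻¹ ^ 2 = 2 / s := by rw [hs2]; field_simp
  rw [this, lt_div_iff₀ (by linarith)]
  linarith


theorem n3_alg1 (s l0 l1 l2 d0 d1 d2 x0 x1 x2 : ℝ) (hd0 : d0 = l1 - l2) (hd1 : d1 = l2 - l0)
    (hd2 : d2 = l0 - l1) (tr : l0 + l1 + l2 = 0) (nrm : l0 * l0 + l1 * l1 + l2 * l2 = s)
    (hs : s ≠ 0)
    (r01 : -((s - 3) / 3) * l1 + x0 * d1 - (-((s - 3) / 3) * l0 + x1 * d0)
      = (l1 - l0) * (1 + l0 * l1))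
    (r02 : -((s - 3) / 3) * l2 + x0 * d2 - (-((s - 3) / 3) * l0 + x2 * d0)
      = (l2 - l0) * (1 + l0 * l2))
    (r12 : -((s - 3) / 3) * l2 + x1 * d2 - (-((s - 3) / 3) * l1 + x2 * d1)
      = (l2 - l1) * (1 + l1 * l2)) :
    True ∧ (3 * s * x0 = (d0 * x0 + d1 * x1 + d2 * x2) * d0 - d0 * d1 * d2 * l0 ∧
    3 * s * x1 = (d0 * x0 + d1 * x1 + d2 * x2) * d1 - d0 * d1 * d2 * l1 ∧
    3 * s * x2 = (d0 * x0 + d1 * x1 + d2 * x2) * d2 - d0 * d1 * d2 * l2) := by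
  have h2 : l2 = -l0 - l1 := by linarith
  have hn : d0 ^ 2 + d1 ^ 2 + d2 ^ 2 = 3 * s := by
    rw [← nrm, hd0, hd1, hd2, h2]; ring
  refine ⟨trivial, ?_, ?_, ?_⟩
  · have e1 : x0 * d1 - x1 * d0 = (l1 - l0) * (l0 * l1 + s / 3) := by linear_combination r01
    have e2 : x0 * d2 - x2 * d0 = (l2 - l0) * (l0 * l2 + s / 3) := by linear_combination r02
    rw [← hn]
    have : d1 * ((l1 - l0) * (l0 * l1 + s / 3)) + d2 * ((l2 - l0) * (l0 * l2 + s / 3))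
      = - (d0 * d1 * d2 * l0) := by rw [hd0, hd1, hd2]; ring
    linear_combination d1 * e1 + d2 * e2 + this
  · have e1 : x0 * d1 - x1 * d0 = (l1 - l0) * (l0 * l1 + s / 3) := by linear_combination r01
    have e2 : x1 * d2 - x2 * d1 = (l2 - l1) * (l1 * l2 + s / 3) := by linear_combination r12
    rw [← hn]
    have : -d0 * ((l1 - l0) * (l0 * l1 + s / 3)) + d2 * ((l2 - l1) * (l1 * l2 + s / 3))
      = - (d0 * d1 * d2 * l1) := by rw [hd0, hd1, hd2]; ring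
    linear_combination -d0 * e1 + d2 * e2 + this
  · have e1 : x0 * d2 - x2 * d0 = (l2 - l0) * (l0 * l2 + s / 3) := by linear_combination r02
    have e2 : x1 * d2 - x2 * d1 = (l2 - l1) * (l1 * l2 + s / 3) := by linear_combination r12
    rw [← hn]
    have : -d0 * ((l2 - l0) * (l0 * l2 + s / 3)) - d1 * ((l2 - l1) * (l1 * l2 + s / 3))
      = - (d0 * d1 * d2 * l2) := by rw [hd0, hd1, hd2]; ring
    linear_combination -d0 * e1 - d1 * e2 + this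

theorem n3_alg2 (s l0 l1 l2 d0 d1 d2 x0 x1 x2 u : ℝ) (hd0 : d0 = l1 - l2) (hd1 : d1 = l2 - l0)
    (hd2 : d2 = l0 - l1) (tr : l0 + l1 + l2 = 0) (nrm : l0 * l0 + l1 * l1 + l2 * l2 = s)
    (hs : s ≠ 0) (hu : u ^ 2 = s * (s - 3) / 6)
    (e0 : 3 * s * x0 = (d0 * x0 + d1 * x1 + d2 * x2) * d0 - d0 * d1 * d2 * l0)
    (e1 : 3 * s * x1 = (d0 * x0 + d1 * x1 + d2 * x2) * d1 - d0 * d1 * d2 * l1)
    (e2 : 3 * s * x2 = (d0 * x0 + d1 * x1 + d2 * x2) * d2 - d0 * d1 * d2 * l2)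
    (k1 : (-((s - 3) / 3) * l0 + x0 * d0) * (-((s - 3) / 3) * l0 + x0 * d0) +
                (-((s - 3) / 3) * l1 + x0 * d1) * (-((s - 3) / 3) * l1 + x0 * d1) +
              (-((s - 3) / 3) * l2 + x0 * d2) * (-((s - 3) / 3) * l2 + x0 * d2) +
            ((-((s - 3) / 3) * l1 + x0 * d1) * (-((s - 3) / 3) * l1 + x0 * d1) +
              (-((s - 3) / 3) * l1 + x0 * d1) * (-((s - 3) / 3) * l1 + x0 * d1)) +
          ((-((s - 3) / 3) * l2 + x0 * d2) * (-((s - 3) / 3) * l2 + x0 * d2) +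
            (-((s - 3) / 3) * l2 + x0 * d2) * (-((s - 3) / 3) * l2 + x0 * d2)) +
        ((-((s - 3) / 3) * l0 + x1 * d0) * (-((s - 3) / 3) * l0 + x1 * d0) +
              (-((s - 3) / 3) * l0 + x1 * d0) * (-((s - 3) / 3) * l0 + x1 * d0) +
            ((-((s - 3) / 3) * l0 + x1 * d0) * (-((s - 3) / 3) * l0 + x1 * d0) +
                (-((s - 3) / 3) * l1 + x1 * d1) * (-((s - 3) / 3) * l1 + x1 * d1) +
              (-((s - 3) / 3) * l2 + x1 * d2) * (-((s - 3) / 3) * l2 + x1 * d2)) +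
          ((-((s - 3) / 3) * l2 + x1 * d2) * (-((s - 3) / 3) * l2 + x1 * d2) +
            (-((s - 3) / 3) * l2 + x1 * d2) * (-((s - 3) / 3) * l2 + x1 * d2))) +
      ((-((s - 3) / 3) * l0 + x2 * d0) * (-((s - 3) / 3) * l0 + x2 * d0) +
            (-((s - 3) / 3) * l0 + x2 * d0) * (-((s - 3) / 3) * l0 + x2 * d0) +
          ((-((s - 3) / 3) * l1 + x2 * d1) * (-((s - 3) / 3) * l1 + x2 * d1) +
            (-((s - 3) / 3) * l1 + x2 * d1) * (-((s - 3) / 3) * l1 + x2 * d1)) +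
        ((-((s - 3) / 3) * l0 + x2 * d0) * (-((s - 3) / 3) * l0 + x2 * d0) +
            (-((s - 3) / 3) * l1 + x2 * d1) * (-((s - 3) / 3) * l1 + x2 * d1) +
          (-((s - 3) / 3) * l2 + x2 * d2) * (-((s - 3) / 3) * l2 + x2 * d2))) =
    (s - 9) * (u * u + u * u + (u * u + u * u) + (u * u + u * u)) +
        3 *
          (l0 * l0 * (u * u) + l0 * l0 * (u * u) + (l1 * l1 * (u * u) + l1 * l1 * (u * u)) +
            (l2 * l2 * (u * u) + l2 * l2 * (u * u))) -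
      6 *
        (l0 * l1 * (u * u) + l0 * l2 * (u * u) + (l1 * l0 * (u * u) + l1 * l2 * (u * u)) +
          (l2 * l0 * (u * u) + l2 * l1 * (u * u)))) :
    9 * s * (d0 * x0 + d1 * x1 + d2 * x2) ^ 2
      - 6 * (s - 3) * (l0 * l0 * l0 + l1 * l1 * l1 + l2 * l2 * l2) * (d0 * x0 + d1 * x1 + d2 * x2)
      + 4 * s * (d0 * d1 * d2) ^ 2 + 2 * (s - 3) * (d0 * d1 * d2) ^ 2
      - 10 * s ^ 2 * (s - 3) ^ 2 = 0 := by
  have h2 : l2 = -l0 - l1 := by linarith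
  have hn : d0 ^ 2 + d1 ^ 2 + d2 ^ 2 = 3 * s := by
    rw [← nrm, hd0, hd1, hd2, h2]; ring
  have hdl : d0 * l0 + d1 * l1 + d2 * l2 = 0 := by rw [hd0, hd1, hd2]; ring
  have hd2l : d0 ^ 2 * l0 + d1 ^ 2 * l1 + d2 ^ 2 * l2 =
      -3 * (l0 * l0 * l0 + l1 * l1 * l1 + l2 * l2 * l2) := by rw [hd0, hd1, hd2, h2]; ring
  have hdl2 : d0 * l0 ^ 2 + d1 * l1 ^ 2 + d2 * l2 ^ 2 = -(d0 * d1 * d2) := by
    rw [hd0, hd1, hd2]; ring
  have hd4 : d0 ^ 4 + d1 ^ 4 + d2 ^ 4 = 9 * s ^ 2 / 2 := by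
    rw [← nrm, hd0, hd1, hd2, h2]; ring
  have hd3l : d0 ^ 3 * l0 + d1 ^ 3 * l1 + d2 ^ 3 * l2 = 0 := by
    rw [hd0, hd1, hd2, h2]; ring
  have hd2l2 : d0 ^ 2 * l0 ^ 2 + d1 ^ 2 * l1 ^ 2 + d2 ^ 2 * l2 ^ 2 = s ^ 2 / 2 := by
    rw [← nrm, hd0, hd1, hd2, h2]; ring
  set R := d0 * x0 + d1 * x1 + d2 * x2 with hR
  set Δ := d0 * d1 * d2 with hΔ
  set φ := l0 * l0 * l0 + l1 * l1 * l1 + l2 * l2 * l2 with hφ
  have f1 : x0 * l0 + x1 * l1 + x2 * l2 = -Δ / 3 := by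
    apply mul_left_cancel₀ (mul_ne_zero (three_ne_zero (α := ℝ)) hs)
    linear_combination l0 * e0 + l1 * e1 + l2 * e2 + R * hdl - Δ * nrm
  have f2 : 3 * s * (x0 ^ 2 + x1 ^ 2 + x2 ^ 2) = R ^ 2 + Δ ^ 2 / 3 := by
    linear_combination x0 * e0 + x1 * e1 + x2 * e2 - Δ * f1 - R * hR
  have f3 : x0 ^ 2 * d0 ^ 2 + x1 ^ 2 * d1 ^ 2 + x2 ^ 2 * d2 ^ 2 = R ^ 2 / 2 + Δ ^ 2 / 18 := by
    have g0 : (3 * s * x0) ^ 2 * d0 ^ 2 = (R * d0 - Δ * l0) ^ 2 * d0 ^ 2 := by rw [e0]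
    have g1 : (3 * s * x1) ^ 2 * d1 ^ 2 = (R * d1 - Δ * l1) ^ 2 * d1 ^ 2 := by rw [e1]
    have g2 : (3 * s * x2) ^ 2 * d2 ^ 2 = (R * d2 - Δ * l2) ^ 2 * d2 ^ 2 := by rw [e2]
    apply mul_left_cancel₀ (pow_ne_zero 2 (mul_ne_zero (three_ne_zero (α := ℝ)) hs))
    linear_combination g0 + g1 + g2 + R ^ 2 * hd4 - 2 * R * Δ * hd3l + Δ ^ 2 * hd2l2
  have f4 : 3 * s * (x0 * d0 * l0 + x1 * d1 * l1 + x2 * d2 * l2) = -3 * φ * R + Δ ^ 2 := by
    linear_combination d0 * l0 * e0 + d1 * l1 * e1 + d2 * l2 * e2 + R * hd2l - Δ * hdl2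
  have hll : l0 * l1 + l0 * l2 + l1 * l2 = -s / 2 := by rw [← nrm, h2]; ring
  have k1' : 3 * ((x0 ^ 2 + x1 ^ 2 + x2 ^ 2) * (3 * s) + 3 * ((s - 3) / 3) ^ 2 * s)
      - 2 * ((x0 ^ 2 * d0 ^ 2 + x1 ^ 2 * d1 ^ 2 + x2 ^ 2 * d2 ^ 2)
        - 2 * ((s - 3) / 3) * (x0 * d0 * l0 + x1 * d1 * l1 + x2 * d2 * l2)
        + ((s - 3) / 3) ^ 2 * s) = 3 * s * (s - 3) ^ 2 := by
    clear_value R Δ φ
    linear_combination k1 - 3 * (x0 ^ 2 + x1 ^ 2 + x2 ^ 2) * hn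
      + 6 * ((s - 3) / 3) * (x0 + x1 + x2) * hdl - 7 * ((s - 3) / 3) ^ 2 * nrm
      + 6 * u ^ 2 * nrm - 12 * u ^ 2 * hll + 18 * (s - 3) * hu
  linear_combination 9 / 2 * s * k1' - 27 / 2 * s * f2 + 9 * s * f3 - 2 * (s - 3) * f4

theorem n3_facts (h : PtK 1 s l T H) (hs : 3 < s) (h01 : l 1 < l 0) (h12 : l 2 < l 1)
    (ht : ∀ m, ∑ i, l i * l i * T m i i = 0) :
    ∃ R : ℝ, (∀ m, s * hessφ l T H m = -(s * (s - 3)) * (∑ i, l i * l i * l i)
        - (dd l 0 * dd l 1 * dd l 2) * (R * dd l m - (dd l 0 * dd l 1 * dd l 2) * l m)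
        - s ^ 2 * (s - 3) * l m) ∧
      9 * s * R ^ 2 - 6 * (s - 3) * (∑ i, l i * l i * l i) * R
        + 4 * s * (dd l 0 * dd l 1 * dd l 2) ^ 2 + 2 * (s - 3) * (dd l 0 * dd l 1 * dd l 2) ^ 2
        - 10 * s ^ 2 * (s - 3) ^ 2 = 0 := by
  have hs0 : s ≠ 0 := by linarith
  obtain ⟨t, u, hT⟩ := h.T_eq hs0
  obtain ⟨x, hx, hH⟩ := h.H_eq hs0
  have tr := h.tr
  have nrm := h.nrm
  simp only [Fin.sum_univ_three] at tr nrm
  have hl2 : l 2 = -l 0 - l 1 := by linarith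
  have ht0 : ∀ m, t m = 0 := by
    intro m
    have e1 := ht m
    simp only [Fin.sum_univ_three, hT, Tf, if_true] at e1
    have e2 : t m * ((l 0 - l 1) * (l 1 - l 2) * (l 0 - l 2)) = 0 := by
      simp only [dd] at e1
      simp at e1
      linear_combination e1
    rcases mul_eq_zero.mp e2 with e3 | e3
    · exact e3
    · exfalso
      have : 0 < (l 0 - l 1) * (l 1 - l 2) * (l 0 - l 2) := by
        apply mul_pos (mul_pos _ _) _ <;> linarith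
      linarith
  have ht' : t = fun _ => 0 := funext ht0
  subst ht'
  have hT' : ∀ k i j, T k i j = if i = j then 0 else if k = i then 0 else if k = j then 0 else u := by
    intro k i j
    rw [hT]
    unfold Tf
    simp
  have hq : (fun m k => ∑ i, ∑ j, T m i j * T k i j) = fun m k => if m = k then 2 * u ^ 2 else 0 := by
    ext m k
    simp only [Fin.sum_univ_three, hT']
    fin_cases m <;> fin_cases k <;> simp <;> ring
  rw [hq] at hH
  have c1 := h.C1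
  simp only [Fin.sum_univ_three, hT'] at c1
  simp at c1
  have hu : u ^ 2 = s * (s - 3) / 6 := by linarith
  have hu0 : u ≠ 0 := by
    intro hu1
    have : 0 < s * (s - 3) := mul_pos (by linarith) (by linarith)
    rw [hu1] at hu
    norm_num at hu
    linarith
  have hM : ∀ m, H m 0 1 2 = 0 := by
    intro m
    have e1 := h.M m
    simp only [Fin.sum_univ_three, hT'] at e1
    simp at e1
    rw [h.H34 m 0 2 1, h.H23 m 1 0 2, h.H23 m 2 0 1, h.H34 m 0 2 1, h.H34 m 1 2 0, h.H23 m 1 0 2,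
      h.H34 m 2 1 0, h.H23 m 2 0 1, h.H34 m 0 2 1] at e1
    have : 6 * u * H m 0 1 2 = 0 := by linarith
    rcases mul_eq_zero.mp this with e3 | e3
    · exfalso; apply hu0; linarith
    · exact e3
  have hd0 : dd l 0 ≠ 0 := by simp [dd]; linarith
  have hd1 : dd l 1 ≠ 0 := by simp [dd]; linarith
  have hd2 : dd l 2 ≠ 0 := by simp [dd]; linarith
  have x12 : x 1 2 = 0 := by
    have e1 := hM 0
    rw [hH] at e1
    simp [Hf, Gf] at e1
    tauto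
  have x02 : x 0 2 = 0 := by
    have e1 := hM 1
    rw [hH] at e1
    simp [Hf, Gf] at e1
    tauto
  have x01 : x 0 1 = 0 := by
    have e1 := hM 2
    rw [hH] at e1
    simp [Hf, Gf] at e1
    tauto
  have x21 : x 2 1 = 0 := by rw [hx, x12]
  have x20 : x 2 0 = 0 := by rw [hx, x02]
  have x10 : x 1 0 = 0 := by rw [hx, x01]
  have r01 := h.ric 0 1 0 1
  have r02 := h.ric 0 2 0 2
  have r12 := h.ric 1 2 1 2
  have k1 := h.K1
  simp only [hH, hT', Fin.sum_univ_three] at r01 r02 r12 k1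
  simp [Hf, Gf, dl, x12, x02, x01, x21, x20, x10] at r01 r02 r12 k1
  have hk : ∀ i, -(2 * u ^ 2 * l i) / s = -((s - 3) / 3) * l i := by
    intro i
    rw [hu]
    field_simp
    ring
  have hk' : ∀ a : ℝ, -(2 * u ^ 2) * a / s = -((s - 3) / 3) * a := by
    intro i
    rw [hu]
    field_simp
    ring
  simp only [hk] at r01 r02 r12 k1
  have dd0 : dd l 0 = l 1 - l 2 := rfl
  have dd1 : dd l 1 = l 2 - l 0 := rfl
  have dd2 : dd l 2 = l 0 - l 1 := rfl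
  obtain ⟨fR, fX⟩ := n3_alg1 s (l 0) (l 1) (l 2) (dd l 0) (dd l 1) (dd l 2) (x 0 0) (x 1 1) (x 2 2)
    dd0 dd1 dd2 tr nrm hs0 r01 r02 r12
  refine ⟨dd l 0 * x 0 0 + dd l 1 * x 1 1 + dd l 2 * x 2 2, ?_, ?_⟩
  · intro m
    have hv : s * hessφ l T H m = -(s * (s - 3)) * (l 0 * l 0 * l 0 + l 1 * l 1 * l 1 + l 2 * l 2 * l 2)
        - (dd l 0 * dd l 1 * dd l 2) * (3 * s * x m m) - s ^ 2 * (s - 3) * l m := by
      simp only [hessφ, hH, hT', Fin.sum_univ_three]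
      fin_cases m
      · simp [Hf, Gf, -neg_mul]
        simp only [hk']
        rw [dd0, dd1, dd2]
        linear_combination 6 * s * (l 1 + l 2) * hu + s ^ 2 * (s - 3) * tr
      · simp [Hf, Gf, -neg_mul]
        simp only [hk']
        rw [dd0, dd1, dd2]
        linear_combination 6 * s * (l 0 + l 2) * hu + s ^ 2 * (s - 3) * tr
      · simp [Hf, Gf, -neg_mul]
        simp only [hk']
        rw [dd0, dd1, dd2]
        linear_combination 6 * s * (l 0 + l 1) * hu + s ^ 2 * (s - 3) * tr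
    rw [Fin.sum_univ_three, hv]
    fin_cases m
    · simp only [Fin.mk_zero, Fin.zero_eta]
      linear_combination -(dd l 0 * dd l 1 * dd l 2) * fX.1
    · simp only [Fin.mk_one]
      linear_combination -(dd l 0 * dd l 1 * dd l 2) * fX.2.1
    · simp only [Fin.reduceFinMk]
      linear_combination -(dd l 0 * dd l 1 * dd l 2) * fX.2.2
  · rw [Fin.sum_univ_three]
    exact n3_alg2 s (l 0) (l 1) (l 2) (dd l 0) (dd l 1) (dd l 2) (x 0 0) (x 1 1) (x 2 2) u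
      dd0 dd1 dd2 tr nrm hs0 hu fX.1 fX.2.1 fX.2.2 k1

theorem goalLap : Bry.GoalLap := by
  intro s l T H hs h h01 h12 ht
  obtain ⟨R, h1, h2⟩ := n3_facts (toK h) hs h01 h12 ht
  have tr := h.tr
  simp only [Fin.sum_univ_three] at tr
  have e0 := h1 0
  have e1 := h1 1
  have e2 := h1 2
  have hd : dd l 0 + dd l 1 + dd l 2 = 0 := by simp [dd]
  apply mul_left_cancel₀ (show s ≠ 0 by linarith)
  rw [Fin.sum_univ_three, mul_add, mul_add, e0, e1, e2]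
  linear_combination -(dd l 0 * dd l 1 * dd l 2) * R * hd
    + ((dd l 0 * dd l 1 * dd l 2) ^ 2 - s ^ 2 * (s - 3)) * tr

theorem n3_fin (s φ y R : ℝ) (hs : 6 ≤ s) (hy : y = s ^ 3 / 2 - 3 * φ ^ 2)
    (h1 : 3 * R ^ 2 + y ≤ 6 * s * (s - 3))
    (h2 : 9 * s * R ^ 2 - 6 * (s - 3) * φ * R + 4 * s * y + 2 * (s - 3) * y
      - 10 * s ^ 2 * (s - 3) ^ 2 = 0) : φ = 0 := by
  have h3 : 0 ≤ (3 * s * R + 2 * (s - 3) * φ) ^ 2 := sq_nonneg _
  have h4 : 0 ≤ s ^ 2 * (6 * s * (s - 3) - (3 * R ^ 2 + y)) :=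
    mul_nonneg (sq_nonneg _) (by linarith)
  have h5 : φ ^ 2 * (5 / 2 * s ^ 2 - 6 * s - 18) ≤ -(s ^ 3 * ((s - 6) * (37 / 4 * s - 57 / 2))) := by
    rw [hy] at h2 h4
    nlinarith
  have h6 : 0 ≤ s ^ 3 * ((s - 6) * (37 / 4 * s - 57 / 2)) := by
    apply mul_nonneg (by positivity) (mul_nonneg (by linarith) (by linarith))
  have h7 : 0 < 5 / 2 * s ^ 2 - 6 * s - 18 := by nlinarith
  by_contra h8
  have : 0 < φ ^ 2 * (5 / 2 * s ^ 2 - 6 * s - 18) := mul_pos (by positivity) h7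
  linarith

theorem n3_sq (v0 v1 v2 M : ℝ) (h : v0 + v1 + v2 = 0)
    (h1 : (v0 ≤ M ∧ v1 ≤ M ∧ v2 ≤ M) ∨ (M ≤ v0 ∧ M ≤ v1 ∧ M ≤ v2)) :
    v0 ^ 2 + v1 ^ 2 + v2 ^ 2 ≤ 6 * M ^ 2 := by
  have e : v2 = -v0 - v1 := by linarith
  rcases h1 with ⟨a, b, c⟩ | ⟨a, b, c⟩
  · have p1 := mul_nonneg (sub_nonneg.mpr a) (sub_nonneg.mpr b)
    have p2 := mul_nonneg (sub_nonneg.mpr a) (sub_nonneg.mpr c)
    have p3 := mul_nonneg (sub_nonneg.mpr b) (sub_nonneg.mpr c)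
    rw [e] at *
    nlinarith
  · have p1 := mul_nonneg (sub_nonneg.mpr a) (sub_nonneg.mpr b)
    have p2 := mul_nonneg (sub_nonneg.mpr a) (sub_nonneg.mpr c)
    have p3 := mul_nonneg (sub_nonneg.mpr b) (sub_nonneg.mpr c)
    rw [e] at *
    nlinarith

theorem goalN3 : Bry.GoalN3 := by
  intro s l T H hs h h01 h12 ht hh
  obtain ⟨R, h1, h2⟩ := n3_facts (toK h) (by linarith) h01 h12 ht
  have tr := h.tr
  have nrm := h.nrm
  simp only [Fin.sum_univ_three] at tr nrm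
  have hl2 : l 2 = -l 0 - l 1 := by linarith
  have dd0 : dd l 0 = l 1 - l 2 := rfl
  have dd1 : dd l 1 = l 2 - l 0 := rfl
  have dd2 : dd l 2 = l 0 - l 1 := rfl
  have hd : dd l 0 + dd l 1 + dd l 2 = 0 := by simp [dd]
  have hd2 : dd l 0 ^ 2 + dd l 1 ^ 2 + dd l 2 ^ 2 = 3 * s := by
    rw [← nrm, dd0, dd1, dd2, hl2]; ring
  have hdl : dd l 0 * l 0 + dd l 1 * l 1 + dd l 2 * l 2 = 0 := by
    rw [dd0, dd1, dd2]; ring
  have hy : (dd l 0 * dd l 1 * dd l 2) ^ 2 = s ^ 3 / 2 - 3 * (∑ i, l i * l i * l i) ^ 2 := by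
    rw [Fin.sum_univ_three, ← nrm, dd0, dd1, dd2, hl2]; ring
  have hy0 : 0 < (dd l 0 * dd l 1 * dd l 2) ^ 2 := by
    have : dd l 0 * dd l 1 * dd l 2 ≠ 0 := by
      rw [dd0, dd1, dd2]
      apply mul_ne_zero (mul_ne_zero _ _) _ <;> intro h9 <;> linarith
    positivity
  have e0 := h1 0
  have e1 := h1 1
  have e2 := h1 2
  generalize (∑ i, l i * l i * l i) = φ at *
  generalize hΔ : dd l 0 * dd l 1 * dd l 2 = Δ at *
  have hs0 : 0 < s := by linarith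
  have hv := n3_sq (s * hessφ l T H 0 + s * (s - 3) * φ) (s * hessφ l T H 1 + s * (s - 3) * φ)
    (s * hessφ l T H 2 + s * (s - 3) * φ) (s * (s - 3) * φ) (by
      rw [e0, e1, e2]
      linear_combination -Δ * R * hd + (Δ ^ 2 - s ^ 2 * (s - 3)) * tr) (by
      rcases hh with hh | hh
      · left
        refine ⟨?_, ?_, ?_⟩
        · have := mul_nonneg hs0.le (neg_nonneg.mpr (hh 0)); linarith
        · have := mul_nonneg hs0.le (neg_nonneg.mpr (hh 1)); linarith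
        · have := mul_nonneg hs0.le (neg_nonneg.mpr (hh 2)); linarith
      · right
        refine ⟨?_, ?_, ?_⟩
        · have := mul_nonneg hs0.le (hh 0); linarith
        · have := mul_nonneg hs0.le (hh 1); linarith
        · have := mul_nonneg hs0.le (hh 2); linarith)
  have hv2 : (s * hessφ l T H 0 + s * (s - 3) * φ) ^ 2 + (s * hessφ l T H 1 + s * (s - 3) * φ) ^ 2
      + (s * hessφ l T H 2 + s * (s - 3) * φ) ^ 2
      = s * (3 * Δ ^ 2 * R ^ 2 + (Δ ^ 2 - s ^ 2 * (s - 3)) ^ 2) := by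
    rw [e0, e1, e2]
    linear_combination Δ ^ 2 * R ^ 2 * hd2 + (Δ ^ 2 - s ^ 2 * (s - 3)) ^ 2 * nrm
      - 2 * Δ * R * (Δ ^ 2 - s ^ 2 * (s - 3)) * hdl
  rw [hv2] at hv
  have hφ2 : 6 * φ ^ 2 = s ^ 3 - 2 * Δ ^ 2 := by linarith
  have key : s * (Δ ^ 2 * (3 * R ^ 2 + Δ ^ 2 - 6 * s * (s - 3))) ≤ 0 := by
    have : 6 * (s * (s - 3) * φ) ^ 2 = s ^ 2 * (s - 3) ^ 2 * (s ^ 3 - 2 * Δ ^ 2) := by
      rw [← hφ2]; ring
    rw [this] at hv
    linarith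
  have key2 : 3 * R ^ 2 + Δ ^ 2 ≤ 6 * s * (s - 3) := by
    by_contra hc
    push Not at hc
    have : 0 < s * (Δ ^ 2 * (3 * R ^ 2 + Δ ^ 2 - 6 * s * (s - 3))) :=
      mul_pos hs0 (mul_pos hy0 (by linarith))
    linarith
  refine n3_fin s φ (Δ ^ 2) R hs hy key2 ?_
  linear_combination h2

end Bry.A1
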