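import Mathlib

/-!
Interface between the geometry (Part I) and the tensor algebra (Part II) of the proof of
`S12941`.  Everything is pure algebra over a commutative `ℝ`-algebra `R` with three derivations.
-/

set_option autoImplicit false

open Finset

namespace Bry

/-- Kronecker delta. -/
def dl {R : Type*} [Zero R] [One R] (i j : Fin 3) : R := if i = j then 1 else 0

/-- The structure equations of a minimal hypersurface of `S⁴` with `|A|² = s`, in an orthonormal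
frame `e₀,e₁,e₂` : `D i` = derivative along `e_i`, `Γ i j k = ⟨D_i e_j, e_k⟩`. -/
structure Frame (R : Type*) [CommRing R] [Algebra ℝ R] where
  s : ℝ
  D : Fin 3 → Derivation ℝ R R
  Γ : Fin 3 → Fin 3 → Fin 3 → R
  A : Fin 3 → Fin 3 → R
  anti : ∀ i j k, Γ i j k = - Γ i k j
  symm : ∀ i j, A i j = A j i
  tors : ∀ i j g, D i (D j g) - D j (D i g) = ∑ k, (Γ i j k - Γ j i k) * D k g
  gauss : ∀ i j k l, D i (Γ j k l) - D j (Γ i k l)
      + ∑ m, (Γ j k m * Γ i m l - Γ i k m * Γ j m l)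
      - ∑ m, (Γ i j m - Γ j i m) * Γ m k l
      = A j k * A i l - A i k * A j l + dl j k * dl i l - dl i k * dl j l
  cod : ∀ i j k, D i (A j k) - ∑ m, Γ i j m * A m k - ∑ m, Γ i k m * A j m
      = D j (A i k) - ∑ m, Γ j i m * A m k - ∑ m, Γ j k m * A i m
  tr : ∑ i, A i i = 0
  nrm : ∑ i, ∑ j, A i j * A i j = algebraMap ℝ R s

namespace Frame

variable {R : Type*} [CommRing R] [Algebra ℝ R] (F : Frame R)

/-- `T k i j = ∇_k A_ij`. -/
def T (k i j : Fin 3) : R :=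
  F.D k (F.A i j) - ∑ m, F.Γ k i m * F.A m j - ∑ m, F.Γ k j m * F.A i m

/-- `H l k i j = ∇_l ∇_k A_ij`. -/
def H (l k i j : Fin 3) : R :=
  F.D l (F.T k i j) - ∑ m, F.Γ l k m * F.T m i j - ∑ m, F.Γ l i m * F.T k m j
    - ∑ m, F.Γ l j m * F.T k i m

/-- `X m l k i j = ∇_m ∇_l ∇_k A_ij`. -/
def X (n l k i j : Fin 3) : R :=
  F.D n (F.H l k i j) - ∑ m, F.Γ n l m * F.H m k i j - ∑ m, F.Γ n k m * F.H l m i j
    - ∑ m, F.Γ n i m * F.H l k m j - ∑ m, F.Γ n j m * F.H l k i m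

/-- Curvature: `∇_i ∇_j Φ_k - ∇_j ∇_i Φ_k = ∑ m, Rm i j k m * Φ_m`. -/
def Rm (i j k l : Fin 3) : R :=
  dl i k * dl j l - dl i l * dl j k + F.A i k * F.A j l - F.A i l * F.A j k

/-- `∇_m Rm`. -/
def dRm (m i j k l : Fin 3) : R :=
  F.T m i k * F.A j l + F.A i k * F.T m j l - F.T m i l * F.A j k - F.A i l * F.T m j k

/-- commutator on `A`: `H l k i j - H k l i j = rho l k i j`. -/
def rho (l k i j : Fin 3) : R :=
  ∑ m, (F.Rm l k i m * F.A m j + F.Rm l k j m * F.A i m)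

/-- `∇_n rho`. -/
def drho (n l k i j : Fin 3) : R :=
  ∑ m, (F.dRm n l k i m * F.A m j + F.Rm l k i m * F.T n m j
    + F.dRm n l k j m * F.A i m + F.Rm l k j m * F.T n i m)

/-- commutator on `T`: `X m l k i j - X l m k i j = sig m l k i j`. -/
def sig (m l k i j : Fin 3) : R :=
  ∑ n, (F.Rm m l k n * F.T n i j + F.Rm m l i n * F.T k n j + F.Rm m l j n * F.T k i n)

end Frame

end Bry
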