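import Pool.Agent.Lib.MP_2b07f9_gt.JetData
import Pool.Agent.Lib.MP_2b07f9_gt.Frame

/-! Assembly B: a `Frame` over a subalgebra of functions, in a principal frame, gives a
`JetData`. -/

set_option autoImplicit false
open Finset MvPolynomial
namespace Bry

/-- general chain rule for derivations and polynomials -/
theorem deriv_aeval {R σ : Type*} [CommRing R] [Algebra ℝ R] [Fintype σ] (D : Derivation ℝ R R)
    (Z : σ → R) (p : MvPolynomial σ ℝ) :
    D (aeval Z p) = ∑ j, aeval Z (pderiv j p) * D (Z j) := by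
  classical
  induction p using MvPolynomial.induction_on with
  | C a => simp
  | add p q hp hq =>
    simp only [map_add, hp, hq, add_mul, Finset.sum_add_distrib]
  | mul_X p n hp =>
    simp only [map_mul, aeval_X, Derivation.leibniz, hp, smul_eq_mul, pderiv_X, map_add, add_mul,
      Finset.sum_add_distrib]
    congr 1
    · rw [Finset.sum_eq_single n]
      · simp
      · intro j _ hj
        simp [hj.symm]
      · simp
    · rw [Finset.mul_sum]
      exact Finset.sum_congr rfl (fun j _ => by ring)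

section

variable {R : Type*} [CommRing R] [Algebra ℝ R] (F : Frame R)

theorem asm_two {a : R} (h : a = -a) : a = 0 := by
  have h2 : (2 : ℝ) • a = 0 := by
    rw [two_smul]
    nth_rewrite 1 [h]
    simp
  have h3 : (1/2 : ℝ) • ((2 : ℝ) • a) = 0 := by rw [h2, smul_zero]
  rw [smul_smul] at h3
  norm_num at h3
  exact h3

theorem asm_Γ0 (n i : Fin 3) : F.Γ n i i = 0 := asm_two (F.anti n i i)

theorem asm_DA (n i j : Fin 3) :
    F.D n (F.A i j) = F.T n i j + ∑ m, F.Γ n i m * F.A m j + ∑ m, F.Γ n j m * F.A i m := by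
  simp only [Frame.T]
  ring

theorem asm_DT (n k i j : Fin 3) :
    F.D n (F.T k i j) = F.H n k i j + ∑ m, F.Γ n k m * F.T m i j + ∑ m, F.Γ n i m * F.T k m j
      + ∑ m, F.Γ n j m * F.T k i m := by
  simp only [Frame.H]
  ring

theorem asm_DH (n l k i j : Fin 3) :
    F.D n (F.H l k i j) = F.X n l k i j + ∑ m, F.Γ n l m * F.H m k i j
      + ∑ m, F.Γ n k m * F.H l m i j + ∑ m, F.Γ n i m * F.H l k m j
      + ∑ m, F.Γ n j m * F.H l k i m := by
  simp only [Frame.X]
  ring

variable (hd : ∀ i j, i ≠ j → F.A i j = 0)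
include hd

theorem asm_DAii (n i : Fin 3) : F.D n (F.A i i) = F.T n i i := by
  rw [asm_DA]
  have h1 : ∑ m, F.Γ n i m * F.A m i = 0 := by
    apply Finset.sum_eq_zero
    intro m _
    by_cases h : m = i
    · rw [h, asm_Γ0, zero_mul]
    · rw [hd m i h, mul_zero]
  have h2 : ∑ m, F.Γ n i m * F.A i m = 0 := by
    apply Finset.sum_eq_zero
    intro m _
    by_cases h : m = i
    · rw [h, asm_Γ0, zero_mul]
    · rw [hd i m (Ne.symm h), mul_zero]
  rw [h1, h2]
  ring

theorem asm_Γ (n i j : Fin 3) (hij : i ≠ j) :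
    F.Γ n i j * (F.A i i - F.A j j) = F.T n i j := by
  have h := asm_DA F n i j
  rw [hd i j hij, map_zero] at h
  have h1 : ∑ m, F.Γ n i m * F.A m j = F.Γ n i j * F.A j j := by
    rw [Finset.sum_eq_single j]
    · intro m _ hm
      rw [hd m j hm, mul_zero]
    · simp
  have h2 : ∑ m, F.Γ n j m * F.A i m = F.Γ n j i * F.A i i := by
    rw [Finset.sum_eq_single i]
    · intro m _ hm
      rw [hd i m (Ne.symm hm), mul_zero]
    · simp
  rw [h1, h2, F.anti n j i] at h
  linear_combination h

end

section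

variable {β : Type} (A : Subalgebra ℝ (β → ℝ)) (F : Frame A)

/-- evaluation at a point -/
def asmE (A : Subalgebra ℝ (β → ℝ)) (x : β) : A →ₐ[ℝ] ℝ :=
  (Pi.evalAlgHom ℝ (fun _ : β => ℝ) x).comp A.val

theorem asmE_apply (x : β) (g : A) : asmE A x g = (g : β → ℝ) x := rfl

theorem asm_ext (g : A) (h : ∀ x, asmE A x g = 0) : g = 0 := by
  apply Subtype.ext
  funext x
  exact h x

end

/-- works for ANY subalgebra `A` of functions on a type `β` (in the application `A = Sm B`). -/
theorem exists_jetData {β : Type} (A : Subalgebra ℝ (β → ℝ)) (F : Frame A)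
    (hd : ∀ i j, i ≠ j → F.A i j = 0)
    (hord : ∀ x : β, (F.A 1 1 : β → ℝ) x < (F.A 0 0 : β → ℝ) x ∧
      (F.A 2 2 : β → ℝ) x < (F.A 1 1 : β → ℝ) x)
    (hpt : ∀ x : β, Pt F.s (fun i => (F.A i i : β → ℝ) x) (fun k i j => (F.T k i j : β → ℝ) x)
      (fun m k i j => (F.H m k i j : β → ℝ) x))
    (hric : ∀ m l k i j, F.X m l k i j - F.X l m k i j = F.sig m l k i j) :
    ∃ J : JetData β, J.s = F.s ∧ (∀ x i, J.l x i = (F.A i i : β → ℝ) x) := by
  set L : β → Fin 3 → ℝ := fun x i => asmE A x (F.A i i) with hL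
  set TT : β → Fin 3 → Fin 3 → Fin 3 → ℝ := fun x k i j => asmE A x (F.T k i j) with hTT
  set HH : β → Fin 3 → Fin 3 → Fin 3 → Fin 3 → ℝ :=
    fun x m k i j => asmE A x (F.H m k i j) with hHH
  set XX : β → Fin 3 → Fin 3 → Fin 3 → Fin 3 → Fin 3 → ℝ :=
    fun x n m k i j => asmE A x (F.X n m k i j) with hXX
  -- the ordering gives distinct curvatures
  have hne : ∀ x i j, i ≠ j → L x i - L x j ≠ 0 := by
    intro x i j hij h0
    have h1 := (hord x).1
    have h2 := (hord x).2
    rw [← asmE_apply, ← asmE_apply] at h1 h2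
    have e0 : L x 0 = asmE A x (F.A 0 0) := rfl
    have e1 : L x 1 = asmE A x (F.A 1 1) := rfl
    have e2 : L x 2 = asmE A x (F.A 2 2) := rfl
    rw [← e0, ← e1] at h1
    rw [← e1, ← e2] at h2
    fin_cases i <;> fin_cases j <;> simp at hij h0 <;> linarith
  -- the connection coefficients
  have hG : ∀ x n i j, asmE A x (F.Γ n i j) = Gam (L x) (TT x) n i j := by
    intro x n i j
    by_cases hij : i = j
    · subst hij
      rw [asm_Γ0, map_zero, Gam, sub_self, div_zero]
    · have h := congrArg (asmE A x) (asm_Γ F hd n i j hij)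
      rw [map_mul, map_sub] at h
      rw [Gam, eq_div_iff (hne x i j hij)]
      exact h
  have hA : ∀ x i k, asmE A x (F.A i k) = dl i k * L x i := by
    intro x i k
    by_cases hik : i = k
    · subst hik
      simp [dl, hL]
    · rw [hd i k hik, map_zero, dl, if_neg hik, zero_mul]
  have hdl : ∀ x (i k : Fin 3), asmE A x (dl i k : A) = dl i k := by
    intro x i k
    by_cases hik : i = k <;> simp [dl, hik]
  have hdl2 : ∀ i k : Fin 3, ∀ x, (dl i k : ℝ) * L x i = dl i k * L x k := by
    intro i k x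
    by_cases hik : i = k
    · rw [hik]
    · simp [dl, hik]
  have hR : ∀ x i j k m, asmE A x (F.Rm i j k m) = RmR (L x) i j k m := by
    intro x i j k m
    simp only [Frame.Rm, map_add, map_sub, map_mul, hdl, hA, RmR]
    ring
  let Z : Sg → A := fun q => match q with
    | Sum.inl (Sum.inl i) => F.A i i
    | Sum.inl (Sum.inr (k, i, j)) => F.T k i j
    | Sum.inr (m, k, i, j) => F.H m k i j
  have hZ : ∀ x q, asmE A x (Z q) = zz (L x) (TT x) (HH x) q := by
    intro x q
    rcases q with (i | ⟨k, i, j⟩) | ⟨m, k, i, j⟩ <;> rfl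
  have hZ2 : ∀ x (p : MvPolynomial Sg ℝ),
      asmE A x (aeval Z p) = eval (zz (L x) (TT x) (HH x)) p := by
    intro x p
    rw [← AlgHom.comp_apply, comp_aeval]
    have : (fun i => asmE A x (Z i)) = zz (L x) (TT x) (HH x) := funext (hZ x)
    rw [this]
    rfl
  have hDZ : ∀ x n q, asmE A x (F.D n (Z q)) = VV (L x) (TT x) (HH x) (XX x) n q := by
    intro x n q
    rcases q with (i | ⟨k, i, j⟩) | ⟨m, k, i, j⟩
    · show asmE A x (F.D n (F.A i i)) = _
      rw [asm_DAii F hd]
      rfl
    · show asmE A x (F.D n (F.T k i j)) = _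
      rw [asm_DT F]
      simp only [map_add, map_sum, map_mul, hG, VV]
      rfl
    · show asmE A x (F.D n (F.H m k i j)) = _
      rw [asm_DH F]
      simp only [map_add, map_sum, map_mul, hG, VV]
      rfl
  refine ⟨{ s := F.s, l := L, T := TT, H := HH, X := XX, pt := hpt, ord := hord,
            comm := ?_, chain := ?_ }, rfl, fun x i => rfl⟩
  · intro x n m k i j
    have h := congrArg (asmE A x) (hric n m k i j)
    rw [map_sub] at h
    refine h.trans ?_
    simp only [Frame.sig, map_sum, map_add, map_mul, hR, sigR]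
    rfl
  · intro p hp x n
    have h0 : aeval Z p = 0 := by
      apply asm_ext
      intro y
      rw [hZ2]
      exact hp y
    have h1 := deriv_aeval (F.D n) Z p
    rw [h0, map_zero] at h1
    have h2 := congrArg (asmE A x) h1
    rw [map_zero, map_sum] at h2
    rw [h2]
    apply Finset.sum_congr rfl
    intro q _
    rw [map_mul, hZ2, hDZ]

end Bry
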