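import Pool.Agent.Lib.MP_2b07f9_gt.Frame

/-!
Part IV interface: real algebra at one point of the closure of the jet image.
`l i` = principal curvatures, `T k i j = ∇_k A_ij`, `H l k i j = ∇_l ∇_k A_ij` (principal frame).
-/

set_option autoImplicit false

open Finset

namespace Bry

/-- All second order identities, at one point. -/
structure Pt (s : ℝ) (l : Fin 3 → ℝ) (T : Fin 3 → Fin 3 → Fin 3 → ℝ)
    (H : Fin 3 → Fin 3 → Fin 3 → Fin 3 → ℝ) : Prop where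
  T12 : ∀ k i j, T k i j = T i k j
  T23 : ∀ k i j, T k i j = T k j i
  H23 : ∀ m k i j, H m k i j = H m i k j
  H34 : ∀ m k i j, H m k i j = H m k j i
  ric : ∀ m k i j, H m k i j - H k m i j
    = (l j - l i) * (1 + l m * l k) * (dl m i * dl k j - dl m j * dl k i)
  tr : ∑ i, l i = 0
  trT : ∀ k, ∑ i, T k i i = 0
  trH : ∀ m k, ∑ i, H m k i i = 0
  nrm : ∑ i, l i * l i = s
  lT : ∀ k, ∑ i, l i * T k i i = 0
  lH : ∀ m k, ∑ i, l i * H m k i i + ∑ i, ∑ j, T m i j * T k i j = 0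
  C1 : ∑ k, ∑ i, ∑ j, T k i j * T k i j = s * (s - 3)
  M : ∀ m, ∑ k, ∑ i, ∑ j, T k i j * H m k i j = 0
  K1 : ∑ m, ∑ k, ∑ i, ∑ j, H m k i j * H m k i j
      = (s - 9) * ∑ k, ∑ i, ∑ j, T k i j * T k i j
        + 3 * ∑ k, ∑ i, ∑ j, l k * l k * (T k i j * T k i j)
        - 6 * ∑ k, ∑ i, ∑ j, l k * l i * (T k i j * T k i j)
  K2 : ∑ m, l m * ∑ k, ∑ i, ∑ j, H m k i j * H m k i j
      - 3 * ∑ k, ∑ i, ∑ j, ∑ m, ∑ n, T k i j * T k m n * H i j m n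
      + (3 * (1 + s)) * ∑ k, ∑ i, ∑ j, l k * (T k i j * T k i j)
      + 6 * ∑ k, ∑ i, ∑ j, l k * l k * l i * (T k i j * T k i j)
      - 3 * ∑ k, ∑ i, ∑ j, l k * l k * l k * (T k i j * T k i j)
      - (∑ i, l i * l i * l i) * ∑ k, ∑ i, ∑ j, T k i j * T k i j = 0

/-- Elements of the kernel of the linear system for the third order jet. -/
structure Ker (l : Fin 3 → ℝ) (T : Fin 3 → Fin 3 → Fin 3 → ℝ)
    (H : Fin 3 → Fin 3 → Fin 3 → Fin 3 → ℝ)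
    (E : Fin 3 → Fin 3 → Fin 3 → Fin 3 → Fin 3 → ℝ) : Prop where
  E12 : ∀ n m k i j, E n m k i j = E m n k i j
  E23 : ∀ n m k i j, E n m k i j = E n k m i j
  E34 : ∀ n m k i j, E n m k i j = E n m i k j
  E45 : ∀ n m k i j, E n m k i j = E n m k j i
  tr : ∀ n m k, ∑ i, E n m k i i = 0
  lE : ∀ n m k, ∑ i, l i * E n m k i i = 0
  TE : ∀ n m, ∑ k, ∑ i, ∑ j, T k i j * E n m k i j = 0
  HE : ∀ n, ∑ m, ∑ k, ∑ i, ∑ j, H m k i j * E n m k i j = 0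
  K2E : ∀ n, 2 * ∑ m, l m * ∑ k, ∑ i, ∑ j, H m k i j * E n m k i j
      - 3 * ∑ k, ∑ i, ∑ j, ∑ m, ∑ p, T k i j * T k m p * E n i j m p = 0

/-! Goals of Part IV (the order of the curvatures is `l 0 ≥ l 1 ≥ l 2`). -/

def GoalN1 : Prop := ∀ (s : ℝ) (l : Fin 3 → ℝ) (T : Fin 3 → Fin 3 → Fin 3 → ℝ)
    (H : Fin 3 → Fin 3 → Fin 3 → Fin 3 → ℝ), 3 < s → Pt s l T H → l 0 ≥ l 1 → l 1 ≥ l 2 →
    l 0 > l 1 ∧ l 1 > l 2

def GoalN2 : Prop := ∀ (s : ℝ) (l : Fin 3 → ℝ) (T : Fin 3 → Fin 3 → Fin 3 → ℝ)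
    (H : Fin 3 → Fin 3 → Fin 3 → Fin 3 → ℝ), 3 < s → s < 6 → Pt s l T H → l 0 > l 1 → l 1 > l 2 →
    ∑ i, l i * l i * l i ≠ 0

/-- second covariant derivative of `φ = tr A³` in direction `m` at a critical point. -/
def hessφ (l : Fin 3 → ℝ) (T : Fin 3 → Fin 3 → Fin 3 → ℝ)
    (H : Fin 3 → Fin 3 → Fin 3 → Fin 3 → ℝ) (m : Fin 3) : ℝ :=
  3 * ∑ i, l i * l i * H m m i i + 6 * ∑ i, ∑ j, l i * (T m i j * T m i j)

/-- at a critical point of `φ`, the sum of the second derivatives is `-3(s-3)φ`. -/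
def GoalLap : Prop := ∀ (s : ℝ) (l : Fin 3 → ℝ) (T : Fin 3 → Fin 3 → Fin 3 → ℝ)
    (H : Fin 3 → Fin 3 → Fin 3 → Fin 3 → ℝ), 3 < s → Pt s l T H → l 0 > l 1 → l 1 > l 2 →
    (∀ m, ∑ i, l i * l i * T m i i = 0) →
    ∑ m, hessφ l T H m = -3 * (s - 3) * ∑ i, l i * l i * l i

def GoalN3 : Prop := ∀ (s : ℝ) (l : Fin 3 → ℝ) (T : Fin 3 → Fin 3 → Fin 3 → ℝ)
    (H : Fin 3 → Fin 3 → Fin 3 → Fin 3 → ℝ), 6 ≤ s → Pt s l T H → l 0 > l 1 → l 1 > l 2 →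
    (∀ m, ∑ i, l i * l i * T m i i = 0) →
    (∀ m, hessφ l T H m ≤ 0) ∨ (∀ m, 0 ≤ hessφ l T H m) →
    ∑ i, l i * l i * l i = 0

def GoalC : Prop := ∀ (s : ℝ) (l : Fin 3 → ℝ) (T : Fin 3 → Fin 3 → Fin 3 → ℝ)
    (H : Fin 3 → Fin 3 → Fin 3 → Fin 3 → ℝ) (E : Fin 3 → Fin 3 → Fin 3 → Fin 3 → Fin 3 → ℝ),
    3 < s → Pt s l T H → l 0 > l 1 → l 1 > l 2 → Ker l T H E →
    ∀ n m k i j, E n m k i j = 0

end Bry
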