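import Pool.Agent.Lib.MP_2b07f9_gt.Field
import Pool.Agent.Lib.MP_2b07f9_gt.Pt

/-!
Interface between Parts I+II (geometry, tensor identities) and the closure argument.
-/

set_option autoImplicit false

open Finset MvPolynomial

namespace Bry

/-- indices of `λ` and `T` -/
abbrev Al := Fin 3 ⊕ (Fin 3 × Fin 3 × Fin 3)
/-- indices of `H` : `(m,k,i,j)` stands for `H m k i j`. -/
abbrev Om := Fin 3 × Fin 3 × Fin 3 × Fin 3
abbrev Sg := Al ⊕ Om

/-- the point of jet space -/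
def zz (l : Fin 3 → ℝ) (T : Fin 3 → Fin 3 → Fin 3 → ℝ) (H : Fin 3 → Fin 3 → Fin 3 → Fin 3 → ℝ) :
    Sg → ℝ
  | Sum.inl (Sum.inl i) => l i
  | Sum.inl (Sum.inr (k, i, j)) => T k i j
  | Sum.inr (m, k, i, j) => H m k i j

/-- connection coefficients in a principal frame (`x / 0 = 0`). -/
noncomputable def Gam (l : Fin 3 → ℝ) (T : Fin 3 → Fin 3 → Fin 3 → ℝ) (m i j : Fin 3) : ℝ :=
  T m i j / (l i - l j)

/-- the derivative of the jet in direction `n`. -/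
noncomputable def VV (l : Fin 3 → ℝ) (T : Fin 3 → Fin 3 → Fin 3 → ℝ)
    (H : Fin 3 → Fin 3 → Fin 3 → Fin 3 → ℝ)
    (X : Fin 3 → Fin 3 → Fin 3 → Fin 3 → Fin 3 → ℝ) (n : Fin 3) : Sg → ℝ
  | Sum.inl (Sum.inl i) => T n i i
  | Sum.inl (Sum.inr (k, i, j)) => H n k i j + ∑ p, Gam l T n k p * T p i j
      + ∑ p, Gam l T n i p * T k p j + ∑ p, Gam l T n j p * T k i p
  | Sum.inr (m, k, i, j) => X n m k i j + ∑ p, Gam l T n m p * H p k i j
      + ∑ p, Gam l T n k p * H m p i j + ∑ p, Gam l T n i p * H m k p j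
      + ∑ p, Gam l T n j p * H m k i p

/-- curvature in a principal frame -/
def RmR (l : Fin 3 → ℝ) (i j k m : Fin 3) : ℝ :=
  (1 + l i * l j) * (dl i k * dl j m - dl i m * dl j k)

/-- commutator on `T` -/
def sigR (l : Fin 3 → ℝ) (T : Fin 3 → Fin 3 → Fin 3 → ℝ) (n m k i j : Fin 3) : ℝ :=
  ∑ p, (RmR l n m k p * T p i j + RmR l n m i p * T k p j + RmR l n m j p * T k i p)

/-- Everything that Parts I and II provide, on a set `β` of points. -/
structure JetData (β : Type*) where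
  s : ℝ
  l : β → Fin 3 → ℝ
  T : β → Fin 3 → Fin 3 → Fin 3 → ℝ
  H : β → Fin 3 → Fin 3 → Fin 3 → Fin 3 → ℝ
  X : β → Fin 3 → Fin 3 → Fin 3 → Fin 3 → Fin 3 → ℝ
  pt : ∀ x, Pt s (l x) (T x) (H x)
  ord : ∀ x, l x 1 < l x 0 ∧ l x 2 < l x 1
  comm : ∀ x n m k i j, X x n m k i j - X x m n k i j = sigR (l x) (T x) n m k i j
  chain : ∀ p : MvPolynomial Sg ℝ, (∀ x, eval (zz (l x) (T x) (H x)) p = 0) → ∀ x n,
    ∑ j, eval (zz (l x) (T x) (H x)) (pderiv j p) * VV (l x) (T x) (H x) (X x) n j = 0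

/-- GOAL of the closure argument (assembly A). -/
def GoalClosure : Prop := GoalN1 → GoalN2 → GoalLap → GoalN3 → GoalC →
  ∀ (β : Type) (J : JetData β), 3 < J.s → ∃ c : ℝ, ∀ x, ∑ i, J.l x i * J.l x i * J.l x i = c

end Bry
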