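import Pool.Agent.Lib.MP_2b07f9_gt.FramePt
import Pool.Agent.Lib.MP_2b07f9_gt.JetData

/-! `Frame` over a subalgebra of functions gives `JetData`. -/

set_option autoImplicit false
set_option linter.unusedSimpArgs false

open Finset MvPolynomial

namespace Bry

/-- chain rule for derivations and polynomials -/
theorem deriv_aeval {R σ : Type*} [CommRing R] [Algebra ℝ R] [Fintype σ] (D : Derivation ℝ R R)
    (Z : σ → R) (p : MvPolynomial σ ℝ) :
    D (aeval Z p) = ∑ j, aeval Z (pderiv j p) * D (Z j) := by
  classical
  induction p using MvPolynomial.induction_on with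
  | C a => simp [aeval_C, pderiv_C]
  | add p q hp hq => simp only [map_add, hp, hq, add_mul, sum_add_distrib]
  | mul_X p i hp =>
    simp only [map_mul, aeval_X, Derivation.leibniz, smul_eq_mul, hp, map_add, add_mul,
      sum_add_distrib]
    congr 1
    · rw [sum_eq_single i]
      · simp
      · intro j _ hj
        simp [pderiv_X, hj.symm]
      · simp
    · rw [mul_sum]
      exact sum_congr rfl fun j _ => by ring

theorem D_A {R : Type*} [CommRing R] [Algebra ℝ R] (F : Frame R)
    (hd : ∀ i j, i ≠ j → F.A i j = 0) (n i : Fin 3) : F.D n (F.A i i) = F.T n i i := by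
  unfold Frame.T
  have h0 : F.Γ n i i = 0 := by
    have := F.anti n i i
    exact Frame.two_cancel (by rw [two_mul]; nth_rewrite 2 [this]; ring)
  rw [sum_eq_single i, sum_eq_single i, h0]
  · ring
  · intro m _ hm
    rw [hd i m (Ne.symm hm), mul_zero]
  · simp
  · intro m _ hm
    rw [hd m i hm, mul_zero]
  · simp

theorem exists_jetData0 {β : Type} (A : Subalgebra ℝ (β → ℝ)) (F : Frame A)
    (hd : ∀ i j, i ≠ j → F.A i j = 0)
    (hord : ∀ x : β, (F.A 1 1 : β → ℝ) x < (F.A 0 0 : β → ℝ) x ∧
      (F.A 2 2 : β → ℝ) x < (F.A 1 1 : β → ℝ) x) :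
    ∃ J : JetData β, J.s = F.s ∧ (∀ x i, J.l x i = (F.A i i : β → ℝ) x) ∧
      (∀ x k i j, J.T x k i j = (F.T k i j : β → ℝ) x) := by
  classical
  -- ring element of each index
  let Z : Sg → A := fun j => match j with
    | Sum.inl (Sum.inl i) => F.A i i
    | Sum.inl (Sum.inr (k, i, j)) => F.T k i j
    | Sum.inr (m, k, i, j) => F.H m k i j
  let l : β → Fin 3 → ℝ := fun x i => evA A x (F.A i i)
  let T : β → Fin 3 → Fin 3 → Fin 3 → ℝ := fun x k i j => evA A x (F.T k i j)
  let H : β → Fin 3 → Fin 3 → Fin 3 → Fin 3 → ℝ := fun x m k i j => evA A x (F.H m k i j)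
  let X : β → Fin 3 → Fin 3 → Fin 3 → Fin 3 → Fin 3 → ℝ := fun x n m k i j => evA A x (F.X n m k i j)
  have hz : ∀ x j, evA A x (Z j) = zz (l x) (T x) (H x) j := by
    intro x j
    rcases j with (i | ⟨k, i, j⟩) | ⟨m, k, i, j⟩ <;> rfl
  have hne : ∀ x i j, i ≠ j → l x i - l x j ≠ 0 := by
    intro x i j hij
    obtain ⟨h1, h2⟩ := hord x
    have h1' : l x 1 < l x 0 := h1
    have h2' : l x 2 < l x 1 := h2
    fin_cases i <;> fin_cases j <;> first | exact absurd rfl hij | skip
    all_goals
      simp only [Fin.zero_eta, Fin.mk_one, Fin.reduceFinMk, ne_eq]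
      intro h
      linarith
  -- Gamma
  have hG : ∀ x n i j, evA A x (F.Γ n i j) = Gam (l x) (T x) n i j := by
    intro x n i j
    unfold Gam
    by_cases hij : i = j
    · subst hij
      have h1 : F.Γ n i i = - F.Γ n i i := F.anti n i i
      have h2 := congrArg (evA A x) h1
      rw [map_neg] at h2
      have h3 : evA A x (F.Γ n i i) = 0 := by linarith
      rw [h3, sub_self, div_zero]
    · have h1 : F.T n i j = F.Γ n i j * (F.A i i - F.A j j) := by
        unfold Frame.T
        rw [hd i j hij, map_zero, sum_eq_single j, sum_eq_single i, F.anti n j i]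
        · ring
        · intro m _ hm
          rw [hd i m (Ne.symm hm), mul_zero]
        · simp
        · intro m _ hm
          rw [hd m j hm, mul_zero]
        · simp
      have h2 := congrArg (evA A x) h1
      rw [map_mul, map_sub] at h2
      have h3 : T x n i j = evA A x (F.Γ n i j) * (l x i - l x j) := h2
      rw [h3, mul_div_assoc, div_self (hne x i j hij), mul_one]
  have hV : ∀ x n j, evA A x (F.D n (Z j)) = VV (l x) (T x) (H x) (X x) n j := by
    intro x n j
    rcases j with (i | ⟨k, i, j⟩) | ⟨m, k, i, j⟩
    · -- lambda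
      have h1 : F.D n (F.A i i) = F.T n i i := D_A F hd n i
      exact congrArg (evA A x) h1
    · have h1 : F.D n (F.T k i j) = F.H n k i j + ∑ p, F.Γ n k p * F.T p i j
          + ∑ p, F.Γ n i p * F.T k p j + ∑ p, F.Γ n j p * F.T k i p := by
        unfold Frame.H; ring
      have h2 := congrArg (evA A x) h1
      simp only [map_add, map_sum, map_mul, hG] at h2
      exact h2
    · have h1 : F.D n (F.H m k i j) = F.X n m k i j + ∑ p, F.Γ n m p * F.H p k i j
          + ∑ p, F.Γ n k p * F.H m p i j + ∑ p, F.Γ n i p * F.H m k p j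
          + ∑ p, F.Γ n j p * F.H m k i p := by
        unfold Frame.X; ring
      have h2 := congrArg (evA A x) h1
      simp only [map_add, map_sum, map_mul, hG] at h2
      exact h2
  have hev : ∀ x (p : MvPolynomial Sg ℝ), evA A x (aeval Z p) = eval (zz (l x) (T x) (H x)) p := by
    intro x p
    have h1 : evA A x (aeval Z p) = aeval (fun j => evA A x (Z j)) p := by
      rw [← AlgHom.comp_apply, comp_aeval]
    rw [h1]
    simp only [hz]
    rfl
  refine ⟨{ s := F.s, l := l, T := T, H := H, X := X, pt := fun x => pt_of_frame A F hd x,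
            ord := hord, comm := ?_, chain := ?_ }, rfl, fun _ _ => rfl, fun _ _ _ _ => rfl⟩
  · intro x n m k i j
    have h1 := congrArg (evA A x) (F.ricciT n m k i j)
    have hA : ∀ i j, evA A x (F.A i j) = dl i j * l x i := by
      intro i j
      by_cases hij : i = j
      · subst hij
        simp only [dl, if_true, one_mul]
        rfl
      · rw [hd i j hij, map_zero]
        simp [dl, hij]
    have hRm : ∀ i j k m, evA A x (F.Rm i j k m) = RmR (l x) i j k m := by
      intro i j k m
      unfold Frame.Rm RmR
      simp only [map_sub, map_add, map_mul, ev_dl, hA]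
      ring
    unfold Frame.sig at h1
    simp only [map_sub, map_sum, map_add, map_mul, hRm] at h1
    exact h1
  · intro p hp x n
    have h0 : aeval Z p = 0 := by
      apply Subtype.ext
      funext y
      have := hev y p
      rw [hp y] at this
      exact this
    have h1 := deriv_aeval (F.D n) Z p
    rw [h0, map_zero] at h1
    have h2 := congrArg (evA A x) h1
    simp only [map_zero, map_sum, map_mul, hev, hV] at h2
    exact h2.symm

end Bry
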