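import Pool.Agent.Lib.MP_2b07f9_gt.JetData

/-!
# The closure argument (assembly A)

From the pointwise statements `GoalN1`, `GoalN2`, `GoalLap`, `GoalN3`, `GoalC` and the jet data we
get that `tr A³` is constant.
-/

set_option autoImplicit false

open Finset MvPolynomial Topology Filter Set

namespace Bry

/-! ## polynomial coordinates -/

noncomputable def lP (i : Fin 3) : MvPolynomial Sg ℝ := X (Sum.inl (Sum.inl i))
noncomputable def TP (k i j : Fin 3) : MvPolynomial Sg ℝ := X (Sum.inl (Sum.inr (k, i, j)))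
noncomputable def HP (m k i j : Fin 3) : MvPolynomial Sg ℝ := X (Sum.inr (m, k, i, j))

def lv (y : Sg → ℝ) (i : Fin 3) : ℝ := y (Sum.inl (Sum.inl i))
def Tv (y : Sg → ℝ) (k i j : Fin 3) : ℝ := y (Sum.inl (Sum.inr (k, i, j)))
def Hv (y : Sg → ℝ) (m k i j : Fin 3) : ℝ := y (Sum.inr (m, k, i, j))

theorem eval_lP (y : Sg → ℝ) (i : Fin 3) : eval y (lP i) = lv y i := by simp [lP, lv]
theorem eval_TP (y : Sg → ℝ) (k i j : Fin 3) : eval y (TP k i j) = Tv y k i j := by
  simp [TP, Tv]
theorem eval_HP (y : Sg → ℝ) (m k i j : Fin 3) : eval y (HP m k i j) = Hv y m k i j := by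
  simp [HP, Hv]
theorem eval_dl (y : Sg → ℝ) (i j : Fin 3) : eval y (dl i j : MvPolynomial Sg ℝ) = dl i j := by
  unfold dl; split_ifs <;> simp

theorem lv_zz (l : Fin 3 → ℝ) (T : Fin 3 → Fin 3 → Fin 3 → ℝ)
    (H : Fin 3 → Fin 3 → Fin 3 → Fin 3 → ℝ) : lv (zz l T H) = l := rfl
theorem Tv_zz (l : Fin 3 → ℝ) (T : Fin 3 → Fin 3 → Fin 3 → ℝ)
    (H : Fin 3 → Fin 3 → Fin 3 → Fin 3 → ℝ) : Tv (zz l T H) = T := rfl
theorem Hv_zz (l : Fin 3 → ℝ) (T : Fin 3 → Fin 3 → Fin 3 → ℝ)
    (H : Fin 3 → Fin 3 → Fin 3 → Fin 3 → ℝ) : Hv (zz l T H) = H := rfl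

theorem zz_v (y : Sg → ℝ) : zz (lv y) (Tv y) (Hv y) = y := by
  funext j
  rcases j with (i | ⟨k, i, j⟩) | ⟨m, k, i, j⟩ <;> rfl

section

variable {β : Type} (J : JetData β)

/-- the jet at `x` as a point. -/
def JetData.z (x : β) : Sg → ℝ := zz (J.l x) (J.T x) (J.H x)

/-- the real Zariski closure of the jet image -/
def JetData.Y : Set (Sg → ℝ) := {y | ∀ p ∈ van J.z, eval y p = 0}

theorem JetData.z_mem (x : β) : J.z x ∈ J.Y := fun p hp => (mem_van J.z p).1 hp x

variable {J}

theorem clos {y : Sg → ℝ} (hy : y ∈ J.Y) (p q : MvPolynomial Sg ℝ)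
    (h : ∀ x, eval (J.z x) p = eval (J.z x) q) : eval y p = eval y q := by
  have h1 := hy (p - q) ((mem_van _ _).2 fun x => by rw [map_sub, h x, sub_self])
  rw [map_sub] at h1
  linarith

theorem eval_jet_l (x : β) (i : Fin 3) : eval (J.z x) (lP i) = J.l x i := by
  rw [eval_lP]; rfl
theorem eval_jet_T (x : β) (k i j : Fin 3) : eval (J.z x) (TP k i j) = J.T x k i j := by
  rw [eval_TP]; rfl
theorem eval_jet_H (x : β) (m k i j : Fin 3) : eval (J.z x) (HP m k i j) = J.H x m k i j := by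
  rw [eval_HP]; rfl

end

/-! ## the polynomial identities -/

noncomputable def ricR (m k i j : Fin 3) : MvPolynomial Sg ℝ :=
  (lP j - lP i) * (1 + lP m * lP k) * (dl m i * dl k j - dl m j * dl k i)

noncomputable def lHP (m k : Fin 3) : MvPolynomial Sg ℝ :=
  ∑ i, lP i * HP m k i i + ∑ i, ∑ j, TP m i j * TP k i j

noncomputable def TTP : MvPolynomial Sg ℝ := ∑ k, ∑ i, ∑ j, TP k i j * TP k i j

noncomputable def MP (m : Fin 3) : MvPolynomial Sg ℝ := ∑ k, ∑ i, ∑ j, TP k i j * HP m k i j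

noncomputable def K1L : MvPolynomial Sg ℝ := ∑ m, ∑ k, ∑ i, ∑ j, HP m k i j * HP m k i j

noncomputable def K1R (s : ℝ) : MvPolynomial Sg ℝ :=
  (C s - 9) * ∑ k, ∑ i, ∑ j, TP k i j * TP k i j
        + 3 * ∑ k, ∑ i, ∑ j, lP k * lP k * (TP k i j * TP k i j)
        - 6 * ∑ k, ∑ i, ∑ j, lP k * lP i * (TP k i j * TP k i j)

noncomputable def K2L (s : ℝ) : MvPolynomial Sg ℝ :=
  ∑ m, lP m * ∑ k, ∑ i, ∑ j, HP m k i j * HP m k i j
      - 3 * ∑ k, ∑ i, ∑ j, ∑ m, ∑ n, TP k i j * TP k m n * HP i j m n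
      + (3 * (1 + C s)) * ∑ k, ∑ i, ∑ j, lP k * (TP k i j * TP k i j)
      + 6 * ∑ k, ∑ i, ∑ j, lP k * lP k * lP i * (TP k i j * TP k i j)
      - 3 * ∑ k, ∑ i, ∑ j, lP k * lP k * lP k * (TP k i j * TP k i j)
      - (∑ i, lP i * lP i * lP i) * ∑ k, ∑ i, ∑ j, TP k i j * TP k i j

section

variable {β : Type} {J : JetData β}

/-- every point of the closure satisfies the second order identities. -/
theorem pt_of_mem {y : Sg → ℝ} (hy : y ∈ J.Y) : Pt J.s (lv y) (Tv y) (Hv y) where
  T12 k i j := by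
    have h := clos hy (TP k i j) (TP i k j) fun x => by
      simp only [eval_jet_T]; exact (J.pt x).T12 k i j
    simpa only [eval_TP] using h
  T23 k i j := by
    have h := clos hy (TP k i j) (TP k j i) fun x => by
      simp only [eval_jet_T]; exact (J.pt x).T23 k i j
    simpa only [eval_TP] using h
  H23 m k i j := by
    have h := clos hy (HP m k i j) (HP m i k j) fun x => by
      simp only [eval_jet_H]; exact (J.pt x).H23 m k i j
    simpa only [eval_HP] using h
  H34 m k i j := by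
    have h := clos hy (HP m k i j) (HP m k j i) fun x => by
      simp only [eval_jet_H]; exact (J.pt x).H34 m k i j
    simpa only [eval_HP] using h
  ric m k i j := by
    have h := clos hy (HP m k i j - HP k m i j) (ricR m k i j) fun x => by
      simp only [ricR, map_sub, map_add, map_mul, map_one, eval_jet_H, eval_jet_l, eval_dl]
      exact (J.pt x).ric m k i j
    simpa only [ricR, map_sub, map_add, map_mul, map_one, eval_HP, eval_lP, eval_dl] using h
  tr := by
    have h := clos hy (∑ i, lP i) 0 fun x => by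
      simp only [map_sum, map_zero, eval_jet_l]; exact (J.pt x).tr
    simpa only [map_sum, map_zero, eval_lP] using h
  trT k := by
    have h := clos hy (∑ i, TP k i i) 0 fun x => by
      simp only [map_sum, map_zero, eval_jet_T]; exact (J.pt x).trT k
    simpa only [map_sum, map_zero, eval_TP] using h
  trH m k := by
    have h := clos hy (∑ i, HP m k i i) 0 fun x => by
      simp only [map_sum, map_zero, eval_jet_H]; exact (J.pt x).trH m k
    simpa only [map_sum, map_zero, eval_HP] using h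
  nrm := by
    have h := clos hy (∑ i, lP i * lP i) (C J.s) fun x => by
      simp only [map_sum, map_mul, eval_C, eval_jet_l]; exact (J.pt x).nrm
    simpa only [map_sum, map_mul, eval_C, eval_lP] using h
  lT k := by
    have h := clos hy (∑ i, lP i * TP k i i) 0 fun x => by
      simp only [map_sum, map_mul, map_zero, eval_jet_l, eval_jet_T]; exact (J.pt x).lT k
    simpa only [map_sum, map_mul, map_zero, eval_lP, eval_TP] using h
  lH m k := by
    have h := clos hy (lHP m k) 0 fun x => by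
      simp only [lHP, map_add, map_sum, map_mul, map_zero, eval_jet_l, eval_jet_T, eval_jet_H]
      exact (J.pt x).lH m k
    simpa only [lHP, map_add, map_sum, map_mul, map_zero, eval_lP, eval_TP, eval_HP] using h
  C1 := by
    have h := clos hy TTP (C (J.s * (J.s - 3))) fun x => by
      simp only [TTP, map_sum, map_mul, eval_C, eval_jet_T]; exact (J.pt x).C1
    simpa only [TTP, map_sum, map_mul, eval_C, eval_TP] using h
  M m := by
    have h := clos hy (MP m) 0 fun x => by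
      simp only [MP, map_sum, map_mul, map_zero, eval_jet_T, eval_jet_H]; exact (J.pt x).M m
    simpa only [MP, map_sum, map_mul, map_zero, eval_TP, eval_HP] using h
  K1 := by
    have h := clos hy K1L (K1R J.s) fun x => by
      simp only [K1L, K1R, map_sum, map_mul, map_add, map_sub, map_ofNat, eval_C, eval_jet_l,
        eval_jet_T, eval_jet_H]
      exact (J.pt x).K1
    simpa only [K1L, K1R, map_sum, map_mul, map_add, map_sub, map_ofNat, eval_C, eval_lP,
        eval_TP, eval_HP] using h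
  K2 := by
    have h := clos hy (K2L J.s) 0 fun x => by
      simp only [K2L, map_sum, map_mul, map_add, map_sub, map_ofNat, map_one, map_zero, eval_C,
        eval_jet_l, eval_jet_T, eval_jet_H]
      exact (J.pt x).K2
    simpa only [K2L, map_sum, map_mul, map_add, map_sub, map_ofNat, map_one, map_zero, eval_C,
      eval_lP, eval_TP, eval_HP] using h

end

/-! ## the kernel -/

/-- the constant vector field in the directions `H`. -/
noncomputable def W0 (E : Fin 3 × Om → ℝ) (n : Fin 3) : Sg → MvPolynomial Sg ℝ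
  | Sum.inl _ => 0
  | Sum.inr h => C (E (n, h))

theorem vf_sub {σ : Type*} [Fintype σ] (W : σ → MvPolynomial σ ℝ) (p q : MvPolynomial σ ℝ) :
    vf W (p - q) = vf W p - vf W q := by
  simp [vf, mul_sub, Finset.sum_sub_distrib]

theorem vf_zero {σ : Type*} [Fintype σ] (W : σ → MvPolynomial σ ℝ) : vf W 0 = 0 := by
  simp [vf]

theorem vf_one {σ : Type*} [Fintype σ] (W : σ → MvPolynomial σ ℝ) : vf W 1 = 0 := by
  simpa using vf_C W 1

theorem vf_three {σ : Type*} [Fintype σ] (W : σ → MvPolynomial σ ℝ) : vf W 3 = 0 := by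
  have h : (3 : MvPolynomial σ ℝ) = C (3 : ℝ) := by rw [map_ofNat]
  rw [h]; exact vf_C W _

theorem vf_six {σ : Type*} [Fintype σ] (W : σ → MvPolynomial σ ℝ) : vf W 6 = 0 := by
  have h : (6 : MvPolynomial σ ℝ) = C (6 : ℝ) := by rw [map_ofNat]
  rw [h]; exact vf_C W _

theorem vf_nine {σ : Type*} [Fintype σ] (W : σ → MvPolynomial σ ℝ) : vf W 9 = 0 := by
  have h : (9 : MvPolynomial σ ℝ) = C (9 : ℝ) := by rw [map_ofNat]
  rw [h]; exact vf_C W _

theorem vf_sum {σ ι : Type*} [Fintype σ] (W : σ → MvPolynomial σ ℝ) (S : Finset ι)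
    (p : ι → MvPolynomial σ ℝ) : vf W (∑ i ∈ S, p i) = ∑ i ∈ S, vf W (p i) := by
  classical
  induction S using Finset.induction_on with
  | empty => simp [vf_zero]
  | insert a S ha ih => rw [Finset.sum_insert ha, Finset.sum_insert ha, vf_add, ih]

theorem vf_neg {σ : Type*} [Fintype σ] (W : σ → MvPolynomial σ ℝ) (p : MvPolynomial σ ℝ) :
    vf W (-p) = - vf W p := by
  simp [vf]

theorem vf_lP (W : Sg → MvPolynomial Sg ℝ) (i : Fin 3) :
    vf W (lP i) = W (Sum.inl (Sum.inl i)) := vf_X W _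
theorem vf_TP (W : Sg → MvPolynomial Sg ℝ) (k i j : Fin 3) :
    vf W (TP k i j) = W (Sum.inl (Sum.inr (k, i, j))) := vf_X W _
theorem vf_HP (W : Sg → MvPolynomial Sg ℝ) (m k i j : Fin 3) :
    vf W (HP m k i j) = W (Sum.inr (m, k, i, j)) := vf_X W _
theorem vf_dl (W : Sg → MvPolynomial Sg ℝ) (i j : Fin 3) :
    vf W (dl i j : MvPolynomial Sg ℝ) = 0 := by
  unfold dl; split_ifs <;> simp [vf_one, vf_zero]

section

variable {β : Type} {J : JetData β}

theorem closD {y : Sg → ℝ} {E : Fin 3 × Om → ℝ}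
    (hE : ∀ p ∈ van J.z, ∀ m, ∑ h, eval y (pderiv (Sum.inr h) p) * E (m, h) = 0)
    (p q : MvPolynomial Sg ℝ)
    (h : ∀ x, eval (J.z x) p = eval (J.z x) q) (n : Fin 3) :
    eval y (vf (W0 E n) p) = eval y (vf (W0 E n) q) := by
  have h1 := hE (p - q) ((mem_van _ _).2 fun x => by rw [map_sub, h x, sub_self]) n
  have h2 : eval y (vf (W0 E n) (p - q)) = 0 := by
    rw [← h1]
    simp only [vf, map_sum, map_mul, Fintype.sum_sum_type, W0, zero_mul,
      Finset.sum_const_zero, zero_add, eval_C]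
    exact Finset.sum_congr rfl fun h _ => by ring
  rw [vf_sub, map_sub] at h2
  linarith

theorem ker_of {y : Sg → ℝ} {E : Fin 3 × Om → ℝ}
    (hE : ∀ p ∈ van J.z, ∀ m, ∑ h, eval y (pderiv (Sum.inr h) p) * E (m, h) = 0)
    (hE12 : ∀ n m k i j, E (n, m, k, i, j) = E (m, n, k, i, j)) :
    Ker (lv y) (Tv y) (Hv y) (fun n m k i j => E (n, m, k, i, j)) where
  E12 := hE12
  E23 n m k i j := by
    have h := closD hE (HP m k i j - HP k m i j) (ricR m k i j) (fun x => by
      simp only [ricR, map_sub, map_add, map_mul, map_one, eval_jet_H, eval_jet_l, eval_dl]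
      exact (J.pt x).ric m k i j) n
    simp only [ricR, vf_sub, vf_mul, vf_add, vf_one, vf_HP, vf_lP, vf_dl, W0, map_sub,
      eval_C, map_zero, mul_zero, zero_mul, sub_zero, add_zero] at h
    linarith
  E34 n m k i j := by
    have h := closD hE (HP m k i j) (HP m i k j) (fun x => by
      simp only [eval_jet_H]; exact (J.pt x).H23 m k i j) n
    simpa only [vf_HP, W0, eval_C] using h
  E45 n m k i j := by
    have h := closD hE (HP m k i j) (HP m k j i) (fun x => by
      simp only [eval_jet_H]; exact (J.pt x).H34 m k i j) n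
    simpa only [vf_HP, W0, eval_C] using h
  tr n m k := by
    have h := closD hE (∑ i, HP m k i i) 0 (fun x => by
      simp only [map_sum, map_zero, eval_jet_H]; exact (J.pt x).trH m k) n
    simpa only [vf_sum, vf_HP, vf_zero, W0, map_sum, map_zero, eval_C] using h
  lE n m k := by
    have h := closD hE (lHP m k) 0 (fun x => by
      simp only [lHP, map_add, map_sum, map_mul, map_zero, eval_jet_l, eval_jet_T, eval_jet_H]
      exact (J.pt x).lH m k) n
    simpa only [lHP, vf_add, vf_mul, vf_sum, vf_HP, vf_lP, vf_TP, vf_zero, W0, map_add, map_mul,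
      map_sum, map_zero, eval_C, eval_lP, zero_mul, mul_zero, add_zero, zero_add,
      Finset.sum_const_zero] using h
  TE n m := by
    have h := closD hE (MP m) 0 (fun x => by
      simp only [MP, map_sum, map_mul, map_zero, eval_jet_T, eval_jet_H]; exact (J.pt x).M m) n
    simpa only [MP, vf_add, vf_mul, vf_sum, vf_HP, vf_TP, vf_zero, W0, map_add, map_mul,
      map_sum, map_zero, eval_C, eval_TP, zero_mul, mul_zero, add_zero, zero_add,
      Finset.sum_const_zero] using h
  HE n := by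
    have h := closD hE K1L (K1R J.s) (fun x => by
      simp only [K1L, K1R, map_sum, map_mul, map_add, map_sub, map_ofNat, eval_C, eval_jet_l,
        eval_jet_T, eval_jet_H]
      exact (J.pt x).K1) n
    simp only [K1L, K1R, vf_add, vf_sub, vf_mul, vf_sum, vf_HP, vf_TP, vf_lP, vf_C, vf_three,
      vf_six, vf_nine, W0, map_add, map_sub, map_mul, map_sum, map_zero, eval_C, eval_HP, zero_mul,
      mul_zero, add_zero, sub_zero, Finset.sum_const_zero] at h
    have h2 : ∑ m, ∑ k, ∑ i, ∑ j, (E (n, m, k, i, j) * Hv y m k i j + Hv y m k i j * E (n, m, k, i, j))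
        = 2 * ∑ m, ∑ k, ∑ i, ∑ j, Hv y m k i j * E (n, m, k, i, j) := by
      simp only [Finset.mul_sum]
      refine Finset.sum_congr rfl fun m _ => Finset.sum_congr rfl fun k _ =>
        Finset.sum_congr rfl fun i _ => Finset.sum_congr rfl fun j _ => by ring
    rw [h2] at h
    linarith
  K2E n := by
    have h := closD hE (K2L J.s) 0 (fun x => by
      simp only [K2L, map_sum, map_mul, map_add, map_sub, map_ofNat, map_one, map_zero, eval_C,
        eval_jet_l, eval_jet_T, eval_jet_H]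
      exact (J.pt x).K2) n
    simp only [K2L, vf_add, vf_sub, vf_mul, vf_sum, vf_HP, vf_TP, vf_lP, vf_C, vf_three, vf_six, vf_one,
      vf_zero, W0, map_add, map_sub, map_mul, map_sum, map_zero, map_ofNat, eval_C, eval_HP,
      eval_TP, eval_lP, zero_mul,
      mul_zero, add_zero, zero_add, sub_zero, Finset.sum_const_zero] at h
    have h2 : ∑ m, lv y m * ∑ k, ∑ i, ∑ j, (E (n, m, k, i, j) * Hv y m k i j
          + Hv y m k i j * E (n, m, k, i, j))
        = 2 * ∑ m, lv y m * ∑ k, ∑ i, ∑ j, Hv y m k i j * E (n, m, k, i, j) := by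
      rw [Finset.mul_sum]
      refine Finset.sum_congr rfl fun m _ => ?_
      have : ∑ k, ∑ i, ∑ j, (E (n, m, k, i, j) * Hv y m k i j
          + Hv y m k i j * E (n, m, k, i, j))
          = 2 * ∑ k, ∑ i, ∑ j, Hv y m k i j * E (n, m, k, i, j) := by
        simp only [Finset.mul_sum]
        refine Finset.sum_congr rfl fun k _ =>
          Finset.sum_congr rfl fun i _ => Finset.sum_congr rfl fun j _ => by ring
      rw [this]; ring
    rw [h2] at h
    exact h

end

/-! ## the coefficients -/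

noncomputable def DP : MvPolynomial Sg ℝ := (lP 0 - lP 1) * (lP 1 - lP 2) * (lP 2 - lP 0)

/-- `D / (l i - l j)` -/
noncomputable def cc (i j : Fin 3) : MvPolynomial Sg ℝ :=
  (![![0, (lP 1 - lP 2) * (lP 2 - lP 0), -((lP 0 - lP 1) * (lP 1 - lP 2))],
    ![-((lP 1 - lP 2) * (lP 2 - lP 0)), 0, (lP 0 - lP 1) * (lP 2 - lP 0)],
    ![(lP 0 - lP 1) * (lP 1 - lP 2), -((lP 0 - lP 1) * (lP 2 - lP 0)), 0]] :
    Fin 3 → Fin 3 → MvPolynomial Sg ℝ) i j

noncomputable def aP (n : Fin 3) : Sg → MvPolynomial Sg ℝ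
  | Sum.inl (Sum.inl i) => DP * TP n i i
  | Sum.inl (Sum.inr (k, i, j)) => DP * HP n k i j + ∑ p, cc k p * TP n k p * TP p i j
      + ∑ p, cc i p * TP n i p * TP k p j + ∑ p, cc j p * TP n j p * TP k i p
  | Sum.inr (m, k, i, j) => ∑ p, cc m p * TP n m p * HP p k i j
      + ∑ p, cc k p * TP n k p * HP m p i j + ∑ p, cc i p * TP n i p * HP m k p j
      + ∑ p, cc j p * TP n j p * HP m k i p

theorem eval_cc_mul (y : Sg → ℝ) (h01 : lv y 1 < lv y 0) (h12 : lv y 2 < lv y 1)
    (n i j : Fin 3) :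
    eval y (cc i j) * Tv y n i j = eval y DP * Gam (lv y) (Tv y) n i j := by
  have e1 : lv y 0 - lv y 1 ≠ 0 := by intro h; linarith
  have e2 : lv y 1 - lv y 2 ≠ 0 := by intro h; linarith
  have e3 : lv y 0 - lv y 2 ≠ 0 := by intro h; linarith
  have e1' : lv y 1 - lv y 0 ≠ 0 := by intro h; linarith
  have e2' : lv y 2 - lv y 1 ≠ 0 := by intro h; linarith
  have e3' : lv y 2 - lv y 0 ≠ 0 := by intro h; linarith
  fin_cases i <;> fin_cases j <;> simp [cc, DP, Gam, eval_lP] <;> field_simp <;> ring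

theorem DP_ne {y : Sg → ℝ} (h01 : lv y 1 < lv y 0) (h12 : lv y 2 < lv y 1) :
    eval y DP ≠ 0 := by
  simp only [DP, map_mul, map_sub, eval_lP]
  refine mul_ne_zero (mul_ne_zero ?_ ?_) ?_ <;> intro h <;> linarith

noncomputable def swp (r : Fin 3 × Om) : Fin 3 × Om := (r.2.1, (r.1, r.2.2))

noncomputable def NP (r h : Fin 3 × Om) : MvPolynomial Sg ℝ :=
  (if h = r then 1 else 0) - (if h = swp r then 1 else 0)

noncomputable def RmP (i j k m : Fin 3) : MvPolynomial Sg ℝ :=
  (1 + lP i * lP j) * (dl i k * dl j m - dl i m * dl j k)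

noncomputable def rNP (r : Fin 3 × Om) : MvPolynomial Sg ℝ :=
  ∑ p, (RmP r.1 r.2.1 r.2.2.1 p * TP p r.2.2.2.1 r.2.2.2.2
    + RmP r.1 r.2.1 r.2.2.2.1 p * TP r.2.2.1 p r.2.2.2.2
    + RmP r.1 r.2.1 r.2.2.2.2 p * TP r.2.2.1 r.2.2.2.1 p)

theorem sum_NP (y : Sg → ℝ) (r : Fin 3 × Om) (E : Fin 3 × Om → ℝ) :
    ∑ h, eval y (NP r h) * E h = E r - E (swp r) := by
  simp only [NP, map_sub, sub_mul, Finset.sum_sub_distrib]
  congr 1
  · rw [Finset.sum_eq_single r]
    · simp
    · intro h _ hh; simp [hh]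
    · simp
  · rw [Finset.sum_eq_single (swp r)]
    · simp
    · intro h _ hh; simp [hh]
    · simp

section

variable {β : Type} (J : JetData β)

theorem field_of (J : JetData β) :
    ∃ (G : MvPolynomial Sg ℝ) (W : Fin 3 → Sg → MvPolynomial Sg ℝ),
      (∀ m, ∀ p ∈ van J.z, vf (W m) p ∈ van J.z) ∧
      (∀ m i, W m (Sum.inl i) = G * aP m (Sum.inl i)) ∧
      (∀ y ∈ J.Y, eval y DP ≠ 0 → eval y G = 0 →
        ∃ E : Fin 3 × Om → ℝ, E ≠ 0 ∧
          Ker (lv y) (Tv y) (Hv y) (fun n m k i j => E (n, m, k, i, j))) := by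
  have hG : ∀ x n i j, eval (J.z x) (cc i j) * J.T x n i j
      = eval (J.z x) DP * Gam (J.l x) (J.T x) n i j := fun x n i j =>
    eval_cc_mul (J.z x) (J.ord x).1 (J.ord x).2 n i j
  obtain ⟨G, W, h1, h2, h3⟩ := exists_field J.z DP aP
    (fun x m j => VV (J.l x) (J.T x) (J.H x) (J.X x) m j)
    (fun x h => J.X x h.1 h.2.1 h.2.2.1 h.2.2.2.1 h.2.2.2.2)
    (by
      intro x m i
      rcases i with i | ⟨k, i, j⟩
      · simp only [VV, aP, map_mul, eval_jet_T]
      · simp only [VV, aP, map_mul, map_add, map_sum, eval_jet_T, eval_jet_H, mul_add,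
          Finset.mul_sum, ← mul_assoc, ← hG])
    (by
      rintro x n ⟨m, k, i, j⟩
      simp only [VV, aP, map_mul, map_add, map_sum, eval_jet_T, eval_jet_H, mul_add,
          Finset.mul_sum, ← mul_assoc, ← hG]
      ring)
    (by
      intro p hp x n
      exact J.chain p (fun x => (mem_van J.z p).1 hp x) x n)
    NP rNP
    (by
      rintro x ⟨n, m, k, i, j⟩
      rw [sum_NP]
      simp only [rNP, RmP, swp, map_sum, map_mul, map_add, map_sub, map_one, eval_dl, eval_jet_T,
        eval_jet_l]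
      exact J.comm x n m k i j)
  refine ⟨G, W, h1, h2, fun y hy hD hG0 => ?_⟩
  obtain ⟨E, hE, hE1, hE2⟩ := h3 y hy hD hG0
  refine ⟨E, hE, ker_of hE1 fun n m k i j => ?_⟩
  have := hE2 (n, m, k, i, j)
  rw [sum_NP] at this
  simp only [swp] at this
  linarith

/-! ## compactness -/

theorem le_sum1 (f : Fin 3 → ℝ) (hf : ∀ k, 0 ≤ f k) (k : Fin 3) :
    f k ≤ ∑ k, f k :=
  Finset.single_le_sum (f := f) (fun k _ => hf k) (Finset.mem_univ k)

theorem le_sum2 (f : Fin 3 → Fin 3 → ℝ) (hf : ∀ k i, 0 ≤ f k i) (k i : Fin 3) :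
    f k i ≤ ∑ k, ∑ i, f k i :=
  (le_sum1 (f k) (hf k) i).trans
    (le_sum1 (fun k => ∑ i, f k i) (fun k => Finset.sum_nonneg fun i _ => hf k i) k)

theorem le_sum3 (f : Fin 3 → Fin 3 → Fin 3 → ℝ) (hf : ∀ k i j, 0 ≤ f k i j) (k i j : Fin 3) :
    f k i j ≤ ∑ k, ∑ i, ∑ j, f k i j :=
  (le_sum2 (f k) (hf k) i j).trans
    (le_sum1 (fun k => ∑ i, ∑ j, f k i j)
      (fun k => Finset.sum_nonneg fun i _ => Finset.sum_nonneg fun j _ => hf k i j) k)

theorem le_sum4 (f : Fin 3 → Fin 3 → Fin 3 → Fin 3 → ℝ) (hf : ∀ m k i j, 0 ≤ f m k i j)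
    (m k i j : Fin 3) :
    f m k i j ≤ ∑ m, ∑ k, ∑ i, ∑ j, f m k i j :=
  (le_sum3 (f m) (hf m) k i j).trans
    (le_sum1 (fun m => ∑ k, ∑ i, ∑ j, f m k i j)
      (fun m => Finset.sum_nonneg fun k _ => Finset.sum_nonneg fun i _ =>
        Finset.sum_nonneg fun j _ => hf m k i j) m)

theorem bound_of_sq {a R : ℝ} (h : a * a ≤ R) : |a| ≤ R + 1 := by
  rw [abs_le]; constructor <;> nlinarith [sq_nonneg (a - 1), sq_nonneg (a + 1)]

theorem Pt.bound {s : ℝ} {l : Fin 3 → ℝ} {T : Fin 3 → Fin 3 → Fin 3 → ℝ}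
    {H : Fin 3 → Fin 3 → Fin 3 → Fin 3 → ℝ} (hs : 3 < s) (P : Pt s l T H) (j : Sg) :
    |zz l T H j| ≤ s + s * (s - 3) + (10 * s) * (s * (s - 3)) + 1 := by
  have hl : ∀ i, l i * l i ≤ s := fun i => by
    rw [← P.nrm]; exact le_sum1 (fun i => l i * l i) (fun i => mul_self_nonneg _) i
  have hT : ∀ k i j, T k i j * T k i j ≤ s * (s - 3) := fun k i j => by
    rw [← P.C1]; exact le_sum3 (fun k i j => T k i j * T k i j) (fun k i j => mul_self_nonneg _) k i j
  have hQ : 0 ≤ s * (s - 3) := by nlinarith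
  have hQ2 : 0 ≤ (10 * s) * (s * (s - 3)) := by positivity
  rcases j with (i | ⟨k, i, j⟩) | ⟨m, k, i, j⟩
  · have := bound_of_sq (hl i)
    simp only [zz]; linarith
  · have := bound_of_sq (hT k i j)
    simp only [zz]; linarith
  · have hH : H m k i j * H m k i j ≤ (10 * s) * (s * (s - 3)) := by
      refine (le_sum4 (fun m k i j => H m k i j * H m k i j) (fun m k i j => mul_self_nonneg _)
        m k i j).trans ?_
      rw [P.K1]
      have h1 : ∑ k, ∑ i, ∑ j, l k * l k * (T k i j * T k i j)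
          ≤ s * ∑ k, ∑ i, ∑ j, T k i j * T k i j := by
        simp only [Finset.mul_sum]
        refine Finset.sum_le_sum fun k _ => Finset.sum_le_sum fun i _ =>
          Finset.sum_le_sum fun j _ => ?_
        exact mul_le_mul_of_nonneg_right (hl k) (mul_self_nonneg _)
      have h2 : - ∑ k, ∑ i, ∑ j, l k * l i * (T k i j * T k i j)
          ≤ s * ∑ k, ∑ i, ∑ j, T k i j * T k i j := by
        simp only [Finset.mul_sum, ← Finset.sum_neg_distrib]
        refine Finset.sum_le_sum fun k _ => Finset.sum_le_sum fun i _ =>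
          Finset.sum_le_sum fun j _ => ?_
        have h3 : - (l k * l i) ≤ s := by nlinarith [hl k, hl i, mul_self_nonneg (l k + l i)]
        nlinarith [mul_le_mul_of_nonneg_right h3 (mul_self_nonneg (T k i j))]
      rw [P.C1] at h1 h2 ⊢
      nlinarith
    have := bound_of_sq hH
    have hs0 : 0 < s := by linarith
    simp only [zz]; linarith

/-- the ordered part of the closure -/
def JetData.Y' : Set (Sg → ℝ) := {y | y ∈ J.Y ∧ lv y 1 ≤ lv y 0 ∧ lv y 2 ≤ lv y 1}

theorem continuous_lv (i : Fin 3) : Continuous fun y : Sg → ℝ => lv y i := continuous_apply _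

theorem isCompact_Y' (hs : 3 < J.s) : IsCompact J.Y' := by
  apply Metric.isCompact_of_isClosed_isBounded
  · have h1 : IsClosed J.Y := by
      have : J.Y = ⋂ p ∈ van J.z, {y | eval y p = 0} := by
        ext y; simp [JetData.Y]
      rw [this]
      refine isClosed_biInter fun p _ => ?_
      exact isClosed_eq (contDiff_eval (n := 0) p).continuous continuous_const
    have h2 : IsClosed {y : Sg → ℝ | lv y 1 ≤ lv y 0} :=
      isClosed_le (continuous_lv 1) (continuous_lv 0)
    have h3 : IsClosed {y : Sg → ℝ | lv y 2 ≤ lv y 1} :=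
      isClosed_le (continuous_lv 2) (continuous_lv 1)
    exact h1.inter (h2.inter h3)
  · rw [Metric.isBounded_iff_subset_closedBall 0]
    refine ⟨J.s + J.s * (J.s - 3) + (10 * J.s) * (J.s * (J.s - 3)) + 1, fun y hy => ?_⟩
    rw [mem_closedBall_zero_iff]
    have hQ : 0 ≤ J.s * (J.s - 3) := by nlinarith
    have hQ2 : 0 ≤ (10 * J.s) * (J.s * (J.s - 3)) := by positivity
    rw [pi_norm_le_iff_of_nonneg (by linarith)]
    intro j
    have := Pt.bound hs (pt_of_mem hy.1) j
    rwa [zz_v] at this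

end

/-! ## the function `tr A³` -/

noncomputable def φP : MvPolynomial Sg ℝ := ∑ i, lP i * lP i * lP i

theorem eval_φP (y : Sg → ℝ) : eval y φP = ∑ i, lv y i * lv y i * lv y i := by
  simp only [φP, map_sum, map_mul, eval_lP]

noncomputable def QP (m : Fin 3) : MvPolynomial Sg ℝ := C 3 * ∑ i, lP i * lP i * TP m i i

theorem vf_φP (G : MvPolynomial Sg ℝ) (W : Sg → MvPolynomial Sg ℝ) (m : Fin 3)
    (hW : ∀ i, W (Sum.inl i) = G * aP m (Sum.inl i)) : vf W φP = (G * DP) * QP m := by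
  simp only [φP, QP, vf_sum, vf_mul, vf_lP, hW, aP, Finset.mul_sum]
  refine Finset.sum_congr rfl fun i _ => ?_
  rw [show (C 3 : MvPolynomial Sg ℝ) = 3 from map_ofNat _ _]
  ring

theorem eval_vf_QP (G : MvPolynomial Sg ℝ) (W : Sg → MvPolynomial Sg ℝ) (m : Fin 3)
    (hW : ∀ i, W (Sum.inl i) = G * aP m (Sum.inl i)) (y : Sg → ℝ) (s : ℝ)
    (P : Pt s (lv y) (Tv y) (Hv y)) (hc : ∀ m, ∑ i, lv y i * lv y i * Tv y m i i = 0) :
    eval y (vf W (QP m)) = eval y G * eval y DP * hessφ (lv y) (Tv y) (Hv y) m := by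
  simp only [QP, vf_sum, vf_mul, vf_lP, vf_TP, vf_C, hW, aP, hessφ, map_add, map_mul, map_sum,
    map_zero, zero_mul, zero_add, eval_lP, eval_TP, eval_HP, eval_C]
  have h0 := hc 0
  have h1 := hc 1
  have h2 := hc 2
  have t01 := P.T23 m 0 1
  have t02 := P.T23 m 0 2
  have t12 := P.T23 m 1 2
  simp only [Fin.sum_univ_three] at h0 h1 h2 ⊢
  simp only [cc, DP, map_add, map_sub, map_mul, map_neg, map_zero, eval_lP, Matrix.cons_val_zero,
    Matrix.cons_val_one, Matrix.cons_val]
  rw [← t01, ← t02, ← t12]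
  clear t01 t02 t12 hc
  obtain rfl | rfl | rfl : m = 0 ∨ m = 1 ∨ m = 2 := by fin_cases m <;> simp
  · simp only [Matrix.cons_val_zero, Matrix.cons_val_one, Matrix.cons_val, eval_lP, map_mul,
      map_sub, map_neg, map_zero]
    linear_combination (3 * eval y G) * ((lv y 1 - lv y 2) * (lv y 2 - lv y 0) * Tv y 0 0 1) * h1
      - (3 * eval y G) * ((lv y 0 - lv y 1) * (lv y 1 - lv y 2) * Tv y 0 0 2) * h2
  · simp only [Matrix.cons_val_zero, Matrix.cons_val_one, Matrix.cons_val, eval_lP, map_mul,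
      map_sub, map_neg, map_zero]
    linear_combination - (3 * eval y G) * ((lv y 1 - lv y 2) * (lv y 2 - lv y 0) * Tv y 1 1 0) * h0
      + (3 * eval y G) * ((lv y 0 - lv y 1) * (lv y 2 - lv y 0) * Tv y 1 1 2) * h2
  · simp only [Matrix.cons_val_zero, Matrix.cons_val_one, Matrix.cons_val, eval_lP, map_mul,
      map_sub, map_neg, map_zero]
    linear_combination (3 * eval y G) * ((lv y 0 - lv y 1) * (lv y 1 - lv y 2) * Tv y 2 2 0) * h0
      - (3 * eval y G) * ((lv y 0 - lv y 1) * (lv y 2 - lv y 0) * Tv y 2 2 1) * h1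

/-! ## critical points on the closure -/

section

variable {β : Type} {J : JetData β}

theorem crit (hs : 3 < J.s) (hN1 : GoalN1) (hC : GoalC)
    (ε : ℝ) (hε : ε ≠ 0) (y : Sg → ℝ) (hy : y ∈ J.Y')
    (hmax : ∀ᶠ z in 𝓝 y, z ∈ J.Y' → ε * eval z φP ≤ ε * eval y φP) :
    (∀ m, ∑ i, lv y i * lv y i * Tv y m i i = 0) ∧
    (∀ m, ε * hessφ (lv y) (Tv y) (Hv y) m ≤ 0) := by
  obtain ⟨G, W, hW, hWa, hker⟩ := field_of J
  have hP := pt_of_mem hy.1
  have hord := hN1 J.s (lv y) (Tv y) (Hv y) hs hP hy.2.1 hy.2.2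
  have hD : eval y DP ≠ 0 := DP_ne hord.1 hord.2
  have hG : eval y G ≠ 0 := by
    intro h0
    obtain ⟨E, hE, hK⟩ := hker y hy.1 hD h0
    apply hE
    funext ⟨n, m, k, i, j⟩
    exact hC J.s (lv y) (Tv y) (Hv y) _ hs hP hord.1 hord.2 hK n m k i j
  -- the order is strict near `y`
  have hnear : ∀ᶠ z in 𝓝 y, lv z 1 ≤ lv z 0 ∧ lv z 2 ≤ lv z 1 := by
    have h1 : ∀ᶠ z in 𝓝 y, lv z 1 < lv z 0 :=
      (continuous_lv 1).continuousAt.eventually_lt (continuous_lv 0).continuousAt hord.1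
    have h2 : ∀ᶠ z in 𝓝 y, lv z 2 < lv z 1 :=
      (continuous_lv 2).continuousAt.eventually_lt (continuous_lv 1).continuousAt hord.2
    filter_upwards [h1, h2] with z h1 h2 using ⟨h1.le, h2.le⟩
  have hmp : ∀ m, eval y (vf (W m) (C ε * φP)) = 0 ∧
      eval y (vf (W m) (vf (W m) (C ε * φP))) ≤ 0 := by
    intro m
    apply max_principle (van J.z) (W m) (hW m) (C ε * φP) y hy.1
    filter_upwards [hmax, hnear] with z h1 h2 h3
    simpa only [map_mul, eval_C] using h1 ⟨h3, h2⟩
  have hvC : ∀ m p, vf (W m) (C ε * p) = C ε * vf (W m) p := by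
    intro m p; rw [vf_mul, vf_C, zero_mul, zero_add]
  have hcrit : ∀ m, ∑ i, lv y i * lv y i * Tv y m i i = 0 := by
    intro m
    have h1 := (hmp m).1
    rw [hvC, vf_φP G (W m) m (hWa m)] at h1
    simp only [QP, map_mul, map_sum, eval_C, eval_lP, eval_TP] at h1
    rcases mul_eq_zero.1 h1 with h | h
    · exact absurd h hε
    rcases mul_eq_zero.1 h with h | h
    · exact absurd h (mul_ne_zero hG hD)
    · rcases mul_eq_zero.1 h with h | h
      · norm_num at h
      · exact h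
  refine ⟨hcrit, fun m => ?_⟩
  have h2 := (hmp m).2
  rw [hvC, vf_φP G (W m) m (hWa m), hvC, vf_mul] at h2
  simp only [map_mul, map_add, eval_C] at h2
  rw [eval_vf_QP G (W m) m (hWa m) y J.s hP hcrit] at h2
  have h3 : eval y (QP m) = 0 := by
    simp only [QP, map_mul, map_sum, eval_C, eval_lP, eval_TP]
    rw [hcrit m, mul_zero]
  rw [h3, mul_zero, zero_add] at h2
  have h4 : 0 < (eval y G * eval y DP) * (eval y G * eval y DP) :=
    mul_self_pos.2 (mul_ne_zero hG hD)
  by_contra hcon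
  push Not at hcon
  have h5 := mul_pos h4 hcon
  have h6 : eval y G * eval y DP * (eval y G * eval y DP) * (ε * hessφ (lv y) (Tv y) (Hv y) m)
      = ε * (eval y G * eval y DP * (eval y G * eval y DP * hessφ (lv y) (Tv y) (Hv y) m)) := by
    ring
  rw [h6] at h5
  exact absurd h2 (not_le.2 h5)

end

theorem goalClosure : GoalClosure := by
  intro hN1 hN2 hLap hN3 hC β J hs
  rcases isEmpty_or_nonempty β with hβ | ⟨⟨x0⟩⟩
  · exact ⟨0, fun x => (hβ.false x).elim⟩
  have hmem : ∀ x, J.z x ∈ J.Y' := fun x =>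
    ⟨J.z_mem x, (J.ord x).1.le, (J.ord x).2.le⟩
  have hcpt : IsCompact J.Y' := isCompact_Y' J hs
  have hcont : Continuous fun y : Sg → ℝ => eval y φP := (contDiff_eval (n := 0) φP).continuous
  have hne : J.Y'.Nonempty := ⟨_, hmem x0⟩
  have hord : ∀ y ∈ J.Y', lv y 1 < lv y 0 ∧ lv y 2 < lv y 1 := fun y hy =>
    hN1 J.s (lv y) (Tv y) (Hv y) hs (pt_of_mem hy.1) hy.2.1 hy.2.2
  obtain ⟨ym, hym, hmax⟩ := hcpt.exists_isMaxOn hne hcont.continuousOn
  have hcm := crit hs hN1 hC 1 one_ne_zero ym hym (Eventually.of_forall fun z hz => by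
    rw [one_mul, one_mul]; exact hmax hz)
  simp only [one_mul] at hcm
  rcases le_or_gt 6 J.s with h6 | h6
  · -- `φ = 0` on `Y'`
    obtain ⟨yn, hyn, hmin⟩ := hcpt.exists_isMinOn hne hcont.continuousOn
    have hcn := crit hs hN1 hC (-1) (by norm_num) yn hyn (Eventually.of_forall fun z hz => by
      have := hmin hz
      have h2 : eval yn φP ≤ eval z φP := this
      linarith)
    have e1 := hN3 J.s (lv ym) (Tv ym) (Hv ym) h6 (pt_of_mem hym.1) (hord ym hym).1 (hord ym hym).2
      hcm.1 (Or.inl hcm.2)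
    have e2 := hN3 J.s (lv yn) (Tv yn) (Hv yn) h6 (pt_of_mem hyn.1) (hord yn hyn).1 (hord yn hyn).2
      hcn.1 (Or.inr fun m => by have := hcn.2 m; linarith)
    refine ⟨0, fun x => ?_⟩
    have h1 : eval (J.z x) φP ≤ eval ym φP := hmax (hmem x)
    have h2 : eval yn φP ≤ eval (J.z x) φP := hmin (hmem x)
    rw [eval_φP (J.z x), eval_φP ym, e1] at h1
    rw [eval_φP (J.z x), eval_φP yn, e2] at h2
    exact le_antisymm h1 h2
  · exfalso
    have hφm : 0 ≤ eval ym φP := by
      have h1 := hLap J.s (lv ym) (Tv ym) (Hv ym) hs (pt_of_mem hym.1) (hord ym hym).1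
        (hord ym hym).2 hcm.1
      have h2 : ∑ m, hessφ (lv ym) (Tv ym) (Hv ym) m ≤ 0 :=
        Finset.sum_nonpos fun m _ => hcm.2 m
      rw [h1] at h2
      rw [eval_φP]
      by_contra hcon
      push Not at hcon
      nlinarith
    have hcpt2 : IsCompact (J.Y' ∩ {y | 0 ≤ eval y φP}) :=
      hcpt.inter_right (isClosed_le continuous_const hcont)
    obtain ⟨y1, hy1, hmin⟩ := hcpt2.exists_isMinOn ⟨ym, hym, hφm⟩ hcont.continuousOn
    have hφ0 : eval y1 φP = 0 := by
      by_contra hne0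
      have hpos : 0 < eval y1 φP := lt_of_le_of_ne hy1.2 (Ne.symm hne0)
      have hev : ∀ᶠ z in 𝓝 y1, 0 < eval z φP :=
        continuousAt_const.eventually_lt hcont.continuousAt hpos
      have hc1 := crit hs hN1 hC (-1) (by norm_num) y1 hy1.1 (by
        filter_upwards [hev] with z hz hzY
        have : eval y1 φP ≤ eval z φP := hmin ⟨hzY, hz.le⟩
        linarith)
      have h1 := hLap J.s (lv y1) (Tv y1) (Hv y1) hs (pt_of_mem hy1.1.1) (hord y1 hy1.1).1
        (hord y1 hy1.1).2 hc1.1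
      have h2 : 0 ≤ ∑ m, hessφ (lv y1) (Tv y1) (Hv y1) m :=
        Finset.sum_nonneg fun m _ => by have := hc1.2 m; linarith
      rw [h1, ← eval_φP] at h2
      nlinarith
    exact hN2 J.s (lv y1) (Tv y1) (Hv y1) hs h6 (pt_of_mem hy1.1.1) (hord y1 hy1.1).1
      (hord y1 hy1.1).2 (by rw [← eval_φP]; exact hφ0)

end Bry
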