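import Pool.Agent.Lib.MP_2b07f9_gt.Flow

/-!
# The polynomial vector fields on the closure of the jet image

`z : β → (α ⊕ ω → ℝ)` is a family of points (jets), `V x m` its derivative in direction `m`.  The
components `ω` are those of top order; their derivative `Xf` is not polynomial in `z`, but it
satisfies linear equations with coefficients polynomial in `z`.
-/

set_option autoImplicit false

open MvPolynomial

namespace Bry

/-- The ideal of polynomials vanishing on the points `z x`. -/
noncomputable def van {β σ : Type*} (z : β → σ → ℝ) : Ideal (MvPolynomial σ ℝ) :=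
  ⨅ x, RingHom.ker (eval (z x))

theorem mem_van {β σ : Type*} (z : β → σ → ℝ) (p : MvPolynomial σ ℝ) :
    p ∈ van z ↔ ∀ x, eval (z x) p = 0 := by
  simp [van, RingHom.mem_ker]

variable {β α ω μ ρ : Type*} [Fintype α] [Fintype ω] [Fintype μ] [Fintype ρ]
  [DecidableEq ω] [DecidableEq μ]

theorem exists_field (z : β → α ⊕ ω → ℝ) (Δ : MvPolynomial (α ⊕ ω) ℝ)
    (a : μ → α ⊕ ω → MvPolynomial (α ⊕ ω) ℝ) (V : β → μ → α ⊕ ω → ℝ) (Xf : β → μ × ω → ℝ)
    (hV1 : ∀ x m i, eval (z x) Δ * V x m (Sum.inl i) = eval (z x) (a m (Sum.inl i)))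
    (hV2 : ∀ x m h, eval (z x) Δ * V x m (Sum.inr h)
      = eval (z x) (a m (Sum.inr h)) + eval (z x) Δ * Xf x (m, h))
    (hD : ∀ p ∈ van z, ∀ x m, ∑ j, eval (z x) (pderiv j p) * V x m j = 0)
    (N : ρ → μ × ω → MvPolynomial (α ⊕ ω) ℝ) (rN : ρ → MvPolynomial (α ⊕ ω) ℝ)
    (hN : ∀ x r, ∑ h, eval (z x) (N r h) * Xf x h = eval (z x) (rN r)) :
    ∃ (G : MvPolynomial (α ⊕ ω) ℝ) (W : μ → α ⊕ ω → MvPolynomial (α ⊕ ω) ℝ),
      (∀ m, ∀ p ∈ van z, vf (W m) p ∈ van z) ∧
      (∀ m i, W m (Sum.inl i) = G * a m (Sum.inl i)) ∧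
      (∀ y : α ⊕ ω → ℝ, (∀ p ∈ van z, eval y p = 0) → eval y Δ ≠ 0 → eval y G = 0 →
        ∃ E : μ × ω → ℝ, E ≠ 0 ∧
          (∀ p ∈ van z, ∀ m, ∑ h, eval y (pderiv (Sum.inr h) p) * E (m, h) = 0) ∧
          (∀ r, ∑ h, eval y (N r h) * E h = 0)) := by
  classical
  obtain ⟨S, hS⟩ : ∃ S : Finset (MvPolynomial (α ⊕ ω) ℝ),
      Ideal.span (S : Set (MvPolynomial (α ⊕ ω) ℝ)) = van z :=
    (isNoetherianRing_iff_ideal_fg _).1 inferInstance (van z)
  have hSI : ∀ g : S, (g : MvPolynomial (α ⊕ ω) ℝ) ∈ van z := fun g => by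
    rw [← hS]; exact Ideal.subset_span g.2
  let L : Matrix ((S × μ) ⊕ ρ) (μ × ω) (MvPolynomial (α ⊕ ω) ℝ) := fun r k =>
    match r with
    | Sum.inl (g, m) => if m = k.1 then Δ * pderiv (Sum.inr k.2) (g : MvPolynomial (α ⊕ ω) ℝ) else 0
    | Sum.inr r => N r k
  let rhs : ((S × μ) ⊕ ρ) → MvPolynomial (α ⊕ ω) ℝ := fun r =>
    match r with
    | Sum.inl (g, m) => - ∑ j, pderiv j (g : MvPolynomial (α ⊕ ω) ℝ) * a m j
    | Sum.inr r => rN r
  let M : Matrix (μ × ω) (μ × ω) (MvPolynomial (α ⊕ ω) ℝ) := L.transpose * L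
  let G := M.det
  let P : μ × ω → MvPolynomial (α ⊕ ω) ℝ := M.adjugate.mulVec (L.transpose.mulVec rhs)
  -- evaluation of the rows
  have hrow : ∀ (y : α ⊕ ω → ℝ) (E : μ × ω → ℝ) (g : S) (m : μ),
      ∑ k, eval y (L (Sum.inl (g, m)) k) * E k
        = eval y Δ * ∑ h, eval y (pderiv (Sum.inr h) (g : MvPolynomial (α ⊕ ω) ℝ)) * E (m, h) := by
    intro y E g m
    simp only [L]
    rw [Fintype.sum_prod_type, Finset.sum_eq_single m]
    · simp only [if_true, map_mul, Finset.mul_sum]
      exact Finset.sum_congr rfl fun h _ => by ring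
    · intro m' _ hm'
      simp [Ne.symm hm']
    · simp
  have hLX : ∀ x, (L.map (eval (z x))).mulVec (Xf x) = fun r => eval (z x) (rhs r) := by
    intro x
    funext r
    simp only [Matrix.mulVec, dotProduct, Matrix.map_apply]
    rcases r with ⟨g, m⟩ | r
    · rw [hrow]
      simp only [rhs, Fintype.sum_sum_type]
      simp only [map_neg, map_add, map_sum, map_mul]
      have h1 := hD g (hSI g) x m
      rw [Fintype.sum_sum_type] at h1
      have h2 : eval (z x) Δ * (∑ i, eval (z x) (pderiv (Sum.inl i) (g : MvPolynomial (α ⊕ ω) ℝ)) * V x m (Sum.inl i)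
          + ∑ h, eval (z x) (pderiv (Sum.inr h) (g : MvPolynomial (α ⊕ ω) ℝ)) * V x m (Sum.inr h)) = 0 := by
        rw [h1, mul_zero]
      rw [mul_add, Finset.mul_sum, Finset.mul_sum] at h2
      have h3 : ∀ i, eval (z x) Δ * (eval (z x) (pderiv (Sum.inl i) (g : MvPolynomial (α ⊕ ω) ℝ)) * V x m (Sum.inl i))
          = eval (z x) (pderiv (Sum.inl i) (g : MvPolynomial (α ⊕ ω) ℝ)) * eval (z x) (a m (Sum.inl i)) := by
        intro i; rw [← hV1]; ring
      have h4 : ∀ h, eval (z x) Δ * (eval (z x) (pderiv (Sum.inr h) (g : MvPolynomial (α ⊕ ω) ℝ)) * V x m (Sum.inr h))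
          = eval (z x) (pderiv (Sum.inr h) (g : MvPolynomial (α ⊕ ω) ℝ)) * eval (z x) (a m (Sum.inr h))
            + eval (z x) Δ * (eval (z x) (pderiv (Sum.inr h) (g : MvPolynomial (α ⊕ ω) ℝ)) * Xf x (m, h)) := by
        intro h
        have := hV2 x m h
        linear_combination (eval (z x) (pderiv (Sum.inr h) (g : MvPolynomial (α ⊕ ω) ℝ))) * this
      simp only [h3, h4, Finset.sum_add_distrib] at h2
      rw [Finset.mul_sum]
      linarith
    · simp only [rhs]
      exact hN x r
  have hMmap : ∀ y : α ⊕ ω → ℝ, M.map (eval y) = (L.map (eval y)).transpose * (L.map (eval y)) := by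
    intro y
    simp only [M, Matrix.map_mul, Matrix.transpose_map]
  have hGmap : ∀ y : α ⊕ ω → ℝ, eval y G = (M.map (eval y)).det := by
    intro y
    simp only [G, RingHom.map_det, RingHom.mapMatrix_apply]
  have hP : ∀ x k, eval (z x) (P k) = eval (z x) G * Xf x k := by
    intro x k
    have e1 : eval (z x) (P k) = ((M.map (eval (z x))).adjugate.mulVec
        ((L.map (eval (z x))).transpose.mulVec (fun r => eval (z x) (rhs r)))) k := by
      simp only [P]
      rw [RingHom.map_mulVec]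
      have h2 : (eval (z x)) ∘ (L.transpose.mulVec rhs)
          = (L.map (eval (z x))).transpose.mulVec (fun r => eval (z x) (rhs r)) := by
        funext k'
        simp only [Function.comp_apply]
        rw [RingHom.map_mulVec]
        rfl
      have h3 : M.adjugate.map (eval (z x)) = (M.map (eval (z x))).adjugate := by
        have := RingHom.map_adjugate (eval (z x)) M
        simpa only [RingHom.mapMatrix_apply] using this
      rw [h2, h3]
    rw [e1, ← hLX x, Matrix.mulVec_mulVec, Matrix.mulVec_mulVec,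
      Matrix.mul_assoc (M.map (eval (z x))).adjugate, ← hMmap, Matrix.adjugate_mul, hGmap,
      Matrix.smul_mulVec, Matrix.one_mulVec]
    simp
  refine ⟨G, fun m j => match j with
    | Sum.inl i => G * a m (Sum.inl i)
    | Sum.inr h => G * a m (Sum.inr h) + Δ * P (m, h), ?_, fun m i => rfl, ?_⟩
  · intro m p hp
    rw [mem_van]
    intro x
    have h1 := hD p hp x m
    rw [Fintype.sum_sum_type] at h1
    simp only [vf, map_sum, map_mul, Fintype.sum_sum_type, map_add, hP]
    have h3 : ∀ i, eval (z x) G * eval (z x) (a m (Sum.inl i)) * eval (z x) (pderiv (Sum.inl i) p)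
        = (eval (z x) G * eval (z x) Δ) * (eval (z x) (pderiv (Sum.inl i) p) * V x m (Sum.inl i)) := by
      intro i; rw [← hV1]; ring
    have h4 : ∀ h, (eval (z x) G * eval (z x) (a m (Sum.inr h)) + eval (z x) Δ * (eval (z x) G * Xf x (m, h)))
          * eval (z x) (pderiv (Sum.inr h) p)
        = (eval (z x) G * eval (z x) Δ) * (eval (z x) (pderiv (Sum.inr h) p) * V x m (Sum.inr h)) := by
      intro h
      have := hV2 x m h
      linear_combination (-(eval (z x) G) * (eval (z x) (pderiv (Sum.inr h) p))) * this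
    simp only [h3, h4]
    rw [← Finset.mul_sum, ← Finset.mul_sum, ← mul_add, h1, mul_zero]
  · intro y hy hΔ hG
    rw [hGmap] at hG
    obtain ⟨E, hE, hME⟩ := Matrix.exists_mulVec_eq_zero_iff.2 hG
    have hLE : (L.map (eval y)).mulVec E = 0 := by
      rw [hMmap, ← Matrix.mulVec_mulVec] at hME
      have h1 : dotProduct ((L.map (eval y)).mulVec E) ((L.map (eval y)).mulVec E) = 0 := by
        have h2 : dotProduct E ((L.map (eval y)).transpose.mulVec ((L.map (eval y)).mulVec E)) = 0 := by
          rw [hME]; simp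
        rw [Matrix.dotProduct_mulVec, Matrix.vecMul_transpose] at h2
        exact h2
      exact dotProduct_self_eq_zero.1 h1
    refine ⟨E, hE, ?_, ?_⟩
    · have hgen : ∀ (g : S) (m : μ), ∑ h, eval y (pderiv (Sum.inr h) (g : MvPolynomial (α ⊕ ω) ℝ)) * E (m, h) = 0 := by
        intro g m
        have h1 := congrFun hLE (Sum.inl (g, m))
        simp only [Matrix.mulVec, dotProduct, Matrix.map_apply, Pi.zero_apply] at h1
        rw [hrow] at h1
        exact (mul_eq_zero.1 h1).resolve_left hΔ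
      intro p hp m
      rw [← hS] at hp
      obtain ⟨f, hf⟩ := (Submodule.mem_span_finset').1 hp
      rw [← hf]
      simp only [smul_eq_mul, map_sum, Derivation.leibniz, map_add, map_mul, Finset.sum_mul]
      rw [Finset.sum_comm]
      apply Finset.sum_eq_zero
      intro g _
      have h0 : eval y (g : MvPolynomial (α ⊕ ω) ℝ) = 0 := hy _ (hSI g)
      have h1 := hgen g m
      simp only [h0, zero_mul, add_zero]
      calc ∑ h, eval y (f g) * eval y (pderiv (Sum.inr h) (g : MvPolynomial (α ⊕ ω) ℝ)) * E (m, h)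
          = eval y (f g) * ∑ h, eval y (pderiv (Sum.inr h) (g : MvPolynomial (α ⊕ ω) ℝ)) * E (m, h) := by
            rw [Finset.mul_sum]; exact Finset.sum_congr rfl fun h _ => by ring
        _ = 0 := by rw [h1, mul_zero]
    · intro r
      have h1 := congrFun hLE (Sum.inr r)
      simpa only [Matrix.mulVec, dotProduct, Matrix.map_apply, Pi.zero_apply] using h1

end Bry
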