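import Pool.Agent.Lib.MP_2b07f9_gt.GoalC3

/-! `GoalC`: final case analysis. -/

set_option autoImplicit false
set_option linter.unusedSimpArgs false
set_option linter.unusedVariables false

open Finset

namespace Bry

theorem goalC : GoalC := by
  intro s l T H E hs hP h01 h12 hK
  have hs0 : s ≠ 0 := by linarith
  obtain ⟨t, X, hT, hX, hXs, hw0, hw1, hw2, hR01, hR02, hR12⟩ := hP.explicit hs0
  obtain ⟨e, es, hE⟩ := Ker.explicit hP hs0 hK
  have hsum := sum_dd_sq hP.tr hP.nrm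
  set u := T 0 1 2 with hu
  have hd0 : 0 < dd l 0 := by simp only [dd0]; linarith
  have hd2 : 0 < dd l 2 := by simp only [dd2]; linarith
  have hd1 : dd l 1 = -(dd l 0 + dd l 2) := by simp only [dd0, dd1, dd2]; ring
  have hd1n : dd l 1 < 0 := by rw [hd1]; linarith
  -- C1
  have hC : (9 * s - 2 * dd l 0 ^ 2) * t 0 ^ 2 + (9 * s - 2 * dd l 1 ^ 2) * t 1 ^ 2
      + (9 * s - 2 * dd l 2 ^ 2) * t 2 ^ 2 + 6 * u ^ 2 = s * (s - 3) := by
    have h1 := hP.C1
    rw [hT, contract_Tf, hsum] at h1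
    linarith
  have hCpos : 0 < s * (s - 3) := mul_pos (by linarith) (by linarith)
  -- T E
  have TE : ∀ n m, t 0 * Tf (dd l) e es n m 0 * (9 * s - 2 * dd l 0 ^ 2)
      + t 1 * Tf (dd l) e es n m 1 * (9 * s - 2 * dd l 1 ^ 2)
      + t 2 * Tf (dd l) e es n m 2 * (9 * s - 2 * dd l 2 ^ 2)
      + 6 * u * Wf (dd l) e es n m = 0 := by
    intro n m
    have h1 := hK.TE n m
    rw [hE n m, hT, contract_Tf, hsum] at h1
    linarith
  have T00 := TE 0 0
  have T01 := TE 0 1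
  have T02 := TE 0 2
  have T12 := TE 1 2
  simp only [Tf, Wf, Matrix.cons_val_zero, Matrix.cons_val_one, Matrix.cons_val] at T00 T01 T02 T12
  have T00' : t 0 * e 0 * (9 * s - 2 * dd l 0 ^ 2) + t 1 * e 1 * (9 * s - 2 * dd l 1 ^ 2)
      + t 2 * e 2 * (9 * s - 2 * dd l 2 ^ 2) + 6 * u * es = 0 := by
    have : dd l 0 * (t 0 * e 0 * (9 * s - 2 * dd l 0 ^ 2) + t 1 * e 1 * (9 * s - 2 * dd l 1 ^ 2)
      + t 2 * e 2 * (9 * s - 2 * dd l 2 ^ 2) + 6 * u * es) = 0 := by linarith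
    exact (mul_eq_zero.1 this).resolve_left hd0.ne'
  obtain ⟨a, ha, ha2⟩ : ∃ a : ℝ, 0 < a ∧ dd l 0 = a ^ 2 :=
    ⟨√(dd l 0), Real.sqrt_pos.2 hd0, (Real.sq_sqrt hd0.le).symm⟩
  obtain ⟨b0, hb0, hb02⟩ : ∃ a : ℝ, 0 < a ∧ dd l 2 = a ^ 2 :=
    ⟨√(dd l 2), Real.sqrt_pos.2 hd2, (Real.sq_sqrt hd2.le).symm⟩
  have key : ∀ b : ℝ, dd l 2 = b ^ 2 → (b * e 0 + a * e 2 ≠ 0 ∨ a * b * e 1 + es ≠ 0) →
      (9 * s - 2 * dd l 0 ^ 2) * t 0 * a + (9 * s - 2 * dd l 2 ^ 2) * t 2 * b = 0 ∧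
      (9 * s - 2 * dd l 1 ^ 2) * t 1 + 6 * u * a * b = 0 := by
    intro b hb2 hFG
    have hpos : 0 < (a * b * e 1 + es) ^ 2 - dd l 1 * (b * e 0 + a * e 2) ^ 2 := by
      rcases hFG with h | h
      · have h1 : 0 < (b * e 0 + a * e 2) ^ 2 := by positivity
        have h2 := mul_pos (neg_pos.2 hd1n) h1
        have h3 := sq_nonneg (a * b * e 1 + es)
        linarith
      · have h1 : 0 < (a * b * e 1 + es) ^ 2 := by positivity
        have h2 := mul_nonneg (neg_pos.2 hd1n).le (sq_nonneg (b * e 0 + a * e 2))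
        linarith
    have eq1 : ((9 * s - 2 * dd l 0 ^ 2) * t 0 * a + (9 * s - 2 * dd l 2 ^ 2) * t 2 * b)
        * (b * e 0 + a * e 2) + ((9 * s - 2 * dd l 1 ^ 2) * t 1 + 6 * u * a * b)
        * (a * b * e 1 + es) = 0 := by
      have h1 : (9 * s - 2 * dd l 0 ^ 2) * t 0 * e 2 * (a ^ 2 - dd l 0) = 0 := by rw [ha2]; ring
      have h2 : (9 * s - 2 * dd l 2 ^ 2) * t 2 * e 0 * (b ^ 2 - dd l 2) = 0 := by rw [hb2]; ring
      have h3 : 6 * u * e 1 * (a ^ 2 * b ^ 2 - dd l 0 * dd l 2) = 0 := by rw [hb2, ha2]; ring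
      linear_combination a * b * T00' + T02 + h1 + h2 + h3
    have eq2 : - dd l 1 * ((9 * s - 2 * dd l 1 ^ 2) * t 1 + 6 * u * a * b) * (b * e 0 + a * e 2)
        - ((9 * s - 2 * dd l 0 ^ 2) * t 0 * a + (9 * s - 2 * dd l 2 ^ 2) * t 2 * b)
        * (a * b * e 1 + es) = 0 := by
      have h1 : 6 * u * dd l 1 * (a * e 0 * (b ^ 2 - dd l 2) + b * e 2 * (a ^ 2 - dd l 0)) = 0 := by
        rw [hb2, ha2]; ring
      have h2 : (9 * s - 2 * dd l 0 ^ 2) * t 0 * b * e 1 * (a ^ 2 - dd l 0) = 0 := by rw [ha2]; ring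
      have h3 : (9 * s - 2 * dd l 2 ^ 2) * t 2 * a * e 1 * (b ^ 2 - dd l 2) = 0 := by rw [hb2]; ring
      linear_combination -b * T01 - a * T12 - h1 - h2 - h3
    constructor
    · have : ((9 * s - 2 * dd l 0 ^ 2) * t 0 * a + (9 * s - 2 * dd l 2 ^ 2) * t 2 * b)
          * ((a * b * e 1 + es) ^ 2 - dd l 1 * (b * e 0 + a * e 2) ^ 2) = 0 := by
        linear_combination (- dd l 1 * (b * e 0 + a * e 2)) * eq1 - (a * b * e 1 + es) * eq2
      exact (mul_eq_zero.1 this).resolve_right hpos.ne'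
    · have : ((9 * s - 2 * dd l 1 ^ 2) * t 1 + 6 * u * a * b)
          * ((a * b * e 1 + es) ^ 2 - dd l 1 * (b * e 0 + a * e 2) ^ 2) = 0 := by
        linear_combination (a * b * e 1 + es) * eq1 + (b * e 0 + a * e 2) * eq2
      exact (mul_eq_zero.1 this).resolve_right hpos.ne'
  by_cases hall : ∀ b : ℝ, dd l 2 = b ^ 2 → b * e 0 + a * e 2 = 0 ∧ a * b * e 1 + es = 0
  · obtain ⟨h1, h2⟩ := hall b0 hb02
    obtain ⟨h3, h4⟩ := hall (-b0) (by rw [hb02]; ring)
    have e2 : e 2 = 0 := by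
      have : a * e 2 = 0 := by linarith
      exact (mul_eq_zero.1 this).resolve_left ha.ne'
    have e0 : e 0 = 0 := by
      rw [e2] at h1
      have : b0 * e 0 = 0 := by linarith
      exact (mul_eq_zero.1 this).resolve_left hb0.ne'
    have es0 : es = 0 := by linarith
    have e1 : e 1 = 0 := by
      have : (a * b0) * e 1 = 0 := by linarith
      exact (mul_eq_zero.1 this).resolve_left (mul_pos ha hb0).ne'
    intro n m k i j
    have hz : Tf (dd l) e es n m = fun _ => 0 := by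
      funext x
      rcases fin3 n with rfl | rfl | rfl <;> rcases fin3 m with rfl | rfl | rfl <;>
        rcases fin3 x with rfl | rfl | rfl <;> simp [Tf, e0, e1, e2, es0]
    have hwz : Wf (dd l) e es n m = 0 := by
      rcases fin3 n with rfl | rfl | rfl <;> rcases fin3 m with rfl | rfl | rfl <;>
        simp [Wf, e0, e1, e2, es0]
    rw [hE n m, hz, hwz]
    rcases fin3 k with rfl | rfl | rfl <;> rcases fin3 i with rfl | rfl | rfl <;>
      rcases fin3 j with rfl | rfl | rfl <;> simp [Tf]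
  · exfalso
    push Not at hall
    obtain ⟨b, hb2, hb⟩ := hall
    have hFG : b * e 0 + a * e 2 ≠ 0 ∨ a * b * e 1 + es ≠ 0 := by
      by_cases h : b * e 0 + a * e 2 = 0
      · right; exact hb h
      · left; exact h
    have hbne : b ≠ 0 := by
      intro h; rw [h] at hb2; norm_num at hb2; linarith
    obtain ⟨N1, N2⟩ := key b hb2 hFG
    have hb2' : dd l 2 = (-b) ^ 2 := by rw [hb2]; ring
    have hother : ¬ (-b * e 0 + a * e 2 ≠ 0 ∨ a * -b * e 1 + es ≠ 0) := by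
      intro h
      obtain ⟨N1', N2'⟩ := key (-b) hb2' h
      have hc0 : 0 < 9 * s - 2 * dd l 0 ^ 2 := by
        have : 9 * s - 2 * dd l 0 ^ 2 = dd l 0 ^ 2 + 3 * dd l 1 ^ 2 + 3 * dd l 2 ^ 2 := by linarith
        rw [this]; positivity
      have hc2 : 0 < 9 * s - 2 * dd l 2 ^ 2 := by
        have : 9 * s - 2 * dd l 2 ^ 2 = 3 * dd l 0 ^ 2 + 3 * dd l 1 ^ 2 + dd l 2 ^ 2 := by linarith
        rw [this]; positivity
      have t0 : t 0 = 0 := by
        have : ((9 * s - 2 * dd l 0 ^ 2) * a) * t 0 = 0 := by linarith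
        exact (mul_eq_zero.1 this).resolve_left (mul_pos hc0 ha).ne'
      have t2 : t 2 = 0 := by
        have : ((9 * s - 2 * dd l 2 ^ 2) * b) * t 2 = 0 := by linarith
        exact (mul_eq_zero.1 this).resolve_left (mul_ne_zero hc2.ne' hbne)
      have u0 : u = 0 := by
        have : (a * b) * u = 0 := by linarith
        exact (mul_eq_zero.1 this).resolve_left (mul_ne_zero ha.ne' hbne)
      have t1 : (9 * s - 2 * dd l 1 ^ 2) * t 1 = 0 := by
        rw [u0] at N2; linarith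
      rw [t0, t2, u0] at hC
      have h5 : (9 * s - 2 * dd l 1 ^ 2) * t 1 ^ 2 = 0 := by linear_combination (t 1) * t1
      have h6 : s * (s - 3) = 0 := by rw [← hC, h5]; ring
      linarith
    push Not at hother
    obtain ⟨h3, h4⟩ := hother
    have hes : es = a * b * e 1 := by linarith
    rw [hes] at hE hFG
    refine degen hs hP hK hT hX hXs hw0 hw1 hw2 hR01 hR02 (a := a) (b := b) (f := e 0 / a) (g := e 1)
      hE ha.ne' hbne ha2 hb2 N1 N2 ?_ rfl ?_ ?_
    · field_simp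
    · field_simp; linarith
    · by_contra hcon
      push Not at hcon
      obtain ⟨hf, hg⟩ := hcon
      have e0 : e 0 = 0 := by
        rcases div_eq_zero_iff.1 hf with h | h
        · exact h
        · exact absurd h ha.ne'
      rw [e0] at h3
      have e2 : e 2 = 0 := by
        have : a * e 2 = 0 := by linarith
        exact (mul_eq_zero.1 this).resolve_left ha.ne'
      rw [e0, e2, hg] at hFG
      simp at hFG

end Bry
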