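import Pool.Agent.Lib.MP_2b07f9_gt.Geom3
import Pool.Agent.Lib.MP_2b07f9_gt.Asm0
import Pool.Agent.Lib.MP_2b07f9_gt.Closure
import Pool.Agent.Lib.MP_2b07f9_gt.Alg1
import Pool.Agent.Lib.MP_2b07f9_gt.GoalC4

/-! Final assembly: the local Chern conjecture in `S⁴`. -/

set_option autoImplicit false

open Finset

namespace Bry

theorem main (U : Set (EuclideanSpace ℝ (Fin 3)))
    (f ν : EuclideanSpace ℝ (Fin 3) → EuclideanSpace ℝ (Fin 5))
    (S : EuclideanSpace ℝ (Fin 3) → Matrix (Fin 3) (Fin 3) ℝ)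
    (hU : IsOpen U) (hU' : IsConnected U)
    (hf : ContDiffOn ℝ ((⊤ : ℕ∞) : WithTop ℕ∞) f U)
    (hν : ContDiffOn ℝ ((⊤ : ℕ∞) : WithTop ℕ∞) ν U)
    (hinj : ∀ x ∈ U, Function.Injective (fderiv ℝ f x))
    (hf1 : ∀ x ∈ U, ‖f x‖ = 1)
    (hν1 : ∀ x ∈ U, ‖ν x‖ = 1 ∧ inner ℝ (f x) (ν x) = 0 ∧
      ∀ i : Fin 3, inner ℝ (fderiv ℝ f x (EuclideanSpace.single i (1 : ℝ))) (ν x) = 0)
    (hS : ∀ x ∈ U, S x =
      (Matrix.of (fun (i : Fin 3) (j : Fin 3) =>
        inner ℝ (fderiv ℝ f x (EuclideanSpace.single i (1 : ℝ)))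
          (fderiv ℝ f x (EuclideanSpace.single j (1 : ℝ)))))⁻¹ *
      Matrix.of (fun (i : Fin 3) (j : Fin 3) =>
        -inner ℝ (fderiv ℝ f x (EuclideanSpace.single i (1 : ℝ)))
          (fderiv ℝ ν x (EuclideanSpace.single j (1 : ℝ)))))
    (htr : ∀ x ∈ U, Matrix.trace (S x) = 0)
    (c : ℝ) (hc : ∀ x ∈ U, Matrix.trace (S x * S x) = c) :
    ∃ d : ℝ, ∀ x ∈ U, Matrix.trace (S x * S x * S x) = d := by
  refine const_of_local U f ν S hU hU' hf hν hinj hf1 hν1 hS htr c hc fun x₀ hx₀ hΔ => ?_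
  obtain ⟨B, hB, hxB, hBU, F, hFs, hd, -, hord, hcub, hconst⟩ :=
    exists_frame U f ν S hU hf hν hinj hf1 hν1 hS htr c hc x₀ hx₀ hΔ
  obtain ⟨J, hJs, hJl, hJT⟩ := exists_jetData0 (Sm B) F hd hord
  refine ⟨B, hB, hxB, hBU, ?_⟩
  by_cases h3 : 3 < J.s
  · obtain ⟨d, hd'⟩ := goalClosure A1.goalN1 A1.goalN2 A1.goalLap A1.goalN3 goalC B J h3
    refine ⟨d, fun x hx => ?_⟩
    rw [← hcub ⟨x, hx⟩, ← hd' ⟨x, hx⟩]
    refine sum_congr rfl fun i _ => ?_
    rw [hJl]; ring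
  · -- `T = 0`
    have hT0 : ∀ (x : B) k i j, J.T x k i j = 0 := by
      intro x
      have hP := J.pt x
      have h1 := hP.C1
      have h2 : 0 ≤ J.s := by
        rw [← hP.nrm]; exact sum_nonneg fun i _ => mul_self_nonneg _
      have h4 : ∑ k, ∑ i, ∑ j, J.T x k i j * J.T x k i j ≤ 0 := by
        rw [h1]; exact mul_nonpos_of_nonneg_of_nonpos h2 (by linarith)
      have h5 : ∑ k, ∑ i, ∑ j, J.T x k i j * J.T x k i j = 0 :=
        le_antisymm h4 (sum_nonneg fun k _ => sum_nonneg fun i _ => sum_nonneg fun j _ =>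
          mul_self_nonneg _)
      intro k i j
      have h6 := (sum_eq_zero_iff_of_nonneg (fun k _ => sum_nonneg fun i _ =>
        sum_nonneg fun j _ => mul_self_nonneg _)).1 h5 k (mem_univ k)
      have h7 := (sum_eq_zero_iff_of_nonneg (fun i _ =>
        sum_nonneg fun j _ => mul_self_nonneg _)).1 h6 i (mem_univ i)
      have h8 := (sum_eq_zero_iff_of_nonneg (fun j _ => mul_self_nonneg _)).1 h7 j (mem_univ j)
      exact mul_self_eq_zero.1 h8
    have hFT : ∀ k i j, F.T k i j = 0 := by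
      intro k i j
      apply Subtype.ext
      funext x
      have := hT0 x k i j
      rw [hJT] at this
      exact this
    obtain ⟨d, hd'⟩ := hconst (∑ i, F.A i i ^ 3) (by
      intro k
      rw [map_sum]
      refine sum_eq_zero fun i _ => ?_
      rw [Derivation.leibniz_pow, D_A F hd, hFT]
      simp)
    refine ⟨d, fun x hx => ?_⟩
    rw [← hcub ⟨x, hx⟩, ← hd' ⟨x, hx⟩]
    have h9 : evA (Sm B) ⟨x, hx⟩ (∑ i, F.A i i ^ 3) = ∑ i, ((F.A i i : B → ℝ) ⟨x, hx⟩) ^ 3 := by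
      rw [map_sum]
      refine sum_congr rfl fun i _ => ?_
      rw [map_pow]
      rfl
    rw [← h9]
    rfl

end Bry
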