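import Mathlib

/-!
# Polynomial vector fields preserving a real algebraic set

`Y` = real zero set of an ideal `I` of polynomials.  If the derivation attached to a polynomial
vector field `W` maps `I` into itself, then integral curves of `W` starting on `Y` stay on `Y`;
hence first and second order conditions hold at local maxima on `Y` of a polynomial function.
-/

set_option autoImplicit false

open MvPolynomial Set Filter Topology

namespace Bry

variable {σ : Type*} [Fintype σ]

/-- The derivation of the polynomial ring attached to a polynomial vector field. -/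
noncomputable def vf (W : σ → MvPolynomial σ ℝ) (p : MvPolynomial σ ℝ) : MvPolynomial σ ℝ :=
  ∑ j, W j * pderiv j p

theorem vf_add (W : σ → MvPolynomial σ ℝ) (p q : MvPolynomial σ ℝ) :
    vf W (p + q) = vf W p + vf W q := by
  simp [vf, mul_add, Finset.sum_add_distrib]

theorem vf_mul (W : σ → MvPolynomial σ ℝ) (p q : MvPolynomial σ ℝ) :
    vf W (p * q) = vf W p * q + p * vf W q := by
  simp only [vf, Derivation.leibniz, smul_eq_mul, Finset.sum_mul, Finset.mul_sum,
    ← Finset.sum_add_distrib]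
  exact Finset.sum_congr rfl fun j _ => by ring

theorem vf_C (W : σ → MvPolynomial σ ℝ) (c : ℝ) : vf W (C c) = 0 := by
  simp [vf]

theorem vf_X [DecidableEq σ] (W : σ → MvPolynomial σ ℝ) (i : σ) : vf W (X i) = W i := by
  simp only [vf, pderiv_X]
  rw [Finset.sum_eq_single i]
  · simp
  · intro j _ hj
    simp [hj.symm]
  · simp

theorem hasDerivAt_eval (W : σ → MvPolynomial σ ℝ) (γ : ℝ → σ → ℝ) (t : ℝ)
    (h : HasDerivAt γ (fun j => eval (γ t) (W j)) t) (p : MvPolynomial σ ℝ) :
    HasDerivAt (fun s => eval (γ s) p) (eval (γ t) (vf W p)) t := by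
  classical
  induction p using MvPolynomial.induction_on with
  | C a =>
    simp only [eval_C, vf_C, map_zero]
    exact hasDerivAt_const t a
  | add p q hp hq =>
    simp only [vf_add, map_add]
    exact hp.add hq
  | mul_X p i hp =>
    have h1 : HasDerivAt (fun s => γ s i) (eval (γ t) (W i)) t := (hasDerivAt_pi.1 h) i
    simp only [vf_mul, vf_X, map_add, map_mul, eval_X]
    exact hp.mul h1

theorem contDiff_eval (p : MvPolynomial σ ℝ) {n : WithTop ℕ∞} :
    ContDiff ℝ n (fun z : σ → ℝ => eval z p) := by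
  classical
  induction p using MvPolynomial.induction_on with
  | C a => simpa using contDiff_const
  | add p q hp hq => simpa using hp.add hq
  | mul_X p i hp => simpa using hp.mul (contDiff_apply ℝ ℝ i)

/-- Vanishing of `p ∘ γ` for all `p ∈ I`, forward in time. -/
theorem flow_forward (I : Ideal (MvPolynomial σ ℝ)) (W : σ → MvPolynomial σ ℝ)
    (hW : ∀ p ∈ I, vf W p ∈ I) (γ : ℝ → σ → ℝ) (b : ℝ)
    (hγ : ∀ t ∈ Icc 0 b, HasDerivAt γ (fun j => eval (γ t) (W j)) t)
    (h0 : ∀ p ∈ I, eval (γ 0) p = 0) :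
    ∀ t ∈ Icc 0 b, ∀ p ∈ I, eval (γ t) p = 0 := by
  classical
  obtain ⟨G, hG⟩ : ∃ G : Finset (MvPolynomial σ ℝ), Ideal.span (G : Set (MvPolynomial σ ℝ)) = I :=
    (isNoetherianRing_iff_ideal_fg _).1 inferInstance I
  have hGI : ∀ g : G, (g : MvPolynomial σ ℝ) ∈ I := fun g => by
    rw [← hG]; exact Ideal.subset_span g.2
  have hrep : ∀ g : G, ∃ a : G → MvPolynomial σ ℝ, vf W g = ∑ g' : G, a g' * (g' : MvPolynomial σ ℝ) := by
    intro g
    have h1 : vf W g ∈ Ideal.span (G : Set (MvPolynomial σ ℝ)) := by rw [hG]; exact hW _ (hGI g)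
    obtain ⟨f, hf⟩ := (Submodule.mem_span_finset').1 h1
    exact ⟨f, by rw [← hf]; simp [smul_eq_mul]⟩
  choose a ha using hrep
  have hcont : ContinuousOn γ (Icc 0 b) := fun t ht => (hγ t ht).continuousAt.continuousWithinAt
  -- bound for the matrix
  have hbdd : ∀ g g' : G, ∃ M : ℝ, ∀ t ∈ Icc 0 b, |eval (γ t) (a g g')| ≤ M := by
    intro g g'
    have hc : ContinuousOn (fun t => eval (γ t) (a g g')) (Icc 0 b) :=
      (contDiff_eval (n := 0) (a g g')).continuous.comp_continuousOn hcont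
    obtain ⟨M, hM⟩ := isCompact_Icc.exists_bound_of_continuousOn hc
    exact ⟨M, fun t ht => by simpa using hM t ht⟩
  choose M hM using hbdd
  set K : ℝ := ∑ g : G, ∑ g' : G, |M g g'| with hK
  let u : ℝ → G → ℝ := fun t g => eval (γ t) (g : MvPolynomial σ ℝ)
  let u' : ℝ → G → ℝ := fun t g => eval (γ t) (vf W g)
  have hu' : ∀ t ∈ Icc 0 b, HasDerivAt u (u' t) t := by
    intro t ht
    rw [hasDerivAt_pi]
    intro g
    exact hasDerivAt_eval W γ t (hγ t ht) g
  have hzero : ∀ t ∈ Icc 0 b, u t = 0 := by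
    apply eq_zero_of_abs_deriv_le_mul_abs_self_of_eq_zero_right (f' := u') (K := K)
    · exact fun t ht => (hu' t ht).continuousAt.continuousWithinAt
    · exact fun t ht => (hu' t ⟨ht.1, ht.2.le⟩).hasDerivWithinAt
    · funext g; exact h0 _ (hGI g)
    · intro t ht
      have ht' : t ∈ Icc 0 b := ⟨ht.1, ht.2.le⟩
      have hKn : 0 ≤ K := Finset.sum_nonneg fun g _ => Finset.sum_nonneg fun g' _ => abs_nonneg _
      rw [pi_norm_le_iff_of_nonneg (mul_nonneg hKn (norm_nonneg _))]
      intro g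
      have : u' t g = ∑ g' : G, eval (γ t) (a g g') * u t g' := by
        simp only [u', u, ha g, map_sum, map_mul]
      rw [this]
      calc ‖∑ g' : G, eval (γ t) (a g g') * u t g'‖
          ≤ ∑ g' : G, ‖eval (γ t) (a g g') * u t g'‖ := norm_sum_le _ _
        _ ≤ ∑ g' : G, |M g g'| * ‖u t‖ := by
            apply Finset.sum_le_sum
            intro g' _
            rw [norm_mul]
            apply mul_le_mul _ (norm_le_pi_norm _ _) (norm_nonneg _) (abs_nonneg _)
            rw [Real.norm_eq_abs]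
            exact (hM g g' t ht').trans (le_abs_self _)
        _ = (∑ g' : G, |M g g'|) * ‖u t‖ := by rw [Finset.sum_mul]
        _ ≤ K * ‖u t‖ := by
            apply mul_le_mul_of_nonneg_right _ (norm_nonneg _)
            exact Finset.single_le_sum (f := fun g => ∑ g' : G, |M g g'|)
              (fun g _ => Finset.sum_nonneg fun g' _ => abs_nonneg _) (Finset.mem_univ g)
  intro t ht p hp
  rw [← hG] at hp
  obtain ⟨f, hf⟩ := (Submodule.mem_span_finset').1 hp
  rw [← hf]
  simp only [smul_eq_mul, map_sum, map_mul]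
  apply Finset.sum_eq_zero
  intro g _
  have := congrFun (hzero t ht) g
  simp only [u, Pi.zero_apply] at this
  rw [this, mul_zero]

/-- First and second order conditions at a local maximum on the zero set of `I`. -/
theorem max_principle (I : Ideal (MvPolynomial σ ℝ)) (W : σ → MvPolynomial σ ℝ)
    (hW : ∀ p ∈ I, vf W p ∈ I) (φ : MvPolynomial σ ℝ) (z₀ : σ → ℝ)
    (hz : ∀ p ∈ I, eval z₀ p = 0)
    (hmax : ∀ᶠ z in 𝓝 z₀, (∀ p ∈ I, eval z p = 0) → eval z φ ≤ eval z₀ φ) :
    eval z₀ (vf W φ) = 0 ∧ eval z₀ (vf W (vf W φ)) ≤ 0 := by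
  have hc : ContDiffAt ℝ 1 (fun z : σ → ℝ => fun j => eval z (W j)) z₀ :=
    (contDiff_pi.2 fun j => contDiff_eval (W j)).contDiffAt
  obtain ⟨γ, hγ0, ε, hε, hγ⟩ :=
    hc.exists_forall_mem_closedBall_exists_eq_forall_mem_Ioo_hasDerivAt₀ 0
  simp only [zero_sub, zero_add] at hγ
  -- forward
  have hfw : ∀ t ∈ Ico 0 ε, ∀ p ∈ I, eval (γ t) p = 0 := by
    intro t ht
    exact flow_forward I W hW γ t (fun r hr => hγ r ⟨by linarith [hr.1], by linarith [hr.2, ht.2]⟩)
      (by rw [hγ0]; exact hz) t ⟨ht.1, le_refl t⟩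
  -- backward
  have hbw : ∀ t ∈ Ico 0 ε, ∀ p ∈ I, eval (γ (-t)) p = 0 := by
    intro t ht
    have hneg : ∀ p, vf (fun j => - W j) p = - vf W p := by
      intro p; simp [vf]
    have := flow_forward I (fun j => - W j) (fun p hp => by rw [hneg]; exact I.neg_mem (hW p hp))
      (fun r => γ (-r)) t (fun r hr => by
        have h1 := hγ (-r) ⟨by linarith [hr.2, ht.2], by linarith [hr.1]⟩
        have h2 : HasDerivAt (fun r : ℝ => -r) (-1 : ℝ) r := hasDerivAt_neg r
        have h3 := h1.scomp r h2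
        have h4 : ((-1 : ℝ) • fun j => eval (γ (-r)) (W j)) = fun j => eval (γ (-r)) (-W j) := by
          funext j; simp
        rw [h4] at h3
        exact h3)
      (by simp only [neg_zero]; rw [hγ0]; exact hz) t ⟨ht.1, le_refl t⟩
    exact this
  have hY : ∀ t ∈ Ioo (-ε) ε, ∀ p ∈ I, eval (γ t) p = 0 := by
    intro t ht
    rcases le_total 0 t with h | h
    · exact hfw t ⟨h, ht.2⟩
    · have := hbw (-t) ⟨by linarith, by linarith [ht.1]⟩
      simpa using this
  have hIoo : Ioo (-ε) ε ∈ 𝓝 (0 : ℝ) := Ioo_mem_nhds (by linarith) hε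
  set f : ℝ → ℝ := fun t => eval (γ t) φ with hf
  have hd1 : ∀ t ∈ Ioo (-ε) ε, HasDerivAt f (eval (γ t) (vf W φ)) t := fun t ht =>
    hasDerivAt_eval W γ t (hγ t ht) φ
  have hd2 : ∀ t ∈ Ioo (-ε) ε, HasDerivAt (fun t => eval (γ t) (vf W φ))
      (eval (γ t) (vf W (vf W φ))) t := fun t ht => hasDerivAt_eval W γ t (hγ t ht) _
  have h0mem : (0 : ℝ) ∈ Ioo (-ε) ε := ⟨by linarith, hε⟩
  have hcγ : ContinuousAt γ 0 := (hγ 0 h0mem).continuousAt
  have hlm : IsLocalMax f 0 := by
    have h1 : ∀ᶠ t in 𝓝 (0 : ℝ), (∀ p ∈ I, eval (γ t) p = 0) → eval (γ t) φ ≤ eval z₀ φ := by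
      have := hcγ.eventually (p := fun z => (∀ p ∈ I, eval z p = 0) → eval z φ ≤ eval z₀ φ)
        (by rw [hγ0]; exact hmax)
      exact this
    filter_upwards [h1, hIoo] with t ht ht'
    have := ht (hY t ht')
    simpa [hf, hγ0] using this
  have e1 : eval z₀ (vf W φ) = 0 := by
    have := hlm.hasDerivAt_eq_zero (hd1 0 h0mem)
    rwa [hγ0] at this
  refine ⟨e1, ?_⟩
  by_contra hcon
  push Not at hcon
  have hderiv : deriv f =ᶠ[𝓝 0] fun t => eval (γ t) (vf W φ) := by
    filter_upwards [hIoo] with t ht using (hd1 t ht).deriv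
  have hdd : deriv (deriv f) 0 = eval z₀ (vf W (vf W φ)) := by
    rw [hderiv.deriv_eq, (hd2 0 h0mem).deriv, hγ0]
  have hmin : IsLocalMin f 0 := isLocalMin_of_deriv_deriv_pos (by rw [hdd]; exact hcon)
    (by rw [(hd1 0 h0mem).deriv, hγ0]; exact e1) (hd1 0 h0mem).continuousAt
  -- so f is locally constant
  have hconst : f =ᶠ[𝓝 0] fun _ => f 0 := by
    filter_upwards [hlm, hmin] with t h1 h2 using le_antisymm h1 h2
  have hderiv0 : deriv f =ᶠ[𝓝 0] fun _ => 0 := by
    have := hconst.deriv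
    filter_upwards [this] with t ht
    rw [ht]; simp
  have : deriv (deriv f) 0 = 0 := by rw [hderiv0.deriv_eq]; simp
  rw [hdd] at this
  linarith

end Bry
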