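import Pool.Agent.Lib.MP_2b07f9_gt.TensorP
import Pool.Agent.Lib.MP_2b07f9_gt.Pt

/-! From the ring identities to the pointwise ones. -/

set_option autoImplicit false
set_option linter.unusedSimpArgs false

open Finset

namespace Bry

/-- evaluation at a point -/
def evA {β : Type*} (A : Subalgebra ℝ (β → ℝ)) (x : β) : A →ₐ[ℝ] ℝ :=
  (Pi.evalAlgHom ℝ (fun _ : β => ℝ) x).comp A.val

theorem ev_dl {β : Type*} (A : Subalgebra ℝ (β → ℝ)) (x : β) (i j : Fin 3) :
    evA A x (dl i j) = dl i j := by
  unfold dl
  split_ifs <;> simp

theorem pt_of_frame {β : Type*} (A : Subalgebra ℝ (β → ℝ)) (F : Frame A)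
    (hd : ∀ i j, i ≠ j → F.A i j = 0) (x : β) :
    Pt F.s (fun i => (F.A i i : β → ℝ) x) (fun k i j => (F.T k i j : β → ℝ) x)
      (fun m k i j => (F.H m k i j : β → ℝ) x) := by
  change Pt F.s (fun i => evA A x (F.A i i)) (fun k i j => evA A x (F.T k i j))
    (fun m k i j => evA A x (F.H m k i j))
  constructor
  · intro k i j; exact congrArg (evA A x) (F.T_swap12 k i j)
  · intro k i j; exact congrArg (evA A x) (F.T_swap23 k i j)
  · intro m k i j; exact congrArg (evA A x) (F.H_swap23 m k i j)
  · intro m k i j; exact congrArg (evA A x) (F.H_swap34 m k i j)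
  · intro m k i j
    have := congrArg (evA A x) (F.ricciAp hd m k i j)
    simpa only [map_sub, map_mul, map_add, map_one, ev_dl] using this
  · have := congrArg (evA A x) F.tr
    simpa only [map_sum, map_zero] using this
  · intro k
    have := congrArg (evA A x) (F.trT k)
    simpa only [map_sum, map_zero] using this
  · intro m k
    have := congrArg (evA A x) (F.trH m k)
    simpa only [map_sum, map_zero] using this
  · have := congrArg (evA A x) (F.nrm_p hd)
    simpa only [map_sum, map_mul, AlgHom.commutes, Algebra.algebraMap_self, RingHom.id_apply] using this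
  · intro k
    have := congrArg (evA A x) (F.lT_p hd k)
    simpa only [map_sum, map_mul, map_zero] using this
  · intro m k
    have := congrArg (evA A x) (F.lH_p hd m k)
    simpa only [map_sum, map_mul, map_add, map_zero] using this
  · have := congrArg (evA A x) F.C1
    simpa only [map_sum, map_mul, AlgHom.commutes, Algebra.algebraMap_self, RingHom.id_apply] using this
  · intro m
    have := congrArg (evA A x) (F.M m)
    simpa only [map_sum, map_mul, map_zero] using this
  · have := congrArg (evA A x) (F.K1p hd)
    simpa only [map_sum, map_mul, map_add, map_sub, map_ofNat, AlgHom.commutes, Algebra.algebraMap_self, RingHom.id_apply] using this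
  · have := congrArg (evA A x) (F.K2p hd)
    simpa only [map_sum, map_mul, map_add, map_sub, map_ofNat, map_zero, AlgHom.commutes, Algebra.algebraMap_self, RingHom.id_apply] using this

end Bry
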