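import Mathlib

/-! # Linear algebra of `3 × 3` matrices -/

set_option autoImplicit false
open Matrix

namespace Bry

/-- Cayley-Hamilton for a traceless `3 × 3` matrix, in terms of traces -/
theorem cayley (S : Matrix (Fin 3) (Fin 3) ℝ) (h : S.trace = 0) :
    S * S * S = ((S * S).trace / 2) • S + ((S * S * S).trace / 3) • (1 : Matrix (Fin 3) (Fin 3) ℝ) := by
  have h2 : S 2 2 = - S 0 0 - S 1 1 := by
    rw [Matrix.trace_fin_three] at h
    linarith
  ext i j
  fin_cases i <;> fin_cases j <;>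
    simp [Matrix.mul_apply, Matrix.trace_fin_three, Fin.sum_univ_three, h2] <;> ring

theorem diag_ineq (a b c : ℝ) (h : a + b + c = 0) :
    6 * (a ^ 3 + b ^ 3 + c ^ 3) ^ 2 ≤ (a ^ 2 + b ^ 2 + c ^ 2) ^ 3 := by
  have hc : c = - a - b := by linarith
  subst hc
  nlinarith [sq_nonneg ((a - b) * (a - (- a - b)) * (b - (-a - b)))]

theorem hermitian_ineq (M : Matrix (Fin 3) (Fin 3) ℝ) (hM : M.IsHermitian) (h : M.trace = 0) :
    6 * (M * M * M).trace ^ 2 ≤ (M * M).trace ^ 3 := by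
  have hs := hM.spectral_theorem
  rw [Unitary.conjStarAlgAut_apply] at hs
  set U : Matrix (Fin 3) (Fin 3) ℝ := (hM.eigenvectorUnitary : Matrix (Fin 3) (Fin 3) ℝ) with hU
  set D : Matrix (Fin 3) (Fin 3) ℝ := diagonal (RCLike.ofReal ∘ hM.eigenvalues) with hD
  have hUU : star U * U = 1 := Unitary.coe_star_mul_self hM.eigenvectorUnitary
  have hs' : M = U * D * star U := hs
  have t1 : M.trace = D.trace := by
    rw [hs', Matrix.trace_mul_comm, ← Matrix.mul_assoc, hUU, Matrix.one_mul]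
  have t2 : (M * M).trace = (D * D).trace := by
    have : M * M = U * (D * D) * star U := by
      rw [hs']
      calc U * D * star U * (U * D * star U) = U * D * (star U * U) * D * star U := by
            simp only [Matrix.mul_assoc]
        _ = _ := by rw [hUU, Matrix.mul_one, Matrix.mul_assoc U D D]
    rw [this, Matrix.trace_mul_comm, ← Matrix.mul_assoc, hUU, Matrix.one_mul]
  have t3 : (M * M * M).trace = (D * D * D).trace := by
    have : M * M * M = U * (D * D * D) * star U := by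
      rw [hs']
      calc U * D * star U * (U * D * star U) * (U * D * star U)
          = U * D * (star U * U) * D * (star U * U) * D * star U := by
            simp only [Matrix.mul_assoc]
        _ = _ := by
          rw [hUU, Matrix.mul_one, Matrix.mul_one]
          simp only [Matrix.mul_assoc]
    rw [this, Matrix.trace_mul_comm, ← Matrix.mul_assoc, hUU, Matrix.one_mul]
  rw [t1] at h
  rw [t2, t3]
  simp only [hD, Matrix.diagonal_mul_diagonal, Matrix.trace_diagonal, Fin.sum_univ_three,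
    Function.comp, RCLike.ofReal_real_eq_id, id] at h ⊢
  have := diag_ineq _ _ _ h
  calc _ = 6 * (hM.eigenvalues 0 ^ 3 + hM.eigenvalues 1 ^ 3 + hM.eigenvalues 2 ^ 3) ^ 2 := by ring
    _ ≤ _ := this
    _ = _ := by ring

open scoped MatrixOrder in
theorem shape_ineq (g h : Matrix (Fin 3) (Fin 3) ℝ) (hg : g.PosDef) (hh : hᵀ = h)
    (S : Matrix (Fin 3) (Fin 3) ℝ) (hS : S = g⁻¹ * h) (htr : S.trace = 0) :
    6 * (S * S * S).trace ^ 2 ≤ (S * S).trace ^ 3 := by
  obtain ⟨B, hB⟩ := CStarAlgebra.nonneg_iff_eq_star_mul_self.mp hg.posSemidef.nonneg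
  have hB' : g = Bᵀ * B := by
    rw [hB, Matrix.star_eq_conjTranspose, Matrix.conjTranspose_eq_transpose_of_trivial]
  have hdet : IsUnit B.det := by
    have h1 : IsUnit g.det := (Matrix.isUnit_iff_isUnit_det g).1 hg.isUnit
    rw [hB', Matrix.det_mul] at h1
    exact isUnit_of_mul_isUnit_right h1
  have hBB : B * B⁻¹ = 1 := Matrix.mul_nonsing_inv B hdet
  have hBB' : B⁻¹ * B = 1 := Matrix.nonsing_inv_mul B hdet
  set M : Matrix (Fin 3) (Fin 3) ℝ := (B⁻¹)ᵀ * h * B⁻¹ with hM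
  have hMh : M.IsHermitian := by
    rw [Matrix.IsHermitian, Matrix.conjTranspose_eq_transpose_of_trivial, hM]
    rw [Matrix.transpose_mul, Matrix.transpose_mul, Matrix.transpose_transpose, hh, Matrix.mul_assoc]
  have hSM : S = B⁻¹ * M * B := by
    rw [hS, hB', hM, Matrix.mul_inv_rev, ← Matrix.transpose_nonsing_inv]
    calc B⁻¹ * (B⁻¹)ᵀ * h = B⁻¹ * (B⁻¹)ᵀ * h * (B⁻¹ * B) := by rw [hBB', Matrix.mul_one]
      _ = _ := by simp only [Matrix.mul_assoc]
  have t1 : S.trace = M.trace := by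
    rw [hSM, Matrix.mul_assoc, Matrix.trace_mul_comm, Matrix.mul_assoc, hBB, Matrix.mul_one]
  have t2 : (S * S).trace = (M * M).trace := by
    have : S * S = B⁻¹ * (M * M) * B := by
      rw [hSM]
      calc B⁻¹ * M * B * (B⁻¹ * M * B) = B⁻¹ * M * (B * B⁻¹) * M * B := by
            simp only [Matrix.mul_assoc]
        _ = _ := by rw [hBB, Matrix.mul_one, Matrix.mul_assoc B⁻¹ M M]
    rw [this, Matrix.mul_assoc, Matrix.trace_mul_comm, Matrix.mul_assoc, hBB, Matrix.mul_one]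
  have t3 : (S * S * S).trace = (M * M * M).trace := by
    have : S * S * S = B⁻¹ * (M * M * M) * B := by
      rw [hSM]
      calc B⁻¹ * M * B * (B⁻¹ * M * B) * (B⁻¹ * M * B)
          = B⁻¹ * M * (B * B⁻¹) * M * (B * B⁻¹) * M * B := by
            simp only [Matrix.mul_assoc]
        _ = _ := by
          rw [hBB, Matrix.mul_one, Matrix.mul_one]
          simp only [Matrix.mul_assoc]
    rw [this, Matrix.mul_assoc, Matrix.trace_mul_comm, Matrix.mul_assoc, hBB, Matrix.mul_one]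
  rw [t2, t3]
  rw [t1] at htr
  exact hermitian_ineq M hMh htr

/-- the three eigenvalues -/
noncomputable def eig (c φ : ℝ) : Fin 3 → ℝ :=
  let r := Real.sqrt (c / 6)
  let θ := Real.arccos (φ / (6 * r ^ 3)) / 3
  ![2 * r * Real.cos θ, r * (-Real.cos θ + Real.sqrt 3 * Real.sin θ),
    r * (-Real.cos θ - Real.sqrt 3 * Real.sin θ)]

theorem c_pos {c φ : ℝ} (h : 6 * φ ^ 2 < c ^ 3) : 0 < c := by
  by_contra hcon
  push Not at hcon
  have : c ^ 3 ≤ 0 := by
    have h1 : 0 ≤ c ^ 2 := sq_nonneg c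
    nlinarith
  nlinarith [sq_nonneg φ]

theorem r_pos {c φ : ℝ} (h : 6 * φ ^ 2 < c ^ 3) : 0 < Real.sqrt (c / 6) := by
  have := c_pos h
  exact Real.sqrt_pos.2 (by positivity)

theorem u_lt {c φ : ℝ} (h : 6 * φ ^ 2 < c ^ 3) :
    -1 < φ / (6 * Real.sqrt (c / 6) ^ 3) ∧ φ / (6 * Real.sqrt (c / 6) ^ 3) < 1 := by
  have hc := c_pos h
  have hr0 := r_pos h
  set r := Real.sqrt (c / 6) with hr
  have hr2 : r ^ 2 = c / 6 := Real.sq_sqrt (by positivity)
  set u := φ / (6 * r ^ 3) with hu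
  have hφ : φ = 6 * r ^ 3 * u := by
    rw [hu]
    field_simp
  have hu1 : u ^ 2 < 1 := by
    have h1 : φ ^ 2 = 36 * r ^ 6 * u ^ 2 := by rw [hφ]; ring
    have h2 : r ^ 6 = c ^ 3 / 216 := by
      calc r ^ 6 = (r ^ 2) ^ 3 := by ring
        _ = _ := by rw [hr2]; ring
    have h3 : 0 < c ^ 3 := by positivity
    by_contra hcon
    push Not at hcon
    rw [h1, h2] at h
    nlinarith
  exact abs_lt.1 ((sq_lt_one_iff_abs_lt_one u).1 hu1)

theorem eig_props {c φ : ℝ} (h : 6 * φ ^ 2 < c ^ 3) :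
    eig c φ 0 + eig c φ 1 + eig c φ 2 = 0 ∧
    eig c φ 0 ^ 2 + eig c φ 1 ^ 2 + eig c φ 2 ^ 2 = c ∧
    eig c φ 0 ^ 3 + eig c φ 1 ^ 3 + eig c φ 2 ^ 3 = φ := by
  have hc := c_pos h
  have hr0 := r_pos h
  have hu2 := u_lt h
  have e0 : eig c φ 0 = 2 * Real.sqrt (c / 6) *
    Real.cos (Real.arccos (φ / (6 * Real.sqrt (c / 6) ^ 3)) / 3) := rfl
  have e1 : eig c φ 1 = Real.sqrt (c / 6) *
    (-Real.cos (Real.arccos (φ / (6 * Real.sqrt (c / 6) ^ 3)) / 3) + Real.sqrt 3 *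
      Real.sin (Real.arccos (φ / (6 * Real.sqrt (c / 6) ^ 3)) / 3)) := rfl
  have e2 : eig c φ 2 = Real.sqrt (c / 6) *
    (-Real.cos (Real.arccos (φ / (6 * Real.sqrt (c / 6) ^ 3)) / 3) - Real.sqrt 3 *
      Real.sin (Real.arccos (φ / (6 * Real.sqrt (c / 6) ^ 3)) / 3)) := rfl
  rw [e0, e1, e2]
  set r := Real.sqrt (c / 6) with hr
  have hr2 : r ^ 2 = c / 6 := Real.sq_sqrt (by positivity)
  set u := φ / (6 * r ^ 3) with hu
  have hφ : φ = 6 * r ^ 3 * u := by
    rw [hu]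
    field_simp
  set θ := Real.arccos u / 3 with hθ
  have h3 : Real.cos (3 * θ) = u := by
    rw [hθ, mul_div_cancel₀ _ (by norm_num : (3 : ℝ) ≠ 0)]
    exact Real.cos_arccos hu2.1.le hu2.2.le
  rw [Real.cos_three_mul] at h3
  have hs : Real.sin θ ^ 2 = 1 - Real.cos θ ^ 2 := by
    have := Real.sin_sq_add_cos_sq θ
    linarith
  have hs3 : Real.sqrt 3 ^ 2 = 3 := Real.sq_sqrt (by norm_num)
  refine ⟨by ring, ?_, ?_⟩
  · have : (2 * r * Real.cos θ) ^ 2 + (r * (-Real.cos θ + Real.sqrt 3 * Real.sin θ)) ^ 2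
        + (r * (-Real.cos θ - Real.sqrt 3 * Real.sin θ)) ^ 2
        = r ^ 2 * (6 * Real.cos θ ^ 2 + 2 * Real.sqrt 3 ^ 2 * Real.sin θ ^ 2) := by ring
    rw [this, hs3, hs, hr2]
    ring
  · have : (2 * r * Real.cos θ) ^ 3 + (r * (-Real.cos θ + Real.sqrt 3 * Real.sin θ)) ^ 3
        + (r * (-Real.cos θ - Real.sqrt 3 * Real.sin θ)) ^ 3
        = r ^ 3 * (6 * Real.cos θ ^ 3 - 6 * Real.cos θ * Real.sqrt 3 ^ 2 * Real.sin θ ^ 2) := by ring
    rw [this, hs3, hs, hφ, ← h3]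
    ring

theorem eig_lt {c φ : ℝ} (h : 6 * φ ^ 2 < c ^ 3) :
    eig c φ 1 < eig c φ 0 ∧ eig c φ 2 < eig c φ 1 := by
  have hr0 := r_pos h
  have hu2 := u_lt h
  have e0 : eig c φ 0 = 2 * Real.sqrt (c / 6) *
    Real.cos (Real.arccos (φ / (6 * Real.sqrt (c / 6) ^ 3)) / 3) := rfl
  have e1 : eig c φ 1 = Real.sqrt (c / 6) *
    (-Real.cos (Real.arccos (φ / (6 * Real.sqrt (c / 6) ^ 3)) / 3) + Real.sqrt 3 *
      Real.sin (Real.arccos (φ / (6 * Real.sqrt (c / 6) ^ 3)) / 3)) := rfl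
  have e2 : eig c φ 2 = Real.sqrt (c / 6) *
    (-Real.cos (Real.arccos (φ / (6 * Real.sqrt (c / 6) ^ 3)) / 3) - Real.sqrt 3 *
      Real.sin (Real.arccos (φ / (6 * Real.sqrt (c / 6) ^ 3)) / 3)) := rfl
  rw [e0, e1, e2]
  set r := Real.sqrt (c / 6) with hr
  set u := φ / (6 * r ^ 3) with hu
  have ha0 : 0 < Real.arccos u := Real.arccos_pos.2 hu2.2
  have ha1 : Real.arccos u < Real.pi := by
    rcases (Real.arccos_le_pi u).lt_or_eq with h1 | h1
    · exact h1
    · exact absurd (Real.arccos_eq_pi.1 h1) (not_le.2 hu2.1)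
  set θ := Real.arccos u / 3 with hθ
  have hθ0 : 0 < θ := by positivity
  have hθ1 : θ < Real.pi / 3 := by rw [hθ]; linarith
  have hpi := Real.pi_pos
  have hsin : 0 < Real.sin θ := Real.sin_pos_of_pos_of_lt_pi hθ0 (by linarith)
  have h3 : 0 < Real.sqrt 3 := Real.sqrt_pos.2 (by norm_num)
  have hs3 : Real.sqrt 3 ^ 2 = 3 := Real.sq_sqrt (by norm_num)
  have hsin2 : 0 < Real.sin (Real.pi / 3 - θ) :=
    Real.sin_pos_of_pos_of_lt_pi (by linarith) (by linarith)
  rw [Real.sin_sub, Real.sin_pi_div_three, Real.cos_pi_div_three] at hsin2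
  constructor
  · have : 0 < r * Real.sqrt 3 * (Real.sqrt 3 / 2 * Real.cos θ - 1 / 2 * Real.sin θ) := by positivity
    have h5 : 2 * r * Real.cos θ - r * (-Real.cos θ + Real.sqrt 3 * Real.sin θ) =
        2 * (r * Real.sqrt 3 * (Real.sqrt 3 / 2 * Real.cos θ - 1 / 2 * Real.sin θ)) := by
      linear_combination -(r * Real.cos θ) * hs3
    linarith
  · have : 0 < r * Real.sqrt 3 * Real.sin θ := by positivity
    linarith

theorem disc_ne (a b c s φ : ℝ) (h1 : a + b + c = 0) (h2 : a ^ 2 + b ^ 2 + c ^ 2 = s)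
    (h3 : a ^ 3 + b ^ 3 + c ^ 3 = φ) (h : 6 * φ ^ 2 < s ^ 3) : a ≠ b ∧ a ≠ c ∧ b ≠ c := by
  have hd : 2 * ((a - b) * (a - c) * (b - c)) ^ 2 = s ^ 3 - 6 * φ ^ 2 := by
    have hc : c = - a - b := by linarith
    subst hc
    rw [← h2, ← h3]
    ring
  have hpos : 0 < ((a - b) * (a - c) * (b - c)) ^ 2 := by linarith
  refine ⟨?_, ?_, ?_⟩ <;>
  · rintro rfl
    simp at hpos

theorem eig_ne {c φ : ℝ} (h : 6 * φ ^ 2 < c ^ 3) (i j : Fin 3) (hij : i ≠ j) :
    eig c φ i ≠ eig c φ j := by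
  obtain ⟨h1, h2, h3⟩ := eig_props h
  obtain ⟨d1, d2, d3⟩ := disc_ne _ _ _ _ _ h1 h2 h3 h
  fin_cases i <;> fin_cases j
  · exact absurd rfl hij
  · exact d1
  · exact d2
  · exact d1.symm
  · exact absurd rfl hij
  · exact d3
  · exact d2.symm
  · exact d3.symm
  · exact absurd rfl hij

/-- the projector (up to a factor) onto the eigenspace of `l k` -/
noncomputable def Pk (S : Matrix (Fin 3) (Fin 3) ℝ) (l : Fin 3 → ℝ) (k : Fin 3) :
    Matrix (Fin 3) (Fin 3) ℝ :=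
  (S - l (k + 1) • (1 : Matrix (Fin 3) (Fin 3) ℝ)) * (S - l (k + 2) • (1 : Matrix (Fin 3) (Fin 3) ℝ))

theorem Pk_props (S : Matrix (Fin 3) (Fin 3) ℝ) (l : Fin 3 → ℝ) (htr : S.trace = 0)
    (h1 : l 0 + l 1 + l 2 = 0) (h2 : l 0 ^ 2 + l 1 ^ 2 + l 2 ^ 2 = (S * S).trace)
    (h3 : l 0 ^ 3 + l 1 ^ 3 + l 2 ^ 3 = (S * S * S).trace) (k : Fin 3) :
    S * Pk S l k = l k • Pk S l k ∧
    (Pk S l k).trace = (l k - l (k + 1)) * (l k - l (k + 2)) := by
  have hc := cayley S htr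
  have hsum : l k + l (k + 1) + l (k + 2) = 0 := by
    fin_cases k <;> simp <;> linarith
  have hsq : l k ^ 2 + l (k + 1) ^ 2 + l (k + 2) ^ 2 = (S * S).trace := by
    fin_cases k <;> simp <;> linarith
  have hcu : l k ^ 3 + l (k + 1) ^ 3 + l (k + 2) ^ 3 = (S * S * S).trace := by
    fin_cases k <;> simp <;> linarith
  set a := l k
  set b := l (k + 1) with hb
  set c := l (k + 2) with hc'
  have hP : Pk S l k = S * S - (b + c) • S + (b * c) • (1 : Matrix (Fin 3) (Fin 3) ℝ) := by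
    unfold Pk
    rw [← hb, ← hc', Matrix.sub_mul, Matrix.mul_sub, Matrix.mul_sub]
    simp only [Matrix.smul_mul, Matrix.mul_smul, Matrix.one_mul, Matrix.mul_one]
    ext i j
    simp only [Matrix.add_apply, Matrix.sub_apply, Matrix.smul_apply, smul_eq_mul]
    ring
  have ha : a = - b - c := by linarith
  constructor
  · rw [hP, Matrix.mul_add, Matrix.mul_sub, ← Matrix.mul_assoc, hc, ← hsq, ← hcu, ha]
    simp only [Matrix.mul_smul, Matrix.mul_one]
    ext i j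
    simp only [Matrix.add_apply, Matrix.sub_apply, Matrix.smul_apply, smul_eq_mul]
    ring
  · rw [hP, Matrix.trace_add, Matrix.trace_sub, Matrix.trace_smul, Matrix.trace_smul, htr, ← hsq,
      Matrix.trace_one, ha]
    simp only [smul_eq_mul, Fintype.card_fin]
    push_cast
    ring

end Bry
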