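import Pool.Agent.Lib.MP_2b07f9_gt.Frame

/-! # Smooth functions on an open set as an algebra, derivations along vector fields -/

set_option autoImplicit false
open Finset
namespace Bry

/-- The ring of smooth functions on `B`. -/
def Sm (B : Set (EuclideanSpace ℝ (Fin 3))) : Subalgebra ℝ (B → ℝ) where
  carrier := {g | ∃ g' : EuclideanSpace ℝ (Fin 3) → ℝ,
    ContDiffOn ℝ ((⊤ : ℕ∞) : WithTop ℕ∞) g' B ∧ ∀ x : B, g x = g' x}
  mul_mem' := by
    rintro a b ⟨a', ha, ha2⟩ ⟨b', hb, hb2⟩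
    exact ⟨fun x => a' x * b' x, ha.mul hb, fun x => by simp [ha2, hb2]⟩
  add_mem' := by
    rintro a b ⟨a', ha, ha2⟩ ⟨b', hb, hb2⟩
    exact ⟨fun x => a' x + b' x, ha.add hb, fun x => by simp [ha2, hb2]⟩
  algebraMap_mem' := fun r => ⟨fun _ => r, contDiffOn_const, fun _ => rfl⟩

/-- the domain of the chart -/
abbrev E3 := EuclideanSpace ℝ (Fin 3)

/-- the ambient space -/
abbrev E5 := EuclideanSpace ℝ (Fin 5)

/-- smoothness -/
abbrev inf : WithTop ℕ∞ := ((⊤ : ℕ∞) : WithTop ℕ∞)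

section gD
variable {W : Type*} [NormedAddCommGroup W] [NormedSpace ℝ W]

/-- derivative of `F` along the vector field `v` -/
noncomputable def gD (v : E3 → E3) (F : E3 → W) (x : E3) : W := fderiv ℝ F x (v x)

variable {B : Set E3} (hB : IsOpen B)
include hB

theorem diffAt {F : E3 → W} (hF : ContDiffOn ℝ inf F B) {x : E3} (hx : x ∈ B) :
    DifferentiableAt ℝ F x :=
  (hF.contDiffAt (hB.mem_nhds hx)).differentiableAt (by simp [inf])

theorem contDiffOn_fderiv {F : E3 → W} (hF : ContDiffOn ℝ inf F B) :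
    ContDiffOn ℝ inf (fderiv ℝ F) B :=
  hF.fderiv_of_isOpen hB (by simp [inf])

theorem contDiffOn_gD {v : E3 → E3} (hv : ContDiffOn ℝ inf v B) {F : E3 → W}
    (hF : ContDiffOn ℝ inf F B) : ContDiffOn ℝ inf (gD v F) B :=
  (contDiffOn_fderiv hB hF).clm_apply hv

theorem gD_congr {v : E3 → E3} {F G : E3 → W} (h : ∀ x ∈ B, F x = G x) {x : E3} (hx : x ∈ B) :
    gD v F x = gD v G x := by
  have : F =ᶠ[nhds x] G := Filter.eventually_of_mem (hB.mem_nhds hx) h
  unfold gD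
  rw [this.fderiv_eq]

theorem gD_add {v : E3 → E3} {F G : E3 → W} (hF : ContDiffOn ℝ inf F B)
    (hG : ContDiffOn ℝ inf G B) {x : E3} (hx : x ∈ B) :
    gD v (fun y => F y + G y) x = gD v F x + gD v G x := by
  unfold gD
  rw [fderiv_fun_add (diffAt hB hF hx) (diffAt hB hG hx)]
  rfl

theorem gD_sub {v : E3 → E3} {F G : E3 → W} (hF : ContDiffOn ℝ inf F B)
    (hG : ContDiffOn ℝ inf G B) {x : E3} (hx : x ∈ B) :
    gD v (fun y => F y - G y) x = gD v F x - gD v G x := by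
  unfold gD
  rw [fderiv_fun_sub (diffAt hB hF hx) (diffAt hB hG hx)]
  rfl

theorem gD_smul {v : E3 → E3} {a : E3 → ℝ} {F : E3 → W} (ha : ContDiffOn ℝ inf a B)
    (hF : ContDiffOn ℝ inf F B) {x : E3} (hx : x ∈ B) :
    gD v (fun y => a y • F y) x = a x • gD v F x + gD v a x • F x := by
  unfold gD
  rw [fderiv_fun_smul (diffAt hB ha hx) (diffAt hB hF hx)]
  rfl

theorem gD_mul {v : E3 → E3} {a b : E3 → ℝ} (ha : ContDiffOn ℝ inf a B)
    (hb : ContDiffOn ℝ inf b B) {x : E3} (hx : x ∈ B) :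
    gD v (fun y => a y * b y) x = a x * gD v b x + b x * gD v a x := by
  have := gD_smul hB (v := v) ha hb hx
  simp only [smul_eq_mul] at this
  rw [this]
  ring

theorem gD_sum {ι : Type*} (s : Finset ι) {v : E3 → E3} {F : ι → E3 → W}
    (hF : ∀ i ∈ s, ContDiffOn ℝ inf (F i) B) {x : E3} (hx : x ∈ B) :
    gD v (fun y => ∑ i ∈ s, F i y) x = ∑ i ∈ s, gD v (F i) x := by
  unfold gD
  rw [fderiv_fun_sum (fun i hi => diffAt hB (hF i hi) hx)]
  simp

omit hB in
theorem gD_const {v : E3 → E3} (c : W) (x : E3) : gD v (fun _ => c) x = 0 := by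
  simp [gD]

/-- second derivatives commute, written with vector fields -/
theorem gD_comm {v w : E3 → E3} (hv : ContDiffOn ℝ inf v B) (hw : ContDiffOn ℝ inf w B)
    {F : E3 → W} (hF : ContDiffOn ℝ inf F B) {x : E3} (hx : x ∈ B) :
    gD v (gD w F) x - gD w (gD v F) x = fderiv ℝ F x (gD v w x - gD w v x) := by
  have hF' := contDiffOn_fderiv hB hF
  have key : ∀ v w : E3 → E3, ContDiffOn ℝ inf w B →
      gD v (gD w F) x = fderiv ℝ (fderiv ℝ F) x (v x) (w x) + fderiv ℝ F x (gD v w x) := by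
    intro v w hw
    unfold gD
    rw [fderiv_clm_apply (diffAt hB hF' hx) (diffAt hB hw hx)]
    simp [add_comm]
  have hsymm : IsSymmSndFDerivAt ℝ F x :=
    (hF.contDiffAt (hB.mem_nhds hx)).isSymmSndFDerivAt (by
      simp only [minSmoothness_of_isRCLikeNormedField, inf]
      exact WithTop.coe_le_coe.2 le_top)
  rw [key v w hw, key w v hv, hsymm.eq (v x) (w x), map_sub]
  abel

end gD

section inner
variable {W : Type*} [NormedAddCommGroup W] [InnerProductSpace ℝ W]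
variable {B : Set E3} (hB : IsOpen B)
include hB

theorem gD_inner {v : E3 → E3} {F G : E3 → W} (hF : ContDiffOn ℝ inf F B)
    (hG : ContDiffOn ℝ inf G B) {x : E3} (hx : x ∈ B) :
    gD v (fun y => inner ℝ (F y) (G y)) x = inner ℝ (gD v F x) (G x) + inner ℝ (F x) (gD v G x) := by
  unfold gD
  rw [fderiv_inner_apply ℝ (diffAt hB hF hx) (diffAt hB hG hx)]
  rw [add_comm]

end inner

/-! ### elements of `Sm B` -/

section Sm
variable {B : Set E3}

/-- a smooth function as an element of the ring -/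
def Sm.mk (g : E3 → ℝ) (hg : ContDiffOn ℝ inf g B) : Sm B := ⟨fun x => g x, g, hg, fun _ => rfl⟩

@[simp] theorem Sm.mk_apply (g : E3 → ℝ) (hg : ContDiffOn ℝ inf g B) (x : B) :
    (Sm.mk g hg : B → ℝ) x = g x := rfl

open Classical in
/-- extension by zero -/
noncomputable def Sm.ext (g : Sm B) (x : E3) : ℝ := if h : x ∈ B then (g : B → ℝ) ⟨x, h⟩ else 0

theorem Sm.ext_apply (g : Sm B) (x : B) : Sm.ext g x = (g : B → ℝ) x := by
  simp [Sm.ext]

theorem Sm.ext_of_mem (g : Sm B) {x : E3} (hx : x ∈ B) : Sm.ext g x = (g : B → ℝ) ⟨x, hx⟩ := by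
  simp [Sm.ext, hx]

theorem Sm.contDiffOn_ext (g : Sm B) : ContDiffOn ℝ inf (Sm.ext g) B := by
  obtain ⟨g', hg', h⟩ := g.2
  exact hg'.congr fun x hx => by rw [Sm.ext_of_mem g hx, h]

theorem Sm.ext_inj {g h : Sm B} (H : ∀ x ∈ B, Sm.ext g x = Sm.ext h x) : g = h := by
  apply Subtype.ext
  funext x
  rw [← Sm.ext_apply, ← Sm.ext_apply]
  exact H x x.2

@[simp] theorem Sm.ext_mk (g : E3 → ℝ) (hg : ContDiffOn ℝ inf g B) {x : E3} (hx : x ∈ B) :
    Sm.ext (Sm.mk g hg) x = g x := by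
  rw [Sm.ext_of_mem _ hx]; rfl

theorem Sm.ext_add (g h : Sm B) {x : E3} (hx : x ∈ B) :
    Sm.ext (g + h) x = Sm.ext g x + Sm.ext h x := by
  simp only [Sm.ext_of_mem _ hx]; rfl

theorem Sm.ext_mul (g h : Sm B) {x : E3} (hx : x ∈ B) :
    Sm.ext (g * h) x = Sm.ext g x * Sm.ext h x := by
  simp only [Sm.ext_of_mem _ hx]; rfl

theorem Sm.ext_sub (g h : Sm B) {x : E3} (hx : x ∈ B) :
    Sm.ext (g - h) x = Sm.ext g x - Sm.ext h x := by
  simp only [Sm.ext_of_mem _ hx]; rfl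

theorem Sm.ext_neg (g : Sm B) {x : E3} (hx : x ∈ B) :
    Sm.ext (-g) x = - Sm.ext g x := by
  simp only [Sm.ext_of_mem _ hx]; rfl

theorem Sm.ext_smul (c : ℝ) (g : Sm B) {x : E3} (hx : x ∈ B) :
    Sm.ext (c • g) x = c * Sm.ext g x := by
  simp only [Sm.ext_of_mem _ hx]; rfl

theorem Sm.ext_zero {x : E3} : Sm.ext (0 : Sm B) x = 0 := by
  unfold Sm.ext
  split_ifs
  · rfl
  · rfl

theorem Sm.ext_one {x : E3} (hx : x ∈ B) : Sm.ext (1 : Sm B) x = 1 := by
  simp only [Sm.ext_of_mem _ hx]; rfl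

theorem Sm.ext_algebraMap (c : ℝ) {x : E3} (hx : x ∈ B) :
    Sm.ext (algebraMap ℝ (Sm B) c) x = c := by
  simp only [Sm.ext_of_mem _ hx]; rfl

theorem Sm.ext_sum {ι : Type*} (s : Finset ι) (g : ι → Sm B) {x : E3} (hx : x ∈ B) :
    Sm.ext (∑ i ∈ s, g i) x = ∑ i ∈ s, Sm.ext (g i) x := by
  classical
  induction s using Finset.induction_on with
  | empty => simp [Sm.ext_zero]
  | insert a s ha ih => rw [Finset.sum_insert ha, Finset.sum_insert ha, Sm.ext_add _ _ hx, ih]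

theorem Sm.ext_dl (i j : Fin 3) {x : E3} (hx : x ∈ B) :
    Sm.ext (dl i j : Sm B) x = if i = j then 1 else 0 := by
  unfold dl
  split_ifs
  · exact Sm.ext_one hx
  · exact Sm.ext_zero

/-- the derivation along a vector field -/
noncomputable def Sm.der (hB : IsOpen B) (v : E3 → E3) (hv : ContDiffOn ℝ inf v B) :
    Derivation ℝ (Sm B) (Sm B) :=
  Derivation.mk'
    { toFun := fun g => Sm.mk (gD v (Sm.ext g)) (contDiffOn_gD hB hv (Sm.contDiffOn_ext g))
      map_add' := by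
        intro g h
        apply Sm.ext_inj
        intro x hx
        rw [Sm.ext_mk _ _ hx, Sm.ext_add _ _ hx, Sm.ext_mk _ _ hx, Sm.ext_mk _ _ hx,
          ← gD_add hB (Sm.contDiffOn_ext g) (Sm.contDiffOn_ext h) hx]
        exact gD_congr hB (fun y hy => Sm.ext_add g h hy) hx
      map_smul' := by
        intro c g
        apply Sm.ext_inj
        intro x hx
        rw [Sm.ext_mk _ _ hx, RingHom.id_apply, Sm.ext_smul _ _ hx, Sm.ext_mk _ _ hx]
        have h1 : gD v (Sm.ext (c • g)) x = gD v (fun y => (fun _ => c) y * Sm.ext g y) x :=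
          gD_congr hB (fun y hy => Sm.ext_smul c g hy) hx
        rw [h1, gD_mul hB contDiffOn_const (Sm.contDiffOn_ext g) hx, gD_const]
        ring }
    (by
      intro g h
      apply Sm.ext_inj
      intro x hx
      simp only [LinearMap.coe_mk, AddHom.coe_mk, smul_eq_mul]
      rw [Sm.ext_mk _ _ hx, Sm.ext_add _ _ hx, Sm.ext_mul _ _ hx, Sm.ext_mul _ _ hx,
        Sm.ext_mk _ _ hx, Sm.ext_mk _ _ hx,
        ← gD_mul hB (Sm.contDiffOn_ext g) (Sm.contDiffOn_ext h) hx]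
      exact gD_congr hB (fun y hy => Sm.ext_mul g h hy) hx)

theorem Sm.ext_der (hB : IsOpen B) (v : E3 → E3) (hv : ContDiffOn ℝ inf v B) (g : Sm B) {x : E3}
    (hx : x ∈ B) : Sm.ext (Sm.der hB v hv g) x = gD v (Sm.ext g) x :=
  Sm.ext_mk (gD v (Sm.ext g)) (contDiffOn_gD hB hv (Sm.contDiffOn_ext g)) hx

theorem Sm.ext_der_mk (hB : IsOpen B) (v : E3 → E3) (hv : ContDiffOn ℝ inf v B) (g : E3 → ℝ)
    (hg : ContDiffOn ℝ inf g B) {x : E3} (hx : x ∈ B) :
    Sm.ext (Sm.der hB v hv (Sm.mk g hg)) x = gD v g x := by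
  rw [Sm.ext_der hB v hv _ hx]
  exact gD_congr hB (fun y hy => Sm.ext_mk g hg hy) hx

end Sm

end Bry
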