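import Pool.Agent.Lib.MP_2b07f9_gt.Geom1

/-! # Structure equations of a principal frame -/

set_option autoImplicit false
open Finset
namespace Bry

/-- a smooth principal frame (`v i`) of a minimal hypersurface of the sphere -/
structure Fields (B : Set E3) (c : ℝ) where
  f : E3 → E5
  ν : E3 → E5
  v : Fin 3 → E3 → E3
  lam : Fin 3 → E3 → ℝ
  hB : IsOpen B
  hf : ContDiffOn ℝ inf f B
  hν : ContDiffOn ℝ inf ν B
  hv : ∀ i, ContDiffOn ℝ inf (v i) B
  hlam : ∀ i, ContDiffOn ℝ inf (lam i) B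
  inj : ∀ x ∈ B, Function.Injective (fderiv ℝ f x)
  on : ∀ x ∈ B, ∀ i j, inner ℝ (gD (v i) f x) (gD (v j) f x) = if i = j then (1 : ℝ) else 0
  ff : ∀ x ∈ B, inner ℝ (f x) (f x) = (1 : ℝ)
  νν : ∀ x ∈ B, inner ℝ (ν x) (ν x) = (1 : ℝ)
  fν : ∀ x ∈ B, inner ℝ (f x) (ν x) = (0 : ℝ)
  tang : ∀ x ∈ B, ∀ i, inner ℝ (gD (v i) f x) (ν x) = (0 : ℝ)
  dν : ∀ x ∈ B, ∀ i, gD (v i) ν x = -(lam i x) • gD (v i) f x
  tr : ∀ x ∈ B, ∑ i, lam i x = 0
  nrm : ∀ x ∈ B, ∑ i, lam i x ^ 2 = c

namespace Fields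

variable {B : Set E3} {c : ℝ} (F : Fields B c)

/-- the frame in the ambient space -/
noncomputable def e (i : Fin 3) : E3 → E5 := gD (F.v i) F.f

/-- connection coefficients -/
noncomputable def G (i j k : Fin 3) (x : E3) : ℝ := inner ℝ (gD (F.v i) (F.e j) x) (F.e k x)

/-- second fundamental form -/
noncomputable def Af (i j : Fin 3) (x : E3) : ℝ := if i = j then F.lam i x else 0

theorem he (i : Fin 3) : ContDiffOn ℝ inf (F.e i) B := contDiffOn_gD F.hB (F.hv i) F.hf

theorem hG (i j k : Fin 3) : ContDiffOn ℝ inf (F.G i j k) B :=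
  (contDiffOn_gD F.hB (F.hv i) (F.he j)).inner ℝ (F.he k)

theorem hAf (i j : Fin 3) : ContDiffOn ℝ inf (F.Af i j) B := by
  unfold Af
  split_ifs
  · exact F.hlam i
  · exact contDiffOn_const

theorem ef {x : E3} (hx : x ∈ B) (i : Fin 3) : inner ℝ (F.e i x) (F.f x) = (0 : ℝ) := by
  have h1 := gD_inner F.hB (v := F.v i) F.hf F.hf hx
  have h2 : gD (F.v i) (fun y => inner ℝ (F.f y) (F.f y)) x = 0 := by
    rw [gD_congr F.hB (G := fun _ => (1 : ℝ)) (fun y hy => F.ff y hy) hx, gD_const]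
  rw [h2, real_inner_comm (gD (F.v i) F.f x) (F.f x)] at h1
  unfold e
  linarith

theorem ee {x : E3} (hx : x ∈ B) (i j : Fin 3) :
    inner ℝ (F.e i x) (F.e j x) = if i = j then (1 : ℝ) else 0 := F.on x hx i j

theorem eν {x : E3} (hx : x ∈ B) (i : Fin 3) : inner ℝ (F.e i x) (F.ν x) = (0 : ℝ) :=
  F.tang x hx i

/-- expansion in the orthonormal basis -/
theorem inner_eq {x : E3} (hx : x ∈ B) (w w' : E5) :
    inner ℝ w w' = ∑ k, inner ℝ w (F.e k x) * inner ℝ w' (F.e k x) +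
      inner ℝ w (F.ν x) * inner ℝ w' (F.ν x) + inner ℝ w (F.f x) * inner ℝ w' (F.f x) := by
  let u : Fin 3 ⊕ Fin 2 → E5 := Sum.elim (fun k => F.e k x) ![F.ν x, F.f x]
  have hu : Orthonormal ℝ u := by
    rw [orthonormal_iff_ite]
    rintro (i | i) (j | j)
    · simp only [u, Sum.elim_inl, Sum.inl.injEq]
      exact F.ee hx i j
    · fin_cases j
      · simpa [u] using F.eν hx i
      · simpa [u] using F.ef hx i
    · fin_cases i
      · simpa [u, real_inner_comm] using F.eν hx j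
      · simpa [u, real_inner_comm] using F.ef hx j
    · fin_cases i <;> fin_cases j
      · simpa [u] using F.νν x hx
      · simpa [u, real_inner_comm] using F.fν x hx
      · simpa [u] using F.fν x hx
      · simpa [u] using F.ff x hx
  have hcard : Fintype.card (Fin 3 ⊕ Fin 2) = Module.finrank ℝ E5 := by simp
  let b := basisOfOrthonormalOfCardEqFinrank hu hcard
  have hb : ⇑b = u := coe_basisOfOrthonormalOfCardEqFinrank hu hcard
  let ob : OrthonormalBasis (Fin 3 ⊕ Fin 2) ℝ E5 := b.toOrthonormalBasis (by rw [hb]; exact hu)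
  have hob : ⇑ob = u := by
    rw [← hb]
    exact b.coe_toOrthonormalBasis _
  have := ob.sum_inner_mul_inner w w'
  rw [← this, hob]
  simp only [Fintype.sum_sum_type, Fin.sum_univ_two, u, Sum.elim_inl, Sum.elim_inr,
    Matrix.cons_val_zero, Matrix.cons_val_one]
  rw [real_inner_comm (F.ν x) w', real_inner_comm (F.f x) w', add_assoc]
  congr 1
  apply Finset.sum_congr rfl
  intro k _
  rw [real_inner_comm (F.e k x) w']

theorem G_anti {x : E3} (hx : x ∈ B) (i j k : Fin 3) : F.G i j k x = - F.G i k j x := by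
  have h1 := gD_inner F.hB (v := F.v i) (F.he j) (F.he k) hx
  have h2 : gD (F.v i) (fun y => inner ℝ (F.e j y) (F.e k y)) x = 0 := by
    rw [gD_congr F.hB (G := fun _ => (if j = k then (1 : ℝ) else 0)) (fun y hy => F.ee hy j k) hx,
      gD_const]
  rw [h2, real_inner_comm (gD (F.v i) (F.e k) x) (F.e j x)] at h1
  unfold G
  linarith

theorem De_ν {x : E3} (hx : x ∈ B) (i j : Fin 3) :
    inner ℝ (gD (F.v i) (F.e j) x) (F.ν x) = F.Af i j x := by
  have h1 := gD_inner F.hB (v := F.v i) (F.he j) F.hν hx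
  have h2 : gD (F.v i) (fun y => inner ℝ (F.e j y) (F.ν y)) x = 0 := by
    rw [gD_congr F.hB (G := fun _ => (0 : ℝ)) (fun y hy => F.eν hy j) hx, gD_const]
  rw [h2, F.dν x hx i, inner_smul_right] at h1
  have h3 : inner ℝ (F.e j x) (gD (F.v i) F.f x) = if j = i then (1 : ℝ) else 0 := F.ee hx j i
  rw [h3] at h1
  unfold Af
  split_ifs at h1 ⊢ with h4 h5 h6
  · linarith
  · exact absurd h4.symm h5
  · exact absurd h6.symm h4
  · linarith

theorem De_f {x : E3} (hx : x ∈ B) (i j : Fin 3) :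
    inner ℝ (gD (F.v i) (F.e j) x) (F.f x) = - if i = j then (1 : ℝ) else 0 := by
  have h1 := gD_inner F.hB (v := F.v i) (F.he j) F.hf hx
  have h2 : gD (F.v i) (fun y => inner ℝ (F.e j y) (F.f y)) x = 0 := by
    rw [gD_congr F.hB (G := fun _ => (0 : ℝ)) (fun y hy => F.ef hy j) hx, gD_const]
  rw [h2] at h1
  have h3 : inner ℝ (F.e j x) (gD (F.v i) F.f x) = if j = i then (1 : ℝ) else 0 := F.ee hx j i
  rw [h3] at h1
  split_ifs at h1 ⊢ with h4 h5 h6
  · linarith
  · exact absurd h4.symm h5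
  · exact absurd h6.symm h4
  · linarith

theorem Dν_e {x : E3} (hx : x ∈ B) (i j : Fin 3) :
    inner ℝ (gD (F.v i) F.ν x) (F.e j x) = - F.Af i j x := by
  rw [F.dν x hx i, inner_smul_left]
  have h3 : inner ℝ (gD (F.v i) F.f x) (F.e j x) = if i = j then (1 : ℝ) else 0 := F.ee hx i j
  rw [h3]
  unfold Af
  split_ifs <;> simp

theorem Dν_ν {x : E3} (hx : x ∈ B) (i : Fin 3) :
    inner ℝ (gD (F.v i) F.ν x) (F.ν x) = 0 := by
  rw [F.dν x hx i, inner_smul_left, F.tang x hx i]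
  simp

theorem Dν_f {x : E3} (hx : x ∈ B) (i : Fin 3) :
    inner ℝ (gD (F.v i) F.ν x) (F.f x) = 0 := by
  rw [F.dν x hx i, inner_smul_left]
  have : inner ℝ (gD (F.v i) F.f x) (F.f x) = (0 : ℝ) := F.ef hx i
  rw [this]
  simp

/-- vectors of `E5` are equal when their components are -/
theorem vec_ext {x : E3} (hx : x ∈ B) {w w' : E5}
    (h1 : ∀ k, inner ℝ w (F.e k x) = inner ℝ w' (F.e k x))
    (h2 : inner ℝ w (F.ν x) = inner ℝ w' (F.ν x)) (h3 : inner ℝ w (F.f x) = inner ℝ w' (F.f x)) :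
    w = w' := by
  refine ext_inner_left ℝ fun z => ?_
  rw [F.inner_eq hx z w, F.inner_eq hx z w', h2, h3]
  simp only [h1]

/-- Lie brackets -/
theorem bracket {x : E3} (hx : x ∈ B) (i j : Fin 3) :
    gD (F.v i) (F.v j) x - gD (F.v j) (F.v i) x = ∑ k, (F.G i j k x - F.G j i k x) • F.v k x := by
  apply F.inj x hx
  rw [← gD_comm F.hB (F.hv i) (F.hv j) F.hf hx, map_sum]
  change gD (F.v i) (F.e j) x - gD (F.v j) (F.e i) x = _
  have h : ∀ k, fderiv ℝ F.f x ((F.G i j k x - F.G j i k x) • F.v k x) =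
      (F.G i j k x - F.G j i k x) • F.e k x := by
    intro k
    rw [map_smul]
    rfl
  simp only [h]
  apply F.vec_ext hx
  · intro k
    rw [inner_sub_left, sum_inner]
    simp only [inner_smul_left, F.ee hx]
    simp [G]
  · rw [inner_sub_left, sum_inner, F.De_ν hx, F.De_ν hx]
    simp only [inner_smul_left, F.eν hx]
    unfold Af
    by_cases hij : i = j
    · subst hij; simp
    · simp [hij, Ne.symm hij]
  · rw [inner_sub_left, sum_inner, F.De_f hx, F.De_f hx]
    simp only [inner_smul_left, F.ef hx]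
    by_cases hij : i = j
    · subst hij; simp
    · simp [hij, Ne.symm hij]

theorem tors {W : Type*} [NormedAddCommGroup W] [NormedSpace ℝ W] {x : E3} (hx : x ∈ B)
    (i j : Fin 3) {g : E3 → W} (hg : ContDiffOn ℝ inf g B) :
    gD (F.v i) (gD (F.v j) g) x - gD (F.v j) (gD (F.v i) g) x =
      ∑ k, (F.G i j k x - F.G j i k x) • gD (F.v k) g x := by
  rw [gD_comm F.hB (F.hv i) (F.hv j) hg hx, F.bracket hx, map_sum]
  simp only [map_smul]
  rfl

theorem gauss {x : E3} (hx : x ∈ B) (i j k l : Fin 3) :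
    gD (F.v i) (F.G j k l) x - gD (F.v j) (F.G i k l) x
      + ∑ m, (F.G j k m x * F.G i m l x - F.G i k m x * F.G j m l x)
      - ∑ m, (F.G i j m x - F.G j i m x) * F.G m k l x
      = F.Af j k x * F.Af i l x - F.Af i k x * F.Af j l x
        + (if j = k then (1 : ℝ) else 0) * (if i = l then 1 else 0)
        - (if i = k then (1 : ℝ) else 0) * (if j = l then 1 else 0) := by
  have key : ∀ i j : Fin 3, gD (F.v i) (F.G j k l) x =
      inner ℝ (gD (F.v i) (gD (F.v j) (F.e k)) x) (F.e l x) - ∑ m, F.G j k m x * F.G i m l x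
        + F.Af j k x * F.Af i l x + (if j = k then (1 : ℝ) else 0) * (if i = l then 1 else 0) := by
    intro i j
    have h1 := gD_inner F.hB (v := F.v i) (contDiffOn_gD F.hB (F.hv j) (F.he k)) (F.he l) hx
    have h2 : gD (F.v i) (F.G j k l) x =
      gD (F.v i) (fun y => inner ℝ (gD (F.v j) (F.e k) y) (F.e l y)) x := rfl
    rw [h2, h1, F.inner_eq hx (gD (F.v j) (F.e k) x) (gD (F.v i) (F.e l) x), F.De_ν hx, F.De_ν hx,
      F.De_f hx, F.De_f hx]
    have h3 : ∑ m, inner ℝ (gD (F.v j) (F.e k) x) (F.e m x) *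
        inner ℝ (gD (F.v i) (F.e l) x) (F.e m x) = - ∑ m, F.G j k m x * F.G i m l x := by
      rw [← Finset.sum_neg_distrib]
      apply Finset.sum_congr rfl
      intro m _
      have := F.G_anti hx i m l
      rw [this]
      unfold G
      ring
    rw [h3]
    ring
  have h4 : inner ℝ (gD (F.v i) (gD (F.v j) (F.e k)) x) (F.e l x) -
      inner ℝ (gD (F.v j) (gD (F.v i) (F.e k)) x) (F.e l x) =
      ∑ m, (F.G i j m x - F.G j i m x) * F.G m k l x := by
    rw [← inner_sub_left, F.tors hx i j (F.he k), sum_inner]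
    simp only [inner_smul_left]
    rfl
  rw [key i j, key j i, Finset.sum_sub_distrib]
  linear_combination h4

theorem cod {x : E3} (hx : x ∈ B) (i j k : Fin 3) :
    gD (F.v i) (F.Af j k) x - ∑ m, F.G i j m x * F.Af m k x - ∑ m, F.G i k m x * F.Af j m x
      = gD (F.v j) (F.Af i k) x - ∑ m, F.G j i m x * F.Af m k x
        - ∑ m, F.G j k m x * F.Af i m x := by
  have key : ∀ i j : Fin 3, gD (F.v i) (F.Af j k) x =
      inner ℝ (gD (F.v i) (gD (F.v j) (F.e k)) x) (F.ν x) - ∑ m, F.G j k m x * F.Af i m x := by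
    intro i j
    have h1 := gD_inner F.hB (v := F.v i) (contDiffOn_gD F.hB (F.hv j) (F.he k)) F.hν hx
    have h2 : gD (F.v i) (F.Af j k) x =
        gD (F.v i) (fun y => inner ℝ (gD (F.v j) (F.e k) y) (F.ν y)) x :=
      gD_congr F.hB (fun y hy => (F.De_ν hy j k).symm) hx
    rw [h2, h1, F.inner_eq hx (gD (F.v j) (F.e k) x) (gD (F.v i) F.ν x), F.Dν_ν hx, F.Dν_f hx]
    have h3 : ∑ m, inner ℝ (gD (F.v j) (F.e k) x) (F.e m x) *
        inner ℝ (gD (F.v i) F.ν x) (F.e m x) = - ∑ m, F.G j k m x * F.Af i m x := by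
      rw [← Finset.sum_neg_distrib]
      apply Finset.sum_congr rfl
      intro m _
      rw [F.Dν_e hx]
      unfold G
      ring
    rw [h3]
    ring
  have h4 : inner ℝ (gD (F.v i) (gD (F.v j) (F.e k)) x) (F.ν x) -
      inner ℝ (gD (F.v j) (gD (F.v i) (F.e k)) x) (F.ν x) =
      ∑ m, (F.G i j m x - F.G j i m x) * F.Af m k x := by
    rw [← inner_sub_left, F.tors hx i j (F.he k), sum_inner]
    simp only [inner_smul_left, F.De_ν hx]
    rfl
  rw [key i j, key j i]
  simp only [sub_mul, Finset.sum_sub_distrib] at h4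
  linear_combination h4

/-- the frame -/
noncomputable def toFrame : Frame (Sm B) where
  s := c
  D := fun i => Sm.der F.hB (F.v i) (F.hv i)
  Γ := fun i j k => Sm.mk (F.G i j k) (F.hG i j k)
  A := fun i j => Sm.mk (F.Af i j) (F.hAf i j)
  anti := by
    intro i j k
    apply Sm.ext_inj
    intro x hx
    rw [Sm.ext_neg _ hx, Sm.ext_mk _ _ hx, Sm.ext_mk _ _ hx]
    exact F.G_anti hx i j k
  symm := by
    intro i j
    apply Sm.ext_inj
    intro x hx
    rw [Sm.ext_mk _ _ hx, Sm.ext_mk _ _ hx]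
    unfold Af
    by_cases hij : i = j
    · subst hij; simp
    · simp [hij, Ne.symm hij]
  tors := by
    intro i j g
    apply Sm.ext_inj
    intro x hx
    have h1 : ∀ i j : Fin 3, Sm.ext (Sm.der F.hB (F.v i) (F.hv i) (Sm.der F.hB (F.v j) (F.hv j) g)) x
        = gD (F.v i) (gD (F.v j) (Sm.ext g)) x := by
      intro i j
      rw [Sm.ext_der _ _ _ _ hx]
      exact gD_congr F.hB (fun y hy => Sm.ext_der _ _ _ _ hy) hx
    rw [Sm.ext_sub _ _ hx, h1, h1, F.tors hx i j (Sm.contDiffOn_ext g), Sm.ext_sum _ _ hx]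
    apply Finset.sum_congr rfl
    intro k _
    rw [Sm.ext_mul _ _ hx, Sm.ext_sub _ _ hx, Sm.ext_mk _ _ hx, Sm.ext_mk _ _ hx,
      Sm.ext_der _ _ _ _ hx, smul_eq_mul]
  gauss := by
    intro i j k l
    apply Sm.ext_inj
    intro x hx
    simp only [Sm.ext_sub _ _ hx, Sm.ext_add _ _ hx, Sm.ext_mul _ _ hx, Sm.ext_sum _ _ hx,
      Sm.ext_mk _ _ hx, Sm.ext_der_mk _ _ _ _ _ hx, Sm.ext_dl _ _ hx]
    exact F.gauss hx i j k l
  cod := by
    intro i j k
    apply Sm.ext_inj
    intro x hx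
    simp only [Sm.ext_sub _ _ hx, Sm.ext_mul _ _ hx, Sm.ext_sum _ _ hx,
      Sm.ext_mk _ _ hx, Sm.ext_der_mk _ _ _ _ _ hx]
    exact F.cod hx i j k
  tr := by
    apply Sm.ext_inj
    intro x hx
    simp only [Sm.ext_sum _ _ hx, Sm.ext_mk _ _ hx, Sm.ext_zero]
    have := F.tr x hx
    simpa [Af] using this
  nrm := by
    apply Sm.ext_inj
    intro x hx
    simp only [Sm.ext_sum _ _ hx, Sm.ext_mul _ _ hx, Sm.ext_mk _ _ hx, Sm.ext_algebraMap _ hx]
    refine Eq.trans ?_ (F.nrm x hx)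
    apply Finset.sum_congr rfl
    intro i _
    simp only [Af]
    rw [Finset.sum_eq_single i]
    · simp [sq]
    · intro j _ hj
      simp [Ne.symm hj]
    · simp

end Fields

end Bry
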