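import Pool.Agent.Lib.MP_2b07f9_gt.Geom0
import Pool.Agent.Lib.MP_2b07f9_gt.Geom2

/-! # The Weingarten equation and smoothness of the shape operator -/

set_option autoImplicit false
open Finset
namespace Bry

/-- standard basis -/
noncomputable def bb (i : Fin 3) : E3 := EuclideanSpace.single i (1 : ℝ)

/-- matrix times vector -/
noncomputable def mv (M : Matrix (Fin 3) (Fin 3) ℝ) (w : E3) : E3 := WithLp.toLp 2 (M.mulVec w)

theorem sum_bb (w : E3) : w = ∑ j, w j • bb j := by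
  ext i
  simp [bb, Finset.sum_apply, Pi.single_apply]

theorem mv_apply (M : Matrix (Fin 3) (Fin 3) ℝ) (w : E3) (i : Fin 3) :
    mv M w i = ∑ j, M i j * w j := rfl

/-- hypotheses of the theorem -/
structure Hyp (U : Set E3) (f ν : E3 → E5) (S : E3 → Matrix (Fin 3) (Fin 3) ℝ) (c : ℝ) :
    Prop where
  hU : IsOpen U
  hf : ContDiffOn ℝ inf f U
  hν : ContDiffOn ℝ inf ν U
  hinj : ∀ x ∈ U, Function.Injective (fderiv ℝ f x)
  hf1 : ∀ x ∈ U, ‖f x‖ = 1
  hν1 : ∀ x ∈ U, ‖ν x‖ = 1 ∧ inner ℝ (f x) (ν x) = (0 : ℝ) ∧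
      ∀ i : Fin 3, inner ℝ (fderiv ℝ f x (EuclideanSpace.single i (1 : ℝ))) (ν x) = (0 : ℝ)
  hS : ∀ x ∈ U, S x =
      (Matrix.of (fun (i : Fin 3) (j : Fin 3) =>
        inner ℝ (fderiv ℝ f x (EuclideanSpace.single i (1 : ℝ)))
          (fderiv ℝ f x (EuclideanSpace.single j (1 : ℝ)))))⁻¹ *
      Matrix.of (fun (i : Fin 3) (j : Fin 3) =>
        -inner ℝ (fderiv ℝ f x (EuclideanSpace.single i (1 : ℝ)))
          (fderiv ℝ ν x (EuclideanSpace.single j (1 : ℝ))))
  htr : ∀ x ∈ U, Matrix.trace (S x) = 0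
  hc : ∀ x ∈ U, Matrix.trace (S x * S x) = c

section
variable {U : Set E3} {f ν : E3 → E5}

/-- first fundamental form -/
noncomputable def gg (f : E3 → E5) (x : E3) : Matrix (Fin 3) (Fin 3) ℝ :=
  Matrix.gram ℝ (fun i => fderiv ℝ f x (bb i))

/-- second fundamental form -/
noncomputable def hh (f ν : E3 → E5) (x : E3) : Matrix (Fin 3) (Fin 3) ℝ :=
  Matrix.of (fun i j => -inner ℝ (fderiv ℝ f x (bb i)) (fderiv ℝ ν x (bb j)))

theorem gg_posDef {x : E3} (h : Function.Injective (fderiv ℝ f x)) : (gg f x).PosDef := by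
  apply Matrix.posDef_gram_of_linearIndependent
  have h1 : LinearIndependent ℝ bb := by
    have h0 : bb = ⇑(EuclideanSpace.basisFun (Fin 3) ℝ) := by
      funext i
      simp [bb]
    rw [h0]
    exact (EuclideanSpace.basisFun (Fin 3) ℝ).orthonormal.linearIndependent
  exact h1.map' (fderiv ℝ f x).toLinearMap (LinearMap.ker_eq_bot.2 h)

theorem tangent_all {x : E3} (h : ∀ i : Fin 3, inner ℝ (fderiv ℝ f x (bb i)) (ν x) = (0 : ℝ))
    (w : E3) : inner ℝ (fderiv ℝ f x w) (ν x) = (0 : ℝ) := by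
  rw [sum_bb w, map_sum, sum_inner]
  apply Finset.sum_eq_zero
  intro i _
  rw [map_smul, inner_smul_left, h i]
  simp

variable (hU : IsOpen U) (hf : ContDiffOn ℝ inf f U) (hν : ContDiffOn ℝ inf ν U)
  (htan : ∀ x ∈ U, ∀ w, inner ℝ (fderiv ℝ f x w) (ν x) = (0 : ℝ))
include hU hf hν htan

/-- self-adjointness -/
theorem symm_dν {x : E3} (hx : x ∈ U) (v w : E3) :
    inner ℝ (fderiv ℝ f x v) (fderiv ℝ ν x w) = inner ℝ (fderiv ℝ f x w) (fderiv ℝ ν x v) := by
  have hv : ContDiffOn ℝ inf (fun _ : E3 => v) U := contDiffOn_const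
  have hw : ContDiffOn ℝ inf (fun _ : E3 => w) U := contDiffOn_const
  have key : ∀ v w : E3, inner ℝ (gD (fun _ => v) (gD (fun _ => w) f) x) (ν x) +
      inner ℝ (fderiv ℝ f x w) (fderiv ℝ ν x v) = (0 : ℝ) := by
    intro v w
    have h1 := gD_inner hU (v := fun _ => v)
      (contDiffOn_gD hU (v := fun _ : E3 => w) contDiffOn_const hf) hν hx
    have h2 := gD_congr hU (v := fun _ => v)
      (F := fun y => inner ℝ (gD (fun _ => w) f y) (ν y)) (G := fun _ => (0 : ℝ))
      (fun y hy => htan y hy w) hx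
    rw [gD_const] at h2
    rw [h2] at h1
    exact h1.symm
  have h3 := gD_comm hU hv hw hf hx
  rw [gD_const, gD_const, sub_zero, map_zero, sub_eq_zero] at h3
  have h4 := key v w
  have h5 := key w v
  rw [h3] at h4
  linarith

theorem hh_symm {x : E3} (hx : x ∈ U) : (hh f ν x).transpose = hh f ν x := by
  ext i j
  simp only [hh, Matrix.transpose_apply, Matrix.of_apply]
  rw [symm_dν hU hf hν htan hx]

end

namespace Hyp

variable {U : Set E3} {f ν : E3 → E5} {S : E3 → Matrix (Fin 3) (Fin 3) ℝ} {c : ℝ}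
variable (H : Hyp U f ν S c)
include H

theorem htan : ∀ x ∈ U, ∀ w, inner ℝ (fderiv ℝ f x w) (ν x) = (0 : ℝ) :=
  fun x hx w => tangent_all (H.hν1 x hx).2.2 w

theorem S_eq {x : E3} (hx : x ∈ U) : S x = (gg f x)⁻¹ * hh f ν x := H.hS x hx

theorem gg_mul {x : E3} (hx : x ∈ U) : gg f x * S x = hh f ν x := by
  rw [H.S_eq hx, ← Matrix.mul_assoc, Matrix.mul_nonsing_inv _
    ((Matrix.isUnit_iff_isUnit_det _).1 (gg_posDef (H.hinj x hx)).isUnit), Matrix.one_mul]

theorem ineq {x : E3} (hx : x ∈ U) :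
    6 * (Matrix.trace (S x * S x * S x)) ^ 2 ≤ c ^ 3 := by
  rw [← H.hc x hx]
  exact shape_ineq (gg f x) (hh f ν x) (gg_posDef (H.hinj x hx))
    (hh_symm H.hU H.hf H.hν H.htan hx) (S x) (H.S_eq hx) (H.htr x hx)

theorem df_f {x : E3} (hx : x ∈ U) (w : E3) : inner ℝ (fderiv ℝ f x w) (f x) = (0 : ℝ) := by
  have h1 := gD_inner H.hU (v := fun _ => w) H.hf H.hf hx
  have h2 : gD (fun _ => w) (fun y => inner ℝ (f y) (f y)) x = 0 := by
    rw [gD_congr H.hU (G := fun _ => (1 : ℝ)) (fun y hy => by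
      rw [real_inner_self_eq_norm_sq, H.hf1 y hy, one_pow]) hx, gD_const]
  rw [h2, real_inner_comm (gD (fun _ => w) f x) (f x)] at h1
  have : gD (fun _ => w) f x = fderiv ℝ f x w := rfl
  rw [this] at h1
  linarith

theorem dν_ν {x : E3} (hx : x ∈ U) (w : E3) : inner ℝ (fderiv ℝ ν x w) (ν x) = (0 : ℝ) := by
  have h1 := gD_inner H.hU (v := fun _ => w) H.hν H.hν hx
  have h2 : gD (fun _ => w) (fun y => inner ℝ (ν y) (ν y)) x = 0 := by
    rw [gD_congr H.hU (G := fun _ => (1 : ℝ)) (fun y hy => by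
      rw [real_inner_self_eq_norm_sq, (H.hν1 y hy).1, one_pow]) hx, gD_const]
  rw [h2, real_inner_comm (gD (fun _ => w) ν x) (ν x)] at h1
  have : gD (fun _ => w) ν x = fderiv ℝ ν x w := rfl
  rw [this] at h1
  linarith

theorem dν_f {x : E3} (hx : x ∈ U) (w : E3) : inner ℝ (fderiv ℝ ν x w) (f x) = (0 : ℝ) := by
  have h1 := gD_inner H.hU (v := fun _ => w) H.hν H.hf hx
  have h2 : gD (fun _ => w) (fun y => inner ℝ (ν y) (f y)) x = 0 := by
    rw [gD_congr H.hU (G := fun _ => (0 : ℝ)) (fun y hy => by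
      rw [real_inner_comm, (H.hν1 y hy).2.1]) hx, gD_const]
  have h3 : inner ℝ (ν x) (gD (fun _ => w) f x) = (0 : ℝ) := by
    rw [real_inner_comm]
    exact H.htan x hx w
  rw [h2, h3, add_zero] at h1
  exact h1.symm

/-- a vector orthogonal to everything is zero -/
theorem eq_zero {x : E3} (hx : x ∈ U) {z : E5} (h1 : inner ℝ z (f x) = (0 : ℝ))
    (h2 : inner ℝ z (ν x) = (0 : ℝ)) (h3 : ∀ i, inner ℝ z (fderiv ℝ f x (bb i)) = (0 : ℝ)) :
    z = 0 := by
  let L : (E3 × ℝ × ℝ) →ₗ[ℝ] E5 :=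
    { toFun := fun p => fderiv ℝ f x p.1 + p.2.1 • f x + p.2.2 • ν x
      map_add' := by
        intro p q
        simp only [Prod.fst_add, Prod.snd_add, map_add, add_smul]
        abel
      map_smul' := by
        intro a p
        simp only [Prod.smul_fst, Prod.smul_snd, map_smul, smul_eq_mul, mul_smul, smul_add,
          RingHom.id_apply] }
  have hff : inner ℝ (f x) (f x) = (1 : ℝ) := by
    rw [real_inner_self_eq_norm_sq, H.hf1 x hx, one_pow]
  have hνν : inner ℝ (ν x) (ν x) = (1 : ℝ) := by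
    rw [real_inner_self_eq_norm_sq, (H.hν1 x hx).1, one_pow]
  have hνf : inner ℝ (ν x) (f x) = (0 : ℝ) := by
    rw [real_inner_comm, (H.hν1 x hx).2.1]
  have hinj : Function.Injective L := by
    rw [injective_iff_map_eq_zero]
    rintro ⟨w, a, b⟩ h
    have h' : fderiv ℝ f x w + a • f x + b • ν x = 0 := h
    have ha : a = 0 := by
      have := congrArg (fun y => inner ℝ y (f x)) h'
      simp only [inner_add_left, inner_smul_left, H.df_f hx w, hff, hνf, inner_zero_left] at this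
      simpa using this
    have hb : b = 0 := by
      have := congrArg (fun y => inner ℝ y (ν x)) h'
      simp only [inner_add_left, inner_smul_left, H.htan x hx w, (H.hν1 x hx).2.1, hνν,
        inner_zero_left] at this
      simpa using this
    subst ha hb
    have hw : fderiv ℝ f x w = 0 := by simpa using h'
    have hw' : w = 0 := H.hinj x hx (by rw [hw, map_zero])
    rw [hw']
    rfl
  have hfin : Module.finrank ℝ (E3 × ℝ × ℝ) = Module.finrank ℝ E5 := by
    simp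
  have hsurj : Function.Surjective L :=
    (LinearMap.injective_iff_surjective_of_finrank_eq_finrank hfin).1 hinj
  obtain ⟨⟨w, a, b⟩, hz⟩ := hsurj z
  have hz' : fderiv ℝ f x w + a • f x + b • ν x = z := hz
  have h4 : inner ℝ z (fderiv ℝ f x w) = (0 : ℝ) := by
    rw [sum_bb w, map_sum, inner_sum]
    apply Finset.sum_eq_zero
    intro i _
    rw [map_smul, inner_smul_right, h3 i, mul_zero]
  have h5 : inner ℝ z z = (0 : ℝ) := by
    nth_rw 2 [← hz']
    rw [inner_add_right, inner_add_right, inner_smul_right, inner_smul_right, h1, h2, h4]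
    simp
  exact inner_self_eq_zero.1 h5

/-- Weingarten -/
theorem weingarten {x : E3} (hx : x ∈ U) (w : E3) :
    fderiv ℝ ν x w = - fderiv ℝ f x (mv (S x) w) := by
  rw [eq_neg_iff_add_eq_zero]
  apply H.eq_zero hx
  · rw [inner_add_left, H.dν_f hx, H.df_f hx, add_zero]
  · rw [inner_add_left, H.dν_ν hx, H.htan x hx, add_zero]
  · intro i
    rw [inner_add_left]
    have h1 : inner ℝ (fderiv ℝ ν x w) (fderiv ℝ f x (bb i)) = - ∑ j, hh f ν x i j * w j := by
      conv_lhs => rw [sum_bb w, map_sum, sum_inner]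
      rw [← Finset.sum_neg_distrib]
      apply Finset.sum_congr rfl
      intro j _
      rw [map_smul, inner_smul_left]
      simp only [hh, Matrix.of_apply]
      rw [real_inner_comm (fderiv ℝ f x (bb i))]
      simp only [conj_trivial]
      ring
    have h2 : inner ℝ (fderiv ℝ f x (mv (S x) w)) (fderiv ℝ f x (bb i)) =
        ∑ j, (gg f x * S x) i j * w j := by
      conv_lhs => rw [sum_bb (mv (S x) w), map_sum, sum_inner]
      simp only [Matrix.mul_apply, Finset.sum_mul]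
      rw [Finset.sum_comm]
      apply Finset.sum_congr rfl
      intro k _
      rw [map_smul, inner_smul_left, mv_apply, conj_trivial, Finset.sum_mul]
      apply Finset.sum_congr rfl
      intro j _
      have : gg f x i k = inner ℝ (fderiv ℝ f x (bb i)) (fderiv ℝ f x (bb k)) := rfl
      rw [this, real_inner_comm (fderiv ℝ f x (bb i))]
      ring
    rw [h1, h2, H.gg_mul hx]
    ring

/-- eigenvectors for different eigenvalues are orthogonal -/
theorem orthogonal {x : E3} (hx : x ∈ U) {v w : E3} {a b : ℝ} (hv : mv (S x) v = a • v)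
    (hw : mv (S x) w = b • w) (hab : a ≠ b) :
    inner ℝ (fderiv ℝ f x v) (fderiv ℝ f x w) = (0 : ℝ) := by
  have h := symm_dν H.hU H.hf H.hν H.htan hx v w
  rw [H.weingarten hx w, H.weingarten hx v, hv, hw, map_smul, map_smul, inner_neg_right,
    inner_neg_right, inner_smul_right, inner_smul_right,
    real_inner_comm (fderiv ℝ f x v) (fderiv ℝ f x w)] at h
  have h2 : (a - b) * inner ℝ (fderiv ℝ f x v) (fderiv ℝ f x w) = (0 : ℝ) := by linarith
  rcases mul_eq_zero.1 h2 with h3 | h3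
  · exact absurd (sub_eq_zero.1 h3) hab
  · exact h3

omit H in
theorem contDiffOn_det {n : ℕ} {M : E3 → Matrix (Fin n) (Fin n) ℝ}
    (hM : ∀ i j, ContDiffOn ℝ inf (fun x => M x i j) U) :
    ContDiffOn ℝ inf (fun x => (M x).det) U := by
  simp only [Matrix.det_apply]
  apply ContDiffOn.sum
  intro σ _
  apply ContDiffOn.const_smul
  exact contDiffOn_prod fun i _ => hM _ _

omit H in
theorem contDiffOn_mul {M N : E3 → Matrix (Fin 3) (Fin 3) ℝ}
    (hM : ∀ i j, ContDiffOn ℝ inf (fun x => M x i j) U)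
    (hN : ∀ i j, ContDiffOn ℝ inf (fun x => N x i j) U) (i j : Fin 3) :
    ContDiffOn ℝ inf (fun x => (M x * N x) i j) U := by
  simp only [Matrix.mul_apply]
  apply ContDiffOn.sum
  intro k _
  exact (hM i k).mul (hN k j)

theorem contDiffOn_df (w : E3) : ContDiffOn ℝ inf (fun x => fderiv ℝ f x w) U :=
  (contDiffOn_fderiv H.hU H.hf).clm_apply contDiffOn_const

theorem contDiffOn_dν (w : E3) : ContDiffOn ℝ inf (fun x => fderiv ℝ ν x w) U :=
  (contDiffOn_fderiv H.hU H.hν).clm_apply contDiffOn_const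

theorem contDiffOn_S (i j : Fin 3) : ContDiffOn ℝ inf (fun x => S x i j) U := by
  have hg : ∀ i j, ContDiffOn ℝ inf (fun x => gg f x i j) U := fun i j =>
    (H.contDiffOn_df _).inner ℝ (H.contDiffOn_df _)
  have hh' : ∀ i j, ContDiffOn ℝ inf (fun x => hh f ν x i j) U := fun i j =>
    ((H.contDiffOn_df _).inner ℝ (H.contDiffOn_dν _)).neg
  have hinv : ∀ i j, ContDiffOn ℝ inf (fun x => (gg f x)⁻¹ i j) U := by
    intro i j
    have h1 : ∀ x ∈ U, (gg f x)⁻¹ i j = ((gg f x).det)⁻¹ *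
        ((gg f x).updateRow j (Pi.single i 1)).det := by
      intro x _
      rw [Matrix.inv_def, Matrix.smul_apply, Matrix.adjugate_apply, Ring.inverse_eq_inv',
        smul_eq_mul]
    refine ContDiffOn.congr ?_ h1
    apply ContDiffOn.mul
    · apply (contDiffOn_det hg).inv
      intro x hx
      exact ((Matrix.isUnit_iff_isUnit_det _).1 (gg_posDef (H.hinj x hx)).isUnit).ne_zero
    · apply contDiffOn_det
      intro a b
      simp only [Matrix.updateRow_apply]
      split_ifs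
      · exact contDiffOn_const
      · exact hg a b
  exact (contDiffOn_mul hinv hh' i j).congr fun x hx => by rw [H.S_eq hx]

theorem contDiffOn_phi : ContDiffOn ℝ inf (fun x => Matrix.trace (S x * S x * S x)) U := by
  simp only [Matrix.trace, Matrix.diag_apply]
  apply ContDiffOn.sum
  intro i _
  exact contDiffOn_mul (contDiffOn_mul H.contDiffOn_S H.contDiffOn_S) H.contDiffOn_S i i

end Hyp

/-! ### Existence of a smooth principal frame -/


theorem contDiffAt_eig (c : ℝ) (φ : E3 → ℝ) {x : E3} (hφ : ContDiffAt ℝ inf φ x)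
    (h : 6 * φ x ^ 2 < c ^ 3) (k : Fin 3) : ContDiffAt ℝ inf (fun y => eig c (φ y) k) x := by
  have hu := u_lt h
  have h1 : ContDiffAt ℝ inf (fun y => φ y / (6 * Real.sqrt (c / 6) ^ 3)) x := hφ.div_const _
  have h2 : ContDiffAt ℝ inf (fun y => Real.arccos (φ y / (6 * Real.sqrt (c / 6) ^ 3))) x :=
    ContDiffAt.comp (g := Real.arccos) x (Real.contDiffAt_arccos hu.1.ne' hu.2.ne) h1
  have h3 : ContDiffAt ℝ inf (fun y => Real.arccos (φ y / (6 * Real.sqrt (c / 6) ^ 3)) / 3) x :=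
    h2.div_const _
  have h4 := h3.cos
  have h5 := h3.sin
  fin_cases k
  · exact contDiffAt_const.mul h4
  · exact contDiffAt_const.mul (h4.neg.add (contDiffAt_const.mul h5))
  · exact contDiffAt_const.mul (h4.neg.sub (contDiffAt_const.mul h5))

theorem mv_col (M P : Matrix (Fin 3) (Fin 3) ℝ) (a : ℝ) (h : M * P = a • P) (m : Fin 3) :
    mv M (WithLp.toLp 2 (fun i => P i m)) = a • (WithLp.toLp 2 (fun i => P i m)) := by
  ext i
  rw [mv_apply]
  have h1 := congrFun (congrFun h i) m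
  rw [Matrix.mul_apply] at h1
  simpa using h1

theorem mv_smul (M : Matrix (Fin 3) (Fin 3) ℝ) (a : ℝ) (w : E3) : mv M (a • w) = a • mv M w := by
  ext i
  simp only [mv_apply, PiLp.smul_apply, smul_eq_mul, Finset.mul_sum]
  apply Finset.sum_congr rfl
  intro j _
  ring

/-- the conclusion of `exists_frame`, from a `Fields` structure on a ball -/
theorem const_of_der {x₀ : E3} {ε : ℝ} {c : ℝ} (F : Fields (Metric.ball x₀ ε) c)
    (g : Sm (Metric.ball x₀ ε)) (hg : ∀ k, F.toFrame.D k g = 0) :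
    ∃ d : ℝ, ∀ x : Metric.ball x₀ ε, (g : Metric.ball x₀ ε → ℝ) x = d := by
  have hder : ∀ x ∈ Metric.ball x₀ ε, fderiv ℝ (Sm.ext g) x = 0 := by
    intro x hx
    have h1 : ∀ k, fderiv ℝ (Sm.ext g) x (F.v k x) = 0 := by
      intro k
      have h2 := Sm.ext_der F.hB (F.v k) (F.hv k) g hx
      have h3 : Sm.der F.hB (F.v k) (F.hv k) g = 0 := hg k
      rw [h3, Sm.ext_zero] at h2
      exact h2.symm
    have hli : LinearIndependent ℝ (fun k => F.v k x) := by
      have hon : Orthonormal ℝ (fun k => F.e k x) := by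
        rw [orthonormal_iff_ite]
        intro i j
        exact F.ee hx i j
      have h4 := hon.linearIndependent
      exact LinearIndependent.of_comp (fderiv ℝ F.f x).toLinearMap h4
    have hspan : Submodule.span ℝ (Set.range (fun k => F.v k x)) = ⊤ :=
      hli.span_eq_top_of_card_eq_finrank' (by simp)
    ext w
    have hw : w ∈ Submodule.span ℝ (Set.range (fun k => F.v k x)) := by
      rw [hspan]; trivial
    have : Submodule.span ℝ (Set.range (fun k => F.v k x)) ≤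
        LinearMap.ker (fderiv ℝ (Sm.ext g) x).toLinearMap := by
      rw [Submodule.span_le]
      rintro _ ⟨k, rfl⟩
      exact h1 k
    exact this hw
  by_cases hne : (Metric.ball x₀ ε).Nonempty
  · obtain ⟨z, hz⟩ := hne
    refine ⟨Sm.ext g z, fun x => ?_⟩
    rw [← Sm.ext_apply]
    exact Metric.isOpen_ball.is_const_of_fderiv_eq_zero (convex_ball x₀ ε).isPreconnected
      (fun y hy => (diffAt Metric.isOpen_ball (Sm.contDiffOn_ext g) hy).differentiableWithinAt)
      (fun y hy => hder y hy) x.2 hz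
  · exact ⟨0, fun x => absurd ⟨x.1, x.2⟩ hne⟩

theorem Hyp.exists_frame {U : Set E3} {f ν : E3 → E5} {S : E3 → Matrix (Fin 3) (Fin 3) ℝ} {c : ℝ}
    (H : Hyp U f ν S c) (x₀ : E3) (hx₀ : x₀ ∈ U)
    (hΔ : 6 * (Matrix.trace (S x₀ * S x₀ * S x₀)) ^ 2 ≠ c ^ 3) :
    ∃ B : Set E3, IsOpen B ∧ x₀ ∈ B ∧ B ⊆ U ∧
      ∃ F : Frame (Sm B), F.s = c ∧ (∀ i j, i ≠ j → F.A i j = 0) ∧
        (∀ x : B, (F.A 1 1 : B → ℝ) x < (F.A 0 0 : B → ℝ) x ∧
          (F.A 2 2 : B → ℝ) x < (F.A 1 1 : B → ℝ) x) ∧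
        (∀ x : B, ∑ i, ((F.A i i : B → ℝ) x) ^ 3 = Matrix.trace (S x * S x * S x)) ∧
        (∀ g : Sm B, (∀ k, F.D k g = 0) → ∃ d : ℝ, ∀ x : B, (g : B → ℝ) x = d) := by
  set φ : E3 → ℝ := fun x => Matrix.trace (S x * S x * S x) with hφdef
  have hφ : ContDiffOn ℝ inf φ U := H.contDiffOn_phi
  -- the open set where the eigenvalues are distinct
  let U1 : Set E3 := U ∩ φ ⁻¹' {t | 6 * t ^ 2 < c ^ 3}
  have hU1 : IsOpen U1 := by
    apply hφ.continuousOn.isOpen_inter_preimage H.hU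
    exact isOpen_lt (by fun_prop) continuous_const
  have hx1 : x₀ ∈ U1 := ⟨hx₀, lt_of_le_of_ne (H.ineq hx₀) hΔ⟩
  have hlt : ∀ x ∈ U1, 6 * φ x ^ 2 < c ^ 3 := fun x hx => hx.2
  have hsub1 : U1 ⊆ U := Set.inter_subset_left
  let lam : Fin 3 → E3 → ℝ := fun k x => eig c (φ x) k
  have hlam : ∀ k, ContDiffOn ℝ inf (lam k) U1 := by
    intro k x hx
    exact (contDiffAt_eig c φ (hφ.contDiffAt (H.hU.mem_nhds (hsub1 hx))) (hlt x hx) k).contDiffWithinAt
  let P : Fin 3 → E3 → Matrix (Fin 3) (Fin 3) ℝ := fun k x => Pk (S x) (fun i => lam i x) k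
  have hPc : ∀ k i j, ContDiffOn ℝ inf (fun x => P k x i j) U1 := by
    intro k i j
    have h1 : ∀ m : Fin 3, ∀ a b : Fin 3, ContDiffOn ℝ inf
        (fun x => (S x - lam m x • (1 : Matrix (Fin 3) (Fin 3) ℝ)) a b) U1 := by
      intro m a b
      simp only [Matrix.sub_apply, Matrix.smul_apply, smul_eq_mul]
      exact ((H.contDiffOn_S a b).mono hsub1).sub ((hlam m).mul contDiffOn_const)
    exact Hyp.contDiffOn_mul (h1 (k + 1)) (h1 (k + 2)) i j
  have hPp : ∀ x ∈ U1, ∀ k, S x * P k x = lam k x • P k x ∧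
      (P k x).trace = (lam k x - lam (k + 1) x) * (lam k x - lam (k + 2) x) := by
    intro x hx k
    obtain ⟨h1, h2, h3⟩ := eig_props (hlt x hx)
    exact Pk_props (S x) (fun i => lam i x) (H.htr x (hsub1 hx)) h1
      (by rw [H.hc x (hsub1 hx)]; exact h2) h3 k
  have hm : ∀ k, ∃ m, (WithLp.toLp 2 (fun i => P k x₀ i m) : E3) ≠ 0 := by
    intro k
    by_contra hcon
    push Not at hcon
    have h0 : P k x₀ = 0 := by
      ext i m
      have := congrArg (fun w : E3 => w i) (hcon m)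
      simpa using this
    have h1 := (hPp x₀ hx1 k).2
    rw [h0, Matrix.trace_zero] at h1
    have h2 : lam k x₀ ≠ lam (k + 1) x₀ := eig_ne (hlt x₀ hx1) k (k + 1) (by fin_cases k <;> decide)
    have h3 : lam k x₀ ≠ lam (k + 2) x₀ := eig_ne (hlt x₀ hx1) k (k + 2) (by fin_cases k <;> decide)
    exact mul_ne_zero (sub_ne_zero.2 h2) (sub_ne_zero.2 h3) h1.symm
  choose m hm using hm
  let u : Fin 3 → E3 → E3 := fun k x => WithLp.toLp 2 (fun i => P k x i (m k))
  have hu : ∀ k, ContDiffOn ℝ inf (u k) U1 := by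
    intro k
    rw [contDiffOn_euclidean]
    intro i
    exact hPc k i (m k)
  have hueig : ∀ x ∈ U1, ∀ k, mv (S x) (u k x) = lam k x • u k x := by
    intro x hx k
    exact mv_col _ _ _ (hPp x hx k).1 (m k)
  -- the open set where `u k ≠ 0`
  let U2 : Set E3 := U1 ∩ ⋂ k, (u k) ⁻¹' {0}ᶜ
  have hU2 : IsOpen (U1 ∩ ⋂ k, (u k) ⁻¹' {0}ᶜ) := by
    have : U1 ∩ ⋂ k, (u k) ⁻¹' {0}ᶜ = ⋂ k, (U1 ∩ (u k) ⁻¹' {0}ᶜ) := by
      rw [Set.inter_iInter]
    rw [this]
    apply isOpen_iInter_of_finite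
    intro k
    exact (hu k).continuousOn.isOpen_inter_preimage hU1 isOpen_compl_singleton
  have hx2 : x₀ ∈ U1 ∩ ⋂ k, (u k) ⁻¹' {0}ᶜ := by
    refine ⟨hx1, Set.mem_iInter.2 fun k => ?_⟩
    exact hm k
  obtain ⟨ε, hε, hball⟩ := Metric.isOpen_iff.1 hU2 x₀ hx2
  set B : Set E3 := Metric.ball x₀ ε with hB
  have hB1 : B ⊆ U1 := fun x hx => (hball hx).1
  have hBU : B ⊆ U := hB1.trans hsub1
  have hune : ∀ x ∈ B, ∀ k, u k x ≠ 0 := by
    intro x hx k
    exact (Set.mem_iInter.1 (hball hx).2 k : u k x ∈ ({0}ᶜ : Set E3))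
  have hfB : ContDiffOn ℝ inf f B := H.hf.mono hBU
  have hdfu : ∀ k, ContDiffOn ℝ inf (fun x => fderiv ℝ f x (u k x)) B := fun k =>
    (contDiffOn_fderiv Metric.isOpen_ball hfB).clm_apply ((hu k).mono hB1)
  have hdfne : ∀ x ∈ B, ∀ k, fderiv ℝ f x (u k x) ≠ 0 := by
    intro x hx k h
    apply hune x hx k
    apply H.hinj x (hBU hx)
    rw [h, map_zero]
  let v : Fin 3 → E3 → E3 := fun k x => ‖fderiv ℝ f x (u k x)‖⁻¹ • u k x
  have hveig : ∀ x ∈ B, ∀ k, mv (S x) (v k x) = lam k x • v k x := by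
    intro x hx k
    simp only [v]
    rw [mv_smul, hueig x (hB1 hx) k, smul_comm]
  let F : Fields B c :=
    { f := f
      ν := ν
      v := v
      lam := lam
      hB := Metric.isOpen_ball
      hf := hfB
      hν := H.hν.mono hBU
      hv := by
        intro k
        exact (((hdfu k).norm ℝ (fun x hx => hdfne x hx k)).inv
          (fun x hx => norm_ne_zero_iff.2 (hdfne x hx k))).smul ((hu k).mono hB1)
      hlam := fun k => (hlam k).mono hB1
      inj := fun x hx => H.hinj x (hBU hx)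
      on := by
        intro x hx i j
        split_ifs with hij
        · subst hij
          have : gD (v i) f x = ‖fderiv ℝ f x (u i x)‖⁻¹ • fderiv ℝ f x (u i x) := by
            simp only [gD, v, map_smul]
          rw [this, real_inner_self_eq_norm_sq, norm_smul, norm_inv, norm_norm,
            inv_mul_cancel₀ (norm_ne_zero_iff.2 (hdfne x hx i)), one_pow]
        · exact H.orthogonal (hBU hx) (hveig x hx i) (hveig x hx j)
            (eig_ne (hlt x (hB1 hx)) i j hij)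
      ff := by
        intro x hx
        rw [real_inner_self_eq_norm_sq, H.hf1 x (hBU hx), one_pow]
      νν := by
        intro x hx
        rw [real_inner_self_eq_norm_sq, (H.hν1 x (hBU hx)).1, one_pow]
      fν := fun x hx => (H.hν1 x (hBU hx)).2.1
      tang := fun x hx i => H.htan x (hBU hx) _
      dν := by
        intro x hx i
        have : gD (v i) ν x = fderiv ℝ ν x (v i x) := rfl
        rw [this, H.weingarten (hBU hx), hveig x hx i, map_smul, neg_smul]
        rfl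
      tr := by
        intro x hx
        rw [Fin.sum_univ_three]
        exact (eig_props (hlt x (hB1 hx))).1
      nrm := by
        intro x hx
        rw [Fin.sum_univ_three]
        exact (eig_props (hlt x (hB1 hx))).2.1 }
  refine ⟨B, Metric.isOpen_ball, Metric.mem_ball_self hε, hBU, F.toFrame, rfl, ?_, ?_, ?_, ?_⟩
  · intro i j hij
    apply Sm.ext_inj
    intro x hx
    rw [Sm.ext_zero]
    have : F.toFrame.A i j = Sm.mk (F.Af i j) (F.hAf i j) := rfl
    rw [this, Sm.ext_mk _ _ hx]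
    simp [Fields.Af, hij]
  · intro x
    exact eig_lt (hlt x (hB1 x.2))
  · intro x
    rw [Fin.sum_univ_three]
    exact (eig_props (hlt x (hB1 x.2))).2.2
  · intro g hg
    exact const_of_der F g hg

/-! ### The two goals of Part I -/


/-- Near a point with three distinct principal curvatures there is a smooth principal
orthonormal frame, satisfying the structure equations `Frame`. -/
theorem exists_frame (U : Set (EuclideanSpace ℝ (Fin 3)))
    (f ν : EuclideanSpace ℝ (Fin 3) → EuclideanSpace ℝ (Fin 5))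
    (S : EuclideanSpace ℝ (Fin 3) → Matrix (Fin 3) (Fin 3) ℝ)
    (hU : IsOpen U)
    (hf : ContDiffOn ℝ ((⊤ : ℕ∞) : WithTop ℕ∞) f U)
    (hν : ContDiffOn ℝ ((⊤ : ℕ∞) : WithTop ℕ∞) ν U)
    (hinj : ∀ x ∈ U, Function.Injective (fderiv ℝ f x))
    (hf1 : ∀ x ∈ U, ‖f x‖ = 1)
    (hν1 : ∀ x ∈ U, ‖ν x‖ = 1 ∧ inner ℝ (f x) (ν x) = 0 ∧
      ∀ i : Fin 3, inner ℝ (fderiv ℝ f x (EuclideanSpace.single i (1 : ℝ))) (ν x) = 0)
    (hS : ∀ x ∈ U, S x =
      (Matrix.of (fun (i : Fin 3) (j : Fin 3) =>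
        inner ℝ (fderiv ℝ f x (EuclideanSpace.single i (1 : ℝ)))
          (fderiv ℝ f x (EuclideanSpace.single j (1 : ℝ)))))⁻¹ *
      Matrix.of (fun (i : Fin 3) (j : Fin 3) =>
        -inner ℝ (fderiv ℝ f x (EuclideanSpace.single i (1 : ℝ)))
          (fderiv ℝ ν x (EuclideanSpace.single j (1 : ℝ)))))
    (htr : ∀ x ∈ U, Matrix.trace (S x) = 0)
    (c : ℝ) (hc : ∀ x ∈ U, Matrix.trace (S x * S x) = c)
    (x₀ : EuclideanSpace ℝ (Fin 3)) (hx₀ : x₀ ∈ U)
    (hΔ : 6 * (Matrix.trace (S x₀ * S x₀ * S x₀)) ^ 2 ≠ c ^ 3) :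
    ∃ B : Set (EuclideanSpace ℝ (Fin 3)), IsOpen B ∧ x₀ ∈ B ∧ B ⊆ U ∧
      ∃ F : Frame (Sm B), F.s = c ∧ (∀ i j, i ≠ j → F.A i j = 0) ∧
        (∀ i j, i ≠ j → ∀ x : B, (F.A i i : B → ℝ) x ≠ (F.A j j : B → ℝ) x) ∧
        (∀ x : B, (F.A 1 1 : B → ℝ) x < (F.A 0 0 : B → ℝ) x ∧
          (F.A 2 2 : B → ℝ) x < (F.A 1 1 : B → ℝ) x) ∧
        (∀ x : B, ∑ i, ((F.A i i : B → ℝ) x) ^ 3 = Matrix.trace (S x * S x * S x)) ∧
        (∀ g : Sm B, (∀ k, F.D k g = 0) → ∃ d : ℝ, ∀ x : B, (g : B → ℝ) x = d) := by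
  obtain ⟨B, h1, h2, h3, F, h4, h5, h6, h7, h8⟩ :=
    Hyp.exists_frame (Hyp.mk hU hf hν hinj hf1 hν1 hS htr hc) x₀ hx₀ hΔ
  refine ⟨B, h1, h2, h3, F, h4, h5, ?_, h6, h7, h8⟩
  intro i j hij x
  obtain ⟨h9, h10⟩ := h6 x
  fin_cases i <;> fin_cases j
  · exact absurd rfl hij
  · exact h9.ne'
  · exact (h10.trans h9).ne'
  · exact h9.ne
  · exact absurd rfl hij
  · exact h10.ne'
  · exact (h10.trans h9).ne
  · exact h10.ne
  · exact absurd rfl hij

/-- `φ` locally constant where `6 φ² ≠ c³` implies `φ` constant on `U`. -/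
theorem const_of_local (U : Set (EuclideanSpace ℝ (Fin 3)))
    (f ν : EuclideanSpace ℝ (Fin 3) → EuclideanSpace ℝ (Fin 5))
    (S : EuclideanSpace ℝ (Fin 3) → Matrix (Fin 3) (Fin 3) ℝ)
    (hU : IsOpen U) (hU' : IsConnected U)
    (hf : ContDiffOn ℝ ((⊤ : ℕ∞) : WithTop ℕ∞) f U)
    (hν : ContDiffOn ℝ ((⊤ : ℕ∞) : WithTop ℕ∞) ν U)
    (hinj : ∀ x ∈ U, Function.Injective (fderiv ℝ f x))
    (hf1 : ∀ x ∈ U, ‖f x‖ = 1)
    (hν1 : ∀ x ∈ U, ‖ν x‖ = 1 ∧ inner ℝ (f x) (ν x) = 0 ∧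
      ∀ i : Fin 3, inner ℝ (fderiv ℝ f x (EuclideanSpace.single i (1 : ℝ))) (ν x) = 0)
    (hS : ∀ x ∈ U, S x =
      (Matrix.of (fun (i : Fin 3) (j : Fin 3) =>
        inner ℝ (fderiv ℝ f x (EuclideanSpace.single i (1 : ℝ)))
          (fderiv ℝ f x (EuclideanSpace.single j (1 : ℝ)))))⁻¹ *
      Matrix.of (fun (i : Fin 3) (j : Fin 3) =>
        -inner ℝ (fderiv ℝ f x (EuclideanSpace.single i (1 : ℝ)))
          (fderiv ℝ ν x (EuclideanSpace.single j (1 : ℝ)))))
    (htr : ∀ x ∈ U, Matrix.trace (S x) = 0)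
    (c : ℝ) (hc : ∀ x ∈ U, Matrix.trace (S x * S x) = c)
    (hloc : ∀ x₀ ∈ U, 6 * (Matrix.trace (S x₀ * S x₀ * S x₀)) ^ 2 ≠ c ^ 3 →
      ∃ B : Set (EuclideanSpace ℝ (Fin 3)), IsOpen B ∧ x₀ ∈ B ∧ B ⊆ U ∧
        ∃ d : ℝ, ∀ x ∈ B, Matrix.trace (S x * S x * S x) = d) :
    ∃ d : ℝ, ∀ x ∈ U, Matrix.trace (S x * S x * S x) = d := by
  have H : Hyp U f ν S c := Hyp.mk hU hf hν hinj hf1 hν1 hS htr hc
  set φ : E3 → ℝ := fun x => Matrix.trace (S x * S x * S x) with hφdef
  have hφ : ContDiffOn ℝ inf φ U := H.contDiffOn_phi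
  have hineq : ∀ x ∈ U, 6 * φ x ^ 2 ≤ c ^ 3 := fun x hx => H.ineq hx
  have hder : ∀ x ∈ U, fderiv ℝ φ x = 0 := by
    intro x hx
    by_cases hne : 6 * φ x ^ 2 = c ^ 3
    · by_cases h0 : φ x = 0
      · -- then `c ^ 3 = 0`, and `φ = 0` on `U`
        have hc3 : c ^ 3 = 0 := by rw [← hne, h0]; ring
        have hz : ∀ y ∈ U, φ y = 0 := by
          intro y hy
          have := hineq y hy
          rw [hc3] at this
          nlinarith [sq_nonneg (φ y)]
        have : φ =ᶠ[nhds x] fun _ => (0 : ℝ) := Filter.eventually_of_mem (hU.mem_nhds hx) hz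
        rw [this.fderiv_eq]
        simp
      · have hd : DifferentiableAt ℝ φ x := diffAt hU hφ hx
        have hmax : IsLocalMax (fun y => φ y ^ 2) x := by
          refine Filter.eventually_of_mem (hU.mem_nhds hx) fun y hy => ?_
          have := hineq y hy
          change φ y ^ 2 ≤ φ x ^ 2
          linarith
        have h1 := hmax.fderiv_eq_zero
        have h2 : fderiv ℝ (fun y => φ y ^ 2) x = (2 * φ x) • fderiv ℝ φ x := by
          have := fderiv_fun_pow 2 hd
          rw [this]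
          ext w
          simp
        rw [h2] at h1
        rcases smul_eq_zero.1 h1 with h3 | h3
        · exact absurd h3 (mul_ne_zero two_ne_zero h0)
        · exact h3
    · obtain ⟨B, hB, hxB, -, d, hd⟩ := hloc x hx hne
      have : φ =ᶠ[nhds x] fun _ => d := Filter.eventually_of_mem (hB.mem_nhds hxB) hd
      rw [this.fderiv_eq]
      simp
  obtain ⟨z, hz⟩ := hU'.nonempty
  refine ⟨φ z, fun x hx => ?_⟩
  exact hU.is_const_of_fderiv_eq_zero hU'.isPreconnected
    (fun y hy => (diffAt hU hφ hy).differentiableWithinAt) (fun y hy => hder y hy) hx hz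

end Bry
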