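import Pool.Agent.Lib.MP_2b07f9_gt.Param

/-! Degenerate symbol: pure real algebra. -/

set_option autoImplicit false
set_option linter.unusedSimpArgs false
set_option linter.unusedVariables false

open Finset

namespace Bry

/-- At a degenerate point `t 0 = t 2 = 0`. -/
theorem coreA (a b m v X00 X01 X02 X11 X12 X22 d0 d1 d2 s l0 l1 l2 c0 c1 c2 t0 t1 t2 u
    q00 q11 q22 q01 q02 q12 : ℝ) (ha : a ≠ 0) (hb : b ≠ 0)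
    (hd0 : d0 = a ^ 2) (hd1 : d1 = -(a ^ 2 + b ^ 2)) (hd2 : d2 = b ^ 2)
    (hs : s = 2 / 3 * (a ^ 4 + a ^ 2 * b ^ 2 + b ^ 4))
    (hl0 : l0 = (a ^ 2 + 2 * b ^ 2) / 3) (hl1 : l1 = (a ^ 2 - b ^ 2) / 3)
    (hl2 : l2 = -(2 * a ^ 2 + b ^ 2) / 3)
    (hc0 : c0 = 4 * a ^ 4 + 6 * a ^ 2 * b ^ 2 + 6 * b ^ 4)
    (hc1 : c1 = 4 * a ^ 4 + 2 * a ^ 2 * b ^ 2 + 4 * b ^ 4)
    (hc2 : c2 = 6 * a ^ 4 + 6 * a ^ 2 * b ^ 2 + 4 * b ^ 4)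
    (ht0 : t0 = b * c2 * m) (ht1 : t1 = -6 * a * b * v) (ht2 : t2 = -a * c0 * m) (hu : u = c1 * v)
    (hq00 : q00 = 3 * s * t0 ^ 2 + 2 * d0 ^ 2 * (t1 ^ 2 + t2 ^ 2) + 2 * u ^ 2)
    (hq11 : q11 = 3 * s * t1 ^ 2 + 2 * d1 ^ 2 * (t0 ^ 2 + t2 ^ 2) + 2 * u ^ 2)
    (hq22 : q22 = 3 * s * t2 ^ 2 + 2 * d2 ^ 2 * (t0 ^ 2 + t1 ^ 2) + 2 * u ^ 2)
    (hq01 : q01 = (3 * s + 2 * d0 * d1) * t0 * t1 - 2 * d2 * u * t2)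
    (hq02 : q02 = (3 * s + 2 * d0 * d2) * t0 * t2 - 2 * d1 * u * t1)
    (hq12 : q12 = (3 * s + 2 * d1 * d2) * t1 * t2 - 2 * d0 * u * t0)
    (hC : c0 * t0 ^ 2 + c1 * t1 ^ 2 + c2 * t2 ^ 2 + 6 * u ^ 2 = s * (s - 3))
    (hR : X00 * d2 - X22 * d0 = s * ((l2 - l0) * (1 + l0 * l2)) + (q00 * l2 - q22 * l0))
    (hM0 : t0 * (c0 * X00 + 2 * d0 * l0 * q00) + t1 * (c1 * X01 + 2 * d1 * l1 * q01)
      + t2 * (c2 * X02 + 2 * d2 * l2 * q02) + 6 * u * (-q12 * l0 + X12 * d0) = 0)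
    (hM2 : t0 * (c0 * X02 + 2 * d0 * l0 * q02) + t1 * (c1 * X12 + 2 * d1 * l1 * q12)
      + t2 * (c2 * X22 + 2 * d2 * l2 * q22) + 6 * u * (-q01 * l2 + X01 * d2) = 0) : m = 0 := by
  have key : m * (a ^ 2 * b ^ 2 * (a ^ 2 + b ^ 2) * (2 / 9 * c0 * c2 * (a ^ 4 + a ^ 2 * b ^ 2 + b ^ 4)
      + (a ^ 2 + b ^ 2) ^ 2 * (1856 / 3 * a ^ 8 + 1152 * a ^ 6 * b ^ 2 + 5120 / 3 * a ^ 4 * b ^ 4
          + 1152 * a ^ 2 * b ^ 6 + 1856 / 3 * b ^ 8) * v ^ 2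
      + (a ^ 2 + b ^ 2) ^ 3 * (1856 / 3 * a ^ 12 + 7168 / 3 * a ^ 10 * b ^ 2 + 14656 / 3 * a ^ 8 * b ^ 4
          + 18176 / 3 * a ^ 6 * b ^ 6 + 14656 / 3 * a ^ 4 * b ^ 8 + 7168 / 3 * a ^ 2 * b ^ 10
          + 1856 / 3 * b ^ 12) * m ^ 2)) = 0 := by
    have e : b * (t0 * (c0 * X00 + 2 * d0 * l0 * q00) + t1 * (c1 * X01 + 2 * d1 * l1 * q01)
      + t2 * (c2 * X02 + 2 * d2 * l2 * q02) + 6 * u * (-q12 * l0 + X12 * d0))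
      + a * (t0 * (c0 * X02 + 2 * d0 * l0 * q02) + t1 * (c1 * X12 + 2 * d1 * l1 * q12)
      + t2 * (c2 * X22 + 2 * d2 * l2 * q22) + 6 * u * (-q01 * l2 + X01 * d2))
      - c0 * c2 * m * ((X00 * d2 - X22 * d0) - (s * ((l2 - l0) * (1 + l0 * l2)) + (q00 * l2 - q22 * l0)))
      - c0 * c2 * m * (l2 - l0) / 3 * ((c0 * t0 ^ 2 + c1 * t1 ^ 2 + c2 * t2 ^ 2 + 6 * u ^ 2)
        - s * (s - 3)) = 0 := by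
      rw [hM0, hM2, hR, hC]; ring
    rw [← e, hq00, hq22, hq01, hq02, hq12, ht0, ht1, ht2, hu, hs, hl0, hl1, hl2, hd0, hd1, hd2,
      hc0, hc1, hc2]
    ring
  have hpos : 0 < a ^ 2 * b ^ 2 * (a ^ 2 + b ^ 2) * (2 / 9 * c0 * c2 * (a ^ 4 + a ^ 2 * b ^ 2 + b ^ 4)
      + (a ^ 2 + b ^ 2) ^ 2 * (1856 / 3 * a ^ 8 + 1152 * a ^ 6 * b ^ 2 + 5120 / 3 * a ^ 4 * b ^ 4
          + 1152 * a ^ 2 * b ^ 6 + 1856 / 3 * b ^ 8) * v ^ 2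
      + (a ^ 2 + b ^ 2) ^ 3 * (1856 / 3 * a ^ 12 + 7168 / 3 * a ^ 10 * b ^ 2 + 14656 / 3 * a ^ 8 * b ^ 4
          + 18176 / 3 * a ^ 6 * b ^ 6 + 14656 / 3 * a ^ 4 * b ^ 8 + 7168 / 3 * a ^ 2 * b ^ 10
          + 1856 / 3 * b ^ 12) * m ^ 2) := by
    rw [hc0, hc2]
    have ha2 : 0 < a ^ 2 := by positivity
    have hb2 : 0 < b ^ 2 := by positivity
    positivity
  exact (mul_eq_zero.1 key).resolve_right hpos.ne'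

/-- no degenerate points with `t 0 = t 2 = 0`. -/
theorem coreB (a b v X00 X02 X11 X22 d0 d1 d2 s l0 l1 l2 c0 c1 c2 t1 u
    q00 q11 q22 q02 : ℝ) (ha : a ≠ 0) (hb : b ≠ 0) (hv : v ≠ 0)
    (hd0 : d0 = a ^ 2) (hd1 : d1 = -(a ^ 2 + b ^ 2)) (hd2 : d2 = b ^ 2)
    (hs : s = 2 / 3 * (a ^ 4 + a ^ 2 * b ^ 2 + b ^ 4))
    (hl0 : l0 = (a ^ 2 + 2 * b ^ 2) / 3) (hl1 : l1 = (a ^ 2 - b ^ 2) / 3)
    (hl2 : l2 = -(2 * a ^ 2 + b ^ 2) / 3)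
    (hc0 : c0 = 4 * a ^ 4 + 6 * a ^ 2 * b ^ 2 + 6 * b ^ 4)
    (hc1 : c1 = 4 * a ^ 4 + 2 * a ^ 2 * b ^ 2 + 4 * b ^ 4)
    (hc2 : c2 = 6 * a ^ 4 + 6 * a ^ 2 * b ^ 2 + 4 * b ^ 4)
    (ht1 : t1 = -6 * a * b * v) (hu : u = c1 * v)
    (hq00 : q00 = 2 * d0 ^ 2 * t1 ^ 2 + 2 * u ^ 2)
    (hq11 : q11 = 3 * s * t1 ^ 2 + 2 * u ^ 2)
    (hq22 : q22 = 2 * d2 ^ 2 * t1 ^ 2 + 2 * u ^ 2)
    (hq02 : q02 = - 2 * d1 * u * t1)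
    (hC : c1 * t1 ^ 2 + 6 * u ^ 2 = s * (s - 3))
    (hR1 : X00 * d1 - X11 * d0 = s * ((l1 - l0) * (1 + l0 * l1)) + (q00 * l1 - q11 * l0))
    (hR2 : X00 * d2 - X22 * d0 = s * ((l2 - l0) * (1 + l0 * l2)) + (q00 * l2 - q22 * l0))
    (hM1 : t1 * (c1 * X11 + 2 * d1 * l1 * q11) + 6 * u * (-q02 * l1 + X02 * d1) = 0)
    (hP : d0 * (c0 * X00 + 2 * d0 * l0 * q00) + d1 * (c1 * X11 + 2 * d1 * l1 * q11)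
      + d2 * (c2 * X22 + 2 * d2 * l2 * q22)
      + 4 * a * b * ((3 * s + 2 * d1 ^ 2) * X02 - 2 * d1 * l1 * q02) = 0)
    (hP2 : 2 * l0 * (d0 * (c0 * X00 + 2 * d0 * l0 * q00) + a * b * (c2 * X02 + 2 * d2 * l2 * q02))
      + 2 * l2 * (d2 * (c2 * X22 + 2 * d2 * l2 * q22) + a * b * (c0 * X02 + 2 * d0 * l0 * q02))
      + 2 * l1 * d1 * ((c1 * X11 + 2 * d1 * l1 * q11) + 6 * a * b * (X02 * d1 - q02 * l1))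
      - 3 * s * (4 * d1 * (b * u + a * d0 * t1) ^ 2 + 4 * d1 * (a * u + b * d2 * t1) ^ 2
        + (3 * s * t1 + 2 * a * b * u) ^ 2) = 0) : False := by
  have key : v * ((a ^ 2 + b ^ 2) * (512 * a ^ 20 * v ^ 2 + 1536 * a ^ 18 * b ^ 2 * v ^ 2
      + 12800 / 3 * a ^ 16 * b ^ 4 * v ^ 2 + 160 / 9 * a ^ 16 * b ^ 4
      + 25984 / 3 * a ^ 14 * b ^ 6 * v ^ 2 + 48 * a ^ 14 * b ^ 6
      + 39424 / 3 * a ^ 12 * b ^ 8 * v ^ 2 + 848 / 9 * a ^ 12 * b ^ 8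
      + 46336 / 3 * a ^ 10 * b ^ 10 * v ^ 2 + 320 / 3 * a ^ 10 * b ^ 10
      + 39424 / 3 * a ^ 8 * b ^ 12 * v ^ 2 + 848 / 9 * a ^ 8 * b ^ 12
      + 25984 / 3 * a ^ 6 * b ^ 14 * v ^ 2 + 48 * a ^ 6 * b ^ 14
      + 12800 / 3 * a ^ 4 * b ^ 16 * v ^ 2 + 160 / 9 * a ^ 4 * b ^ 16
      + 1536 * a ^ 2 * b ^ 18 * v ^ 2 + 512 * b ^ 20 * v ^ 2)) = 0 := by
    have e : v * (8 * b ^ 2 * c1 * (a ^ 4 + a ^ 2 * b ^ 2 + b ^ 4) * (a ^ 2 - b ^ 2)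
          * (((X00 * d1 - X11 * d0) - (s * ((l1 - l0) * (1 + l0 * l1)) + (q00 * l1 - q11 * l0)))
            + (l1 - l0) / 3 * ((c1 * t1 ^ 2 + 6 * u ^ 2) - s * (s - 3)))
        - 2 * b ^ 2 * c1 * c2 * (a ^ 2 + b ^ 2)
          * (((X00 * d2 - X22 * d0) - (s * ((l2 - l0) * (1 + l0 * l2)) + (q00 * l2 - q22 * l0)))
            + (l2 - l0) / 3 * ((c1 * t1 ^ 2 + 6 * u ^ 2) - s * (s - 3)))
        - 2 / 3 * c1 * (a ^ 2 - b ^ 2) * (a ^ 2 + b ^ 2)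
          * (d0 * (c0 * X00 + 2 * d0 * l0 * q00) + d1 * (c1 * X11 + 2 * d1 * l1 * q11)
            + d2 * (c2 * X22 + 2 * d2 * l2 * q22)
            + 4 * a * b * ((3 * s + 2 * d1 ^ 2) * X02 - 2 * d1 * l1 * q02))
        + c1 * (a ^ 2 + b ^ 2) * (2 * l0 * (d0 * (c0 * X00 + 2 * d0 * l0 * q00)
              + a * b * (c2 * X02 + 2 * d2 * l2 * q02))
            + 2 * l2 * (d2 * (c2 * X22 + 2 * d2 * l2 * q22) + a * b * (c0 * X02 + 2 * d0 * l0 * q02))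
            + 2 * l1 * d1 * ((c1 * X11 + 2 * d1 * l1 * q11) + 6 * a * b * (X02 * d1 - q02 * l1))
            - 3 * s * (4 * d1 * (b * u + a * d0 * t1) ^ 2 + 4 * d1 * (a * u + b * d2 * t1) ^ 2
              + (3 * s * t1 + 2 * a * b * u) ^ 2)))
        - 8 / 6 * a * b * (a ^ 4 + a ^ 2 * b ^ 2 + b ^ 4) * (a ^ 2 - b ^ 2)
          * (t1 * (c1 * X11 + 2 * d1 * l1 * q11) + 6 * u * (-q02 * l1 + X02 * d1)) = 0 := by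
      rw [hM1, hP, hP2, hR1, hR2, hC]; ring
    rw [← e, hq00, hq11, hq22, hq02, ht1, hu, hs, hl0, hl1, hl2, hd0, hd1, hd2, hc0, hc1, hc2]
    ring
  have ha2 : 0 < a ^ 2 := by positivity
  have hb2 : 0 < b ^ 2 := by positivity
  have hpos : 0 < (a ^ 2 + b ^ 2) * (512 * a ^ 20 * v ^ 2 + 1536 * a ^ 18 * b ^ 2 * v ^ 2
      + 12800 / 3 * a ^ 16 * b ^ 4 * v ^ 2 + 160 / 9 * a ^ 16 * b ^ 4
      + 25984 / 3 * a ^ 14 * b ^ 6 * v ^ 2 + 48 * a ^ 14 * b ^ 6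
      + 39424 / 3 * a ^ 12 * b ^ 8 * v ^ 2 + 848 / 9 * a ^ 12 * b ^ 8
      + 46336 / 3 * a ^ 10 * b ^ 10 * v ^ 2 + 320 / 3 * a ^ 10 * b ^ 10
      + 39424 / 3 * a ^ 8 * b ^ 12 * v ^ 2 + 848 / 9 * a ^ 8 * b ^ 12
      + 25984 / 3 * a ^ 6 * b ^ 14 * v ^ 2 + 48 * a ^ 6 * b ^ 14
      + 12800 / 3 * a ^ 4 * b ^ 16 * v ^ 2 + 160 / 9 * a ^ 4 * b ^ 16
      + 1536 * a ^ 2 * b ^ 18 * v ^ 2 + 512 * b ^ 20 * v ^ 2) := by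
    positivity
  exact (mul_ne_zero hv hpos.ne') key

end Bry
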