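import Pool.Agent.Lib.MP_2b07f9_gt.GoalC1

/-! Kernel elements in explicit form. -/

set_option autoImplicit false
set_option linter.unusedSimpArgs false
set_option linter.unusedVariables false

open Finset

namespace Bry

/-- values `E n m 0 1 2`. -/
def Wf (d e : Fin 3 → ℝ) (es : ℝ) : Fin 3 → Fin 3 → ℝ :=
  ![![d 0 * es, d 0 * d 1 * e 2, d 0 * d 2 * e 1],
    ![d 0 * d 1 * e 2, d 1 * es, d 1 * d 2 * e 0],
    ![d 0 * d 2 * e 1, d 1 * d 2 * e 0, d 2 * es]]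

theorem Ker.explicit {s : ℝ} {l : Fin 3 → ℝ} {T : Fin 3 → Fin 3 → Fin 3 → ℝ}
    {H : Fin 3 → Fin 3 → Fin 3 → Fin 3 → ℝ} {E : Fin 3 → Fin 3 → Fin 3 → Fin 3 → Fin 3 → ℝ}
    (hP : Pt s l T H) (hs : s ≠ 0) (h : Ker l T H E) :
    ∃ (e : Fin 3 → ℝ) (es : ℝ), ∀ n m,
      E n m = Tf (dd l) (Tf (dd l) e es n m) (Wf (dd l) e es n m) := by
  have hd2 := sum_dd_sq hP.tr hP.nrm
  have hs3 : 3 * s ≠ 0 := by positivity
  have hne : dd l 0 ≠ 0 ∨ dd l 1 ≠ 0 ∨ dd l 2 ≠ 0 := by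
    by_contra hcon
    push Not at hcon
    obtain ⟨h0, h1, h2⟩ := hcon
    rw [h0, h1, h2] at hd2
    apply hs; linarith
  obtain ⟨g, hg⟩ : ∃ g : Fin 3 → Fin 3 → Fin 3 → ℝ, ∀ n m k i, E n m k i i = dd l i * g n m k :=
    ⟨_, fun n m k i => par (v := fun i => E n m k i i) hs hP.tr hP.nrm (h.tr n m k) (h.lE n m k) i⟩
  have cancel : ∀ x y : ℝ, (∀ i, dd l i * x = dd l i * y) → x = y := by
    intro x y hxy
    rcases hne with h0 | h0 | h0
    · exact mul_left_cancel₀ h0 (hxy 0)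
    · exact mul_left_cancel₀ h0 (hxy 1)
    · exact mul_left_cancel₀ h0 (hxy 2)
  have g12 : ∀ n m k, g n m k = g m n k := fun n m k => cancel _ _ fun i => by
    rw [← hg, ← hg, h.E12]
  have g23 : ∀ n m k, g n m k = g n k m := fun n m k => cancel _ _ fun i => by
    rw [← hg, ← hg, h.E23]
  -- E n m m i i = E n i i m m
  have hsw : ∀ n m i, E n m m i i = E n i i m m := by
    intro n m i
    rw [h.E34 n m m i i, h.E23 n m i m i, h.E45 n i m m i, h.E34 n i m i m]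
  have hgm : ∀ n m i, dd l i * g n m m = dd l m * g n i i := by
    intro n m i
    rw [← hg, ← hg, hsw]
  obtain ⟨e, he⟩ : ∃ e : Fin 3 → ℝ, ∀ n m, g n m m = dd l m * e n := by
    refine ⟨fun n => (dd l 0 * g n 0 0 + dd l 1 * g n 1 1 + dd l 2 * g n 2 2) / (3 * s),
      fun n m => ?_⟩
    rw [mul_div_assoc', eq_div_iff hs3, ← hd2]
    have h0 := hgm n m 0
    have h1 := hgm n m 1
    have h2 := hgm n m 2
    linear_combination (dd l 0) * h0 + (dd l 1) * h1 + (dd l 2) * h2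
  have hgT : g = Tf (dd l) e (g 0 1 2) := eq_Tf g12 g23 (fun k i => he k i) rfl
  refine ⟨e, g 0 1 2, fun n m => ?_⟩
  refine eq_Tf (h.E34 n m) (h.E45 n m) (fun k i => ?_) ?_
  · rw [hg, ← hgT]
  · -- E n m 0 1 2
    have key : ∀ n, E n n 0 1 2 = dd l n * g 0 1 2 := by
      intro n
      rw [← hg, h.E23 n n 0 1 2, h.E34 n 0 n 1 2, h.E45 n 0 1 n 2, h.E12 n 0 1 2 n,
        h.E23 0 n 1 2 n, h.E34 0 1 n 2 n]
    have k01 : E 0 1 0 1 2 = dd l 0 * dd l 1 * e 2 := by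
      have : E 2 0 0 1 1 = dd l 1 * (dd l 0 * e 2) := by rw [hg, he]
      rw [h.E45 0 1 0 1 2, h.E34 0 1 0 2 1, h.E23 0 1 2 0 1, h.E12 0 2 1 0 1, h.E34 2 0 1 0 1, this]
      ring
    have k02 : E 0 2 0 1 2 = dd l 0 * dd l 2 * e 1 := by
      have : E 1 0 0 2 2 = dd l 2 * (dd l 0 * e 1) := by rw [hg, he]
      rw [h.E34 0 2 0 1 2, h.E23 0 2 1 0 2, h.E12 0 1 2 0 2, h.E34 1 0 2 0 2, this]
      ring
    have k12 : E 1 2 0 1 2 = dd l 1 * dd l 2 * e 0 := by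
      have : E 0 1 1 2 2 = dd l 2 * (dd l 1 * e 0) := by rw [hg, he]
      rw [h.E23 1 2 0 1 2, h.E12 1 0 2 1 2, h.E34 0 1 2 1 2, this]
      ring
    rcases fin3 n with rfl | rfl | rfl <;> rcases fin3 m with rfl | rfl | rfl
    · simpa [Wf] using key 0
    · simpa [Wf] using k01
    · simpa [Wf] using k02
    · rw [h.E12 1 0]; simpa [Wf] using k01
    · simpa [Wf] using key 1
    · simpa [Wf] using k12
    · rw [h.E12 2 0]; simpa [Wf] using k02
    · rw [h.E12 2 1]; simpa [Wf] using k12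
    · simpa [Wf] using key 2

end Bry
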