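import Pool.Agent.Lib.MP_2b07f9_gt.GoalC2

/-! `GoalC`. -/

set_option autoImplicit false
set_option linter.unusedSimpArgs false
set_option linter.unusedVariables false

open Finset

namespace Bry

theorem contract_Tf (d t g : Fin 3 → ℝ) (u w : ℝ) :
    ∑ k, ∑ i, ∑ j, Tf d t u k i j * Tf d g w k i j
      = t 0 * g 0 * (3 * (d 0 ^ 2 + d 1 ^ 2 + d 2 ^ 2) - 2 * d 0 ^ 2)
        + t 1 * g 1 * (3 * (d 0 ^ 2 + d 1 ^ 2 + d 2 ^ 2) - 2 * d 1 ^ 2)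
        + t 2 * g 2 * (3 * (d 0 ^ 2 + d 1 ^ 2 + d 2 ^ 2) - 2 * d 2 ^ 2) + 6 * u * w := by
  simp only [Fin.sum_univ_three, Tf, Matrix.cons_val_zero, Matrix.cons_val_one, Matrix.cons_val]
  ring

theorem Tf_ii (d t : Fin 3 → ℝ) (u : ℝ) (k i : Fin 3) : Tf d t u k i i = d i * t k := by
  rcases fin3 k with rfl | rfl | rfl <;> rcases fin3 i with rfl | rfl | rfl <;>
    simp [Tf]

theorem Tf_012 (d t : Fin 3 → ℝ) (u : ℝ) : Tf d t u 0 1 2 = u := by simp [Tf]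

theorem Tf_12 (d t : Fin 3 → ℝ) (u : ℝ) (k i j : Fin 3) : Tf d t u k i j = Tf d t u i k j := by
  rcases fin3 k with rfl | rfl | rfl <;> rcases fin3 i with rfl | rfl | rfl <;>
    rcases fin3 j with rfl | rfl | rfl <;> simp [Tf]

theorem Tf_23 (d t : Fin 3 → ℝ) (u : ℝ) (k i j : Fin 3) : Tf d t u k i j = Tf d t u k j i := by
  rcases fin3 k with rfl | rfl | rfl <;> rcases fin3 i with rfl | rfl | rfl <;>
    rcases fin3 j with rfl | rfl | rfl <;> simp [Tf]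

/-- contraction of `H m` with `Tf d g w`. -/
theorem contract_H {s : ℝ} {l : Fin 3 → ℝ} {Hm : Fin 3 → Fin 3 → Fin 3 → ℝ}
    (h0 : ∑ i, l i = 0) (h2 : ∑ i, l i * l i = s)
    (h12 : ∀ k i j, Hm k i j = Hm i k j) (h23 : ∀ k i j, Hm k i j = Hm k j i)
    {q X : Fin 3 → ℝ} {w : ℝ} (hq : ∀ k i, s * Hm k i i = - q k * l i + X k * dd l i)
    (hw : s * Hm 0 1 2 = w) (g : Fin 3 → ℝ) (W : ℝ) :
    s * ∑ k, ∑ i, ∑ j, Hm k i j * Tf (dd l) g W k i j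
      = g 0 * ((9 * s - 2 * dd l 0 ^ 2) * X 0 + 2 * dd l 0 * l 0 * q 0)
        + g 1 * ((9 * s - 2 * dd l 1 ^ 2) * X 1 + 2 * dd l 1 * l 1 * q 1)
        + g 2 * ((9 * s - 2 * dd l 2 ^ 2) * X 2 + 2 * dd l 2 * l 2 * q 2) + 6 * w * W := by
  rw [contract h12 h23 (Tf_12 _ _ _) (Tf_23 _ _ _)]
  have hd := sum_dd_sq h0 h2
  have hl : l 0 * dd l 0 + l 1 * dd l 1 + l 2 * dd l 2 = 0 := by simp only [dd0, dd1, dd2]; ring
  simp only [Fin.sum_univ_three, Tf_ii, Tf_012]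
  have a00 := hq 0 0
  have a01 := hq 0 1
  have a02 := hq 0 2
  have a10 := hq 1 0
  have a11 := hq 1 1
  have a12 := hq 1 2
  have a20 := hq 2 0
  have a21 := hq 2 1
  have a22 := hq 2 2
  linear_combination (dd l 0 * g 0) * a00 + 3 * (dd l 1 * g 0) * a01 + 3 * (dd l 2 * g 0) * a02
    + 3 * (dd l 0 * g 1) * a10 + (dd l 1 * g 1) * a11 + 3 * (dd l 2 * g 1) * a12
    + 3 * (dd l 0 * g 2) * a20 + 3 * (dd l 1 * g 2) * a21 + (dd l 2 * g 2) * a22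
    + 6 * W * hw + 3 * (g 0 * X 0 + g 1 * X 1 + g 2 * X 2) * hd
    - 3 * (g 0 * q 0 + g 1 * q 1 + g 2 * q 2) * hl

/-- evaluation of the `T T E` contraction at a degenerate point. -/
theorem TTE_eval (a b t1 u f g : ℝ) (d e t : Fin 3 → ℝ) (hd0 : d 0 = a ^ 2)
    (hd1 : d 1 = -(a ^ 2 + b ^ 2)) (hd2 : d 2 = b ^ 2) (ht0 : t 0 = 0) (ht1 : t 1 = t1)
    (ht2 : t 2 = 0) (he0 : e 0 = a * f) (he1 : e 1 = g) (he2 : e 2 = b * f) (n : Fin 3)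
    (hn : n = 0 ∨ n = 1) :
    ∑ k, ∑ i, ∑ j, ∑ m, ∑ p, Tf d t u k i j * Tf d t u k m p *
      (Tf d (Tf d e (a * b * g) n i) (Wf d e (a * b * g) n i)) j m p
      = e n * (4 * d 1 * (b * u + a * d 0 * t1) ^ 2 + 4 * d 1 * (a * u + b * d 2 * t1) ^ 2
        + ((d 0 ^ 2 + d 1 ^ 2 + d 2 ^ 2) * t1 + 2 * a * b * u) ^ 2) := by
  have z1 : ∀ k i j, Tf d t u k i j = Tf d ![0, t1, 0] u k i j := by
    intro k i j
    have : t = ![0, t1, 0] := by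
      funext x
      rcases fin3 x with rfl | rfl | rfl <;> simp [ht0, ht1, ht2]
    rw [this]
  simp only [z1]
  rcases hn with rfl | rfl <;>
  · simp only [Fin.sum_univ_three, Tf, Wf, Matrix.cons_val_zero, Matrix.cons_val_one,
      Matrix.cons_val, mul_zero, zero_mul, add_zero, zero_add, he0, he1, he2, hd0, hd1, hd2]
    ring

theorem q_Tf (d t : Fin 3 → ℝ) (u : ℝ) :
    Pt.q (Tf d t u) 0 0 = (d 0 ^ 2 + d 1 ^ 2 + d 2 ^ 2) * t 0 ^ 2 + 2 * d 0 ^ 2 * (t 1 ^ 2 + t 2 ^ 2)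
      + 2 * u ^ 2 ∧
    Pt.q (Tf d t u) 1 1 = (d 0 ^ 2 + d 1 ^ 2 + d 2 ^ 2) * t 1 ^ 2 + 2 * d 1 ^ 2 * (t 0 ^ 2 + t 2 ^ 2)
      + 2 * u ^ 2 ∧
    Pt.q (Tf d t u) 2 2 = (d 0 ^ 2 + d 1 ^ 2 + d 2 ^ 2) * t 2 ^ 2 + 2 * d 2 ^ 2 * (t 0 ^ 2 + t 1 ^ 2)
      + 2 * u ^ 2 ∧
    Pt.q (Tf d t u) 0 1 = (d 0 ^ 2 + d 1 ^ 2 + d 2 ^ 2 + 2 * d 0 * d 1) * t 0 * t 1
      + 2 * (d 0 + d 1) * u * t 2 ∧
    Pt.q (Tf d t u) 0 2 = (d 0 ^ 2 + d 1 ^ 2 + d 2 ^ 2 + 2 * d 0 * d 2) * t 0 * t 2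
      + 2 * (d 0 + d 2) * u * t 1 ∧
    Pt.q (Tf d t u) 1 2 = (d 0 ^ 2 + d 1 ^ 2 + d 2 ^ 2 + 2 * d 1 * d 2) * t 1 * t 2
      + 2 * (d 1 + d 2) * u * t 0 := by
  refine ⟨?_, ?_, ?_, ?_, ?_, ?_⟩ <;>
  · simp only [Pt.q, Fin.sum_univ_three, Tf, Matrix.cons_val_zero, Matrix.cons_val_one,
      Matrix.cons_val]
    ring

theorem degen {s : ℝ} {l : Fin 3 → ℝ} {T : Fin 3 → Fin 3 → Fin 3 → ℝ}
    {H : Fin 3 → Fin 3 → Fin 3 → Fin 3 → ℝ} {E : Fin 3 → Fin 3 → Fin 3 → Fin 3 → Fin 3 → ℝ}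
    (hs : 3 < s) (hP : Pt s l T H) (hK : Ker l T H E)
    {t : Fin 3 → ℝ} {u : ℝ} {X : Fin 3 → Fin 3 → ℝ} (hT : T = Tf (dd l) t u)
    (hX : ∀ m k i, s * H m k i i = - Pt.q T m k * l i + X m k * dd l i)
    (hXs : ∀ m k, X m k = X k m)
    (hw0 : s * H 0 0 1 2 = - Pt.q T 1 2 * l 0 + X 1 2 * dd l 0)
    (hw1 : s * H 1 0 1 2 = - Pt.q T 0 2 * l 1 + X 0 2 * dd l 1)
    (hw2 : s * H 2 0 1 2 = - Pt.q T 0 1 * l 2 + X 0 1 * dd l 2)
    (hR01 : X 0 0 * dd l 1 - X 1 1 * dd l 0 = s * ((l 1 - l 0) * (1 + l 0 * l 1))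
      + (Pt.q T 0 0 * l 1 - Pt.q T 1 1 * l 0))
    (hR02 : X 0 0 * dd l 2 - X 2 2 * dd l 0 = s * ((l 2 - l 0) * (1 + l 0 * l 2))
      + (Pt.q T 0 0 * l 2 - Pt.q T 2 2 * l 0))
    {e : Fin 3 → ℝ} {a b f g : ℝ}
    (hE : ∀ n m, E n m = Tf (dd l) (Tf (dd l) e (a * b * g) n m) (Wf (dd l) e (a * b * g) n m))
    (ha : a ≠ 0) (hb : b ≠ 0) (had : dd l 0 = a ^ 2) (hbd : dd l 2 = b ^ 2)
    (hN1 : (9 * s - 2 * dd l 0 ^ 2) * t 0 * a + (9 * s - 2 * dd l 2 ^ 2) * t 2 * b = 0)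
    (hN2 : (9 * s - 2 * dd l 1 ^ 2) * t 1 + 6 * u * a * b = 0)
    (he0 : e 0 = a * f) (he1 : e 1 = g) (he2 : e 2 = b * f) (hfg : f ≠ 0 ∨ g ≠ 0) : False := by
  have hs0 : s ≠ 0 := by linarith
  have hsum := sum_dd_sq hP.tr hP.nrm
  have htr := hP.tr
  have hnrm := hP.nrm
  simp only [Fin.sum_univ_three] at htr hnrm
  have had' := had
  have hbd' := hbd
  simp only [dd0, dd2] at had' hbd'
  have hl0 : l 0 = (a ^ 2 + 2 * b ^ 2) / 3 := by linarith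
  have hl1 : l 1 = (a ^ 2 - b ^ 2) / 3 := by linarith
  have hl2 : l 2 = -(2 * a ^ 2 + b ^ 2) / 3 := by linarith
  have hd1 : dd l 1 = -(a ^ 2 + b ^ 2) := by simp only [dd1]; linarith
  have hsab : s = 2 / 3 * (a ^ 4 + a ^ 2 * b ^ 2 + b ^ 4) := by
    rw [← hnrm, hl0, hl1, hl2]; ring
  have ha2 : 0 < a ^ 2 := by positivity
  have hb2 : 0 < b ^ 2 := by positivity
  set c0 := 4 * a ^ 4 + 6 * a ^ 2 * b ^ 2 + 6 * b ^ 4 with hc0
  set c1 := 4 * a ^ 4 + 2 * a ^ 2 * b ^ 2 + 4 * b ^ 4 with hc1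
  set c2 := 6 * a ^ 4 + 6 * a ^ 2 * b ^ 2 + 4 * b ^ 4 with hc2
  have e0 : 9 * s - 2 * dd l 0 ^ 2 = c0 := by rw [had, hsab, hc0]; ring
  have e1 : 9 * s - 2 * dd l 1 ^ 2 = c1 := by rw [hd1, hsab, hc1]; ring
  have e2 : 9 * s - 2 * dd l 2 ^ 2 = c2 := by rw [hbd, hsab, hc2]; ring
  have c0p : 0 < c0 := by rw [hc0]; positivity
  have c1p : 0 < c1 := by rw [hc1]; positivity
  have c2p : 0 < c2 := by rw [hc2]; positivity
  obtain ⟨q00, q11, q22, q01, q02, q12⟩ := q_Tf (dd l) t u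
  rw [← hT, hsum] at q00 q11 q22 q01 q02 q12
  -- C1
  have hC : c0 * t 0 ^ 2 + c1 * t 1 ^ 2 + c2 * t 2 ^ 2 + 6 * u ^ 2 = s * (s - 3) := by
    have h1 := hP.C1
    rw [hT, contract_Tf, hsum] at h1
    rw [← e0, ← e1, ← e2]
    linarith
  -- M
  have hH : ∀ m (G : Fin 3 → ℝ) (W w : ℝ), s * H m 0 1 2 = w →
      s * ∑ k, ∑ i, ∑ j, H m k i j * Tf (dd l) G W k i j
      = G 0 * (c0 * X m 0 + 2 * dd l 0 * l 0 * Pt.q T m 0)
        + G 1 * (c1 * X m 1 + 2 * dd l 1 * l 1 * Pt.q T m 1)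
        + G 2 * (c2 * X m 2 + 2 * dd l 2 * l 2 * Pt.q T m 2) + 6 * w * W := by
    intro m G W w hw
    have := contract_H (Hm := H m) (q := Pt.q T m) (X := X m) hP.tr hP.nrm (hP.H23 m) (hP.H34 m)
      (fun k i => hX m k i) hw G W
    rw [this, e0, e1, e2]
  have hM : ∀ m w, s * H m 0 1 2 = w → t 0 * (c0 * X m 0 + 2 * dd l 0 * l 0 * Pt.q T m 0)
        + t 1 * (c1 * X m 1 + 2 * dd l 1 * l 1 * Pt.q T m 1)
        + t 2 * (c2 * X m 2 + 2 * dd l 2 * l 2 * Pt.q T m 2) + 6 * w * u = 0 := by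
    intro m w hw
    rw [← hH m t u w hw]
    have h1 := hP.M m
    have h2 : ∑ k, ∑ i, ∑ j, H m k i j * Tf (dd l) t u k i j = 0 := by
      rw [← h1]
      refine sum_congr rfl fun k _ => sum_congr rfl fun i _ => sum_congr rfl fun j _ => ?_
      rw [← hT, mul_comm]
    rw [h2, mul_zero]
  rw [e0, e2] at hN1
  rw [e1] at hN2
  have M0 := hM 0 _ hw0
  have M1 := hM 1 _ hw1
  have M2 := hM 2 _ hw2
  have qs10 := Pt.q_comm T 1 0
  have qs20 := Pt.q_comm T 2 0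
  have qs21 := Pt.q_comm T 2 1
  have xs10 := hXs 1 0
  have xs20 := hXs 2 0
  have xs21 := hXs 2 1
  rw [qs10, xs10] at M1
  rw [qs20, xs20, qs21, xs21] at M2
  -- t 0 = t 2 = 0
  have hm : t 0 / (b * c2) = 0 := by
    have hbc : b * c2 ≠ 0 := mul_ne_zero hb c2p.ne'
    apply coreA a b (t 0 / (b * c2)) (u / c1) (X 0 0) (X 0 1) (X 0 2) (X 1 1) (X 1 2) (X 2 2)
      (dd l 0) (dd l 1) (dd l 2) s (l 0) (l 1) (l 2) c0 c1 c2 (t 0) (t 1) (t 2) u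
      (Pt.q T 0 0) (Pt.q T 1 1) (Pt.q T 2 2) (Pt.q T 0 1) (Pt.q T 0 2) (Pt.q T 1 2)
      ha hb had hd1 hbd hsab hl0 hl1 hl2 hc0 hc1 hc2
    · field_simp
    · field_simp; linarith
    · field_simp; linarith
    · field_simp
    · rw [q00]
    · rw [q11]
    · rw [q22]
    · rw [q01, had, hd1, hbd]; ring
    · rw [q02, had, hd1, hbd]; ring
    · rw [q12, had, hd1, hbd]; ring
    · exact hC
    · exact hR02
    · linarith [M0]
    · linarith [M2]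
  have t0 : t 0 = 0 := by
    rcases div_eq_zero_iff.1 hm with h | h
    · exact h
    · exact absurd h (mul_ne_zero hb c2p.ne')
  have t2 : t 2 = 0 := by
    rw [t0] at hN1
    have : c2 * t 2 * b = 0 := by linarith
    rcases mul_eq_zero.1 this with h | h
    · exact (mul_eq_zero.1 h).resolve_left c2p.ne'
    · exact absurd h hb
  have hu0 : u ≠ 0 := by
    intro h
    rw [h] at hN2 hC
    have : c1 * t 1 = 0 := by linarith
    have t1 := (mul_eq_zero.1 this).resolve_left c1p.ne'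
    rw [t0, t1, t2] at hC
    have h5 : 0 < s * (s - 3) := mul_pos (by linarith) (by linarith)
    have h6 : s * (s - 3) = 0 := by rw [← hC]; ring
    linarith
  rw [t0, t2] at q00 q11 q22 q01 q02 q12 hC M0 M1 M2
  have q01' : Pt.q T 0 1 = 0 := by rw [q01]; ring
  have q12' : Pt.q T 1 2 = 0 := by rw [q12]; ring
  rw [q01', q12'] at M0 M1
  have hx : a * X 1 2 = b * X 0 1 := by
    have h1 : 6 * u * a * (a * X 1 2 - b * X 0 1) = 0 := by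
      rw [had] at M0
      linear_combination M0 - X 0 1 * hN2
    have h2 : 6 * u * a ≠ 0 := by positivity
    have := (mul_eq_zero.1 h1).resolve_left h2
    linarith
  -- the `H E` equations
  have hsE : ∀ n, s * ∑ m, ∑ k, ∑ i, ∑ j, H m k i j * E n m k i j = 0 := by
    intro n; rw [hK.HE n, mul_zero]
  have hE0 : ∀ n m, ∑ k, ∑ i, ∑ j, H m k i j * E n m k i j
      = ∑ k, ∑ i, ∑ j, H m k i j * Tf (dd l) (Tf (dd l) e (a * b * g) n m)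
        (Wf (dd l) e (a * b * g) n m) k i j := by
    intro n m
    rw [hE n m]
  set HE : Fin 3 → Fin 3 → ℝ := fun n m => s * ∑ k, ∑ i, ∑ j, H m k i j * E n m k i j with hHE
  have hHEn : ∀ n, HE n 0 + HE n 1 + HE n 2 = 0 := by
    intro n
    have := hsE n
    rw [Fin.sum_univ_three] at this
    simp only [hHE]
    linarith
  have HEv : ∀ n m w, s * H m 0 1 2 = w → HE n m
      = Tf (dd l) e (a * b * g) n m 0 * (c0 * X m 0 + 2 * dd l 0 * l 0 * Pt.q T m 0)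
        + Tf (dd l) e (a * b * g) n m 1 * (c1 * X m 1 + 2 * dd l 1 * l 1 * Pt.q T m 1)
        + Tf (dd l) e (a * b * g) n m 2 * (c2 * X m 2 + 2 * dd l 2 * l 2 * Pt.q T m 2)
        + 6 * w * Wf (dd l) e (a * b * g) n m := by
    intro n m w hw
    simp only [hHE]
    rw [hE0, hH m _ _ w hw]
  have HE00 := HEv 0 0 _ hw0
  have HE01 := HEv 0 1 _ hw1
  have HE02 := HEv 0 2 _ hw2
  have HE10 := HEv 1 0 _ hw0
  have HE11 := HEv 1 1 _ hw1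
  have HE12 := HEv 1 2 _ hw2
  simp only [Tf, Wf, Matrix.cons_val_zero, Matrix.cons_val_one, Matrix.cons_val, qs10, qs20, qs21,
    xs10, xs20, xs21, q01', q12', he0, he1, he2, had, hd1, hbd] at HE00 HE01 HE02 HE10 HE11 HE12
  set P : ℝ := dd l 0 * (c0 * X 0 0 + 2 * dd l 0 * l 0 * Pt.q T 0 0)
      + dd l 1 * (c1 * X 1 1 + 2 * dd l 1 * l 1 * Pt.q T 1 1)
      + dd l 2 * (c2 * X 2 2 + 2 * dd l 2 * l 2 * Pt.q T 2 2)
      + 4 * a * b * ((3 * s + 2 * dd l 1 ^ 2) * X 0 2 - 2 * dd l 1 * l 1 * Pt.q T 0 2) with hPdef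
  set R : ℝ := 4 * a * (3 * s + 2 * dd l 2 ^ 2) * X 0 1 + 4 * b * (3 * s + 2 * dd l 0 ^ 2) * X 1 2
    with hRdef
  have k0 : f * P + g * R = 0 := by
    have h1 := hHEn 0
    rw [HE00, HE01, HE02] at h1
    have h2 : a * (f * P + g * R) = 0 := by
      rw [← h1, hPdef, hRdef, had, hd1, hbd, hsab, hc0, hc1, hc2, hl0, hl1, hl2]
      ring
    exact (mul_eq_zero.1 h2).resolve_left ha
  have k1 : g * P - (a ^ 2 + b ^ 2) * f * R = 0 := by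
    have h1 := hHEn 1
    rw [HE10, HE11, HE12] at h1
    rw [← h1, hPdef, hRdef, had, hd1, hbd, hsab, hc0, hc1, hc2, hl0, hl1, hl2]
    ring
  have hfgp : 0 < (a ^ 2 + b ^ 2) * f ^ 2 + g ^ 2 := by
    rcases hfg with h | h
    · have : 0 < f ^ 2 := by positivity
      positivity
    · have : 0 < g ^ 2 := by positivity
      positivity
  have hP0 : P = 0 := by
    have : ((a ^ 2 + b ^ 2) * f ^ 2 + g ^ 2) * P = 0 := by
      linear_combination (a ^ 2 + b ^ 2) * f * k0 + g * k1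
    exact (mul_eq_zero.1 this).resolve_left hfgp.ne'
  have hR0 : R = 0 := by
    have : ((a ^ 2 + b ^ 2) * f ^ 2 + g ^ 2) * R = 0 := by
      linear_combination g * k0 - f * k1
    exact (mul_eq_zero.1 this).resolve_left hfgp.ne'
  have hX01 : X 0 1 = 0 := by
    have h1 : (4 * a ^ 2 * (3 * s + 2 * dd l 2 ^ 2) + 4 * b ^ 2 * (3 * s + 2 * dd l 0 ^ 2)) * X 0 1 = 0 := by
      have := congrArg (fun z => a * z) hR0
      simp only [hRdef] at this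
      linear_combination this - 4 * b * (3 * s + 2 * dd l 0 ^ 2) * hx
    have h2 : 0 < 4 * a ^ 2 * (3 * s + 2 * dd l 2 ^ 2) + 4 * b ^ 2 * (3 * s + 2 * dd l 0 ^ 2) := by
      positivity
    exact (mul_eq_zero.1 h1).resolve_left h2.ne'
  have hX12 : X 1 2 = 0 := by
    rw [hX01, mul_zero] at hx
    exact (mul_eq_zero.1 hx).resolve_left ha
  -- `K2`
  have hK2 : ∀ n, n = 0 ∨ n = 1 → 2 * (l 0 * HE n 0 + l 1 * HE n 1 + l 2 * HE n 2)
      - 3 * s * (e n * (4 * dd l 1 * (b * u + a * dd l 0 * t 1) ^ 2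
        + 4 * dd l 1 * (a * u + b * dd l 2 * t 1) ^ 2 + (3 * s * t 1 + 2 * a * b * u) ^ 2)) = 0 := by
    intro n hn
    have h1 := hK.K2E n
    have h2 : ∑ k, ∑ i, ∑ j, ∑ m, ∑ p, T k i j * T k m p * E n i j m p
        = e n * (4 * dd l 1 * (b * u + a * dd l 0 * t 1) ^ 2
        + 4 * dd l 1 * (a * u + b * dd l 2 * t 1) ^ 2 + (3 * s * t 1 + 2 * a * b * u) ^ 2) := by
      rw [← hsum, ← TTE_eval a b (t 1) u f g (dd l) e t had hd1 hbd t0 rfl t2 he0 he1 he2 n hn]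
      simp only [← hE, ← hT]
    rw [h2, Fin.sum_univ_three] at h1
    simp only [hHE]
    linear_combination s * h1
  have k2 := hK2 0 (Or.inl rfl)
  have k3 := hK2 1 (Or.inr rfl)
  rw [HE00, HE01, HE02, he0] at k2
  rw [HE10, HE11, HE12, he1] at k3
  set P2 : ℝ := 2 * l 0 * (dd l 0 * (c0 * X 0 0 + 2 * dd l 0 * l 0 * Pt.q T 0 0)
        + a * b * (c2 * X 0 2 + 2 * dd l 2 * l 2 * Pt.q T 0 2))
      + 2 * l 2 * (dd l 2 * (c2 * X 2 2 + 2 * dd l 2 * l 2 * Pt.q T 2 2)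
        + a * b * (c0 * X 0 2 + 2 * dd l 0 * l 0 * Pt.q T 0 2))
      + 2 * l 1 * dd l 1 * ((c1 * X 1 1 + 2 * dd l 1 * l 1 * Pt.q T 1 1)
        + 6 * a * b * (X 0 2 * dd l 1 - Pt.q T 0 2 * l 1))
      - 3 * s * (4 * dd l 1 * (b * u + a * dd l 0 * t 1) ^ 2
        + 4 * dd l 1 * (a * u + b * dd l 2 * t 1) ^ 2
        + (3 * s * t 1 + 2 * a * b * u) ^ 2) with hP2def
  have hP2 : P2 = 0 := by
    rcases hfg with h | h
    · have h2 : (a * f) * P2 = 0 := by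
        rw [← k2, hP2def, hX01, hX12, had, hd1, hbd]
        ring
      exact (mul_eq_zero.1 h2).resolve_left (mul_ne_zero ha h)
    · have h2 : g * P2 = 0 := by
        rw [← k3, hP2def, hX01, hX12, had, hd1, hbd]
        ring
      exact (mul_eq_zero.1 h2).resolve_left h
  have hv : u / c1 ≠ 0 := div_ne_zero hu0 c1p.ne'
  apply coreB a b (u / c1) (X 0 0) (X 0 2) (X 1 1) (X 2 2) (dd l 0) (dd l 1) (dd l 2) s (l 0) (l 1)
    (l 2) c0 c1 c2 (t 1) u (Pt.q T 0 0) (Pt.q T 1 1) (Pt.q T 2 2) (Pt.q T 0 2) ha hb hv had hd1 hbd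
    hsab hl0 hl1 hl2 hc0 hc1 hc2
  · field_simp; linarith
  · field_simp
  · rw [q00]; ring
  · rw [q11]; ring
  · rw [q22]; ring
  · rw [q02, had, hd1, hbd]; ring
  · linarith
  · exact hR01
  · exact hR02
  · rw [hX01, hX12] at M1
    linarith [M1]
  · exact hP0
  · exact hP2

end Bry
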