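import Pool.Agent.Lib.MP_2b07f9_gt.Pt

/-! Explicit parametrisation of the second order jets at one point. -/

set_option autoImplicit false
set_option linter.unusedSimpArgs false

open Finset

namespace Bry

theorem fin3 (i : Fin 3) : i = 0 ∨ i = 1 ∨ i = 2 := by
  fin_cases i <;> simp

theorem dl_eq {R : Type*} [Zero R] [One R] (i : Fin 3) : (dl i i : R) = 1 := if_pos rfl
theorem pdl01 {R : Type*} [Zero R] [One R] : (dl 0 1 : R) = 0 := if_neg (by decide)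
theorem pdl02 {R : Type*} [Zero R] [One R] : (dl 0 2 : R) = 0 := if_neg (by decide)
theorem pdl10 {R : Type*} [Zero R] [One R] : (dl 1 0 : R) = 0 := if_neg (by decide)
theorem pdl12 {R : Type*} [Zero R] [One R] : (dl 1 2 : R) = 0 := if_neg (by decide)
theorem pdl20 {R : Type*} [Zero R] [One R] : (dl 2 0 : R) = 0 := if_neg (by decide)
theorem pdl21 {R : Type*} [Zero R] [One R] : (dl 2 1 : R) = 0 := if_neg (by decide)

/-- `d 0 = l 1 - l 2` etc. -/
def dd (l : Fin 3 → ℝ) : Fin 3 → ℝ := ![l 1 - l 2, l 2 - l 0, l 0 - l 1]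

@[simp] theorem dd0 (l : Fin 3 → ℝ) : dd l 0 = l 1 - l 2 := rfl
@[simp] theorem dd1 (l : Fin 3 → ℝ) : dd l 1 = l 2 - l 0 := rfl
@[simp] theorem dd2 (l : Fin 3 → ℝ) : dd l 2 = l 0 - l 1 := rfl

theorem sum_dd_sq {l : Fin 3 → ℝ} {s : ℝ} (h0 : ∑ i, l i = 0) (h2 : ∑ i, l i * l i = s) :
    dd l 0 ^ 2 + dd l 1 ^ 2 + dd l 2 ^ 2 = 3 * s := by
  simp only [Fin.sum_univ_three] at h0 h2
  simp only [dd0, dd1, dd2]
  have h : l 2 = - l 0 - l 1 := by linarith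
  rw [← h2, h]; ring

/-- a vector orthogonal to `1` and `l` is a multiple of `d`. -/
theorem par {l v : Fin 3 → ℝ} {s : ℝ} (hs : s ≠ 0) (h0 : ∑ i, l i = 0) (h2 : ∑ i, l i * l i = s)
    (hv : ∑ i, v i = 0) (hlv : ∑ i, l i * v i = 0) (i : Fin 3) :
    v i = dd l i * ((dd l 0 * v 0 + dd l 1 * v 1 + dd l 2 * v 2) / (3 * s)) := by
  have h3 := sum_dd_sq h0 h2
  simp only [Fin.sum_univ_three] at h0 hv hlv
  have e : v 2 = - v 0 - v 1 := by linarith
  have e' : l 2 = - l 0 - l 1 := by linarith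
  have h01 : v 0 * dd l 1 = v 1 * dd l 0 := by
    simp only [dd0, dd1]
    rw [e, e'] at hlv
    rw [e']; linarith
  have h02 : v 0 * dd l 2 = v 2 * dd l 0 := by
    simp only [dd0, dd2]
    simp only [dd0, dd1] at h01
    rw [e, e'] at *
    linarith
  have h12 : v 1 * dd l 2 = v 2 * dd l 1 := by
    simp only [dd1, dd2]
    simp only [dd0, dd1] at h01
    rw [e, e'] at *
    linarith
  have hs3 : 3 * s ≠ 0 := by positivity
  rw [mul_div_assoc', eq_div_iff hs3, ← h3]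
  rcases fin3 i with rfl | rfl | rfl
  · linear_combination (dd l 1) * h01 + (dd l 2) * h02
  · linear_combination (-dd l 0) * h01 + (dd l 2) * h12
  · linear_combination (-dd l 0) * h02 - (dd l 1) * h12

theorem canon {S : Fin 3 → Fin 3 → Fin 3 → ℝ}
    (h12 : ∀ k i j, S k i j = S i k j) (h23 : ∀ k i j, S k i j = S k j i) :
    S 0 0 1 = S 1 0 0 ∧ S 0 1 0 = S 1 0 0 ∧ S 0 0 2 = S 2 0 0 ∧ S 0 2 0 = S 2 0 0 ∧
    S 1 0 1 = S 0 1 1 ∧ S 1 1 0 = S 0 1 1 ∧ S 1 1 2 = S 2 1 1 ∧ S 1 2 1 = S 2 1 1 ∧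
    S 2 0 2 = S 0 2 2 ∧ S 2 2 0 = S 0 2 2 ∧ S 2 1 2 = S 1 2 2 ∧ S 2 2 1 = S 1 2 2 ∧
    S 0 2 1 = S 0 1 2 ∧ S 1 0 2 = S 0 1 2 ∧ S 1 2 0 = S 0 1 2 ∧ S 2 0 1 = S 0 1 2 ∧
    S 2 1 0 = S 0 1 2 := by
  refine ⟨?_, ?_, ?_, ?_, ?_, ?_, ?_, ?_, ?_, ?_, ?_, ?_, ?_, ?_, ?_, ?_, ?_⟩
  · rw [h23, h12]
  · rw [h12]
  · rw [h23, h12]
  · rw [h12]
  · rw [h12]
  · rw [h23, h12]
  · rw [h23, h12]
  · rw [h12]
  · rw [h12]
  · rw [h23, h12]
  · rw [h12]
  · rw [h23, h12]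
  · rw [h23]
  · rw [h12]
  · rw [h23, h12]
  · rw [h12, h23]
  · rw [h12, h23, h12]

/-- Contraction of two totally symmetric arrays. -/
theorem contract {S S' : Fin 3 → Fin 3 → Fin 3 → ℝ}
    (h12 : ∀ k i j, S k i j = S i k j) (h23 : ∀ k i j, S k i j = S k j i)
    (h12' : ∀ k i j, S' k i j = S' i k j) (h23' : ∀ k i j, S' k i j = S' k j i) :
    ∑ k, ∑ i, ∑ j, S k i j * S' k i j
      = ∑ k, (3 * ∑ i, S k i i * S' k i i - 2 * (S k k k * S' k k k))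
        + 6 * (S 0 1 2 * S' 0 1 2) := by
  simp only [Fin.sum_univ_three]
  obtain ⟨a1, a2, a3, a4, a5, a6, a7, a8, a9, a10, a11, a12, a13, a14, a15, a16, a17⟩ := canon h12 h23
  obtain ⟨b1, b2, b3, b4, b5, b6, b7, b8, b9, b10, b11, b12, b13, b14, b15, b16, b17⟩ := canon h12' h23'
  rw [a1, a2, a3, a4, a5, a6, a7, a8, a9, a10, a11, a12, a13, a14, a15, a16, a17,
    b1, b2, b3, b4, b5, b6, b7, b8, b9, b10, b11, b12, b13, b14, b15, b16, b17]
  ring


/-- totally symmetric array with `S k i i = d i * t k` and `S 0 1 2 = u`. -/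
def Tf (d t : Fin 3 → ℝ) (u : ℝ) : Fin 3 → Fin 3 → Fin 3 → ℝ :=
  ![![![d 0 * t 0, d 0 * t 1, d 0 * t 2], ![d 0 * t 1, d 1 * t 0, u], ![d 0 * t 2, u, d 2 * t 0]],
    ![![d 0 * t 1, d 1 * t 0, u], ![d 1 * t 0, d 1 * t 1, d 1 * t 2], ![u, d 1 * t 2, d 2 * t 1]],
    ![![d 0 * t 2, u, d 2 * t 0], ![u, d 1 * t 2, d 2 * t 1], ![d 2 * t 0, d 2 * t 1, d 2 * t 2]]]

theorem eq_Tf {S : Fin 3 → Fin 3 → Fin 3 → ℝ} {d t : Fin 3 → ℝ} {u : ℝ}
    (h12 : ∀ k i j, S k i j = S i k j) (h23 : ∀ k i j, S k i j = S k j i)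
    (hd : ∀ k i, S k i i = d i * t k) (hu : S 0 1 2 = u) : S = Tf d t u := by
  obtain ⟨a1, a2, a3, a4, a5, a6, a7, a8, a9, a10, a11, a12, a13, a14, a15, a16, a17⟩ := canon h12 h23
  funext k i j
  rcases fin3 k with rfl | rfl | rfl <;> rcases fin3 i with rfl | rfl | rfl <;>
    rcases fin3 j with rfl | rfl | rfl <;>
    simp only [Tf, Matrix.cons_val_zero, Matrix.cons_val_one, Matrix.cons_val, a1, a2, a3, a4, a5, a6,
      a7, a8, a9, a10, a11, a12, a13, a14, a15, a16, a17, hd, hu]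

namespace Pt

variable {s : ℝ} {l : Fin 3 → ℝ} {T : Fin 3 → Fin 3 → Fin 3 → ℝ}
  {H : Fin 3 → Fin 3 → Fin 3 → Fin 3 → ℝ}

theorem Tii (h : Pt s l T H) (hs : s ≠ 0) : ∃ t : Fin 3 → ℝ, ∀ k i, T k i i = dd l i * t k :=
  ⟨_, fun k i => par (v := fun i => T k i i) hs h.tr h.nrm (h.trT k) (h.lT k) i⟩

theorem T_eq (h : Pt s l T H) (hs : s ≠ 0) : ∃ t : Fin 3 → ℝ, T = Tf (dd l) t (T 0 1 2) := by
  obtain ⟨t, ht⟩ := h.Tii hs
  exact ⟨t, eq_Tf h.T12 h.T23 ht rfl⟩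

/-- `q m k = ∑ T_mij T_kij`. -/
def q (T : Fin 3 → Fin 3 → Fin 3 → ℝ) (m k : Fin 3) : ℝ := ∑ i, ∑ j, T m i j * T k i j

theorem q_comm (T : Fin 3 → Fin 3 → Fin 3 → ℝ) (m k : Fin 3) : q T m k = q T k m := by
  simp only [q]
  exact sum_congr rfl fun i _ => sum_congr rfl fun j _ => mul_comm _ _

theorem Hii (h : Pt s l T H) (hs : s ≠ 0) : ∃ X : Fin 3 → Fin 3 → ℝ,
    ∀ m k i, s * H m k i i = - q T m k * l i + X m k * dd l i := by
  refine ⟨fun m k => s * ((dd l 0 * (H m k 0 0 + q T m k * l 0 / s)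
    + dd l 1 * (H m k 1 1 + q T m k * l 1 / s) + dd l 2 * (H m k 2 2 + q T m k * l 2 / s)) / (3 * s)),
    fun m k i => ?_⟩
  have := par (v := fun i => H m k i i + q T m k * l i / s) hs h.tr h.nrm
    (by
      have h1 := h.trH m k
      have h2 := h.tr
      simp only [Fin.sum_univ_three] at h1 h2 ⊢
      have : l 2 = - l 0 - l 1 := by linarith
      rw [this]; ring_nf; linarith)
    (by
      have h1 := h.lH m k
      have h2 := h.nrm
      have h3 : q T m k = ∑ i, ∑ j, T m i j * T k i j := rfl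
      rw [← h3] at h1
      simp only [Fin.sum_univ_three] at h1 h2 ⊢
      field_simp
      rw [← h2]
      rw [← h2] at hs
      linear_combination (l 0 * l 0 + l 1 * l 1 + l 2 * l 2) * h1) i
  simp only at this ⊢
  have h4 : s * (q T m k * l i / s) = q T m k * l i := by field_simp
  linear_combination s * this - h4

/-- All second order information in explicit form.  `X = s x`. -/
theorem explicit (h : Pt s l T H) (hs : s ≠ 0) : ∃ (t : Fin 3 → ℝ) (X : Fin 3 → Fin 3 → ℝ),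
    T = Tf (dd l) t (T 0 1 2) ∧
    (∀ m k i, s * H m k i i = - q T m k * l i + X m k * dd l i) ∧
    (∀ m k, X m k = X k m) ∧
    s * H 0 0 1 2 = - q T 1 2 * l 0 + X 1 2 * dd l 0 ∧
    s * H 1 0 1 2 = - q T 0 2 * l 1 + X 0 2 * dd l 1 ∧
    s * H 2 0 1 2 = - q T 0 1 * l 2 + X 0 1 * dd l 2 ∧
    X 0 0 * dd l 1 - X 1 1 * dd l 0 = s * ((l 1 - l 0) * (1 + l 0 * l 1))
      + (q T 0 0 * l 1 - q T 1 1 * l 0) ∧
    X 0 0 * dd l 2 - X 2 2 * dd l 0 = s * ((l 2 - l 0) * (1 + l 0 * l 2))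
      + (q T 0 0 * l 2 - q T 2 2 * l 0) ∧
    X 1 1 * dd l 2 - X 2 2 * dd l 1 = s * ((l 2 - l 1) * (1 + l 1 * l 2))
      + (q T 1 1 * l 2 - q T 2 2 * l 1) := by
  obtain ⟨t, ht⟩ := h.T_eq hs
  obtain ⟨X, hX⟩ := h.Hii hs
  have hd2 := sum_dd_sq h.tr h.nrm
  have hne : dd l 0 ≠ 0 ∨ dd l 1 ≠ 0 ∨ dd l 2 ≠ 0 := by
    by_contra hcon
    push Not at hcon
    obtain ⟨h0, h1, h2⟩ := hcon
    rw [h0, h1, h2] at hd2
    apply hs; linarith
  have hcomm : ∀ m k i, H m k i i = H k m i i := by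
    intro m k i
    have := h.ric m k i i
    rw [sub_self, zero_mul, zero_mul] at this
    linarith
  have hXs : ∀ m k, X m k = X k m := by
    intro m k
    have e : ∀ i, X m k * dd l i = X k m * dd l i := by
      intro i
      have h1 := hX m k i
      have h2 := hX k m i
      rw [hcomm m k i] at h1
      rw [q_comm T k m] at h2
      linarith
    rcases hne with h0 | h0 | h0
    · exact mul_right_cancel₀ h0 (e 0)
    · exact mul_right_cancel₀ h0 (e 1)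
    · exact mul_right_cancel₀ h0 (e 2)
  have r0 : H 0 0 1 2 = H 1 2 0 0 := by
    have := h.ric 0 1 0 2
    simp only [dl_eq, pdl01, pdl02, pdl10, pdl12, pdl20, pdl21, mul_one, mul_zero, sub_zero, zero_mul,
      zero_sub, sub_self] at this
    rw [h.H23 0 0 1 2]
    have e2 : H 1 0 0 2 = H 1 2 0 0 := by rw [h.H34, h.H23]
    linarith
  have r1 : H 1 0 1 2 = H 0 2 1 1 := by
    have := h.ric 1 0 1 2
    simp only [dl_eq, pdl01, pdl02, pdl10, pdl12, pdl20, pdl21, mul_one, mul_zero, sub_zero, zero_mul,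
      zero_sub, sub_self] at this
    have e2 : H 0 1 1 2 = H 0 2 1 1 := by rw [h.H34, h.H23]
    linarith
  have r2 : H 2 0 1 2 = H 0 1 2 2 := by
    have := h.ric 2 0 1 2
    simp only [dl_eq, pdl01, pdl02, pdl10, pdl12, pdl20, pdl21, mul_one, mul_zero, sub_zero, zero_mul,
      zero_sub, sub_self] at this
    have e2 : H 0 2 1 2 = H 0 1 2 2 := by rw [h.H23]
    linarith
  refine ⟨t, X, ht, hX, hXs, ?_, ?_, ?_, ?_, ?_, ?_⟩
  · rw [r0, hX]
  · rw [r1, hX]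
  · rw [r2, hX]
  · have := h.ric 0 1 0 1
    simp only [dl_eq, pdl01, pdl02, pdl10, pdl12, pdl20, pdl21, mul_one, mul_zero, sub_zero, zero_mul,
      zero_sub, sub_self] at this
    rw [h.H23 0 1 0 1, h.H34 1 0 0 1, h.H23 1 0 1 0] at this
    have h1 := hX 0 0 1
    have h2 := hX 1 1 0
    linear_combination s * this - h1 + h2
  · have := h.ric 0 2 0 2
    simp only [dl_eq, pdl01, pdl02, pdl10, pdl12, pdl20, pdl21, mul_one, mul_zero, sub_zero, zero_mul,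
      zero_sub, sub_self] at this
    rw [h.H23 0 2 0 2, h.H34 2 0 0 2, h.H23 2 0 2 0] at this
    have h1 := hX 0 0 2
    have h2 := hX 2 2 0
    linear_combination s * this - h1 + h2
  · have := h.ric 1 2 1 2
    simp only [dl_eq, pdl01, pdl02, pdl10, pdl12, pdl20, pdl21, mul_one, mul_zero, sub_zero, zero_mul,
      zero_sub, sub_self] at this
    rw [h.H23 1 2 1 2, h.H34 2 1 1 2, h.H23 2 1 2 1] at this
    have h1 := hX 1 1 2
    have h2 := hX 2 2 1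
    linear_combination s * this - h1 + h2

end Pt

end Bry
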