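import Pool.Agent.Lib.MP_2b07f9_gt.Frame

set_option autoImplicit false
open Finset
namespace Bry
namespace Frame

variable {R : Type*} [CommRing R] [Algebra ℝ R] (F : Frame R)

theorem T_swap12 (k i j : Fin 3) : F.T k i j = F.T i k j := F.cod k i j

theorem T_swap23 (k i j : Fin 3) : F.T k i j = F.T k j i := by
  unfold T
  have h1 : ∑ m, F.Γ k i m * F.A m j = ∑ m, F.Γ k i m * F.A j m :=
    sum_congr rfl (fun m _ => by rw [F.symm m j])
  have h2 : ∑ m, F.Γ k j m * F.A i m = ∑ m, F.Γ k j m * F.A m i :=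
    sum_congr rfl (fun m _ => by rw [F.symm m i])
  rw [h1, h2, F.symm i j]
  ring

theorem H_swap23 (l k i j : Fin 3) : F.H l k i j = F.H l i k j := by
  unfold H
  have h1 : ∑ m, F.Γ l k m * F.T m i j = ∑ m, F.Γ l k m * F.T i m j :=
    sum_congr rfl (fun m _ => by rw [F.T_swap12 m i j])
  have h2 : ∑ m, F.Γ l i m * F.T k m j = ∑ m, F.Γ l i m * F.T m k j :=
    sum_congr rfl (fun m _ => by rw [F.T_swap12 k m j])
  have h3 : ∑ m, F.Γ l j m * F.T k i m = ∑ m, F.Γ l j m * F.T i k m :=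
    sum_congr rfl (fun m _ => by rw [F.T_swap12 k i m])
  rw [h1, h2, h3, F.T_swap12 k i j]
  ring

theorem H_swap34 (l k i j : Fin 3) : F.H l k i j = F.H l k j i := by
  unfold H
  have h1 : ∑ m, F.Γ l k m * F.T m i j = ∑ m, F.Γ l k m * F.T m j i :=
    sum_congr rfl (fun m _ => by rw [F.T_swap23 m i j])
  have h2 : ∑ m, F.Γ l i m * F.T k m j = ∑ m, F.Γ l i m * F.T k j m :=
    sum_congr rfl (fun m _ => by rw [F.T_swap23 k m j])
  have h3 : ∑ m, F.Γ l j m * F.T k i m = ∑ m, F.Γ l j m * F.T k m i :=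
    sum_congr rfl (fun m _ => by rw [F.T_swap23 k i m])
  rw [h1, h2, h3, F.T_swap23 k i j]
  ring

theorem X_swap34 (m l k i j : Fin 3) : F.X m l k i j = F.X m l i k j := by
  unfold X
  have h0 : ∑ p, F.Γ m l p * F.H p k i j = ∑ p, F.Γ m l p * F.H p i k j :=
    sum_congr rfl (fun p _ => by rw [F.H_swap23 p k i j])
  have h1 : ∑ p, F.Γ m k p * F.H l p i j = ∑ p, F.Γ m k p * F.H l i p j :=
    sum_congr rfl (fun p _ => by rw [F.H_swap23 l p i j])
  have h2 : ∑ p, F.Γ m i p * F.H l k p j = ∑ p, F.Γ m i p * F.H l p k j :=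
    sum_congr rfl (fun p _ => by rw [F.H_swap23 l k p j])
  have h3 : ∑ p, F.Γ m j p * F.H l k i p = ∑ p, F.Γ m j p * F.H l i k p :=
    sum_congr rfl (fun p _ => by rw [F.H_swap23 l k i p])
  rw [h0, h1, h2, h3, F.H_swap23 l k i j]
  ring

theorem X_swap45 (m l k i j : Fin 3) : F.X m l k i j = F.X m l k j i := by
  unfold X
  have h0 : ∑ p, F.Γ m l p * F.H p k i j = ∑ p, F.Γ m l p * F.H p k j i :=
    sum_congr rfl (fun p _ => by rw [F.H_swap34 p k i j])
  have h1 : ∑ p, F.Γ m k p * F.H l p i j = ∑ p, F.Γ m k p * F.H l p j i :=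
    sum_congr rfl (fun p _ => by rw [F.H_swap34 l p i j])
  have h2 : ∑ p, F.Γ m i p * F.H l k p j = ∑ p, F.Γ m i p * F.H l k j p :=
    sum_congr rfl (fun p _ => by rw [F.H_swap34 l k p j])
  have h3 : ∑ p, F.Γ m j p * F.H l k i p = ∑ p, F.Γ m j p * F.H l k p i :=
    sum_congr rfl (fun p _ => by rw [F.H_swap34 l k i p])
  rw [h0, h1, h2, h3, F.H_swap34 l k i j]
  ring

set_option maxHeartbeats 4000000 in
theorem ricciA (l k i j : Fin 3) : F.H l k i j - F.H k l i j = F.rho l k i j := by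
  have ht := F.tors l k (F.A i j)
  have g1 := fun m => F.gauss l k i m
  have g2 := fun m => F.gauss l k j m
  simp only [Fin.sum_univ_three] at ht g1 g2
  have g10 := g1 0
  have g11 := g1 1
  have g12 := g1 2
  have g20 := g2 0
  have g21 := g2 1
  have g22 := g2 2
  simp only [H, T, rho, Rm, map_sub, map_add, Derivation.leibniz, smul_eq_mul, Fin.sum_univ_three]
  linear_combination ht - (F.A 0 j * g10 + F.A 1 j * g11 + F.A 2 j * g12)
    - (F.A i 0 * g20 + F.A i 1 * g21 + F.A i 2 * g22)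

set_option maxHeartbeats 4000000 in
theorem ricciT (m l k i j : Fin 3) : F.X m l k i j - F.X l m k i j = F.sig m l k i j := by
  have ht := F.tors m l (F.T k i j)
  have g1 := fun n => F.gauss m l k n
  have g2 := fun n => F.gauss m l i n
  have g3 := fun n => F.gauss m l j n
  simp only [Fin.sum_univ_three] at ht g1 g2 g3
  have g10 := g1 0
  have g11 := g1 1
  have g12 := g1 2
  have g20 := g2 0
  have g21 := g2 1
  have g22 := g2 2
  have g30 := g3 0
  have g31 := g3 1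
  have g32 := g3 2
  simp only [X, H, sig, Rm, map_sub, map_add, Derivation.leibniz, smul_eq_mul, Fin.sum_univ_three]
  linear_combination ht - (F.T 0 i j * g10 + F.T 1 i j * g11 + F.T 2 i j * g12)
    - (F.T k 0 j * g20 + F.T k 1 j * g21 + F.T k 2 j * g22)
    - (F.T k i 0 * g30 + F.T k i 1 * g31 + F.T k i 2 * g32)

omit [Algebra ℝ R] in
theorem dl_symm (i j : Fin 3) : (dl i j : R) = dl j i := by
  unfold dl
  by_cases h : i = j
  · subst h; rfl
  · rw [if_neg h, if_neg (fun h' => h h'.symm)]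

theorem D_dl (d : Derivation ℝ R R) (i j : Fin 3) : d (dl i j : R) = 0 := by
  unfold dl
  split_ifs <;> simp

omit [Algebra ℝ R] in
theorem sum_dl (g : Fin 3 → R) (i : Fin 3) : g 0 * dl 0 i + g 1 * dl 1 i + g 2 * dl 2 i = g i := by
  fin_cases i <;> simp [dl]

theorem anti_add (i j k : Fin 3) : F.Γ i j k + F.Γ i k j = 0 := by
  rw [F.anti i j k]; ring

set_option maxHeartbeats 4000000 in
theorem nabla_Rm (n i j k l : Fin 3) :
    F.D n (F.Rm i j k l) - ∑ p, F.Γ n i p * F.Rm p j k l - ∑ p, F.Γ n j p * F.Rm i p k l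
      - ∑ p, F.Γ n k p * F.Rm i j p l - ∑ p, F.Γ n l p * F.Rm i j k p = F.dRm n i j k l := by
  have s1 : ∀ a b, F.Γ n a 0 * dl 0 b + F.Γ n a 1 * dl 1 b + F.Γ n a 2 * dl 2 b = F.Γ n a b :=
    fun a b => sum_dl (fun p => F.Γ n a p) b
  have s2 : ∀ a b, F.Γ n a 0 * dl b 0 + F.Γ n a 1 * dl b 1 + F.Γ n a 2 * dl b 2 = F.Γ n a b := by
    intro a b
    have := sum_dl (fun p => F.Γ n a p) b
    rw [dl_symm b 0, dl_symm b 1, dl_symm b 2]
    exact this
  simp only [Rm, dRm, T, map_sub, map_add, Derivation.leibniz, smul_eq_mul, Fin.sum_univ_three,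
    D_dl]
  linear_combination - (s1 i k * dl j l - s1 i l * dl j k + s1 j l * dl i k - s1 j k * dl i l
    + s2 k i * dl j l - s2 k j * dl i l + s2 l j * dl i k - s2 l i * dl j k)
    - (F.anti_add n i k) * dl j l + (F.anti_add n i l) * dl j k - (F.anti_add n j l) * dl i k
    + (F.anti_add n j k) * dl i l

set_option maxHeartbeats 4000000 in
theorem nabla_rho (n l k i j : Fin 3) :
    F.D n (F.rho l k i j) - ∑ p, F.Γ n l p * F.rho p k i j - ∑ p, F.Γ n k p * F.rho l p i j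
      - ∑ p, F.Γ n i p * F.rho l k p j - ∑ p, F.Γ n j p * F.rho l k i p = F.drho n l k i j := by
  have hR := fun m => F.nabla_Rm n l k i m
  have hR' := fun m => F.nabla_Rm n l k j m
  have hT : ∀ a b, F.T n a b = F.D n (F.A a b) - ∑ m, F.Γ n a m * F.A m b
      - ∑ m, F.Γ n b m * F.A a m := fun a b => rfl
  simp only [Fin.sum_univ_three] at hR hR' hT
  have hR0 := hR 0
  have hR1 := hR 1
  have hR2 := hR 2
  have hR0' := hR' 0
  have hR1' := hR' 1
  have hR2' := hR' 2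
  have a := fun x y => F.anti_add n x y
  simp only [rho, drho, map_add, Derivation.leibniz, smul_eq_mul, Fin.sum_univ_three]
  rw [hT 0 j, hT 1 j, hT 2 j, hT i 0, hT i 1, hT i 2]
  linear_combination F.A 0 j * hR0 + F.A 1 j * hR1 + F.A 2 j * hR2
    + F.A i 0 * hR0' + F.A i 1 * hR1' + F.A i 2 * hR2'
    + (a 0 0 * F.Rm l k i 0 * F.A 0 j + a 1 1 * F.Rm l k i 1 * F.A 1 j
      + a 2 2 * F.Rm l k i 2 * F.A 2 j
      + a 0 1 * (F.Rm l k i 1 * F.A 0 j + F.Rm l k i 0 * F.A 1 j)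
      + a 0 2 * (F.Rm l k i 2 * F.A 0 j + F.Rm l k i 0 * F.A 2 j)
      + a 1 2 * (F.Rm l k i 2 * F.A 1 j + F.Rm l k i 1 * F.A 2 j))
    + (a 0 0 * F.Rm l k j 0 * F.A i 0 + a 1 1 * F.Rm l k j 1 * F.A i 1
      + a 2 2 * F.Rm l k j 2 * F.A i 2
      + a 0 1 * (F.Rm l k j 1 * F.A i 0 + F.Rm l k j 0 * F.A i 1)
      + a 0 2 * (F.Rm l k j 2 * F.A i 0 + F.Rm l k j 0 * F.A i 2)
      + a 1 2 * (F.Rm l k j 2 * F.A i 1 + F.Rm l k j 1 * F.A i 2))

theorem d_ricciA (n l k i j : Fin 3) : F.X n l k i j - F.X n k l i j = F.drho n l k i j := by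
  have h := congrArg (F.D n) (F.ricciA l k i j)
  rw [map_sub] at h
  have hr := F.nabla_rho n l k i j
  have r := fun a b c d => F.ricciA a b c d
  simp only [Fin.sum_univ_three] at hr
  simp only [X, Fin.sum_univ_three]
  linear_combination h + hr
    - (F.Γ n l 0 * r 0 k i j + F.Γ n l 1 * r 1 k i j + F.Γ n l 2 * r 2 k i j)
    - (F.Γ n k 0 * r l 0 i j + F.Γ n k 1 * r l 1 i j + F.Γ n k 2 * r l 2 i j)
    - (F.Γ n i 0 * r l k 0 j + F.Γ n i 1 * r l k 1 j + F.Γ n i 2 * r l k 2 j)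
    - (F.Γ n j 0 * r l k i 0 + F.Γ n j 1 * r l k i 1 + F.Γ n j 2 * r l k i 2)

theorem two_cancel {x : R} (h : 2 * x = 0) : x = 0 := by
  have h1 : algebraMap ℝ R (1 / 2) * (2 * x) = 0 := by rw [h, mul_zero]
  have h3 : (2 : R) = algebraMap ℝ R 2 := (map_ofNat (algebraMap ℝ R) 2).symm
  have h2 : algebraMap ℝ R (1 / 2) * (2 : R) = 1 := by
    rw [h3, ← map_mul]
    norm_num
  rw [← mul_assoc, h2, one_mul] at h1
  exact h1

/-- covariant derivative of a rank two array -/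
def nab2 (d : Derivation ℝ R R) (g : Fin 3 → Fin 3 → R) (S : Fin 3 → Fin 3 → R)
    (i j : Fin 3) : R :=
  d (S i j) - ∑ m, g i m * S m j - ∑ m, g j m * S i m

/-- covariant derivative of a rank three array -/
def nab3 (d : Derivation ℝ R R) (g : Fin 3 → Fin 3 → R) (S : Fin 3 → Fin 3 → Fin 3 → R)
    (k i j : Fin 3) : R :=
  d (S k i j) - ∑ m, g k m * S m i j - ∑ m, g i m * S k m j - ∑ m, g j m * S k i m

omit [Algebra ℝ R] in
theorem contr1 (g : Fin 3 → Fin 3 → R) (hg : ∀ i j, g i j + g j i = 0) (P Q : Fin 3 → R) :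
    ∑ k, ((∑ p, g k p * P p) * Q k + P k * ∑ p, g k p * Q p) = 0 := by
  simp only [Fin.sum_univ_three]
  linear_combination hg 0 0 * (P 0 * Q 0) + hg 1 1 * (P 1 * Q 1) + hg 2 2 * (P 2 * Q 2)
    + hg 0 1 * (P 0 * Q 1 + P 1 * Q 0) + hg 0 2 * (P 0 * Q 2 + P 2 * Q 0)
    + hg 1 2 * (P 1 * Q 2 + P 2 * Q 1)

omit [Algebra ℝ R] in
theorem contr0 (g : Fin 3 → Fin 3 → R) (hg : ∀ i j, g i j + g j i = 0)
    (P : Fin 3 → Fin 3 → R) :
    ∑ k, ((∑ p, g k p * P p k) + ∑ p, g k p * P k p) = 0 := by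
  simp only [Fin.sum_univ_three]
  linear_combination hg 0 0 * (P 0 0) + hg 1 1 * (P 1 1) + hg 2 2 * (P 2 2)
    + hg 0 1 * (P 0 1 + P 1 0) + hg 0 2 * (P 0 2 + P 2 0)
    + hg 1 2 * (P 1 2 + P 2 1)

theorem nab2_contr (d : Derivation ℝ R R) (g : Fin 3 → Fin 3 → R)
    (hg : ∀ i j, g i j + g j i = 0) (S S' : Fin 3 → Fin 3 → R) :
    ∑ i, ∑ j, (nab2 d g S i j * S' i j + S i j * nab2 d g S' i j)
      = d (∑ i, ∑ j, S i j * S' i j) := by
  have e1 : ∑ i, ∑ j, ((∑ m, g i m * S m j) * S' i j + S i j * ∑ m, g i m * S' m j) = 0 := by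
    rw [sum_comm]
    exact sum_eq_zero (fun j _ => contr1 g hg (fun k => S k j) (fun k => S' k j))
  have e2 : ∑ i, ∑ j, ((∑ m, g j m * S i m) * S' i j + S i j * ∑ m, g j m * S' i m) = 0 :=
    sum_eq_zero (fun i _ => contr1 g hg (fun k => S i k) (fun k => S' i k))
  have e : ∑ i, ∑ j, (nab2 d g S i j * S' i j + S i j * nab2 d g S' i j)
      = d (∑ i, ∑ j, S i j * S' i j)
      - (∑ i, ∑ j, ((∑ m, g i m * S m j) * S' i j + S i j * ∑ m, g i m * S' m j))
      - (∑ i, ∑ j, ((∑ m, g j m * S i m) * S' i j + S i j * ∑ m, g j m * S' i m)) := by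
    simp only [map_sum, ← sum_sub_distrib, Derivation.leibniz, smul_eq_mul, nab2]
    refine sum_congr rfl (fun i _ => sum_congr rfl (fun j _ => ?_))
    ring
  rw [e, e1, e2]
  ring

theorem nab3_contr (d : Derivation ℝ R R) (g : Fin 3 → Fin 3 → R)
    (hg : ∀ i j, g i j + g j i = 0) (S S' : Fin 3 → Fin 3 → Fin 3 → R) :
    ∑ k, ∑ i, ∑ j, (nab3 d g S k i j * S' k i j + S k i j * nab3 d g S' k i j)
      = d (∑ k, ∑ i, ∑ j, S k i j * S' k i j) := by
  have e0 : ∑ k, ∑ i, ∑ j, ((∑ m, g k m * S m i j) * S' k i j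
      + S k i j * ∑ m, g k m * S' m i j) = 0 := by
    rw [sum_comm]
    refine sum_eq_zero (fun i _ => ?_)
    rw [sum_comm]
    exact sum_eq_zero (fun j _ => contr1 g hg (fun k => S k i j) (fun k => S' k i j))
  have e1 : ∑ k, ∑ i, ∑ j, ((∑ m, g i m * S k m j) * S' k i j
      + S k i j * ∑ m, g i m * S' k m j) = 0 := by
    refine sum_eq_zero (fun k _ => ?_)
    rw [sum_comm]
    exact sum_eq_zero (fun j _ => contr1 g hg (fun i => S k i j) (fun i => S' k i j))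
  have e2 : ∑ k, ∑ i, ∑ j, ((∑ m, g j m * S k i m) * S' k i j
      + S k i j * ∑ m, g j m * S' k i m) = 0 := by
    refine sum_eq_zero (fun k _ => ?_)
    exact sum_eq_zero (fun i _ => contr1 g hg (fun j => S k i j) (fun j => S' k i j))
  have e : ∑ k, ∑ i, ∑ j, (nab3 d g S k i j * S' k i j + S k i j * nab3 d g S' k i j)
      = d (∑ k, ∑ i, ∑ j, S k i j * S' k i j)
      - (∑ k, ∑ i, ∑ j, ((∑ m, g k m * S m i j) * S' k i j + S k i j * ∑ m, g k m * S' m i j))
      - (∑ k, ∑ i, ∑ j, ((∑ m, g i m * S k m j) * S' k i j + S k i j * ∑ m, g i m * S' k m j))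
      - (∑ k, ∑ i, ∑ j, ((∑ m, g j m * S k i m) * S' k i j
          + S k i j * ∑ m, g j m * S' k i m)) := by
    simp only [map_sum, ← sum_sub_distrib, Derivation.leibniz, smul_eq_mul, nab3]
    refine sum_congr rfl (fun k _ => sum_congr rfl (fun i _ => sum_congr rfl (fun j _ => ?_)))
    ring
  rw [e, e0, e1, e2]
  ring

theorem T_eq (k i j : Fin 3) : F.T k i j = nab2 (F.D k) (F.Γ k) F.A i j := rfl

theorem H_eq (l k i j : Fin 3) : F.H l k i j = nab3 (F.D l) (F.Γ l) F.T k i j := rfl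

theorem H_eq' (l k i j : Fin 3) :
    F.H l k i j = nab2 (F.D l) (F.Γ l) (F.T k) i j - ∑ m, F.Γ l k m * F.T m i j := by
  unfold H nab2; ring

theorem X_eq (n l k i j : Fin 3) :
    F.X n l k i j = nab3 (F.D n) (F.Γ n) (F.H l) k i j - ∑ m, F.Γ n l m * F.H m k i j := by
  unfold X nab3; ring

theorem X_eq' (n l k i j : Fin 3) :
    F.X n l k i j = nab2 (F.D n) (F.Γ n) (F.H l k) i j - ∑ m, F.Γ n l m * F.H m k i j
      - ∑ m, F.Γ n k m * F.H l m i j := by
  unfold X nab2; ring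

theorem trT (k : Fin 3) : ∑ i, F.T k i i = 0 := by
  have h := congrArg (F.D k) F.tr
  rw [map_sum, map_zero] at h
  have e : ∑ i, F.T k i i = ∑ i, F.D k (F.A i i)
      - ∑ i, ((∑ m, F.Γ k i m * F.A m i) + ∑ m, F.Γ k i m * F.A i m) := by
    rw [← sum_sub_distrib]
    refine sum_congr rfl (fun i _ => ?_)
    unfold T; ring
  rw [e, h, contr0 _ (F.anti_add k) F.A, sub_zero]

theorem trH (l k : Fin 3) : ∑ i, F.H l k i i = 0 := by
  have h := congrArg (F.D l) (F.trT k)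
  rw [map_sum, map_zero] at h
  have e : ∑ i, F.H l k i i = ∑ i, F.D l (F.T k i i)
      - ∑ i, ((∑ m, F.Γ l i m * F.T k m i) + ∑ m, F.Γ l i m * F.T k i m)
      - ∑ m, F.Γ l k m * ∑ i, F.T m i i := by
    have : ∑ m, F.Γ l k m * ∑ i, F.T m i i = ∑ i, ∑ m, F.Γ l k m * F.T m i i := by
      rw [sum_comm]
      exact sum_congr rfl (fun m _ => mul_sum _ _ _)
    rw [this, ← sum_sub_distrib, ← sum_sub_distrib]
    refine sum_congr rfl (fun i _ => ?_)
    unfold H; ring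
  rw [e, h, contr0 _ (F.anti_add l) (F.T k)]
  simp [F.trT]

theorem AT (k : Fin 3) : ∑ i, ∑ j, F.A i j * F.T k i j = 0 := by
  apply two_cancel
  have h := nab2_contr (F.D k) (F.Γ k) (F.anti_add k) F.A F.A
  rw [F.nrm, Derivation.map_algebraMap] at h
  rw [← h, mul_sum]
  refine sum_congr rfl (fun i _ => ?_)
  rw [mul_sum]
  refine sum_congr rfl (fun j _ => ?_)
  rw [← F.T_eq k i j]; ring

theorem AH (l k : Fin 3) : ∑ i, ∑ j, (F.A i j * F.H l k i j + F.T l i j * F.T k i j) = 0 := by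
  have h := nab2_contr (F.D l) (F.Γ l) (F.anti_add l) F.A (F.T k)
  rw [F.AT k, map_zero] at h
  have e : ∑ i, ∑ j, (F.A i j * F.H l k i j + F.T l i j * F.T k i j)
      = ∑ i, ∑ j, (nab2 (F.D l) (F.Γ l) F.A i j * F.T k i j
          + F.A i j * nab2 (F.D l) (F.Γ l) (F.T k) i j)
        - ∑ m, F.Γ l k m * ∑ i, ∑ j, F.A i j * F.T m i j := by
    have : ∑ m, F.Γ l k m * ∑ i, ∑ j, F.A i j * F.T m i j
        = ∑ i, ∑ j, F.A i j * ∑ m, F.Γ l k m * F.T m i j := by
      simp only [mul_sum]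
      rw [sum_comm]
      refine sum_congr rfl (fun i _ => ?_)
      rw [sum_comm]
      refine sum_congr rfl (fun j _ => sum_congr rfl (fun m _ => ?_))
      ring
    rw [this, ← sum_sub_distrib]
    refine sum_congr rfl (fun i _ => ?_)
    rw [← sum_sub_distrib]
    refine sum_congr rfl (fun j _ => ?_)
    rw [F.H_eq' l k i j, ← F.T_eq l i j]; ring
  rw [e, h]
  simp [F.AT]

theorem AX (m l k : Fin 3) : ∑ i, ∑ j, (F.A i j * F.X m l k i j + F.T m i j * F.H l k i j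
      + F.H m l i j * F.T k i j + F.T l i j * F.H m k i j) = 0 := by
  have h1 := nab2_contr (F.D m) (F.Γ m) (F.anti_add m) F.A (F.H l k)
  have h2 := nab2_contr (F.D m) (F.Γ m) (F.anti_add m) (F.T l) (F.T k)
  have h3 : F.D m (∑ i, ∑ j, F.A i j * F.H l k i j) + F.D m (∑ i, ∑ j, F.T l i j * F.T k i j)
      = 0 := by
    have := congrArg (F.D m) (F.AH l k)
    rw [map_zero] at this
    rw [← this, ← map_add, ← sum_add_distrib]
    congr 1
    exact sum_congr rfl (fun i _ => by rw [← sum_add_distrib])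
  rw [← h1, ← h2] at h3
  have e1 : ∑ p, F.Γ m l p * ∑ i, ∑ j, (F.A i j * F.H p k i j + F.T p i j * F.T k i j)
      = ∑ i, ∑ j, (F.A i j * ∑ p, F.Γ m l p * F.H p k i j
          + (∑ p, F.Γ m l p * F.T p i j) * F.T k i j) := by
    simp only [mul_sum, sum_mul]
    rw [sum_comm]
    refine sum_congr rfl (fun i _ => ?_)
    rw [sum_comm]
    refine sum_congr rfl (fun j _ => ?_)
    rw [← sum_add_distrib]
    refine sum_congr rfl (fun p _ => ?_)
    ring
  have e2 : ∑ p, F.Γ m k p * ∑ i, ∑ j, (F.A i j * F.H l p i j + F.T l i j * F.T p i j)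
      = ∑ i, ∑ j, (F.A i j * ∑ p, F.Γ m k p * F.H l p i j
          + F.T l i j * ∑ p, F.Γ m k p * F.T p i j) := by
    simp only [mul_sum]
    rw [sum_comm]
    refine sum_congr rfl (fun i _ => ?_)
    rw [sum_comm]
    refine sum_congr rfl (fun j _ => ?_)
    rw [← sum_add_distrib]
    refine sum_congr rfl (fun p _ => ?_)
    ring
  have z1 : ∑ p, F.Γ m l p * ∑ i, ∑ j, (F.A i j * F.H p k i j + F.T p i j * F.T k i j) = 0 :=
    sum_eq_zero (fun p _ => by rw [F.AH p k, mul_zero])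
  have z2 : ∑ p, F.Γ m k p * ∑ i, ∑ j, (F.A i j * F.H l p i j + F.T l i j * F.T p i j) = 0 :=
    sum_eq_zero (fun p _ => by rw [F.AH l p, mul_zero])
  have e : ∑ i, ∑ j, (F.A i j * F.X m l k i j + F.T m i j * F.H l k i j
      + F.H m l i j * F.T k i j + F.T l i j * F.H m k i j)
      = (∑ i, ∑ j, (nab2 (F.D m) (F.Γ m) F.A i j * F.H l k i j
          + F.A i j * nab2 (F.D m) (F.Γ m) (F.H l k) i j))
        + (∑ i, ∑ j, (nab2 (F.D m) (F.Γ m) (F.T l) i j * F.T k i j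
          + F.T l i j * nab2 (F.D m) (F.Γ m) (F.T k) i j))
        - (∑ i, ∑ j, (F.A i j * ∑ p, F.Γ m l p * F.H p k i j
          + (∑ p, F.Γ m l p * F.T p i j) * F.T k i j))
        - (∑ i, ∑ j, (F.A i j * ∑ p, F.Γ m k p * F.H l p i j
          + F.T l i j * ∑ p, F.Γ m k p * F.T p i j)) := by
    simp only [← sum_sub_distrib, ← sum_add_distrib]
    refine sum_congr rfl (fun i _ => sum_congr rfl (fun j _ => ?_))
    rw [F.X_eq' m l k i j, F.H_eq' m l i j, F.H_eq' m k i j, ← F.T_eq m i j]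
    ring
  rw [e, h3, ← e1, ← e2, z1, z2]
  ring

/-- derivative of `|T|²`. -/
theorem D_normT (l : Fin 3) :
    F.D l (∑ k, ∑ i, ∑ j, F.T k i j * F.T k i j) = 2 * ∑ k, ∑ i, ∑ j, F.T k i j * F.H l k i j := by
  rw [← nab3_contr (F.D l) (F.Γ l) (F.anti_add l) F.T F.T]
  simp only [mul_sum]
  refine sum_congr rfl (fun k _ => sum_congr rfl (fun i _ => sum_congr rfl (fun j _ => ?_)))
  rw [← F.H_eq l k i j]
  ring

omit [Algebra ℝ R] in
theorem dl00 : (dl 0 0 : R) = 1 := rfl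
omit [Algebra ℝ R] in
theorem dl11 : (dl 1 1 : R) = 1 := rfl
omit [Algebra ℝ R] in
theorem dl22 : (dl 2 2 : R) = 1 := rfl
omit [Algebra ℝ R] in
theorem dl01 : (dl 0 1 : R) = 0 := rfl
omit [Algebra ℝ R] in
theorem dl02 : (dl 0 2 : R) = 0 := rfl
omit [Algebra ℝ R] in
theorem dl10 : (dl 1 0 : R) = 0 := rfl
omit [Algebra ℝ R] in
theorem dl12 : (dl 1 2 : R) = 0 := rfl
omit [Algebra ℝ R] in
theorem dl20 : (dl 2 0 : R) = 0 := rfl
omit [Algebra ℝ R] in
theorem dl21 : (dl 2 1 : R) = 0 := rfl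

/-- `∑ₗ rho l i l j = (3 - s) A i j` -/
theorem rho_tr (i j : Fin 3) :
    ∑ l, F.rho l i l j = algebraMap ℝ R (3 - F.s) * F.A i j := by
  have ht := F.tr
  have hn := F.nrm
  rw [map_sub]
  have h3 : (algebraMap ℝ R) 3 = 3 := map_ofNat (algebraMap ℝ R) 3
  rw [h3]
  simp only [Fin.sum_univ_three] at ht hn
  have c : ((F.A i 0 * F.A 0 j + F.A i 1 * F.A 1 j + F.A i 2 * F.A 2 j) - dl i j) *
    (F.A 0 0 + F.A 1 1 + F.A 2 2) = 0 := by rw [ht, mul_zero]
  simp only [rho, Rm, Fin.sum_univ_three]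
  rw [← hn]
  revert c
  have s10 := F.symm 1 0
  have s20 := F.symm 2 0
  have s21 := F.symm 2 1
  fin_cases i <;> fin_cases j <;>
  simp only [Fin.zero_eta, Fin.mk_one, Fin.reduceFinMk, dl00, dl11, dl22, dl01, dl02, dl10, dl12,
    dl20, dl21, s10, s20, s21] <;> intro c <;> linear_combination c

/-- Simons' identity `ΔA = (3 - s) A`. -/
theorem simons (i j : Fin 3) : ∑ l, F.H l l i j = algebraMap ℝ R (3 - F.s) * F.A i j := by
  have e : ∀ l, F.H l l i j = F.H i j l l + F.rho l i l j := by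
    intro l
    rw [← F.ricciA l i l j, F.H_swap23 l l i j, F.H_swap34 i l l j, F.H_swap23 i l j l]
    ring
  rw [sum_congr rfl (fun l _ => e l), sum_add_distrib, F.trH, F.rho_tr]
  ring

theorem C1 : ∑ k, ∑ i, ∑ j, F.T k i j * F.T k i j = algebraMap ℝ R (F.s * (F.s - 3)) := by
  have h : ∑ l, ∑ i, ∑ j, (F.A i j * F.H l l i j + F.T l i j * F.T l i j) = 0 :=
    sum_eq_zero (fun l _ => F.AH l l)
  have e : ∑ l, ∑ i, ∑ j, (F.A i j * F.H l l i j + F.T l i j * F.T l i j)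
      = ∑ i, ∑ j, F.A i j * ∑ l, F.H l l i j + ∑ k, ∑ i, ∑ j, F.T k i j * F.T k i j := by
    have : ∑ i, ∑ j, F.A i j * ∑ l, F.H l l i j = ∑ l, ∑ i, ∑ j, F.A i j * F.H l l i j := by
      simp only [mul_sum]
      symm
      rw [sum_comm]
      refine sum_congr rfl (fun i _ => ?_)
      rw [sum_comm]
    rw [this]
    simp only [← sum_add_distrib]
  have e2 : ∑ i, ∑ j, F.A i j * ∑ l, F.H l l i j
      = algebraMap ℝ R (3 - F.s) * ∑ i, ∑ j, F.A i j * F.A i j := by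
    simp only [mul_sum]
    refine sum_congr rfl (fun i _ => sum_congr rfl (fun j _ => ?_))
    rw [← mul_sum, F.simons]; ring
  rw [e, e2, F.nrm, ← map_mul] at h
  have e3 : algebraMap ℝ R (F.s * (F.s - 3)) = - algebraMap ℝ R ((3 - F.s) * F.s) := by
    rw [← map_neg]; congr 1; ring
  rw [e3]
  linear_combination h

theorem M (l : Fin 3) : ∑ k, ∑ i, ∑ j, F.T k i j * F.H l k i j = 0 := by
  apply two_cancel
  rw [← F.D_normT l, F.C1, Derivation.map_algebraMap]

/-- derivative of `M`. -/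
theorem dM (m l : Fin 3) :
    ∑ k, ∑ i, ∑ j, (F.H m k i j * F.H l k i j + F.T k i j * F.X m l k i j) = 0 := by
  have h := nab3_contr (F.D m) (F.Γ m) (F.anti_add m) F.T (F.H l)
  rw [F.M l, map_zero] at h
  have e1 : ∑ p, F.Γ m l p * ∑ k, ∑ i, ∑ j, F.T k i j * F.H p k i j
      = ∑ k, ∑ i, ∑ j, F.T k i j * ∑ p, F.Γ m l p * F.H p k i j := by
    simp only [mul_sum]
    rw [sum_comm]
    refine sum_congr rfl (fun k _ => ?_)
    rw [sum_comm]
    refine sum_congr rfl (fun i _ => ?_)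
    rw [sum_comm]
    refine sum_congr rfl (fun j _ => sum_congr rfl (fun p _ => ?_))
    ring
  have e : ∑ k, ∑ i, ∑ j, (F.H m k i j * F.H l k i j + F.T k i j * F.X m l k i j)
      = ∑ k, ∑ i, ∑ j, (nab3 (F.D m) (F.Γ m) F.T k i j * F.H l k i j
          + F.T k i j * nab3 (F.D m) (F.Γ m) (F.H l) k i j)
        - ∑ k, ∑ i, ∑ j, F.T k i j * ∑ p, F.Γ m l p * F.H p k i j := by
    simp only [← sum_sub_distrib]
    refine sum_congr rfl (fun k _ => sum_congr rfl (fun i _ => sum_congr rfl (fun j _ => ?_)))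
    rw [F.X_eq m l k i j, ← F.H_eq m k i j]
    ring
  rw [e, h, ← e1]
  simp [F.M]

/-- derivative of Simons' identity. -/
theorem d_simons (k i j : Fin 3) :
    ∑ l, F.X k l l i j = algebraMap ℝ R (3 - F.s) * F.T k i j := by
  have h := congrArg (F.D k) (F.simons i j)
  rw [map_sum, Derivation.leibniz, Derivation.map_algebraMap, smul_zero, add_zero,
    smul_eq_mul] at h
  have e : ∑ l, F.X k l l i j = ∑ l, F.D k (F.H l l i j)
      - ∑ l, ((∑ m, F.Γ k l m * F.H m l i j) + ∑ m, F.Γ k l m * F.H l m i j)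
      - ∑ m, F.Γ k i m * ∑ l, F.H l l m j - ∑ m, F.Γ k j m * ∑ l, F.H l l i m := by
    have t1 : ∑ m, F.Γ k i m * ∑ l, F.H l l m j = ∑ l, ∑ m, F.Γ k i m * F.H l l m j := by
      simp only [mul_sum]
      rw [sum_comm]
    have t2 : ∑ m, F.Γ k j m * ∑ l, F.H l l i m = ∑ l, ∑ m, F.Γ k j m * F.H l l i m := by
      simp only [mul_sum]
      rw [sum_comm]
    rw [t1, t2]
    simp only [← sum_sub_distrib]
    refine sum_congr rfl (fun l _ => ?_)
    unfold X; ring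
  rw [e, h, contr0 _ (F.anti_add k) (fun a b => F.H a b i j)]
  simp only [F.simons]
  unfold T
  rw [mul_sub, mul_sub, mul_sum, mul_sum, sub_zero]
  congr 1
  · congr 1
    exact sum_congr rfl (fun m _ => by ring)
  · exact sum_congr rfl (fun m _ => by ring)

theorem K1 : ∑ l, ∑ k, ∑ i, ∑ j, F.H l k i j * F.H l k i j
      - algebraMap ℝ R (F.s - 3) * ∑ k, ∑ i, ∑ j, F.T k i j * F.T k i j
      + ∑ k, ∑ i, ∑ j, ∑ m, F.T k i j * (F.sig m k m i j + F.drho m m k i j) = 0 := by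
  have h : ∑ l, ∑ k, ∑ i, ∑ j, (F.H l k i j * F.H l k i j + F.T k i j * F.X l l k i j) = 0 :=
    sum_eq_zero (fun l _ => F.dM l l)
  have ex : ∀ l k i j, F.X l l k i j
      = F.X k l l i j + (F.sig l k l i j + F.drho l l k i j) := by
    intro l k i j
    rw [← F.ricciT l k l i j, ← F.d_ricciA l l k i j]
    ring
  have e1 : ∑ l, ∑ k, ∑ i, ∑ j, F.T k i j * F.X l l k i j
      = ∑ k, ∑ i, ∑ j, F.T k i j * (∑ l, F.X k l l i j)
        + ∑ k, ∑ i, ∑ j, ∑ m, F.T k i j * (F.sig m k m i j + F.drho m m k i j) := by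
    rw [sum_comm, ← sum_add_distrib]
    refine sum_congr rfl (fun k _ => ?_)
    rw [sum_comm, ← sum_add_distrib]
    refine sum_congr rfl (fun i _ => ?_)
    rw [sum_comm, ← sum_add_distrib]
    refine sum_congr rfl (fun j _ => ?_)
    rw [mul_sum, ← sum_add_distrib]
    refine sum_congr rfl (fun m _ => ?_)
    rw [ex]; ring
  have e2 : ∑ k, ∑ i, ∑ j, F.T k i j * (∑ l, F.X k l l i j)
      = algebraMap ℝ R (3 - F.s) * ∑ k, ∑ i, ∑ j, F.T k i j * F.T k i j := by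
    simp only [F.d_simons, mul_sum]
    refine sum_congr rfl (fun k _ => sum_congr rfl (fun i _ => sum_congr rfl (fun j _ => ?_)))
    ring
  have e3 : algebraMap ℝ R (F.s - 3) = - algebraMap ℝ R (3 - F.s) := by
    rw [← map_neg]; congr 1; ring
  simp only [sum_add_distrib] at h
  rw [e1, e2] at h
  rw [e3]
  linear_combination h

theorem K2 : ∑ m, ∑ l, F.A m l * ∑ k, ∑ i, ∑ j, F.H m k i j * F.H l k i j
      - 3 * ∑ k, ∑ i, ∑ j, ∑ m, ∑ l, F.T k i j * F.T k m l * F.H i j m l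
      + ∑ m, ∑ l, F.A m l * ∑ k, ∑ i, ∑ j, F.T k i j *
          (F.drho k m i l j + F.sig m k i l j + F.drho m l k i j) = 0 := by
  have ex : ∀ m l k i j, F.X m l k i j
      = F.X k i j m l + (F.drho k m i l j + F.sig m k i l j + F.drho m l k i j) := by
    intro m l k i j
    rw [← F.d_ricciA k m i l j, ← F.ricciT m k i l j, ← F.d_ricciA m l k i j,
      F.X_swap34 m k l i j, F.X_swap34 k i m l j, F.X_swap45 k i l m j, F.X_swap34 k i l j m,
      F.X_swap45 k i j l m]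
    ring
  have h : ∑ m, ∑ l, F.A m l *
      ∑ k, ∑ i, ∑ j, (F.H m k i j * F.H l k i j + F.T k i j * F.X m l k i j) = 0 :=
    sum_eq_zero (fun m _ => sum_eq_zero (fun l _ => by rw [F.dM m l, mul_zero]))
  -- the third order term
  have h3 : ∑ m, ∑ l, F.A m l * ∑ k, ∑ i, ∑ j, F.T k i j * F.X k i j m l
      = ∑ k, ∑ i, ∑ j, F.T k i j * ∑ m, ∑ l, F.A m l * F.X k i j m l := by
    simp only [mul_sum]
    have : ∀ (f : Fin 3 → Fin 3 → Fin 3 → Fin 3 → Fin 3 → R),
        ∑ m, ∑ l, ∑ k, ∑ i, ∑ j, f m l k i j = ∑ k, ∑ i, ∑ j, ∑ m, ∑ l, f m l k i j := by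
      intro f
      simp only [Fin.sum_univ_three]
      ring
    rw [this]
    refine sum_congr rfl (fun k _ => sum_congr rfl (fun i _ => sum_congr rfl (fun j _ =>
      sum_congr rfl (fun m _ => sum_congr rfl (fun l _ => ?_)))))
    ring
  have hX : ∀ k i j, ∑ m, ∑ l, F.A m l * F.X k i j m l
      = - ∑ m, ∑ l, (F.T k m l * F.H i j m l + F.H k i m l * F.T j m l
          + F.T i m l * F.H k j m l) := by
    intro k i j
    have := F.AX k i j
    rw [eq_neg_iff_add_eq_zero, ← this]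
    simp only [← sum_add_distrib]
    refine sum_congr rfl (fun m _ => sum_congr rfl (fun l _ => ?_))
    ring
  have s1 : ∑ k, ∑ i, ∑ j, ∑ m, ∑ l, F.T k i j * (F.H k i m l * F.T j m l)
      = ∑ k, ∑ i, ∑ j, ∑ m, ∑ l, F.T k i j * F.T k m l * F.H i j m l := by
    have : ∀ (f : Fin 3 → Fin 3 → Fin 3 → R),
        ∑ k, ∑ i, ∑ j, f k i j = ∑ k, ∑ i, ∑ j, f i j k := by
      intro f
      simp only [Fin.sum_univ_three]
      ring
    rw [this]
    refine sum_congr rfl (fun k _ => sum_congr rfl (fun i _ => sum_congr rfl (fun j _ =>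
      sum_congr rfl (fun m _ => sum_congr rfl (fun l _ => ?_)))))
    rw [F.T_swap23 i j k, F.T_swap12 i k j]
    ring
  have s2 : ∑ k, ∑ i, ∑ j, ∑ m, ∑ l, F.T k i j * (F.T i m l * F.H k j m l)
      = ∑ k, ∑ i, ∑ j, ∑ m, ∑ l, F.T k i j * F.T k m l * F.H i j m l := by
    rw [sum_comm]
    refine sum_congr rfl (fun k _ => sum_congr rfl (fun i _ => sum_congr rfl (fun j _ =>
      sum_congr rfl (fun m _ => sum_congr rfl (fun l _ => ?_)))))
    rw [F.T_swap12 i k j]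
    ring
  have h4 : ∑ k, ∑ i, ∑ j, F.T k i j * ∑ m, ∑ l, F.A m l * F.X k i j m l
      = - (3 * ∑ k, ∑ i, ∑ j, ∑ m, ∑ l, F.T k i j * F.T k m l * F.H i j m l) := by
    have : ∑ k, ∑ i, ∑ j, F.T k i j * ∑ m, ∑ l, F.A m l * F.X k i j m l
        = - (∑ k, ∑ i, ∑ j, ∑ m, ∑ l, F.T k i j * F.T k m l * F.H i j m l
          + ∑ k, ∑ i, ∑ j, ∑ m, ∑ l, F.T k i j * (F.H k i m l * F.T j m l)
          + ∑ k, ∑ i, ∑ j, ∑ m, ∑ l, F.T k i j * (F.T i m l * F.H k j m l)) := by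
      simp only [← sum_add_distrib, ← sum_neg_distrib]
      refine sum_congr rfl (fun k _ => sum_congr rfl (fun i _ => sum_congr rfl (fun j _ => ?_)))
      rw [hX, mul_neg, mul_sum, ← sum_neg_distrib]
      refine sum_congr rfl (fun m _ => ?_)
      rw [mul_sum, ← sum_neg_distrib]
      refine sum_congr rfl (fun l _ => ?_)
      ring
    rw [this, s1, s2]
    ring
  have e : ∑ m, ∑ l, F.A m l *
      ∑ k, ∑ i, ∑ j, (F.H m k i j * F.H l k i j + F.T k i j * F.X m l k i j)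
      = ∑ m, ∑ l, F.A m l * ∑ k, ∑ i, ∑ j, F.H m k i j * F.H l k i j
        + ∑ m, ∑ l, F.A m l * ∑ k, ∑ i, ∑ j, F.T k i j * F.X k i j m l
        + ∑ m, ∑ l, F.A m l * ∑ k, ∑ i, ∑ j, F.T k i j *
          (F.drho k m i l j + F.sig m k i l j + F.drho m l k i j) := by
    simp only [← sum_add_distrib]
    refine sum_congr rfl (fun m _ => sum_congr rfl (fun l _ => ?_))
    rw [← mul_add, ← mul_add]
    congr 1
    simp only [← sum_add_distrib]
    refine sum_congr rfl (fun k _ => sum_congr rfl (fun i _ => sum_congr rfl (fun j _ => ?_)))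
    rw [ex m l k i j]
    ring
  rw [h, h3, h4] at e
  linear_combination -e

end Frame
end Bry
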