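import Pool.Agent.Lib.MP_2b07f9_gt.Tensor

set_option autoImplicit false
set_option linter.unusedSimpArgs false
open Finset
namespace Bry
namespace Frame

variable {R : Type*} [CommRing R] [Algebra ℝ R] (F : Frame R)

theorem ricciAp (hd : ∀ i j, i ≠ j → F.A i j = 0) (l k i j : Fin 3) :
    F.H l k i j - F.H k l i j = (F.A j j - F.A i i) * (1 + F.A l l * F.A k k) *
      (dl l i * dl k j - dl l j * dl k i) := by
  rw [F.ricciA]
  have a01 := hd 0 1 (by decide)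
  have a02 := hd 0 2 (by decide)
  have a10 := hd 1 0 (by decide)
  have a12 := hd 1 2 (by decide)
  have a20 := hd 2 0 (by decide)
  have a21 := hd 2 1 (by decide)
  simp only [rho, Rm, Fin.sum_univ_three]
  fin_cases l <;> fin_cases k <;> fin_cases i <;> fin_cases j <;>
  simp only [Fin.zero_eta, Fin.mk_one, Fin.reduceFinMk, dl00, dl11, dl22, dl01, dl02, dl10, dl12,
    dl20, dl21, a01, a02, a10, a12, a20, a21] <;> ring

theorem trT' (j : Fin 3) : F.T 0 0 j + F.T 1 1 j + F.T 2 2 j = 0 := by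
  have h := F.trT j
  rw [Fin.sum_univ_three] at h
  rw [F.T_swap23 0 0 j, F.T_swap12 0 j 0, F.T_swap23 1 1 j, F.T_swap12 1 j 1,
    F.T_swap23 2 2 j, F.T_swap12 2 j 2]
  exact h

theorem AT' (hd : ∀ i j, i ≠ j → F.A i j = 0) (j : Fin 3) :
    F.A 0 0 * F.T 0 0 j + F.A 1 1 * F.T 1 1 j + F.A 2 2 * F.T 2 2 j = 0 := by
  have h := F.AT j
  simp only [Fin.sum_univ_three, hd 0 1 (by decide), hd 0 2 (by decide), hd 1 0 (by decide),
    hd 1 2 (by decide), hd 2 0 (by decide), hd 2 1 (by decide)] at h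
  rw [F.T_swap23 0 0 j, F.T_swap12 0 j 0, F.T_swap23 1 1 j, F.T_swap12 1 j 1,
    F.T_swap23 2 2 j, F.T_swap12 2 j 2]
  linear_combination h

set_option maxHeartbeats 4000000 in
theorem K1_point (hd : ∀ i j, i ≠ j → F.A i j = 0) (k i j : Fin 3) :
    ∑ m, (F.sig m k m i j + F.drho m m k i j)
      = (6 - (F.A k k * F.A k k + F.A i i * F.A i i + F.A j j * F.A j j)
          + 2 * (F.A i i * F.A j j + F.A j j * F.A k k + F.A k k * F.A i i)) * F.T k i j := by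
  have a01 := hd 0 1 (by decide)
  have a02 := hd 0 2 (by decide)
  have a10 := hd 1 0 (by decide)
  have a12 := hd 1 2 (by decide)
  have a20 := hd 2 0 (by decide)
  have a21 := hd 2 1 (by decide)
  have ht := F.tr
  rw [Fin.sum_univ_three] at ht
  have c : (F.A 0 0 + F.A 1 1 + F.A 2 2) * F.A k k * F.T k i j
      - 2 * (dl k i * ((F.T 0 0 j + F.T 1 1 j + F.T 2 2 j)
        + F.A k k * (F.A 0 0 * F.T 0 0 j + F.A 1 1 * F.T 1 1 j + F.A 2 2 * F.T 2 2 j)))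
      - 2 * (dl k j * ((F.T 0 0 i + F.T 1 1 i + F.T 2 2 i)
        + F.A k k * (F.A 0 0 * F.T 0 0 i + F.A 1 1 * F.T 1 1 i + F.A 2 2 * F.T 2 2 i)))
      + (F.T 0 0 i + F.T 1 1 i + F.T 2 2 i) * F.A k k * F.A k k * dl k j
      - (F.T 0 0 j + F.T 1 1 j + F.T 2 2 j) * F.A j j * F.A k k * dl k i
      + (F.T 0 0 j + F.T 1 1 j + F.T 2 2 j) * F.A k k * F.A k k * dl k i
      - (F.T 0 0 i + F.T 1 1 i + F.T 2 2 i) * F.A i i * F.A k k * dl k j = 0 := by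
    rw [ht, F.trT', F.trT', F.AT' hd, F.AT' hd]; ring
  revert c
  have t010 : F.T 0 1 0 = F.T 0 0 1 := F.T_swap23 0 1 0
  have t100 : F.T 1 0 0 = F.T 0 0 1 := by rw [F.T_swap12 1 0 0, F.T_swap23 0 1 0]
  have t020 : F.T 0 2 0 = F.T 0 0 2 := F.T_swap23 0 2 0
  have t200 : F.T 2 0 0 = F.T 0 0 2 := by rw [F.T_swap12 2 0 0, F.T_swap23 0 2 0]
  have t101 : F.T 1 0 1 = F.T 0 1 1 := F.T_swap12 1 0 1
  have t110 : F.T 1 1 0 = F.T 0 1 1 := by rw [F.T_swap23 1 1 0, F.T_swap12 1 0 1]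
  have t202 : F.T 2 0 2 = F.T 0 2 2 := F.T_swap12 2 0 2
  have t220 : F.T 2 2 0 = F.T 0 2 2 := by rw [F.T_swap23 2 2 0, F.T_swap12 2 0 2]
  have t121 : F.T 1 2 1 = F.T 1 1 2 := F.T_swap23 1 2 1
  have t211 : F.T 2 1 1 = F.T 1 1 2 := by rw [F.T_swap12 2 1 1, F.T_swap23 1 2 1]
  have t212 : F.T 2 1 2 = F.T 1 2 2 := F.T_swap12 2 1 2
  have t221 : F.T 2 2 1 = F.T 1 2 2 := by rw [F.T_swap23 2 2 1, F.T_swap12 2 1 2]
  have t021 : F.T 0 2 1 = F.T 0 1 2 := F.T_swap23 0 2 1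
  have t102 : F.T 1 0 2 = F.T 0 1 2 := F.T_swap12 1 0 2
  have t120 : F.T 1 2 0 = F.T 0 1 2 := by rw [F.T_swap23 1 2 0, F.T_swap12 1 0 2]
  have t201 : F.T 2 0 1 = F.T 0 1 2 := by rw [F.T_swap12 2 0 1, F.T_swap23 0 2 1]
  have t210 : F.T 2 1 0 = F.T 0 1 2 := by rw [F.T_swap23 2 1 0, t201]
  simp only [sig, drho, Rm, dRm, Fin.sum_univ_three]
  fin_cases k <;> fin_cases i <;> fin_cases j <;>
  simp only [Fin.zero_eta, Fin.mk_one, Fin.reduceFinMk, dl00, dl11, dl22, dl01, dl02, dl10, dl12,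
    dl20, dl21, a01, a02, a10, a12, a20, a21, t010, t100, t020, t200, t101, t110, t202, t220, t121,
    t211, t212, t221, t021, t102, t120, t201, t210] <;> intro c <;> linear_combination c

theorem K1p (hd : ∀ i j, i ≠ j → F.A i j = 0) :
    ∑ l, ∑ k, ∑ i, ∑ j, F.H l k i j * F.H l k i j
      = algebraMap ℝ R (F.s - 9) * ∑ k, ∑ i, ∑ j, F.T k i j * F.T k i j
        + 3 * ∑ k, ∑ i, ∑ j, F.A k k * F.A k k * (F.T k i j * F.T k i j)
        - 6 * ∑ k, ∑ i, ∑ j, F.A k k * F.A i i * (F.T k i j * F.T k i j) := by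
  have h := F.K1
  have e : ∑ k, ∑ i, ∑ j, ∑ m, F.T k i j * (F.sig m k m i j + F.drho m m k i j)
      = ∑ k, ∑ i, ∑ j, F.T k i j * ((6 - (F.A k k * F.A k k + F.A i i * F.A i i + F.A j j * F.A j j)
          + 2 * (F.A i i * F.A j j + F.A j j * F.A k k + F.A k k * F.A i i)) * F.T k i j) := by
    refine sum_congr rfl (fun k _ => sum_congr rfl (fun i _ => sum_congr rfl (fun j _ => ?_)))
    rw [← mul_sum, F.K1_point hd]
  rw [e] at h
  have e2 : algebraMap ℝ R (F.s - 9) = algebraMap ℝ R (F.s - 3) - 6 := by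
    have : (6 : R) = algebraMap ℝ R 6 := (map_ofNat (algebraMap ℝ R) 6).symm
    rw [this, ← map_sub]; congr 1; ring
  rw [e2]
  have e3 : ∑ k, ∑ i, ∑ j, F.T k i j * ((6 - (F.A k k * F.A k k + F.A i i * F.A i i + F.A j j * F.A j j)
          + 2 * (F.A i i * F.A j j + F.A j j * F.A k k + F.A k k * F.A i i)) * F.T k i j)
      = 6 * ∑ k, ∑ i, ∑ j, F.T k i j * F.T k i j
        - 3 * ∑ k, ∑ i, ∑ j, F.A k k * F.A k k * (F.T k i j * F.T k i j)
        + 6 * ∑ k, ∑ i, ∑ j, F.A k k * F.A i i * (F.T k i j * F.T k i j) := by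
    have t010 : F.T 0 1 0 = F.T 0 0 1 := F.T_swap23 0 1 0
    have t100 : F.T 1 0 0 = F.T 0 0 1 := by rw [F.T_swap12 1 0 0, F.T_swap23 0 1 0]
    have t020 : F.T 0 2 0 = F.T 0 0 2 := F.T_swap23 0 2 0
    have t200 : F.T 2 0 0 = F.T 0 0 2 := by rw [F.T_swap12 2 0 0, F.T_swap23 0 2 0]
    have t101 : F.T 1 0 1 = F.T 0 1 1 := F.T_swap12 1 0 1
    have t110 : F.T 1 1 0 = F.T 0 1 1 := by rw [F.T_swap23 1 1 0, F.T_swap12 1 0 1]
    have t202 : F.T 2 0 2 = F.T 0 2 2 := F.T_swap12 2 0 2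
    have t220 : F.T 2 2 0 = F.T 0 2 2 := by rw [F.T_swap23 2 2 0, F.T_swap12 2 0 2]
    have t121 : F.T 1 2 1 = F.T 1 1 2 := F.T_swap23 1 2 1
    have t211 : F.T 2 1 1 = F.T 1 1 2 := by rw [F.T_swap12 2 1 1, F.T_swap23 1 2 1]
    have t212 : F.T 2 1 2 = F.T 1 2 2 := F.T_swap12 2 1 2
    have t221 : F.T 2 2 1 = F.T 1 2 2 := by rw [F.T_swap23 2 2 1, F.T_swap12 2 1 2]
    have t021 : F.T 0 2 1 = F.T 0 1 2 := F.T_swap23 0 2 1
    have t102 : F.T 1 0 2 = F.T 0 1 2 := F.T_swap12 1 0 2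
    have t120 : F.T 1 2 0 = F.T 0 1 2 := by rw [F.T_swap23 1 2 0, F.T_swap12 1 0 2]
    have t201 : F.T 2 0 1 = F.T 0 1 2 := by rw [F.T_swap12 2 0 1, F.T_swap23 0 2 1]
    have t210 : F.T 2 1 0 = F.T 0 1 2 := by rw [F.T_swap23 2 1 0, t201]
    simp only [Fin.sum_univ_three, t010, t100, t020, t200, t101, t110, t202, t220, t121,
      t211, t212, t221, t021, t102, t120, t201, t210]
    ring
  rw [e3] at h
  linear_combination h

set_option maxHeartbeats 4000000 in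
theorem K2_point (hd : ∀ i j, i ≠ j → F.A i j = 0) (k i j : Fin 3) :
    ∑ m, F.A m m * (F.drho k m i m j + F.sig m k i m j + F.drho m m k i j)
      = ((F.A 0 0 * F.A 0 0 + F.A 1 1 * F.A 1 1 + F.A 2 2 * F.A 2 2)
            * (F.A i i + F.A j j + F.A k k)
          - (F.A 0 0 * F.A 0 0 * F.A 0 0 + F.A 1 1 * F.A 1 1 * F.A 1 1
              + F.A 2 2 * F.A 2 2 * F.A 2 2)
          + (F.A i i + 3 * F.A j j - F.A k k)
          + 2 * F.A i i * F.A j j * F.A j j + 2 * F.A i i * F.A i i * F.A k k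
          + 2 * F.A j j * F.A j j * F.A k k
          - F.A i i * F.A i i * F.A i i - F.A j j * F.A j j * F.A j j
          - F.A k k * F.A k k * F.A k k) * F.T k i j
        - 2 * (dl i j * F.A i i) * (F.A 0 0 * F.A 0 0 * F.T 0 0 k + F.A 1 1 * F.A 1 1 * F.T 1 1 k
            + F.A 2 2 * F.A 2 2 * F.T 2 2 k)
        - 2 * (dl k i * F.A k k) * (F.A 0 0 * F.A 0 0 * F.T 0 0 j + F.A 1 1 * F.A 1 1 * F.T 1 1 j
            + F.A 2 2 * F.A 2 2 * F.T 2 2 j)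
        - 2 * (dl k j * F.A k k) * (F.A 0 0 * F.A 0 0 * F.T 0 0 i + F.A 1 1 * F.A 1 1 * F.T 1 1 i
            + F.A 2 2 * F.A 2 2 * F.T 2 2 i) := by
  have a01 := hd 0 1 (by decide)
  have a02 := hd 0 2 (by decide)
  have a10 := hd 1 0 (by decide)
  have a12 := hd 1 2 (by decide)
  have a20 := hd 2 0 (by decide)
  have a21 := hd 2 1 (by decide)
  have ht := F.tr
  rw [Fin.sum_univ_three] at ht
  -- trace terms, see the comment
  have c : (F.A 0 0 + F.A 1 1 + F.A 2 2) * (2 * F.T k i j)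
      + (dl i j * F.A i i * F.A j j - dl i j) *
          (F.A 0 0 * F.T 0 0 k + F.A 1 1 * F.T 1 1 k + F.A 2 2 * F.T 2 2 k)
      - 2 * dl k i * (F.A 0 0 * F.T 0 0 j + F.A 1 1 * F.T 1 1 j + F.A 2 2 * F.T 2 2 j)
      - 2 * dl k j * (F.A 0 0 * F.T 0 0 i + F.A 1 1 * F.T 1 1 i + F.A 2 2 * F.T 2 2 i)
      + dl k j * F.A k k * F.A k k *
          (F.A 0 0 * F.T 0 0 i + F.A 1 1 * F.T 1 1 i + F.A 2 2 * F.T 2 2 i)
      - dl k i * F.A k k * F.A j j *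
          (F.A 0 0 * F.T 0 0 j + F.A 1 1 * F.T 1 1 j + F.A 2 2 * F.T 2 2 j)
      + dl k i * F.A k k * F.A k k *
          (F.A 0 0 * F.T 0 0 j + F.A 1 1 * F.T 1 1 j + F.A 2 2 * F.T 2 2 j)
      - dl k j * F.A k k * F.A i i *
          (F.A 0 0 * F.T 0 0 i + F.A 1 1 * F.T 1 1 i + F.A 2 2 * F.T 2 2 i) = 0 := by
    rw [ht, F.AT' hd, F.AT' hd, F.AT' hd]; ring
  revert c
  have t010 : F.T 0 1 0 = F.T 0 0 1 := F.T_swap23 0 1 0
  have t100 : F.T 1 0 0 = F.T 0 0 1 := by rw [F.T_swap12 1 0 0, F.T_swap23 0 1 0]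
  have t020 : F.T 0 2 0 = F.T 0 0 2 := F.T_swap23 0 2 0
  have t200 : F.T 2 0 0 = F.T 0 0 2 := by rw [F.T_swap12 2 0 0, F.T_swap23 0 2 0]
  have t101 : F.T 1 0 1 = F.T 0 1 1 := F.T_swap12 1 0 1
  have t110 : F.T 1 1 0 = F.T 0 1 1 := by rw [F.T_swap23 1 1 0, F.T_swap12 1 0 1]
  have t202 : F.T 2 0 2 = F.T 0 2 2 := F.T_swap12 2 0 2
  have t220 : F.T 2 2 0 = F.T 0 2 2 := by rw [F.T_swap23 2 2 0, F.T_swap12 2 0 2]
  have t121 : F.T 1 2 1 = F.T 1 1 2 := F.T_swap23 1 2 1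
  have t211 : F.T 2 1 1 = F.T 1 1 2 := by rw [F.T_swap12 2 1 1, F.T_swap23 1 2 1]
  have t212 : F.T 2 1 2 = F.T 1 2 2 := F.T_swap12 2 1 2
  have t221 : F.T 2 2 1 = F.T 1 2 2 := by rw [F.T_swap23 2 2 1, F.T_swap12 2 1 2]
  have t021 : F.T 0 2 1 = F.T 0 1 2 := F.T_swap23 0 2 1
  have t102 : F.T 1 0 2 = F.T 0 1 2 := F.T_swap12 1 0 2
  have t120 : F.T 1 2 0 = F.T 0 1 2 := by rw [F.T_swap23 1 2 0, F.T_swap12 1 0 2]
  have t201 : F.T 2 0 1 = F.T 0 1 2 := by rw [F.T_swap12 2 0 1, F.T_swap23 0 2 1]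
  have t210 : F.T 2 1 0 = F.T 0 1 2 := by rw [F.T_swap23 2 1 0, t201]
  simp only [sig, drho, Rm, dRm, Fin.sum_univ_three]
  fin_cases k <;> fin_cases i <;> fin_cases j <;>
  simp only [Fin.zero_eta, Fin.mk_one, Fin.reduceFinMk, dl00, dl11, dl22, dl01, dl02, dl10, dl12,
    dl20, dl21, a01, a02, a10, a12, a20, a21, t010, t100, t020, t200, t101, t110, t202, t220, t121,
    t211, t212, t221, t021, t102, t120, t201, t210] <;> intro c <;> linear_combination c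

theorem diag_sum (hd : ∀ i j, i ≠ j → F.A i j = 0) (f : Fin 3 → Fin 3 → R) :
    ∑ m, ∑ l, F.A m l * f m l = ∑ m, F.A m m * f m m := by
  refine sum_congr rfl (fun m _ => ?_)
  rw [sum_eq_single m]
  · intro l _ hl
    rw [hd m l (Ne.symm hl), zero_mul]
  · intro h; exact absurd (mem_univ m) h

set_option maxHeartbeats 4000000 in
theorem K2_sum (hd : ∀ i j, i ≠ j → F.A i j = 0) :
    ∑ k, ∑ i, ∑ j, F.T k i j * (((F.A 0 0 * F.A 0 0 + F.A 1 1 * F.A 1 1 + F.A 2 2 * F.A 2 2)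
            * (F.A i i + F.A j j + F.A k k)
          - (F.A 0 0 * F.A 0 0 * F.A 0 0 + F.A 1 1 * F.A 1 1 * F.A 1 1
              + F.A 2 2 * F.A 2 2 * F.A 2 2)
          + (F.A i i + 3 * F.A j j - F.A k k)
          + 2 * F.A i i * F.A j j * F.A j j + 2 * F.A i i * F.A i i * F.A k k
          + 2 * F.A j j * F.A j j * F.A k k
          - F.A i i * F.A i i * F.A i i - F.A j j * F.A j j * F.A j j
          - F.A k k * F.A k k * F.A k k) * F.T k i j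
        - 2 * (dl i j * F.A i i) * (F.A 0 0 * F.A 0 0 * F.T 0 0 k + F.A 1 1 * F.A 1 1 * F.T 1 1 k
            + F.A 2 2 * F.A 2 2 * F.T 2 2 k)
        - 2 * (dl k i * F.A k k) * (F.A 0 0 * F.A 0 0 * F.T 0 0 j + F.A 1 1 * F.A 1 1 * F.T 1 1 j
            + F.A 2 2 * F.A 2 2 * F.T 2 2 j)
        - 2 * (dl k j * F.A k k) * (F.A 0 0 * F.A 0 0 * F.T 0 0 i + F.A 1 1 * F.A 1 1 * F.T 1 1 i
            + F.A 2 2 * F.A 2 2 * F.T 2 2 i))
      = algebraMap ℝ R (3 * (1 + F.s)) * ∑ k, ∑ i, ∑ j, F.A k k * (F.T k i j * F.T k i j)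
      + 6 * ∑ k, ∑ i, ∑ j, F.A k k * F.A k k * F.A i i * (F.T k i j * F.T k i j)
      - 3 * ∑ k, ∑ i, ∑ j, F.A k k * F.A k k * F.A k k * (F.T k i j * F.T k i j)
      - (∑ i, F.A i i * F.A i i * F.A i i) * ∑ k, ∑ i, ∑ j, F.T k i j * F.T k i j := by
  have a01 := hd 0 1 (by decide)
  have a02 := hd 0 2 (by decide)
  have a10 := hd 1 0 (by decide)
  have a12 := hd 1 2 (by decide)
  have a20 := hd 2 0 (by decide)
  have a21 := hd 2 1 (by decide)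
  have hn : algebraMap ℝ R F.s = F.A 0 0 * F.A 0 0 + F.A 1 1 * F.A 1 1 + F.A 2 2 * F.A 2 2 := by
    rw [← F.nrm]
    simp only [Fin.sum_univ_three, a01, a02, a10, a12, a20, a21]
    ring
  have e1 : algebraMap ℝ R (3 * (1 + F.s)) = 3 * (1 + (F.A 0 0 * F.A 0 0 + F.A 1 1 * F.A 1 1
      + F.A 2 2 * F.A 2 2)) := by
    rw [map_mul, map_add, map_one, hn, map_ofNat]
  rw [e1]
  have c0 := F.AT' hd 0
  have c1 := F.AT' hd 1
  have c2 := F.AT' hd 2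
  have t010 : F.T 0 1 0 = F.T 0 0 1 := F.T_swap23 0 1 0
  have t100 : F.T 1 0 0 = F.T 0 0 1 := by rw [F.T_swap12 1 0 0, F.T_swap23 0 1 0]
  have t020 : F.T 0 2 0 = F.T 0 0 2 := F.T_swap23 0 2 0
  have t200 : F.T 2 0 0 = F.T 0 0 2 := by rw [F.T_swap12 2 0 0, F.T_swap23 0 2 0]
  have t101 : F.T 1 0 1 = F.T 0 1 1 := F.T_swap12 1 0 1
  have t110 : F.T 1 1 0 = F.T 0 1 1 := by rw [F.T_swap23 1 1 0, F.T_swap12 1 0 1]
  have t202 : F.T 2 0 2 = F.T 0 2 2 := F.T_swap12 2 0 2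
  have t220 : F.T 2 2 0 = F.T 0 2 2 := by rw [F.T_swap23 2 2 0, F.T_swap12 2 0 2]
  have t121 : F.T 1 2 1 = F.T 1 1 2 := F.T_swap23 1 2 1
  have t211 : F.T 2 1 1 = F.T 1 1 2 := by rw [F.T_swap12 2 1 1, F.T_swap23 1 2 1]
  have t212 : F.T 2 1 2 = F.T 1 2 2 := F.T_swap12 2 1 2
  have t221 : F.T 2 2 1 = F.T 1 2 2 := by rw [F.T_swap23 2 2 1, F.T_swap12 2 1 2]
  have t021 : F.T 0 2 1 = F.T 0 1 2 := F.T_swap23 0 2 1
  have t102 : F.T 1 0 2 = F.T 0 1 2 := F.T_swap12 1 0 2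
  have t120 : F.T 1 2 0 = F.T 0 1 2 := by rw [F.T_swap23 1 2 0, F.T_swap12 1 0 2]
  have t201 : F.T 2 0 1 = F.T 0 1 2 := by rw [F.T_swap12 2 0 1, F.T_swap23 0 2 1]
  have t210 : F.T 2 1 0 = F.T 0 1 2 := by rw [F.T_swap23 2 1 0, t201]
  simp only [t010, t100, t020, t200, t101, t110, t202, t220, t121,
    t211, t212, t221, t021, t102, t120, t201, t210] at c0 c1 c2
  simp only [Fin.sum_univ_three, dl00, dl11, dl22, dl01, dl02, dl10, dl12, dl20, dl21,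
    t010, t100, t020, t200, t101, t110, t202, t220, t121,
    t211, t212, t221, t021, t102, t120, t201, t210]
  linear_combination -6 * (F.A 0 0 * F.A 0 0 * F.T 0 0 0 + F.A 1 1 * F.A 1 1 * F.T 0 1 1
      + F.A 2 2 * F.A 2 2 * F.T 0 2 2) * c0
    - 6 * (F.A 0 0 * F.A 0 0 * F.T 0 0 1 + F.A 1 1 * F.A 1 1 * F.T 1 1 1
      + F.A 2 2 * F.A 2 2 * F.T 1 2 2) * c1
    - 6 * (F.A 0 0 * F.A 0 0 * F.T 0 0 2 + F.A 1 1 * F.A 1 1 * F.T 1 1 2
      + F.A 2 2 * F.A 2 2 * F.T 2 2 2) * c2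

theorem K2p (hd : ∀ i j, i ≠ j → F.A i j = 0) :
    ∑ l, F.A l l * ∑ k, ∑ i, ∑ j, F.H l k i j * F.H l k i j
      - 3 * ∑ k, ∑ i, ∑ j, ∑ m, ∑ l, F.T k i j * F.T k m l * F.H i j m l
      + algebraMap ℝ R (3 * (1 + F.s)) * ∑ k, ∑ i, ∑ j, F.A k k * (F.T k i j * F.T k i j)
      + 6 * ∑ k, ∑ i, ∑ j, F.A k k * F.A k k * F.A i i * (F.T k i j * F.T k i j)
      - 3 * ∑ k, ∑ i, ∑ j, F.A k k * F.A k k * F.A k k * (F.T k i j * F.T k i j)
      - (∑ i, F.A i i * F.A i i * F.A i i) * ∑ k, ∑ i, ∑ j, F.T k i j * F.T k i j = 0 := by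
  have h := F.K2
  rw [F.diag_sum hd (fun m l => ∑ k, ∑ i, ∑ j, F.H m k i j * F.H l k i j),
    F.diag_sum hd (fun m l => ∑ k, ∑ i, ∑ j, F.T k i j *
          (F.drho k m i l j + F.sig m k i l j + F.drho m l k i j))] at h
  have e : ∑ m, F.A m m * ∑ k, ∑ i, ∑ j, F.T k i j *
          (F.drho k m i m j + F.sig m k i m j + F.drho m m k i j)
      = ∑ k, ∑ i, ∑ j, F.T k i j * ∑ m, F.A m m *
          (F.drho k m i m j + F.sig m k i m j + F.drho m m k i j) := by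
    simp only [mul_sum]
    rw [sum_comm]
    refine sum_congr rfl (fun k _ => ?_)
    rw [sum_comm]
    refine sum_congr rfl (fun i _ => ?_)
    rw [sum_comm]
    refine sum_congr rfl (fun j _ => sum_congr rfl (fun m _ => ?_))
    ring
  rw [e] at h
  have e2 := F.K2_sum hd
  simp only [F.K2_point hd] at h
  rw [e2] at h
  linear_combination h

/-! ### Fields of `Pt` as identities in the ring (principal frame) -/

theorem nrm_p (hd : ∀ i j, i ≠ j → F.A i j = 0) :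
    ∑ i, F.A i i * F.A i i = algebraMap ℝ R F.s := by
  rw [← F.nrm, F.diag_sum hd (fun i j => F.A i j)]

theorem lT_p (hd : ∀ i j, i ≠ j → F.A i j = 0) (k : Fin 3) :
    ∑ i, F.A i i * F.T k i i = 0 := by
  rw [← F.AT k, F.diag_sum hd (fun i j => F.T k i j)]

theorem lH_p (hd : ∀ i j, i ≠ j → F.A i j = 0) (l k : Fin 3) :
    ∑ i, F.A i i * F.H l k i i + ∑ i, ∑ j, F.T l i j * F.T k i j = 0 := by
  have h := F.AH l k
  simp only [sum_add_distrib] at h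
  rw [F.diag_sum hd (fun i j => F.H l k i j)] at h
  exact h

theorem trX (n l k : Fin 3) : ∑ i, F.X n l k i i = 0 := by
  have h := congrArg (F.D n) (F.trH l k)
  rw [map_sum, map_zero] at h
  have e : ∑ i, F.X n l k i i = ∑ i, F.D n (F.H l k i i)
      - ∑ i, ((∑ m, F.Γ n i m * F.H l k m i) + ∑ m, F.Γ n i m * F.H l k i m)
      - ∑ m, F.Γ n l m * ∑ i, F.H m k i i - ∑ m, F.Γ n k m * ∑ i, F.H l m i i := by
    have t1 : ∑ m, F.Γ n l m * ∑ i, F.H m k i i = ∑ i, ∑ m, F.Γ n l m * F.H m k i i := by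
      simp only [mul_sum]
      rw [sum_comm]
    have t2 : ∑ m, F.Γ n k m * ∑ i, F.H l m i i = ∑ i, ∑ m, F.Γ n k m * F.H l m i i := by
      simp only [mul_sum]
      rw [sum_comm]
    rw [t1, t2, ← sum_sub_distrib, ← sum_sub_distrib, ← sum_sub_distrib]
    refine sum_congr rfl (fun i _ => ?_)
    unfold X; ring
  rw [e, h, contr0 _ (F.anti_add n) (F.H l k)]
  simp [F.trH]

theorem AX_p (hd : ∀ i j, i ≠ j → F.A i j = 0) (m l k : Fin 3) :
    ∑ i, F.A i i * F.X m l k i i + ∑ i, ∑ j, (F.T m i j * F.H l k i j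
      + F.H m l i j * F.T k i j + F.T l i j * F.H m k i j) = 0 := by
  have h := F.AX m l k
  rw [← F.diag_sum hd (fun i j => F.X m l k i j), ← h]
  simp only [← sum_add_distrib]
  refine sum_congr rfl (fun i _ => sum_congr rfl (fun j _ => ?_))
  ring

end Frame
end Bry
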